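import Mathlib

/-! Counting lattice points on circles, spheres, and close pairs of integer quaternions. -/

open scoped Quaternion

namespace Pool.Agent.P.MP_839d28_al

theorem three_pts {n x1 y1 x2 y2 x3 y3 : ℤ} (h1 : x1 ^ 2 + y1 ^ 2 = n) (h2 : x2 ^ 2 + y2 ^ 2 = n)
    (h3 : x3 ^ 2 + y3 ^ 2 = n) :
    4 * n * ((x2 - x1) * (y3 - y1) - (x3 - x1) * (y2 - y1)) ^ 2 =
      ((x1 - x2) ^ 2 + (y1 - y2) ^ 2) * ((x2 - x3) ^ 2 + (y2 - y3) ^ 2) *
        ((x3 - x1) ^ 2 + (y3 - y1) ^ 2) := by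
  set a := x2 - x1 with ha
  set b := y2 - y1 with hb
  set c := x3 - x1 with hc
  set d := y3 - y1 with hd
  have e1 : a ^ 2 + b ^ 2 = -2 * (x1 * a + y1 * b) := by
    rw [ha, hb]; linear_combination h2 - h1
  have e2 : c ^ 2 + d ^ 2 = -2 * (x1 * c + y1 * d) := by
    rw [hc, hd]; linear_combination h3 - h1
  have e3 : (x1 - x2) ^ 2 + (y1 - y2) ^ 2 = a ^ 2 + b ^ 2 := by rw [ha, hb]; ring
  have e4 : (x2 - x3) ^ 2 + (y2 - y3) ^ 2 = (a - c) ^ 2 + (b - d) ^ 2 := by
    rw [ha, hb, hc, hd]; ring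
  rw [e3, e4, ← h1]
  clear_value a b c d
  have f1 : 2 * x1 * (a * d - c * b) = -((a ^ 2 + b ^ 2) * d - (c ^ 2 + d ^ 2) * b) := by
    rw [e1, e2]; ring
  have f2 : 2 * y1 * (a * d - c * b) = -((c ^ 2 + d ^ 2) * a - (a ^ 2 + b ^ 2) * c) := by
    rw [e1, e2]; ring
  calc _ = (2 * x1 * (a * d - c * b)) ^ 2 + (2 * y1 * (a * d - c * b)) ^ 2 := by ring
    _ = _ := by rw [f1, f2]; ring

theorem close_x {n a x1 y1 x2 y2 : ℤ} (h1 : x1 ^ 2 + y1 ^ 2 = n) (h2 : x2 ^ 2 + y2 ^ 2 = n)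
    (p1 : 0 ≤ y1) (q1 : y1 ≤ x1) (p2 : 0 ≤ y2) (q2 : y2 ≤ x2) (hy : |y1 - y2| ≤ a) :
    (x1 - x2) ^ 2 + (y1 - y2) ^ 2 ≤ 2 * a ^ 2 := by
  have hx : |x1 - x2| ≤ |y1 - y2| := by
    by_contra hlt
    push Not at hlt
    have e : |x1 - x2| * (x1 + x2) = |y1 - y2| * (y1 + y2) := by
      rw [← abs_of_nonneg (show 0 ≤ x1 + x2 by linarith),
        ← abs_of_nonneg (show 0 ≤ y1 + y2 by linarith), ← abs_mul, ← abs_mul, ← abs_neg]
      congr 1
      linear_combination h2 - h1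
    have hpos : 0 < x1 + x2 := by
      rcases (show 0 ≤ x1 + x2 by linarith).eq_or_lt with h | h
      · have : x1 - x2 = 0 := by linarith
        rw [this, abs_zero] at hlt
        linarith [abs_nonneg (y1 - y2)]
      · exact h
    nlinarith [abs_nonneg (y1 - y2)]
  have a0 : 0 ≤ |x1 - x2| := abs_nonneg _
  have a1 : 0 ≤ |y1 - y2| := abs_nonneg _
  rw [← sq_abs (x1 - x2), ← sq_abs (y1 - y2)]
  nlinarith

theorem octant_card {n : ℤ} {T : ℕ} (hT : 1 ≤ T) (hn : n ≤ (T : ℤ) ^ 6) (A : Finset (ℤ × ℤ))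
    (hA : ∀ p ∈ A, p.1 ^ 2 + p.2 ^ 2 = n ∧ 0 ≤ p.2 ∧ p.2 ≤ p.1) : A.card ≤ 4 * T ^ 2 := by
  rcases le_or_gt n 0 with h0 | h0
  · have : A ⊆ {(0, 0)} := by
      intro p hp
      have := (hA p hp).1
      have h1 : p.1 = 0 := by nlinarith [sq_nonneg p.1, sq_nonneg p.2]
      have h2 : p.2 = 0 := by nlinarith [sq_nonneg p.1, sq_nonneg p.2]
      rw [Finset.mem_singleton]
      exact Prod.ext h1 h2
    have := Finset.card_le_card this
    rw [Finset.card_singleton] at this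
    nlinarith
  have hex : ∃ a : ℕ, n ≤ 2 * ((a : ℤ) + 1) ^ 6 := by
    refine ⟨T, hn.trans ?_⟩
    have : (T : ℤ) ^ 6 ≤ (T + 1) ^ 6 := by gcongr; linarith
    have : (0 : ℤ) ≤ (T + 1) ^ 6 := by positivity
    linarith
  classical
  obtain ⟨a, ha1, ha2⟩ : ∃ a : ℕ, n ≤ 2 * ((a : ℤ) + 1) ^ 6 ∧ 2 * (a : ℤ) ^ 6 < n := by
    refine ⟨Nat.find hex, Nat.find_spec hex, ?_⟩
    rcases Nat.eq_zero_or_pos (Nat.find hex) with h | h
    · rw [h]; simpa using h0
    · have := Nat.find_min hex (m := Nat.find hex - 1) (by omega)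
      push Not at this
      rwa [Nat.cast_sub h, Nat.cast_one, sub_add_cancel] at this
  have ha3 : a + 1 ≤ T := by
    have h1 : (0 : ℤ) ≤ (a : ℤ) ^ 6 := by positivity
    have : (a : ℤ) ^ 6 < (T : ℤ) ^ 6 := by linarith
    have := lt_of_pow_lt_pow_left₀ 6 (by positivity) this
    omega
  have hpos : (0 : ℤ) < a + 1 := by positivity
  have key := Finset.card_le_mul_card_image_of_maps_to (s := A)
    (t := Finset.Icc (0 : ℤ) (((a : ℤ) + 1) ^ 2)) (f := fun p : ℤ × ℤ => p.2 / ((a : ℤ) + 1)) (by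
      intro p hp
      obtain ⟨h1, h2, h3⟩ := hA p hp
      rw [Finset.mem_Icc]
      refine ⟨Int.ediv_nonneg h2 hpos.le, Int.ediv_le_of_le_mul hpos ?_⟩
      have : p.2 ^ 2 ≤ (((a : ℤ) + 1) ^ 3) ^ 2 := by nlinarith
      have := le_of_sq_le_sq this (by positivity)
      linarith) 2 (by
      intro b _
      by_contra hlt
      push Not at hlt
      obtain ⟨p, hp, q, hq, r, hr, hpq, hpr, hqr⟩ := Finset.two_lt_card.mp hlt
      rw [Finset.mem_filter] at hp hq hr
      have cl : ∀ p q : ℤ × ℤ, p ∈ A ∧ p.2 / ((a : ℤ) + 1) = b → q ∈ A ∧ q.2 / ((a : ℤ) + 1) = b →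
          p ≠ q → 0 < (p.1 - q.1) ^ 2 + (p.2 - q.2) ^ 2 ∧
            (p.1 - q.1) ^ 2 + (p.2 - q.2) ^ 2 ≤ 2 * (a : ℤ) ^ 2 := by
        intro p q hp hq hpq
        obtain ⟨h1, h2, h3⟩ := hA p hp.1
        obtain ⟨k1, k2, k3⟩ := hA q hq.1
        constructor
        · by_contra hle
          push Not at hle
          have e1 : p.1 - q.1 = 0 := by nlinarith [sq_nonneg (p.1 - q.1), sq_nonneg (p.2 - q.2)]
          have e2 : p.2 - q.2 = 0 := by nlinarith [sq_nonneg (p.1 - q.1), sq_nonneg (p.2 - q.2)]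
          exact hpq (Prod.ext (by linarith) (by linarith))
        · refine close_x h1 k1 h2 h3 k2 k3 ?_
          have m1 := Int.mul_ediv_add_emod p.2 ((a : ℤ) + 1)
          have m2 := Int.mul_ediv_add_emod q.2 ((a : ℤ) + 1)
          have m3 := Int.emod_nonneg p.2 hpos.ne'
          have m4 := Int.emod_nonneg q.2 hpos.ne'
          have m5 := Int.emod_lt_of_pos p.2 hpos
          have m6 := Int.emod_lt_of_pos q.2 hpos
          rw [hp.2] at m1
          rw [hq.2] at m2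
          rw [abs_le]
          constructor <;> linarith
      obtain ⟨a1, b1⟩ := cl p q hp hq hpq
      obtain ⟨a2, b2⟩ := cl q r hq hr hqr
      obtain ⟨a3, b3⟩ := cl r p hr hp hpr.symm
      have t := three_pts (hA p hp.1).1 (hA q hq.1).1 (hA r hr.1).1
      set D := (q.1 - p.1) * (r.2 - p.2) - (r.1 - p.1) * (q.2 - p.2)
      have u1 := mul_pos (mul_pos a1 a2) a3
      have u2 := mul_le_mul (mul_le_mul b1 b2 a2.le (by positivity)) b3 a3.le (by positivity)
      rw [← t] at u1 u2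
      have hD : D ≠ 0 := by
        rintro h
        rw [h] at u1
        simp at u1
      have : 1 ≤ D ^ 2 := by
        have := pow_pos (abs_pos.mpr hD) 2
        rw [sq_abs] at this
        omega
      have u3 : 4 * n * 1 ≤ 4 * n * D ^ 2 := by gcongr
      linarith)
  rw [Int.card_Icc] at key
  have e : (((a : ℤ) + 1) ^ 2 + 1 - 0).toNat = (a + 1) ^ 2 + 1 := by
    have : (((a : ℤ) + 1) ^ 2 + 1 - 0) = (((a + 1) ^ 2 + 1 : ℕ) : ℤ) := by push_cast; ring
    rw [this, Int.toNat_natCast]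
  rw [e] at key
  have : (a + 1) ^ 2 ≤ T ^ 2 := by gcongr
  nlinarith

theorem circle_card {n : ℤ} {T : ℕ} (hT : 1 ≤ T) (hn : n ≤ (T : ℤ) ^ 6) (A : Finset (ℤ × ℤ))
    (hA : ∀ p ∈ A, p.1 ^ 2 + p.2 ^ 2 = n) : A.card ≤ 32 * T ^ 2 := by
  classical
  let f : ℤ × ℤ → ℤ × ℤ := fun p => (max |p.1| |p.2|, min |p.1| |p.2|)
  have h1 : (A.image f).card ≤ 4 * T ^ 2 := by
    refine octant_card hT hn _ fun q hq => ?_
    obtain ⟨p, hp, rfl⟩ := Finset.mem_image.mp hq
    refine ⟨?_, le_min (abs_nonneg _) (abs_nonneg _), min_le_max⟩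
    have := hA p hp
    rcases le_total |p.1| |p.2| with h | h
    · simp only [f, max_eq_right h, min_eq_left h, sq_abs]; linarith
    · simp only [f, max_eq_left h, min_eq_right h, sq_abs]; linarith
  have h2 := Finset.card_le_mul_card_image (f := f) A 8 (by
    intro q _
    have : A.filter (fun p => f p = q) ⊆
        ({q.1, -q.1} : Finset ℤ) ×ˢ ({q.2, -q.2} : Finset ℤ) ∪
          ({q.2, -q.2} : Finset ℤ) ×ˢ ({q.1, -q.1} : Finset ℤ) := by
      intro p hp
      obtain ⟨-, rfl⟩ := Finset.mem_filter.mp hp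
      have k : ∀ x : ℤ, x = |x| ∨ x = -|x| := fun x => by
        rcases abs_choice x with h | h <;> simp [h]
      simp only [Finset.mem_union, Finset.mem_product, Finset.mem_insert, Finset.mem_singleton]
      rcases le_total |p.1| |p.2| with h | h
      · right; simp only [f, max_eq_right h, min_eq_left h]; exact ⟨k _, k _⟩
      · left; simp only [f, max_eq_left h, min_eq_right h]; exact ⟨k _, k _⟩
    refine (Finset.card_le_card this).trans ((Finset.card_union_le _ _).trans ?_)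
    rw [Finset.card_product, Finset.card_product]
    have c1 := Finset.card_le_two (a := q.1) (b := -q.1)
    have c2 := Finset.card_le_two (a := q.2) (b := -q.2)
    nlinarith)
  linarith

theorem sphere_card {n : ℤ} {T : ℕ} (hT : 1 ≤ T) (hn : n ≤ (T : ℤ) ^ 6) (A : Finset (ℤ × ℤ × ℤ))
    (hA : ∀ p ∈ A, p.1 ^ 2 + p.2.1 ^ 2 + p.2.2 ^ 2 = n) : A.card ≤ 96 * T ^ 5 := by
  classical
  have key := Finset.card_le_mul_card_image_of_maps_to (s := A)
    (t := Finset.Icc (-(T : ℤ) ^ 3) ((T : ℤ) ^ 3)) (f := fun p : ℤ × ℤ × ℤ => p.1) (by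
      intro p hp
      have := hA p hp
      rw [Finset.mem_Icc]
      refine abs_le_of_sq_le_sq' ?_ (by positivity)
      nlinarith [sq_nonneg p.2.1, sq_nonneg p.2.2]) (32 * T ^ 2) (by
      intro b _
      rw [← Finset.card_image_of_injOn (f := fun p : ℤ × ℤ × ℤ => p.2)]
      · refine circle_card (n := n - b ^ 2) hT (by nlinarith [sq_nonneg b]) _ fun q hq => ?_
        obtain ⟨p, hp, rfl⟩ := Finset.mem_image.mp hq
        obtain ⟨hp', rfl⟩ := Finset.mem_filter.mp hp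
        linarith [hA p hp']
      · intro p hp q hq hpq
        rw [Finset.mem_coe, Finset.mem_filter] at hp hq
        exact Prod.ext (hp.2.trans hq.2.symm) hpq)
  rw [Int.card_Icc] at key
  have e : ((T : ℤ) ^ 3 + 1 - -(T : ℤ) ^ 3).toNat = 2 * T ^ 3 + 1 := by
    have : ((T : ℤ) ^ 3 + 1 - -(T : ℤ) ^ 3) = ((2 * T ^ 3 + 1 : ℕ) : ℤ) := by push_cast; ring
    rw [this, Int.toNat_natCast]
  rw [e] at key
  have : 1 ≤ T ^ 3 := Nat.one_le_pow _ _ hT
  calc _ ≤ _ := key
    _ ≤ 32 * T ^ 2 * (3 * T ^ 3) := by gcongr; omega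
    _ = _ := by ring

open Classical in
theorem pairs_card {t : ℕ} (ht : 1 ≤ t) (W : Finset ℍ[ℤ])
    (hW : ∀ α ∈ W, Quaternion.normSq α = (t : ℤ) ^ 34) :
    ((W ×ˢ W).filter fun p => Quaternion.normSq (p.1 - p.2) ≤ (t : ℤ) ^ 2).card ≤
      W.card + 7776 * t ^ 34 := by
  set P := (W ×ˢ W).filter fun p => Quaternion.normSq (p.1 - p.2) ≤ (t : ℤ) ^ 2 with hP
  rw [← Finset.card_filter_add_card_filter_not (s := P) (fun p => p.1 = p.2)]
  refine add_le_add ?_ ?_
  · refine Finset.card_le_card_of_injOn (fun p => p.1) ?_ ?_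
    · intro p hp
      simp only [hP, Finset.coe_filter, Finset.mem_filter, Finset.mem_product] at hp
      exact hp.1.1.1
    · intro p hp q hq hpq
      simp only [Finset.coe_filter] at hp hq
      exact Prod.ext hpq (hp.2.symm.trans (hpq.trans hq.2))
  set I := Finset.Icc (-(t : ℤ)) t with hI
  have key := Finset.card_le_mul_card_image_of_maps_to (s := P.filter fun p => ¬p.1 = p.2)
    (t := I ×ˢ I ×ˢ I ×ˢ I) (f := fun p : ℍ[ℤ] × ℍ[ℤ] =>
      ((p.1 - p.2).re, (p.1 - p.2).imI, (p.1 - p.2).imJ, (p.1 - p.2).imK)) (by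
      intro p hp
      simp only [hP, Finset.mem_filter] at hp
      have := hp.1.2
      rw [Quaternion.normSq_def'] at this
      simp only [hI, Finset.mem_product, Finset.mem_Icc]
      generalize p.1 - p.2 = h at this
      have s1 := sq_nonneg h.re
      have s2 := sq_nonneg h.imI
      have s3 := sq_nonneg h.imJ
      have s4 := sq_nonneg h.imK
      refine ⟨?_, ?_, ?_, ?_⟩ <;>
        exact abs_le_of_sq_le_sq' (by linarith) (by positivity)) (96 * (t ^ 6) ^ 5) (by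
      rintro ⟨b1, b2, b3, b4⟩ -
      set h : ℍ[ℤ] := ⟨b1, b2, b3, b4⟩ with hh
      set S := (P.filter fun p => ¬p.1 = p.2).filter fun p : ℍ[ℤ] × ℍ[ℤ] =>
        ((p.1 - p.2).re, (p.1 - p.2).imI, (p.1 - p.2).imJ, (p.1 - p.2).imK) = (b1, b2, b3, b4)
        with hS
      have hS' : ∀ p ∈ S, p.2 = p.1 - h ∧ h ≠ 0 ∧ Quaternion.normSq h ≤ (t : ℤ) ^ 2 ∧
          Quaternion.normSq p.1 = (t : ℤ) ^ 34 ∧
          (p.1 * star h).re = Quaternion.normSq h / 2 := by
        intro p hp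
        simp only [hS, hP, Finset.mem_filter, Finset.mem_product, Prod.mk.injEq] at hp
        obtain ⟨⟨⟨⟨w1, w2⟩, w3⟩, w4⟩, e1, e2, e3, e4⟩ := hp
        have e : p.1 - p.2 = h := Quaternion.ext _ _ e1 e2 e3 e4
        have e' : p.2 = p.1 - h := by rw [← e]; simp
        refine ⟨e', by rw [← e]; exact sub_ne_zero.mpr w4, e ▸ w3, hW _ w1, ?_⟩
        have n1 := hW _ w1
        have n2 := hW _ w2
        rw [e', ← n1] at n2
        have : 2 * (p.1 * star h).re = Quaternion.normSq h := by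
          simp only [Quaternion.normSq_def', Quaternion.re_mul, Quaternion.re_star,
            Quaternion.imI_star, Quaternion.imJ_star, Quaternion.imK_star, Quaternion.re_sub,
            Quaternion.imI_sub, Quaternion.imJ_sub, Quaternion.imK_sub] at n2 ⊢
          linear_combination -n2
        omega
      rw [← Finset.card_image_of_injOn (f := fun p : ℍ[ℤ] × ℍ[ℤ] =>
        ((p.1 * star h).imI, (p.1 * star h).imJ, (p.1 * star h).imK))]
      · rcases S.eq_empty_or_nonempty with h0 | ⟨p0, hp0⟩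
        · simp [h0]
        refine sphere_card (n := (t : ℤ) ^ 34 * Quaternion.normSq h - (Quaternion.normSq h / 2) ^ 2)
          (Nat.one_le_pow _ _ ht) ?_ _ fun q hq => ?_
        · have := (hS' p0 hp0).2.2.1
          have h2 : (t : ℤ) ^ 34 * Quaternion.normSq h ≤ (t : ℤ) ^ 34 * (t : ℤ) ^ 2 := by gcongr
          push_cast
          nlinarith [sq_nonneg (Quaternion.normSq h / 2)]
        · obtain ⟨p, hp, rfl⟩ := Finset.mem_image.mp hq
          obtain ⟨-, -, -, n1, n2⟩ := hS' p hp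
          have := map_mul Quaternion.normSq p.1 (star h)
          rw [Quaternion.normSq_star, n1, Quaternion.normSq_def' (p.1 * star h), n2] at this
          simp only
          linarith
      · intro p hp q hq hpq
        obtain ⟨a1, a2, -, -, a3⟩ := hS' p hp
        obtain ⟨c1, -, -, -, c3⟩ := hS' q hq
        simp only [Prod.mk.injEq] at hpq
        have e : p.1 * star h = q.1 * star h :=
          Quaternion.ext _ _ (a3.trans c3.symm) hpq.1 hpq.2.1 hpq.2.2
        have e2 : p.1 = q.1 := mul_right_cancel₀ (star_ne_zero.mpr a2) e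
        exact Prod.ext e2 (by rw [a1, c1, e2]))
  have cI : I.card = 2 * t + 1 := by
    rw [hI, Int.card_Icc]; omega
  simp only [Finset.card_product, cI] at key
  have : 2 * t + 1 ≤ 3 * t := by omega
  calc _ ≤ _ := key
    _ ≤ 96 * (t ^ 6) ^ 5 * ((3 * t) * ((3 * t) * ((3 * t) * (3 * t)))) := by gcongr
    _ = _ := by ring

end Pool.Agent.P.MP_839d28_al
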