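import Pool.Agent.P.MP_839d28_al.Givens

/-! Passing from one dimension to all dimensions within a bounded ratio. -/

open Matrix

set_option linter.unusedSectionVars false

namespace Pool.Agent.P.MP_839d28_al

variable {ι ι' κ : Type} [Fintype ι] [DecidableEq ι] [Fintype ι'] [DecidableEq ι'] [Fintype κ]
  [DecidableEq κ]

/-- block extension by the identity -/
def bext (e : ι ⊕ ι' ≃ κ) (g : Matrix ι ι ℝ) : Matrix κ κ ℝ :=
  (fromBlocks g 0 0 (1 : Matrix ι' ι' ℝ)).submatrix e.symm e.symm

/-- block extension by zero -/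
def bext0 (e : ι ⊕ ι' ≃ κ) (g : Matrix ι ι ℝ) : Matrix κ κ ℝ :=
  (fromBlocks g 0 0 (0 : Matrix ι' ι' ℝ)).submatrix e.symm e.symm

theorem bext_mul (e : ι ⊕ ι' ≃ κ) (g h : Matrix ι ι ℝ) : bext e (g * h) = bext e g * bext e h := by
  simp [bext, fromBlocks_multiply]

theorem bext_one (e : ι ⊕ ι' ≃ κ) : bext e (1 : Matrix ι ι ℝ) = 1 := by simp [bext]

theorem so_bext_iff (e : ι ⊕ ι' ≃ κ) (g : Matrix ι ι ℝ) : SO (bext e g) ↔ SO g := by
  have h1 : (bext e g)ᵀ = bext e gᵀ := by simp [bext, fromBlocks_transpose]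
  have h2 : (bext e g).det = g.det := by simp [bext]
  rw [SO, SO, h1, h2, ← bext_mul, ← bext_one e]
  refine and_congr_left fun _ => ⟨fun h => ?_, fun h => by rw [h]⟩
  ext i j
  simpa [bext, one_apply] using congrFun (congrFun h (e (Sum.inl i))) (e (Sum.inl j))

theorem eq_bext (e : ι ⊕ ι' ≃ κ) {g : Matrix κ κ ℝ} {T : Set κ} (hg : Supp T g)
    (hT : ∀ j, e (Sum.inr j) ∉ T) :
    g = bext e (g.submatrix (fun i => e (Sum.inl i)) fun i => e (Sum.inl i)) := by
  ext i j
  obtain ⟨i, rfl⟩ := e.surjective i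
  obtain ⟨j, rfl⟩ := e.surjective j
  rcases i with i | i <;> rcases j with j | j
  · simp [bext]
  · simp [bext, hg _ _ (Or.inr (hT j)), one_apply]
  · simp [bext, hg _ _ (Or.inl (hT i)), one_apply]
  · simp [bext, hg _ _ (Or.inl (hT i)), one_apply]

variable {V : Type} [NormedAddCommGroup V] [InnerProductSpace ℂ V]

/-- pull back of a representation along a block embedding -/
noncomputable def MatRep.pull (R : MatRep κ V) (e : ι ⊕ ι' ≃ κ) : MatRep ι V where
  ρ g := R.ρ (bext e g)
  one := by rw [bext_one, R.one]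
  mul g h hg hh := by
    rw [bext_mul, R.mul _ _ ((so_bext_iff e g).mpr hg) ((so_bext_iff e h).mpr hh)]
  norm g hg := R.norm _ ((so_bext_iff e g).mpr hg)
  D A := R.D (bext0 e A)
  D_add A B := by
    rw [← R.D_add]
    congr 1
    ext i j
    simp only [bext0, submatrix_apply, Matrix.add_apply]
    rcases e.symm i with i | i <;> rcases e.symm j with j | j <;> simp
  D_smul c A := by
    rw [← R.D_smul]
    congr 1
    ext i j
    simp only [bext0, submatrix_apply, Matrix.smul_apply]
    rcases e.symm i with i | i <;> rcases e.symm j with j | j <;> simp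
  deriv γ A h1 h2 h3 := R.deriv (fun t => bext e (γ t)) (bext0 e A)
    (fun t => (so_bext_iff e _).mpr (h1 t)) (by rw [h2, bext_one]) (by
      intro i j
      obtain ⟨i, rfl⟩ := e.surjective i
      obtain ⟨j, rfl⟩ := e.surjective j
      rcases i with i | i <;> rcases j with j | j
      · simpa [bext, bext0] using h3 i j
      all_goals simpa [bext, bext0] using hasDerivAt_const (0 : ℝ) _)

theorem HasKaz.supp {k : ℕ} {C : ℝ} (h : HasKaz ι k C) (hc : Fintype.card ι ≤ Fintype.card κ)
    (T : Finset κ) (hT : T.card ≤ Fintype.card ι) :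
    ∃ S : Finset (Matrix κ κ ℝ), S.card ≤ k ∧ (∀ s ∈ S, SO s) ∧
      ∀ (V : Type) [NormedAddCommGroup V] [InnerProductSpace ℂ V] [FiniteDimensional ℂ V]
        (R : MatRep κ V) (v : V) (ε : ℝ), 0 ≤ ε → (∀ s ∈ S, R.N v s ≤ ε) →
        ∀ g, SO g → Supp (T : Set κ) g → R.N v g ≤ C * ε := by
  classical
  obtain ⟨S, h1, h2, h3⟩ := h
  obtain ⟨T', hT1, -, hT2⟩ := Finset.exists_subsuperset_card_eq (Finset.subset_univ T) hT hc
  let e1 : ι ≃ {x // x ∈ T'} := Fintype.equivOfCardEq (by simp [hT2])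
  let e : ι ⊕ {x // x ∉ T'} ≃ κ := (e1.sumCongr (Equiv.refl _)).trans (Equiv.sumCompl (· ∈ T'))
  refine ⟨S.image (bext e), Finset.card_image_le.trans h1, ?_, ?_⟩
  · intro s hs
    obtain ⟨s, hs', rfl⟩ := Finset.mem_image.mp hs
    exact (so_bext_iff e s).mpr (h2 s hs')
  · intro V _ _ _ R v ε hε hs g hg hgT
    have e2 := eq_bext e hgT fun j hj => j.2 (hT1 (by simpa [e] using hj))
    rw [e2] at hg ⊢
    exact h3 V (R.pull e) v ε hε (fun s hs' => hs _ (Finset.mem_image_of_mem _ hs')) _
      ((so_bext_iff e _).mp hg)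

theorem HasKaz.extend {k : ℕ} {C : ℝ} (h : HasKaz ι k C) (hC : 0 ≤ C) {b n : ℕ} (hb : 0 < b)
    (h2 : 2 * b ≤ Fintype.card ι) (h3 : Fintype.card ι ≤ n) (h4 : n ≤ 16 * b) :
    HasKaz (Fin n) (256 * k) (289 * C) := by
  classical
  let c : Fin n → ℕ := fun i => i.val / b
  have hc : ∀ i, c i < 16 := fun i => (Nat.div_lt_iff_lt_mul hb).mpr (by omega)
  have cB : ∀ t, (Finset.univ.filter fun i => c i = t).card ≤ b := by
    intro t
    rw [← Finset.card_range b]
    refine Finset.card_le_card_of_injOn (fun i => i.val % b)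
      (fun i _ => by simpa using Nat.mod_lt _ hb) fun i hi j hj hij => ?_
    simp only [Finset.coe_filter, Finset.mem_univ, true_and, Set.mem_ofPred_eq, c] at hi hj hij
    ext
    rw [← Nat.div_add_mod i b, ← Nat.div_add_mod j b, hi, hj, hij]
  have hp : ∀ p : ℕ × ℕ, (Finset.univ.filter fun i => c i = p.1 ∨ c i = p.2).card ≤
      Fintype.card ι := by
    intro p
    rw [Finset.filter_or]
    have := Finset.card_union_le (Finset.univ.filter fun i => c i = p.1)
      (Finset.univ.filter fun i => c i = p.2)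
    linarith [cB p.1, cB p.2]
  choose S s1 s2 s3 using fun p : ℕ × ℕ => h.supp (κ := Fin n) (by simpa using h3) _ (hp p)
  refine ⟨(Finset.range 16 ×ˢ Finset.range 16).biUnion S, ?_, ?_, ?_⟩
  · simpa using Finset.card_biUnion_le_card_mul (Finset.range 16 ×ˢ Finset.range 16) S k
      fun p _ => s1 p
  · intro s hs
    obtain ⟨p, -, hp⟩ := Finset.mem_biUnion.mp hs
    exact s2 p s hp
  · intro V _ _ _ R v ε hε hs g hg
    have := block_bound c (R.N v) (δ := C * ε) (by positivity) (fun g h hg hh => R.N_le v hg hh)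
      (fun t t' g hg hsup => by
        refine s3 (min t 15, min t' 15) V R v ε hε (fun s hs' => hs s (Finset.mem_biUnion.mpr
          ⟨_, by simp, hs'⟩)) g hg (hsup.mono fun i hi => ?_)
        have := hc i
        simp only [Finset.coe_filter, Finset.mem_univ, true_and, Set.mem_ofPred_eq] at hi ⊢
        omega) 16 g hg (fun i j hij => absurd hij (by simp [hc]))
    norm_num at this
    linarith

end Pool.Agent.P.MP_839d28_al
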