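import Pool.Agent.P.MP_839d28_al.OneParam

/-! Relative property (T) for `EL_2(R) ⋉ R^2`, for finite rings of characteristic two. -/

namespace Pool.Agent.P.MP_839d28_al

variable {V : Type} [NormedAddCommGroup V] [InnerProductSpace ℂ V]
variable {N : Type} [AddCommGroup N] [Fintype N]

/-- unitary representation of an elementary abelian two-group -/
structure TwoRep (π : N → V →L[ℂ] V) : Prop where
  two : ∀ n : N, n + n = 0
  zero : π 0 = 1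
  add : ∀ m n, π (m + n) = π m * π n
  norm : ∀ n v, ‖π n v‖ = ‖v‖

/-- isotypic projection -/
noncomputable def chP (π : N → V →L[ℂ] V) (ψ : AddChar N ℂ) : V →L[ℂ] V :=
  (Fintype.card N : ℂ)⁻¹ • ∑ n, ψ n • π n

open Classical in
/-- spectral measure -/
noncomputable def chM (π : N → V →L[ℂ] V) (v : V) (p : AddChar N ℂ → Prop) : ℝ :=
  ∑ ψ ∈ Finset.univ.filter p, ‖chP π ψ v‖ ^ 2

theorem chP_apply (π : N → V →L[ℂ] V) (ψ : AddChar N ℂ) (v : V) :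
    chP π ψ v = (Fintype.card N : ℂ)⁻¹ • ∑ n, ψ n • π n v := by simp [chP]

theorem norm_sum_sq_orth {α : Type} (s : Finset α) (f : α → V)
    (h : ∀ a ∈ s, ∀ b ∈ s, a ≠ b → inner ℂ (f a) (f b) = 0) :
    ‖∑ a ∈ s, f a‖ ^ 2 = ∑ a ∈ s, ‖f a‖ ^ 2 := by
  classical
  induction s using Finset.induction_on with
  | empty => simp
  | insert a s ha ih =>
    rw [Finset.sum_insert ha, Finset.sum_insert ha, Su2.norm_add_sq_orth,
      ih fun x hx y hy => h x (Finset.mem_insert_of_mem hx) y (Finset.mem_insert_of_mem hy)]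
    rw [inner_sum]
    exact Finset.sum_eq_zero fun b hb => h a (Finset.mem_insert_self _ _) b
      (Finset.mem_insert_of_mem hb) (by rintro rfl; exact ha hb)

theorem chM_nonneg (π : N → V →L[ℂ] V) (v : V) (p : AddChar N ℂ → Prop) : 0 ≤ chM π v p :=
  Finset.sum_nonneg fun _ _ => sq_nonneg _

theorem chM_mono (π : N → V →L[ℂ] V) (v : V) {p q : AddChar N ℂ → Prop} (h : ∀ ψ, p ψ → q ψ) :
    chM π v p ≤ chM π v q := by
  classical
  refine Finset.sum_le_sum_of_subset_of_nonneg (fun ψ hψ => ?_) fun _ _ _ => sq_nonneg _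
  simp only [Finset.mem_filter, Finset.mem_univ, true_and] at hψ ⊢
  exact h ψ hψ

theorem chM_split (π : N → V →L[ℂ] V) (v : V) (p q : AddChar N ℂ → Prop) :
    chM π v p = chM π v (fun ψ => p ψ ∧ q ψ) + chM π v (fun ψ => p ψ ∧ ¬q ψ) := by
  classical
  simp only [chM, Finset.sum_filter, ← Finset.sum_add_distrib]
  refine Finset.sum_congr rfl fun ψ _ => ?_
  by_cases hp : p ψ <;> by_cases hq : q ψ <;> simp [hp, hq]

namespace TwoRep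

variable {π : N → V →L[ℂ] V}

omit [Fintype N] in
theorem val (h : TwoRep π) (ψ : AddChar N ℂ) (n : N) : ψ n = 1 ∨ ψ n = -1 := by
  have := ψ.map_add_eq_mul n n
  rw [h.two, ψ.map_zero_eq_one] at this
  exact mul_self_eq_one_iff.mp this.symm

theorem pi_chP (h : TwoRep π) (ψ : AddChar N ℂ) (m : N) (v : V) :
    π m (chP π ψ v) = ψ m • chP π ψ v := by
  rw [chP_apply, map_smul, map_sum, smul_comm (ψ m)]
  congr 1
  rw [Finset.smul_sum]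
  refine (Equiv.sum_comp (Equiv.addLeft m) _).symm.trans (Finset.sum_congr rfl fun n _ => ?_)
  have : π m (π (m + n) v) = π n v := by
    have := h.add m (m + n)
    rw [← add_assoc, h.two, zero_add] at this
    rw [this]; rfl
  simp [this, ψ.map_add_eq_mul, mul_smul]

theorem sum_chP (h : TwoRep π) (v : V) : ∑ ψ, chP π ψ v = v := by
  classical
  simp only [chP_apply, ← Finset.smul_sum]
  rw [Finset.sum_comm]
  simp only [← Finset.sum_smul, AddChar.sum_apply_eq_ite, ite_smul, zero_smul, Finset.sum_ite_eq',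
    Finset.mem_univ, if_true, h.zero, smul_smul]
  rw [inv_mul_cancel₀ (by exact_mod_cast Fintype.card_ne_zero)]
  simp

theorem chP_orth (h : TwoRep π) {ψ φ : AddChar N ℂ} (hne : ψ ≠ φ) (v w : V) :
    inner ℂ (chP π ψ v) (chP π φ w) = 0 := by
  obtain ⟨m, hm⟩ := DFunLike.ne_iff.mp hne
  have := inner_map_of_norm (h.norm m) (chP π ψ v) (chP π φ w)
  rw [h.pi_chP, h.pi_chP, inner_smul_left, inner_smul_right] at this
  rcases h.val ψ m with h1 | h1 <;> rcases h.val φ m with h2 | h2 <;> rw [h1, h2] at hm this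
  · exact absurd rfl hm
  · simp only [map_one, one_mul] at this; linear_combination (-1 / 2 : ℂ) * this
  · simp only [map_neg, map_one, one_mul] at this; linear_combination (-1 / 2 : ℂ) * this
  · exact absurd rfl hm

open Classical in
theorem chM_eq (h : TwoRep π) (v : V) (p : AddChar N ℂ → Prop) :
    chM π v p = ‖∑ ψ ∈ Finset.univ.filter p, chP π ψ v‖ ^ 2 :=
  (norm_sum_sq_orth _ _ fun _ _ _ _ hne => h.chP_orth hne v v).symm

theorem chM_le (h : TwoRep π) (v : V) (p : AddChar N ℂ → Prop) : chM π v p ≤ ‖v‖ ^ 2 := by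
  refine (chM_mono π v (q := fun _ => True) fun _ _ => trivial).trans (le_of_eq ?_)
  rw [h.chM_eq]
  simp [h.sum_chP]

theorem disp (h : TwoRep π) (v : V) (n : N) :
    ‖π n v - v‖ ^ 2 = 4 * chM π v fun ψ => ψ n ≠ 1 := by
  classical
  have e : π n v - v = ∑ ψ, (ψ n - 1) • chP π ψ v := by
    conv_lhs => rw [← h.sum_chP v]
    simp only [map_sum, h.pi_chP, sub_smul, one_smul, Finset.sum_sub_distrib]
  rw [e, norm_sum_sq_orth _ _ fun a _ b _ hne => by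
    rw [inner_smul_left, inner_smul_right, h.chP_orth hne]; simp]
  simp only [chM, Finset.sum_filter, Finset.mul_sum]
  refine Finset.sum_congr rfl fun ψ _ => ?_
  rcases h.val ψ n with h1 | h1
  · simp [h1]
  · rw [if_pos (by rw [h1]; norm_num), h1, norm_smul, mul_pow]
    norm_num

theorem move (h : TwoRep π) {U : V →L[ℂ] V} (hU : ∀ v, ‖U v‖ = ‖v‖) {τ : N →+ N}
    (hτ : Function.Involutive τ) (hc : ∀ n v, U (π n v) = π (τ n) (U v)) {v : V} {ε t : ℝ}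
    (hv : ‖U v - v‖ ≤ ε) (ht : 0 ≤ t) {p q : AddChar N ℂ → Prop}
    (hpq : ∀ ψ, p ψ → q (ψ.compAddMonoidHom τ)) (hq : chM π v q ≤ t ^ 2) :
    chM π v p ≤ chM π v q + (2 * ε * t + ε ^ 2) := by
  classical
  have e : ∀ ψ : AddChar N ℂ, U (chP π ψ v) = chP π (ψ.compAddMonoidHom τ) (U v) := by
    intro ψ
    rw [chP_apply, chP_apply, map_smul, map_sum]
    congr 1
    refine Eq.trans ?_ (Equiv.sum_comp hτ.toPerm _)
    refine Finset.sum_congr rfl fun n _ => ?_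
    simp [hc, hτ n]
  have h1 : chM π v p ≤ chM π (U v) q := by
    have inj : Function.Injective fun ψ : AddChar N ℂ => ψ.compAddMonoidHom τ := by
      intro ψ φ hh
      ext n
      have := DFunLike.congr_fun hh (τ n)
      simpa [hτ n] using this
    simp only [chM]
    rw [Finset.sum_congr rfl fun ψ _ => by rw [← hU, e],
      ← Finset.sum_image (f := fun φ => ‖chP π φ (U v)‖ ^ 2) fun _ _ _ _ hh => inj hh]
    refine Finset.sum_le_sum_of_subset_of_nonneg (fun φ hφ => ?_) fun _ _ _ => sq_nonneg _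
    simp only [Finset.mem_image, Finset.mem_filter, Finset.mem_univ, true_and] at hφ ⊢
    obtain ⟨ψ, hψ, rfl⟩ := hφ
    exact hpq ψ hψ
  have h2 := h.chM_le (U v - v) q
  rw [h.chM_eq] at h2 hq
  rw [h.chM_eq v q]
  rw [h.chM_eq (U v) q] at h1
  simp only [map_sub, Finset.sum_sub_distrib] at h2
  set x := ∑ ψ ∈ Finset.univ.filter q, chP π ψ (U v)
  set y := ∑ ψ ∈ Finset.univ.filter q, chP π ψ v
  have a1 : ‖x - y‖ ≤ ε := (le_of_sq_le_sq h2 (norm_nonneg _)).trans hv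
  have a2 : ‖y‖ ≤ t := le_of_sq_le_sq hq ht
  have a3 : ‖x‖ ≤ ‖y‖ + ε := by linarith [norm_le_norm_add_norm_sub' x y]
  have a4 := pow_le_pow_left₀ (norm_nonneg _) a3 2
  have a5 : 0 ≤ ε := (norm_nonneg _).trans hv
  nlinarith

end TwoRep

section Words

variable {R : Type} [Ring R] (g : Bool → R)

/-- monomials in two generators -/
def wd (w : List Bool) : R := (w.map g).prod

theorem wd_cons (b : Bool) (w : List Bool) : wd g (b :: w) = g b * wd g w := by simp [wd]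

/-- the character is detected strictly earlier along `i2` than along `i1` -/
def Earl (i1 i2 : R →+ N) (ψ : AddChar N ℂ) : Prop :=
  ∃ w, ψ (i2 (wd g w)) ≠ 1 ∧ ∀ w' : List Bool, w'.length ≤ w.length → ψ (i1 (wd g w')) = 1

omit [Fintype N] in
theorem exists_min (i : R →+ N) (ψ : AddChar N ℂ) (h : ∃ w, ψ (i (wd g w)) ≠ 1) :
    ∃ w, ψ (i (wd g w)) ≠ 1 ∧ ∀ w' : List Bool, w'.length < w.length → ψ (i (wd g w')) = 1 := by
  obtain ⟨w, hw, hmin⟩ := (measure List.length).wf.has_min {w | ψ (i (wd g w)) ≠ 1} h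
  exact ⟨w, hw, fun w' hw' => by_contra fun hne => hmin w' hne hw'⟩

variable {g} {π : N → V →L[ℂ] V}

theorem half (h : TwoRep π) (i1 i2 : R →+ N) (τ : R → N →+ N) (U : R → V →L[ℂ] V)
    (hU : ∀ r v, ‖U r v‖ = ‖v‖) (hτ : ∀ r, Function.Involutive (τ r))
    (hc : ∀ r n v, U r (π n v) = π (τ r n) (U r v)) (t1 : ∀ r x, τ r (i1 x) = i1 x)
    (t2 : ∀ r y, τ r (i2 y) = i1 (r * y) + i2 y)
    (hgen : ∀ ψ : AddChar N ℂ, (∃ n, ψ n ≠ 1) →
      (∃ w, ψ (i1 (wd g w)) ≠ 1) ∨ ∃ w, ψ (i2 (wd g w)) ≠ 1)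
    {v : V} {ε t : ℝ} (ht : 0 ≤ t) (htt : chM π v (fun ψ => ∃ n, ψ n ≠ 1) ≤ t ^ 2)
    (hv1 : ‖U 1 v - v‖ ≤ ε) (hv : ∀ b, ‖U (g b) v - v‖ ≤ ε) (hp : ‖π (i1 1) v - v‖ ≤ ε) :
    chM π v (fun ψ => (∃ n, ψ n ≠ 1) ∧ ¬Earl g i1 i2 ψ) ≤
        chM π v (Earl g i1 i2) + 2 * (2 * ε * t + ε ^ 2) + ε ^ 2 / 4 ∧
      chM π v (Earl g i2 i1) ≤
        chM π v (fun ψ => ((∃ n, ψ n ≠ 1) ∧ ¬Earl g i1 i2 ψ) ∧ ¬Earl g i2 i1 ψ) +
          (2 * ε * t + ε ^ 2) := by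
  constructor
  · have d : chM π v (fun ψ => ψ (i1 1) ≠ 1) ≤ ε ^ 2 / 4 := by
      have := pow_le_pow_left₀ (norm_nonneg _) hp 2
      rw [h.disp] at this
      linarith
    let Q : Bool → AddChar N ℂ → Prop := fun b ψ => ∃ w, ψ (i1 (wd g (b :: w))) ≠ 1 ∧
      ∀ w' : List Bool, w'.length ≤ w.length → ψ (i1 (wd g w')) = 1
    have hQ : ∀ b r ψ, Q b (ψ.compAddMonoidHom (τ r)) ↔ Q b ψ := by
      intro b r ψ
      simp [Q, t1]
    have step : ∀ b ψ, Q b ψ → ¬Earl g i1 i2 ψ → Earl g i1 i2 (ψ.compAddMonoidHom (τ (g b))) := by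
      rintro b ψ ⟨w, h1, h2⟩ hA
      refine ⟨w, ?_, by simpa [t1] using h2⟩
      have : ψ (i2 (wd g w)) = 1 := by_contra fun hne => hA ⟨w, hne, h2⟩
      simpa [t2, ψ.map_add_eq_mul, this, wd_cons] using h1
    have hA : ∀ p : AddChar N ℂ → Prop, chM π v (fun ψ => Earl g i1 i2 ψ ∧ p ψ) ≤ t ^ 2 :=
      fun p => (chM_mono π v fun ψ hψ => ⟨_, hψ.1.choose_spec.1⟩).trans htt
    have m1 := h.move (hU (g true)) (hτ _) (hc _) (hv true) ht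
      (p := fun ψ => (((∃ n, ψ n ≠ 1) ∧ ¬Earl g i1 i2 ψ) ∧ ¬ψ (i1 1) ≠ 1) ∧ Q true ψ)
      (q := fun ψ => Earl g i1 i2 ψ ∧ Q true ψ)
      (fun ψ hψ => ⟨step _ ψ hψ.2 hψ.1.1.2, (hQ _ _ ψ).mpr hψ.2⟩) (hA _)
    have m2 := h.move (hU (g false)) (hτ _) (hc _) (hv false) ht
      (p := fun ψ => (((∃ n, ψ n ≠ 1) ∧ ¬Earl g i1 i2 ψ) ∧ ¬ψ (i1 1) ≠ 1) ∧ ¬Q true ψ)
      (q := fun ψ => Earl g i1 i2 ψ ∧ ¬Q true ψ)
      (fun ψ hψ => ⟨step _ ψ (by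
        obtain ⟨⟨⟨a1, a2⟩, a3⟩, a4⟩ := hψ
        have : ∃ w, ψ (i1 (wd g w)) ≠ 1 := by
          by_contra hcon
          push Not at hcon
          obtain ⟨w, hw⟩ | ⟨w, hw⟩ := hgen ψ a1
          · exact hw (hcon w)
          · exact a2 ⟨w, hw, fun w' _ => hcon w'⟩
        obtain ⟨w, hw, hmin⟩ := exists_min g i1 ψ this
        rcases w with _ | ⟨_ | _, w⟩
        · exact absurd hw a3
        · exact ⟨w, hw, fun w' hw' => hmin w' (Nat.lt_succ_of_le hw')⟩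
        · exact absurd ⟨w, hw, fun w' hw' => hmin w' (Nat.lt_succ_of_le hw')⟩ a4) hψ.1.1.2,
        fun hh => hψ.2 ((hQ _ _ ψ).mp hh)⟩) (hA _)
    have s1 := chM_split π v (fun ψ => (∃ n, ψ n ≠ 1) ∧ ¬Earl g i1 i2 ψ) fun ψ => ψ (i1 1) ≠ 1
    have s2 := chM_split π v (fun ψ => ((∃ n, ψ n ≠ 1) ∧ ¬Earl g i1 i2 ψ) ∧ ¬ψ (i1 1) ≠ 1)
      (Q true)
    have s3 := chM_split π v (Earl g i1 i2) (Q true)
    have s4 := chM_mono π v (p := fun ψ => ((∃ n, ψ n ≠ 1) ∧ ¬Earl g i1 i2 ψ) ∧ ψ (i1 1) ≠ 1)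
      (q := fun ψ => ψ (i1 1) ≠ 1) fun _ h => h.2
    linarith
  · refine h.move (hU 1) (hτ _) (hc _) hv1 ht (fun ψ hψ => ?_)
      ((chM_mono π v fun ψ hψ => hψ.1.1).trans htt)
    obtain ⟨w, h1, h2⟩ := hψ
    obtain ⟨w0, k1, k2⟩ := exists_min g i1 ψ ⟨w, h1⟩
    have hle : w0.length ≤ w.length := by_contra fun hlt => h1 (k2 w (by omega))
    refine ⟨⟨⟨i1 (wd g w0), by simpa [t1] using k1⟩, ?_⟩, ?_⟩
    · rintro ⟨u, u1, u2⟩
      have : u.length < w0.length := by_contra fun hlt => k1 (by simpa [t1] using u2 w0 (by omega))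
      exact u1 (by simp [t2, ψ.map_add_eq_mul, k2 u this, h2 u (by omega)])
    · rintro ⟨u, u1, u2⟩
      have : w0.length ≤ u.length := by_contra fun hlt => u1 (by simpa [t1] using k2 u (by omega))
      exact k1 (by simpa [t2, ψ.map_add_eq_mul, h2 w0 hle] using u2 w0 this)

theorem relT (h : TwoRep π) (i1 i2 : R →+ N) (τ τ' : R → N →+ N) (U U' : R → V →L[ℂ] V)
    (hU : ∀ r v, ‖U r v‖ = ‖v‖) (hτ : ∀ r, Function.Involutive (τ r))
    (hc : ∀ r n v, U r (π n v) = π (τ r n) (U r v)) (t1 : ∀ r x, τ r (i1 x) = i1 x)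
    (t2 : ∀ r y, τ r (i2 y) = i1 (r * y) + i2 y)
    (hU' : ∀ r v, ‖U' r v‖ = ‖v‖) (hτ' : ∀ r, Function.Involutive (τ' r))
    (hc' : ∀ r n v, U' r (π n v) = π (τ' r n) (U' r v)) (t1' : ∀ r x, τ' r (i2 x) = i2 x)
    (t2' : ∀ r y, τ' r (i1 y) = i2 (r * y) + i1 y)
    (hgen : ∀ ψ : AddChar N ℂ, (∃ n, ψ n ≠ 1) →
      (∃ w, ψ (i1 (wd g w)) ≠ 1) ∨ ∃ w, ψ (i2 (wd g w)) ≠ 1)
    {v : V} {ε : ℝ} (hv1 : ‖U 1 v - v‖ ≤ ε) (hv : ∀ b, ‖U (g b) v - v‖ ≤ ε)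
    (hp : ‖π (i1 1) v - v‖ ≤ ε) (hv1' : ‖U' 1 v - v‖ ≤ ε) (hv' : ∀ b, ‖U' (g b) v - v‖ ≤ ε)
    (hp' : ‖π (i2 1) v - v‖ ≤ ε) (n : N) : ‖π n v - v‖ ≤ 34 * ε := by
  have hε : 0 ≤ ε := (norm_nonneg _).trans hv1
  set t := √(chM π v fun ψ => ∃ n, ψ n ≠ 1) with ht
  have t0 : 0 ≤ t := Real.sqrt_nonneg _
  have tt : t ^ 2 = chM π v fun ψ => ∃ n, ψ n ≠ 1 := Real.sq_sqrt (chM_nonneg _ _ _)
  obtain ⟨a1, a2⟩ := half h i1 i2 τ U hU hτ hc t1 t2 hgen t0 tt.ge hv1 hv hp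
  obtain ⟨b1, b2⟩ := half h i2 i1 τ' U' hU' hτ' hc' t1' t2' (fun ψ hψ => (hgen ψ hψ).symm) t0
    tt.ge hv1' hv' hp'
  have dj : ∀ ψ, Earl g i1 i2 ψ → ¬Earl g i2 i1 ψ := by
    rintro ψ ⟨w, w1, w2⟩ ⟨u, u1, u2⟩
    rcases le_total w.length u.length with hh | hh
    · exact w1 (u2 w hh)
    · exact u1 (w2 u hh)
  have s1 := chM_split π v (fun ψ => ∃ n, ψ n ≠ 1) (Earl g i1 i2)
  have s2 := chM_split π v (fun ψ => (∃ n, ψ n ≠ 1) ∧ ¬Earl g i1 i2 ψ) (Earl g i2 i1)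
  have s3 := chM_split π v (fun ψ => (∃ n, ψ n ≠ 1) ∧ ¬Earl g i2 i1 ψ) (Earl g i1 i2)
  have m1 := chM_mono π v (p := fun ψ => (∃ n, ψ n ≠ 1) ∧ Earl g i1 i2 ψ) fun _ h => h.2
  have m2 := chM_mono π v (p := fun ψ => ((∃ n, ψ n ≠ 1) ∧ ¬Earl g i1 i2 ψ) ∧ Earl g i2 i1 ψ)
    fun _ h => h.2
  have m3 := chM_mono π v (p := Earl g i2 i1)
    (q := fun ψ => ((∃ n, ψ n ≠ 1) ∧ ¬Earl g i1 i2 ψ) ∧ Earl g i2 i1 ψ)
    fun ψ h => ⟨⟨⟨_, h.choose_spec.1⟩, fun h' => dj ψ h' h⟩, h⟩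
  have m4 := chM_mono π v (p := Earl g i1 i2)
    (q := fun ψ => ((∃ n, ψ n ≠ 1) ∧ ¬Earl g i2 i1 ψ) ∧ Earl g i1 i2 ψ)
    fun ψ h => ⟨⟨⟨_, h.choose_spec.1⟩, dj ψ h⟩, h⟩
  have m5 := chM_mono π v (p := fun ψ => ((∃ n, ψ n ≠ 1) ∧ ¬Earl g i2 i1 ψ) ∧ ¬Earl g i1 i2 ψ)
    (q := fun ψ => ((∃ n, ψ n ≠ 1) ∧ ¬Earl g i1 i2 ψ) ∧ ¬Earl g i2 i1 ψ)
    fun ψ h => ⟨⟨h.1.1, h.2⟩, h.1.2⟩
  have m6 := chM_mono π v (q := fun ψ => ((∃ n, ψ n ≠ 1) ∧ ¬Earl g i2 i1 ψ) ∧ ¬Earl g i1 i2 ψ)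
    (p := fun ψ => ((∃ n, ψ n ≠ 1) ∧ ¬Earl g i1 i2 ψ) ∧ ¬Earl g i2 i1 ψ)
    fun ψ h => ⟨⟨h.1.1, h.2⟩, h.1.2⟩
  have k : t ^ 2 ≤ 16 * ε * t + 9 * ε ^ 2 := by nlinarith [sq_nonneg ε]
  have k2 : t ≤ 17 * ε := by
    by_contra hlt
    push Not at hlt
    nlinarith
  have m7 := chM_mono π v (p := fun ψ => ψ n ≠ 1) (q := fun ψ => ∃ n, ψ n ≠ 1) fun ψ h => ⟨n, h⟩
  refine le_of_sq_le_sq ?_ (by positivity)
  rw [h.disp]
  nlinarith

end Words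

end Pool.Agent.P.MP_839d28_al
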