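import Pool.Agent.P.MP_839d28_al.Knabe
import Pool.Agent.P.MP_839d28_al.RelT
import Pool.Agent.P.MP_839d28_al.Extend

/-! Elementary matrices over `F_2` acting on Pauli matrices. -/

open Matrix
open scoped Quaternion

set_option linter.unusedSectionVars false

namespace Pool.Agent.P.MP_839d28_al

section Conj

variable {W : Type} [AddCommGroup W] [Fintype W] [DecidableEq W]

theorem pm_conj (dot : W → W → ZMod 2) {σ : W → W} (h : Function.Involutive σ)
    (hadd : ∀ x y, σ (x + y) = σ x + σ y) (x z z' : W) (hz : ∀ w, dot z' w = dot z (σ w)) :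
    pm σ * pl dot (x, z) * pm σ = pl dot (σ x, z') := by
  ext u w
  rw [mul_pm, mul_pl]
  simp only [pm, pl, of_apply, hadd, h w, hz]
  split_ifs <;> simp

theorem rot_conj {ι : Type} [Fintype ι] [DecidableEq ι] {P : Matrix ι ι ℝ} (hP : P * P = 1)
    (A : Matrix ι ι ℝ) (t : ℝ) : rot (P * A * P) t = P * rot A t * P := by
  have : P * A * P * (P * A * P) = P * (A * A) * P := by
    calc _ = P * A * (P * P) * A * P := by simp only [Matrix.mul_assoc]
      _ = _ := by rw [hP]; simp only [Matrix.mul_assoc, Matrix.one_mul]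
  simp only [rot, this, mul_add, add_mul, smul_mul_assoc, mul_smul_comm, mul_one, hP]

end Conj

variable {m : Type} [Fintype m] [DecidableEq m]

/-- three blocks of vectors over the field with two elements -/
abbrev Cb (m : Type) := Fin 3 → m → ZMod 2

/-- the standard form -/
def cdot (x z : Cb m) : ZMod 2 := ∑ i, x i ⬝ᵥ z i

/-- block elementary transformations -/
def el (i j : Fin 3) (M : Matrix m m (ZMod 2)) (x : Cb m) : Cb m := x + Pi.single i (M *ᵥ x j)

theorem vec_two (x : m → ZMod 2) : x + x = 0 := by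
  ext a
  exact CharTwo.add_self_eq_zero _

theorem mat_two (x : Matrix m m (ZMod 2)) : x + x = 0 := by
  ext a b
  exact CharTwo.add_self_eq_zero _

theorem cdot_single (z : Cb m) (i : Fin 3) (a : m → ZMod 2) :
    cdot z (Pi.single i a) = z i ⬝ᵥ a := by
  rw [cdot, Finset.sum_eq_single i]
  · simp
  · intro b _ hb
    simp [hb]
  · simp

theorem form_cdot : Form (cdot (m := m)) where
  two w := funext fun i => vec_two (w i)
  symm x y := Finset.sum_congr rfl fun i _ => dotProduct_comm _ _
  add x y z := by simp [cdot, Finset.sum_add_distrib]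
  nondeg x hx := by
    obtain ⟨i, hi⟩ := Function.ne_iff.mp hx
    obtain ⟨a, ha⟩ := Function.ne_iff.mp hi
    refine ⟨Pi.single i (Pi.single a 1), ?_⟩
    rw [cdot_single, dotProduct_single_one]
    exact (zmod2_cases _).resolve_left ha

theorem el_same (i j : Fin 3) (M : Matrix m m (ZMod 2)) (x : Cb m) :
    el i j M x i = x i + M *ᵥ x j := by simp [el]

theorem el_ne {i l : Fin 3} (h : l ≠ i) (j : Fin 3) (M : Matrix m m (ZMod 2)) (x : Cb m) :
    el i j M x l = x l := by simp [el, h]

theorem el_add (i j : Fin 3) (M : Matrix m m (ZMod 2)) (x y : Cb m) :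
    el i j M (x + y) = el i j M x + el i j M y := by
  simp only [el, Pi.add_apply, mulVec_add, Pi.single_add]
  abel

theorem el_inv {i j : Fin 3} (h : i ≠ j) (M : Matrix m m (ZMod 2)) :
    Function.Involutive (el i j M) := by
  intro x
  funext l
  by_cases hl : l = i
  · rw [hl, el_same, el_same, el_ne h.symm, add_assoc, vec_two, add_zero]
  · rw [el_ne hl, el_ne hl]

theorem cdot_el (i j : Fin 3) (M : Matrix m m (ZMod 2)) (z w : Cb m) :
    cdot (el j i Mᵀ z) w = cdot z (el i j M w) := by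
  rw [el, el, form_cdot.add, form_cdot.add_left, cdot_single, form_cdot.symm (Pi.single _ _),
    cdot_single, dotProduct_mulVec (z i), mulVec_transpose, dotProduct_comm]

theorem cdot_el_el {i j : Fin 3} (h : i ≠ j) (M : Matrix m m (ZMod 2)) (z x : Cb m) :
    cdot (el j i Mᵀ z) (el i j M x) = cdot z x := by rw [cdot_el, el_inv h]

theorem so_el {i j : Fin 3} (h : i ≠ j) (M : Matrix m m (ZMod 2)) : SO (pm (el i j M)) := by
  obtain ⟨k, hi, hj⟩ : ∃ k, i ≠ k ∧ k ≠ j := by revert i j; decide
  have e : el i j M = (el i k M ∘ el k j 1) ∘ (el i k M ∘ el k j 1) := by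
    funext x l
    simp only [Function.comp]
    by_cases hl : l = i
    · simp only [hl, el_same, el_ne hi, el_ne hi.symm, el_ne h.symm, el_ne hj.symm, one_mulVec,
        add_assoc, vec_two, add_zero, mulVec_add]
      rw [add_left_comm (M *ᵥ x k), vec_two, add_zero]
    · by_cases hk : l = k
      · simp only [hk, el_same, el_ne hi.symm, el_ne h.symm, el_ne hj.symm, one_mulVec,
          add_assoc, vec_two, add_zero]
      · simp only [el_ne hl, el_ne hk]
  rw [e, pm_comp]
  refine SO.of_sq ?_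
  rw [pm_comp, transpose_mul, pm_transpose (el_inv hi M), pm_transpose (el_inv hj 1),
    Matrix.mul_assoc, ← Matrix.mul_assoc (pm (el i k M)), pm_sq (el_inv hi M), Matrix.one_mul,
    pm_sq (el_inv hj 1)]

theorem exists_mulVec {a : m → ZMod 2} (ha : a ≠ 0) (b : m → ZMod 2) :
    ∃ M : Matrix m m (ZMod 2), M *ᵥ a = b := by
  obtain ⟨c, hc⟩ := Function.ne_iff.mp ha
  refine ⟨vecMulVec b (Pi.single c 1), ?_⟩
  rw [vecMulVec_mulVec, single_one_dotProduct, (zmod2_cases _).resolve_left hc]
  simp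

theorem transit (o : m) (P : ℕ → Cb m → Cb m → Prop)
    (h0 : P 0 (Pi.single 0 (Pi.single o 1)) (Pi.single 0 (Pi.single o 1)))
    (hs : ∀ n i j M x z, i ≠ j → cdot z x = 1 → P n (el i j M x) (el j i Mᵀ z) → P (n + 1) x z)
    (x z : Cb m) (hxz : cdot z x = 1) : P 8 x z := by
  set e : m → ZMod 2 := Pi.single o 1 with he
  have e0 : e ≠ 0 := by simp [he]
  have ee : e ⬝ᵥ e = 1 := by simp [he]
  have ex : ∀ x : Cb m, x 0 = e → x 1 = 0 → x 2 = 0 → x = Pi.single 0 e := by
    intro x a b c
    funext l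
    fin_cases l <;> simp [a, b, c]
  have n10 : (1 : Fin 3) ≠ 0 := by decide
  have n20 : (2 : Fin 3) ≠ 0 := by decide
  have n21 : (2 : Fin 3) ≠ 1 := by decide
  have sH : ∀ z : Cb m, z 0 = e → z 1 = e → z 2 = 0 → P 1 (Pi.single 0 e) z := by
    intro z a b c
    refine hs 0 0 1 1 _ _ n10.symm (by rw [cdot_single, a, ee]) ?_
    rw [ex (el 0 1 1 _) (by simp [el]) (by simp [el]) (by simp [el]),
      ex (el 1 0 1ᵀ z) (by rw [el_ne n10.symm, a])
        (by rw [el_same, a, b, transpose_one, one_mulVec, vec_two]) (by rw [el_ne n21, c])]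
    exact h0
  have sG : ∀ z : Cb m, z 0 ⬝ᵥ e = 1 → z 1 = e → z 2 = 0 → P 2 (Pi.single 0 e) z := by
    intro z a b c
    refine hs 1 1 0 (vecMulVec e (z 0 + e)) _ _ n10 (by rw [cdot_single, a]) ?_
    rw [ex (el 1 0 _ _) (by simp [el]) (by
      rw [el_same, Pi.single_eq_same, vecMulVec_mulVec, add_dotProduct, a, ee,
        CharTwo.add_self_eq_zero]
      simp) (by simp [el])]
    refine sH _ ?_ (by rw [el_ne n10, b]) (by rw [el_ne n20, c])
    rw [el_same, b, transpose_vecMulVec, vecMulVec_mulVec, ee]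
    simp [← add_assoc, vec_two]
  have z0 : ∀ a : m → ZMod 2, a ⬝ᵥ e = 1 → a ≠ 0 := by
    rintro a ha rfl
    simp at ha
  have sF : ∀ z : Cb m, z 0 ⬝ᵥ e = 1 → z 2 = 0 → P 3 (Pi.single 0 e) z := by
    intro z a c
    obtain ⟨M, hM⟩ := exists_mulVec (z0 _ a) (z 1 + e)
    refine hs 2 0 1 Mᵀ _ _ n10.symm (by rw [cdot_single, a]) ?_
    rw [ex (el 0 1 _ _) (by simp [el]) (by simp [el]) (by simp [el])]
    refine sG _ (by rw [el_ne n10.symm, a]) ?_ (by rw [el_ne n21, c])
    rw [el_same, transpose_transpose, hM, ← add_assoc, vec_two, zero_add]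
  have sE : ∀ z : Cb m, cdot z (Pi.single 0 e) = 1 → P 4 (Pi.single 0 e) z := by
    intro z a'
    have a := a'
    rw [cdot_single] at a
    obtain ⟨M, hM⟩ := exists_mulVec (z0 _ a) (z 2)
    refine hs 3 0 2 Mᵀ _ _ n20.symm a' ?_
    rw [ex (el 0 2 _ _) (by simp [el]) (by simp [el]) (by simp [el])]
    refine sF _ (by rw [el_ne n20.symm, a]) ?_
    rw [el_same, transpose_transpose, hM, vec_two]
  have sD : ∀ x z : Cb m, cdot z x = 1 → x 0 = e → x 1 = 0 → P 5 x z := by
    intro x z h a b
    obtain ⟨M, hM⟩ := exists_mulVec e0 (x 2)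
    refine hs 4 2 0 M _ _ n20 h ?_
    have := cdot_el_el n20 M z x
    rw [ex (el 2 0 M x) (by rw [el_ne n20.symm, a]) (by rw [el_ne n21.symm, b])
      (by rw [el_same, a, hM, vec_two])] at this ⊢
    exact sE _ (this.trans h)
  have sC : ∀ x z : Cb m, cdot z x = 1 → x 0 = e → P 6 x z := by
    intro x z h a
    obtain ⟨M, hM⟩ := exists_mulVec e0 (x 1)
    exact hs 5 1 0 M _ _ n10 h (sD _ _ ((cdot_el_el n10 M z x).trans h)
      (by rw [el_ne n10.symm, a]) (by rw [el_same, a, hM, vec_two]))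
  have sB : ∀ x z : Cb m, cdot z x = 1 → x 1 ≠ 0 → P 7 x z := by
    intro x z h a
    obtain ⟨M, hM⟩ := exists_mulVec a (x 0 + e)
    exact hs 6 0 1 M _ _ n10.symm h (sC _ _ ((cdot_el_el n10.symm M z x).trans h)
      (by rw [el_same, hM, ← add_assoc, vec_two, zero_add]))
  by_cases h1 : x 1 = 0
  · have hx : x ≠ 0 := by
      rintro rfl
      rw [form_cdot.zero_right] at hxz
      exact zero_ne_one hxz
    obtain ⟨j, hj⟩ := Function.ne_iff.mp hx
    have hj1 : 1 ≠ j := by
      rintro rfl
      exact hj h1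
    exact hs 7 1 j 1 _ _ hj1 hxz (sB _ _ ((cdot_el_el hj1 1 z x).trans hxz)
      (by rwa [el_same, h1, one_mulVec, zero_add]))
  · exact hs 7 1 0 0 _ _ n10 hxz (sB _ _ ((cdot_el_el n10 0 z x).trans hxz)
      (by rwa [el_same, zero_mulVec, add_zero]))

/-- a pair of commuting elementary transformations -/
def el2 (i j k : Fin 3) (n : Matrix m m (ZMod 2) × Matrix m m (ZMod 2)) : Cb m → Cb m :=
  el i k n.1 ∘ el j k n.2

theorem el_zero (i j : Fin 3) : el i j (0 : Matrix m m (ZMod 2)) = id := by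
  funext x
  simp [el]

theorem el2_apply {i j k : Fin 3} (hjk : j ≠ k) (n : Matrix m m (ZMod 2) × Matrix m m (ZMod 2))
    (x : Cb m) :
    el2 i j k n x = x + Pi.single j (n.2 *ᵥ x k) + Pi.single i (n.1 *ᵥ x k) := by
  simp [el2, el, hjk.symm]

theorem so_el2 {i j k : Fin 3} (hik : i ≠ k) (hjk : j ≠ k)
    (n : Matrix m m (ZMod 2) × Matrix m m (ZMod 2)) : SO (pm (el2 i j k n)) := by
  rw [el2, pm_comp]
  exact (so_el hik _).mul (so_el hjk _)

variable {V : Type} [NormedAddCommGroup V] [InnerProductSpace ℂ V]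

theorem MatRep.comm_pm {W : Type} [AddCommGroup W] [Fintype W] [DecidableEq W] (R : MatRep W V)
    {a b c d : W → W} (ha : SO (pm a)) (hb : SO (pm b)) (hc : SO (pm c)) (hd : SO (pm d))
    (h : a ∘ b = c ∘ d) (v : V) : R.ρ (pm a) (R.ρ (pm b) v) = R.ρ (pm c) (R.ρ (pm d) v) := by
  have e1 := R.mul _ _ ha hb
  rw [← pm_comp, h, pm_comp, R.mul _ _ hc hd] at e1
  exact (congrArg (fun T : V →L[ℂ] V => T v) e1).symm

theorem el_move (R : MatRep (Cb m) V) (g : Bool → Matrix m m (ZMod 2))
    (hg : ∀ a b, ∃ w, wd g w = single a b 1) {v : V} {ε : ℝ}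
    (h1 : ∀ i j, i ≠ j → R.N v (pm (el i j 1)) ≤ ε)
    (h2 : ∀ i j b, i ≠ j → R.N v (pm (el i j (g b))) ≤ ε) {i k : Fin 3} (hik : i ≠ k)
    (M : Matrix m m (ZMod 2)) : R.N v (pm (el i k M)) ≤ 34 * ε := by
  obtain ⟨j, hij, hjk⟩ : ∃ j, i ≠ j ∧ j ≠ k := by revert i k; decide
  have hπ : TwoRep fun n => R.ρ (pm (el2 i j k n)) := by
    refine ⟨fun n => Prod.ext (mat_two _) (mat_two _), ?_, fun a b => ?_,
      fun n v => R.norm _ (so_el2 hik hjk n) v⟩
    · simp only [el2, Prod.fst_zero, Prod.snd_zero, el_zero, Function.id_comp, pm_id, R.one]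
    · rw [← R.mul _ _ (so_el2 hik hjk a) (so_el2 hik hjk b), ← pm_comp]
      congr 2
      funext x
      simp only [Function.comp, el2_apply hjk, Pi.add_apply, Pi.single_eq_of_ne hik.symm,
        Pi.single_eq_of_ne hjk.symm, add_zero, Prod.fst_add, Prod.snd_add, add_mulVec,
        Pi.single_add]
      abel
  have hgen : ∀ (ψ : AddChar (Matrix m m (ZMod 2) × Matrix m m (ZMod 2)) ℂ)
      (i : Matrix m m (ZMod 2) →+ Matrix m m (ZMod 2) × Matrix m m (ZMod 2)),
      (∀ w, ψ (i (wd g w)) = 1) → ∀ M, ψ (i M) = 1 := by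
    intro ψ i h M
    induction M using Matrix.induction_on' with
    | h_zero => simp
    | h_add p q hp hq => rw [map_add, ψ.map_add_eq_mul, hp, hq, one_mul]
    | h_std_basis a b c =>
      rcases zmod2_cases c with rfl | rfl
      · simp
      · obtain ⟨w, hw⟩ := hg a b
        rw [← hw, h]
  have key := relT (g := g) hπ (AddMonoidHom.inl _ _) (AddMonoidHom.inr _ _)
    (fun r => (AddMonoidHom.fst _ _ + (AddMonoidHom.mulLeft r).comp (AddMonoidHom.snd _ _)).prod
      (AddMonoidHom.snd _ _))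
    (fun r => (AddMonoidHom.fst _ _).prod
      (AddMonoidHom.snd _ _ + (AddMonoidHom.mulLeft r).comp (AddMonoidHom.fst _ _)))
    (fun r => R.ρ (pm (el i j r))) (fun r => R.ρ (pm (el j i r)))
    (fun r v => R.norm _ (so_el hij r) v)
    (fun r n => by simp [add_assoc, mat_two])
    (fun r n v => R.comm_pm (so_el hij r) (so_el2 hik hjk _) (so_el2 hik hjk _) (so_el hij r) (by
      funext x
      simp [el2_apply hjk, el, hik.symm, hij.symm, mulVec_add, add_mulVec,
        Pi.single_add]
      abel) v)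
    (fun r x => by simp) (fun r y => by simp)
    (fun r v => R.norm _ (so_el hij.symm r) v)
    (fun r n => by simp [add_assoc, mat_two])
    (fun r n v => R.comm_pm (so_el hij.symm r) (so_el2 hik hjk _) (so_el2 hik hjk _)
      (so_el hij.symm r) (by
      funext x
      simp [el2_apply hjk, el, hjk.symm, hij, mulVec_add, add_mulVec,
        Pi.single_add]
      abel) v)
    (fun r x => by simp) (fun r y => by simp)
    (fun ψ ⟨n, hn⟩ => by
      by_contra hc
      push Not at hc
      apply hn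
      have := ψ.map_add_eq_mul (AddMonoidHom.inl _ _ n.1) (AddMonoidHom.inr _ _ n.2)
      rw [hgen ψ _ hc.1, hgen ψ _ hc.2] at this
      simpa using this)
    (h1 i j hij) (fun b => h2 i j b hij)
    (by simpa [el2, el_zero, MatRep.N] using h1 i k hik) (h1 j i hij.symm) (fun b => h2 j i b hij.symm)
    (by simpa [el2, el_zero, MatRep.N] using h1 j k hjk) (M, 0)
  simpa [el2, el_zero, MatRep.N] using key

/-- shift and corner matrices -/
def gen2 (s : ℕ) : Bool → Matrix (ZMod (s + 1)) (ZMod (s + 1)) (ZMod 2)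
  | true => of fun a b => if a = b + 1 then 1 else 0
  | false => single 0 0 1

theorem gen2_single (s : ℕ) (a b : ZMod (s + 1)) : ∃ w, wd (gen2 s) w = single a b 1 := by
  have h1 : ∀ n : ℕ, ∃ w, wd (gen2 s) w = single 0 (-n : ZMod (s + 1)) 1 := by
    intro n
    induction n with
    | zero => exact ⟨[false], by simp [wd, gen2]⟩
    | succ n ih =>
      obtain ⟨w, hw⟩ := ih
      refine ⟨w ++ [true], ?_⟩
      rw [wd] at hw
      rw [wd, List.map_append, List.prod_append, hw]
      ext u v
      simp only [gen2, List.map_cons, List.map_nil, List.prod_cons, List.prod_nil, mul_one,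
        mul_apply, of_apply, mul_ite, mul_zero, Finset.sum_ite_eq', Finset.mem_univ, if_true,
        single_apply]
      refine if_congr (and_congr_right fun _ => ?_) rfl rfl
      push_cast
      constructor <;> intro h <;> linear_combination h
  have h2 : ∀ n : ℕ, ∃ w, wd (gen2 s) w = single (n : ZMod (s + 1)) b 1 := by
    intro n
    induction n with
    | zero =>
      obtain ⟨k, hk⟩ := ZMod.natCast_zmod_surjective (-b)
      simpa [hk] using h1 k
    | succ n ih =>
      obtain ⟨w, hw⟩ := ih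
      refine ⟨true :: w, ?_⟩
      rw [wd_cons, hw]
      ext u v
      have : ∀ c : ZMod (s + 1), u = c + 1 ↔ c = u - 1 := fun c => by
        constructor <;> intro h <;> linear_combination -h
      simp only [gen2, mul_apply, of_apply, ite_mul, one_mul, zero_mul, this, Finset.sum_ite_eq',
        Finset.mem_univ, if_true, single_apply]
      refine if_congr (and_congr_left fun _ => ?_) rfl rfl
      push_cast
      constructor <;> intro h <;> linear_combination h
  obtain ⟨k, rfl⟩ := ZMod.natCast_zmod_surjective a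
  exact h2 k

theorem card_cb (s : ℕ) : Fintype.card (Cb (ZMod (s + 1))) = 8 ^ (s + 1) := by
  simp only [Cb, Fintype.card_fun, ZMod.card, Fintype.card_fin]
  rw [← pow_mul, mul_comm, pow_mul]
  norm_num

theorem hasKaz_cube : ∃ C : ℝ, 0 ≤ C ∧ ∀ s, HasKaz (Cb (ZMod (s + 1))) 33 C := by
  classical
  obtain ⟨C, hC, h⟩ := su2_kaz
  refine ⟨26 * (C + 544), by positivity, fun s => ?_⟩
  set e : ZMod (s + 1) → ZMod 2 := Pi.single 0 1 with he
  have ee : e ⬝ᵥ e = 1 := by simp [he]
  set p0 : Cb (ZMod (s + 1)) × Cb (ZMod (s + 1)) := (Pi.single 0 e, Pi.single 0 e) with hp0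
  set q0 : Cb (ZMod (s + 1)) × Cb (ZMod (s + 1)) := (Pi.single 0 e + Pi.single 1 e, Pi.single 1 e)
    with hq0
  have hp : cdot p0.2 p0.1 = 1 := by simp [hp0, cdot_single, ee]
  have hq : cdot q0.2 q0.1 = 1 := by simp [hq0, form_cdot.add, cdot_single, ee]
  have hpq : cdot p0.2 q0.1 + cdot q0.2 p0.1 = 1 := by
    simp [hp0, hq0, form_cdot.add, cdot_single, ee]
  have hQ := form_cdot.qhom hp hq hpq
  refine ⟨(Finset.univ.image fun a => qmap (pl cdot p0) (pl cdot q0) (sg a)) ∪
    (Finset.univ.image fun c : Fin 3 × Fin 3 × Option Bool => if c.1 = c.2.1 then 1 else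
      pm (el c.1 c.2.1 (c.2.2.elim 1 (gen2 s)))), ?_, ?_, ?_⟩
  · refine (Finset.card_union_le _ _).trans ?_
    refine (add_le_add Finset.card_image_le Finset.card_image_le).trans ?_
    simp
  · intro g hg
    rcases Finset.mem_union.mp hg with hg | hg
    · obtain ⟨a, -, rfl⟩ := Finset.mem_image.mp hg
      exact hQ.so (norm_sg a)
    · obtain ⟨c, -, rfl⟩ := Finset.mem_image.mp hg
      split_ifs with hc
      · exact SO.one
      · exact so_el hc _
  · intro V _ _ _ R v ε hε hs g hg
    have h1 : ∀ i j (o : Option Bool), i ≠ j → R.N v (pm (el i j (o.elim 1 (gen2 s)))) ≤ ε := by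
      intro i j o hij
      refine hs _ (Finset.mem_union_right _ (Finset.mem_image.mpr ⟨(i, j, o), Finset.mem_univ _,
        ?_⟩))
      simp [hij]
    have h2 := fun i k (hik : i ≠ k) M => el_move R (gen2 s) (gen2_single s)
      (fun i j hij => h1 i j none hij) (fun i j b hij => h1 i j (some b) hij) hik M
    have h3 : ∀ t, R.N v (rot (pl cdot p0) t) ≤ C * ε := by
      intro t
      rw [← qmap_circ (pl cdot q0) (form_cdot.pl_sq hp)]
      exact h V (R.toQ hQ) v ε (fun a => hs _ (Finset.mem_union_left _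
        (Finset.mem_image_of_mem _ (Finset.mem_univ a)))) _ (norm_circ pure_qi t)
    have h4 := transit 0 (fun n x z => ∀ t, R.N v (rot (pl cdot (x, z)) t) ≤ (C + 68 * n) * ε)
      (by simpa using h3) (by
        intro n i j M x z hij hxz ih t
        have a1 := pm_conj cdot (el_inv hij M) (el_add i j M) (el i j M x) (el j i Mᵀ z) z
          (fun w => (cdot_el_el hij M z w).symm)
        rw [el_inv hij M x] at a1
        have a2 := so_rot (form_cdot.adm (p := (el i j M x, el j i Mᵀ z))
          ((cdot_el_el hij M z x).trans hxz)) t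
        rw [← a1, rot_conj (pm_sq (el_inv hij M))]
        have a3 := R.N_mul v ((so_el hij M).mul a2) (so_el hij M)
        have a4 := R.N_mul v (so_el hij M) a2
        have a5 := h2 i j hij M
        have a6 := ih t
        push_cast
        linarith)
    have h5 := form_cdot.knabe (by
      rw [card_cb, pow_succ]
      have : 0 < 8 ^ s := by positivity
      omega) R v (δ := (C + 544) * ε) (by positivity)
      (fun p hp t => by simpa [show (68 * 8 : ℝ) = 544 by norm_num] using h4 p.1 p.2 hp t) hg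
    linarith

theorem hasKaz_all : ∃ (k : ℕ) (C : ℝ), 0 ≤ C ∧ ∀ n, 3 ≤ n → HasKaz (Fin n) k C := by
  obtain ⟨C1, c1, h1⟩ := hasKaz_three
  obtain ⟨C2, c2, h2⟩ := hasKaz_cube
  refine ⟨256 * 33, 289 * (C1 + C2), by positivity, fun n hn => ?_⟩
  by_cases h8 : n < 8
  · exact (h1.extend c1 (b := 1) one_pos (by simp) (by simpa) (by omega)).mono (by norm_num)
      (by linarith)
  · have a1 := Nat.pow_log_le_self 8 (x := n) (by omega)
    have a2 := Nat.lt_pow_succ_log_self (b := 8) (by norm_num) n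
    obtain ⟨s, hs⟩ : ∃ s, Nat.log 8 n = s + 1 :=
      Nat.exists_eq_succ_of_ne_zero (Nat.log_pos (by norm_num) (by omega)).ne'
    rw [hs] at a1 a2
    have a3 : 0 < 8 ^ s := by positivity
    refine ((h2 s).extend c2 (b := 4 * 8 ^ s) (by omega) ?_ (by rwa [card_cb]) ?_).mono le_rfl
      (by linarith)
    · rw [card_cb, pow_succ]
      omega
    · simp only [Nat.succ_eq_add_one, pow_succ] at a2
      omega

end Pool.Agent.P.MP_839d28_al
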