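import Pool.Agent.P.MP_839d28_al.L2Rep
import Pool.Agent.P.MP_839d28_al.Cube

/-! Padding, density and the special orthogonal group as a compact group. -/

open Matrix MeasureTheory

set_option linter.unusedSectionVars false

namespace Pool.Agent.P.MP_839d28_al

section Pad

variable {G : Type} [Group G]

theorem pad_even (hinf : {g : G | g ≠ g⁻¹}.Infinite) (T : Finset G) (hT : ∀ g ∈ T, g⁻¹ ∈ T)
    (j : ℕ) : ∃ T' : Finset G, T ⊆ T' ∧ (∀ g ∈ T', g⁻¹ ∈ T') ∧ T'.card = T.card + 2 * j := by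
  classical
  induction j with
  | zero => exact ⟨T, subset_rfl, hT, rfl⟩
  | succ j ih =>
    obtain ⟨U, h1, h2, h3⟩ := ih
    obtain ⟨g, hg, hU⟩ := hinf.exists_notMem_finset U
    have hU' : g⁻¹ ∉ U := fun h => hU (by simpa using h2 _ h)
    refine ⟨insert g (insert g⁻¹ U),
      h1.trans ((Finset.subset_insert _ _).trans (Finset.subset_insert _ _)), ?_, ?_⟩
    · intro x hx
      simp only [Finset.mem_insert] at hx ⊢
      rcases hx with rfl | rfl | hx
      · simp
      · simp
      · exact Or.inr (Or.inr (h2 x hx))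
    · rw [Finset.card_insert_of_notMem (by
        rw [Finset.mem_insert]
        exact fun h => h.elim hg hU), Finset.card_insert_of_notMem hU', h3]
      ring

theorem pad (hinf : {g : G | g ≠ g⁻¹}.Infinite) (T : Finset G) {k : ℕ} (hk : T.card ≤ k) :
    ∃ T' : Finset G, (∀ g ∈ T, g ≠ 1 → g ∈ T') ∧ (∀ g ∈ T', g⁻¹ ∈ T') ∧ T'.card = 2 * k + 1 := by
  classical
  set U := (T ∪ T.image (·⁻¹)).erase 1 with hU
  have h1 : ∀ g ∈ T, g ≠ 1 → g ∈ U := fun g hg h => by simp [hU, hg, h]
  have h2 : ∀ g ∈ U, g⁻¹ ∈ U := by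
    intro g hg
    simp only [hU, Finset.mem_erase, Finset.mem_union, Finset.mem_image, ne_eq, inv_eq_one,
      _root_.inv_inj] at hg ⊢
    refine ⟨hg.1, ?_⟩
    rcases hg.2 with h | ⟨a, ha, rfl⟩
    · exact Or.inr ⟨g, h, rfl⟩
    · exact Or.inl (by simpa using ha)
  have h3 : U.card ≤ 2 * k := by
    have := Finset.card_erase_le (s := T ∪ T.image (·⁻¹)) (a := 1)
    have := Finset.card_union_le T (T.image (·⁻¹))
    have := Finset.card_image_le (s := T) (f := (·⁻¹))
    rw [hU]
    omega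
  rcases Nat.even_or_odd' U.card with ⟨a, ha | ha⟩
  · obtain ⟨T', b1, b2, b3⟩ := pad_even hinf (insert 1 U) (by
      intro g hg
      rcases Finset.mem_insert.mp hg with rfl | hg
      · simp
      · exact Finset.mem_insert_of_mem (h2 g hg)) (k - a)
    refine ⟨T', fun g hg h => b1 (Finset.mem_insert_of_mem (h1 g hg h)), b2, ?_⟩
    rw [b3, Finset.card_insert_of_notMem (by simp [hU])]
    omega
  · obtain ⟨T', b1, b2, b3⟩ := pad_even hinf U h2 (k - a)
    exact ⟨T', fun g hg h => b1 (h1 g hg h), b2, by omega⟩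

variable [TopologicalSpace G] [IsTopologicalGroup G] [MeasurableSpace G] [BorelSpace G]

theorem dense_of_gap (ν : Measure G) [IsProbabilityMeasure ν] [ν.IsOpenPosMeasure] (S : Finset G)
    (hS : ∀ g ∈ S, g⁻¹ ∈ S) {ε : ℝ} (hε : 0 < ε)
    (h : ∀ f : G → ℝ, MemLp f 2 ν → ∫ x, f x ∂ν = 0 →
      ∑ s ∈ S, ∫ x, f (s * x) * f x ∂ν ≤ (S.card - ε) * ∫ x, f x ^ 2 ∂ν) :
    Dense (Submonoid.closure (S : Set G) : Set G) := by
  intro g0
  by_contra hg
  have hc : Continuous fun p : G × G => p.1 * p.2⁻¹ := by fun_prop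
  have h1 := hc.continuousAt (x := (g0, 1)).preimage_mem_nhds
    (isClosed_closure.isOpen_compl.mem_nhds (by simpa using hg))
  obtain ⟨Y, B, oY, mY, oB, mB, hYB⟩ := mem_nhds_prod_iff'.mp h1
  set U := ⋃ m ∈ Submonoid.closure (S : Set G), (fun x => m⁻¹ * x) ⁻¹' B with hU
  have oU : IsOpen U := isOpen_biUnion fun m _ => oB.preimage (by fun_prop)
  have i1 : ∀ s ∈ S, ∀ x ∈ U, s * x ∈ U := by
    intro s hs x hx
    obtain ⟨m, hm, hx⟩ := Set.mem_iUnion₂.mp hx
    exact Set.mem_iUnion₂.mpr ⟨s * m, mul_mem (Submonoid.subset_closure hs) hm, by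
      simpa [mul_assoc] using hx⟩
  have i2 : ∀ s ∈ S, ∀ x, s * x ∈ U ↔ x ∈ U := fun s hs x =>
    ⟨fun hx => by simpa using i1 _ (hS s hs) _ hx, i1 s hs x⟩
  have p1 : 0 < ν.real U := ENNReal.toReal_pos (oU.measure_ne_zero ν
    ⟨1, Set.mem_iUnion₂.mpr ⟨1, one_mem _, by simpa using mB⟩⟩) (measure_ne_top _ _)
  have p2 : ν.real U < 1 := by
    have a1 : 0 < ν.real Y := ENNReal.toReal_pos (oY.measure_ne_zero ν ⟨g0, mY⟩)
      (measure_ne_top _ _)
    have a2 : ν.real Y ≤ ν.real Uᶜ := by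
      refine measureReal_mono fun y hy hy' => ?_
      obtain ⟨m, hm, hx⟩ := Set.mem_iUnion₂.mp hy'
      exact hYB (Set.mk_mem_prod hy hx) (subset_closure (by simpa using hm))
    rw [probReal_compl_eq_one_sub oU.measurableSet] at a2
    linarith
  have m1 : MemLp (U.indicator fun _ => (1 : ℝ)) 2 ν := (memLp_const 1).indicator oU.measurableSet
  have m2 : Integrable (U.indicator fun _ => (1 : ℝ)) ν := m1.integrable one_le_two
  have := h (fun x => U.indicator (fun _ => 1) x - ν.real U) (m1.sub (memLp_const _)) (by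
    rw [integral_sub m2 (integrable_const _), integral_indicator_const _ oU.measurableSet]
    simp)
  rw [Finset.sum_congr rfl (g := fun _ => ∫ x, (U.indicator (fun _ => (1 : ℝ)) x - ν.real U) ^ 2 ∂ν)
    (fun s hs => by
      congr 1
      ext x
      classical
      simp only [Set.indicator_apply, i2 s hs, sq])] at this
  have e : ∫ x, (U.indicator (fun _ => (1 : ℝ)) x - ν.real U) ^ 2 ∂ν =
      ν.real U * (1 - ν.real U) := by
    have : ∀ x, (U.indicator (fun _ => (1 : ℝ)) x - ν.real U) ^ 2 =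
        (1 - 2 * ν.real U) * U.indicator (fun _ => (1 : ℝ)) x + ν.real U ^ 2 := by
      intro x
      by_cases hx : x ∈ U <;> simp [hx]
      ring
    simp only [this]
    rw [integral_add (m2.const_mul _) (integrable_const _), integral_const_mul,
      integral_indicator_const _ oU.measurableSet]
    simp
    ring
  rw [e, Finset.sum_const, nsmul_eq_mul] at this
  have p3 := mul_pos hε (mul_pos p1 (sub_pos.mpr p2))
  linarith

end Pad

variable {ι : Type} [Fintype ι] [DecidableEq ι]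

/-- the special orthogonal group -/
def SOG (ι : Type) [Fintype ι] [DecidableEq ι] : Type := {x : ι → ι → ℝ // SO (of x)}

instance : Group (SOG ι) where
  mul a b := ⟨of.symm (of a.1 * of b.1), a.2.mul b.2⟩
  one := ⟨of.symm 1, SO.one⟩
  inv a := ⟨of.symm (of a.1)ᵀ, a.2.transpose⟩
  mul_assoc a b c := Subtype.ext (Matrix.mul_assoc (of a.1) (of b.1) (of c.1))
  one_mul a := Subtype.ext (Matrix.one_mul (of a.1))
  mul_one a := Subtype.ext (Matrix.mul_one (of a.1))
  inv_mul_cancel a := Subtype.ext a.2.1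

/-- the inclusion into matrices -/
def inc (ι : Type) [Fintype ι] [DecidableEq ι] : SOG ι →* Matrix ι ι ℝ where
  toFun a := of a.1
  map_one' := rfl
  map_mul' _ _ := rfl

theorem emb_inc : Emb (inc ι) where
  inj _ _ h := Subtype.ext h
  so g := g.2
  surj A hA := ⟨⟨of.symm A, hA⟩, rfl⟩

instance : MetricSpace (SOG ι) := inferInstanceAs (MetricSpace {x : ι → ι → ℝ // SO (of x)})
instance : SecondCountableTopology (SOG ι) :=
  inferInstanceAs (SecondCountableTopology {x : ι → ι → ℝ // SO (of x)})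
instance : MeasurableSpace (SOG ι) :=
  inferInstanceAs (MeasurableSpace {x : ι → ι → ℝ // SO (of x)})
instance : BorelSpace (SOG ι) := inferInstanceAs (BorelSpace {x : ι → ι → ℝ // SO (of x)})

theorem continuous_inc : Continuous (inc ι) := continuous_subtype_val

instance : IsTopologicalGroup (SOG ι) where
  continuous_mul := Continuous.subtype_mk
    ((continuous_inc.comp continuous_fst).matrix_mul (continuous_inc.comp continuous_snd)) _
  continuous_inv := Continuous.subtype_mk continuous_inc.matrix_transpose _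

theorem isClosed_so : IsClosed {x : ι → ι → ℝ | SO (of x)} := by
  have hc : Continuous fun x : ι → ι → ℝ => (of x : Matrix ι ι ℝ) := continuous_id
  exact (isClosed_eq (hc.matrix_transpose.matrix_mul hc) continuous_const).inter
    (isClosed_eq hc.matrix_det continuous_const)

instance : CompactSpace (SOG ι) := by
  refine isCompact_iff_compactSpace.mp (Metric.isCompact_of_isClosed_isBounded isClosed_so ?_)
  refine (Metric.isBounded_closedBall (x := 0) (r := 1)).subset fun x hx => ?_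
  rw [mem_closedBall_zero_iff, pi_norm_le_iff_of_nonneg zero_le_one]
  intro i
  rw [pi_norm_le_iff_of_nonneg zero_le_one]
  intro j
  have h1 := congrFun (congrFun hx.1 j) j
  simp only [mul_apply, transpose_apply, of_apply, one_apply_eq] at h1
  have h2 := Finset.single_le_sum (f := fun l => x l j * x l j) (fun _ _ => mul_self_nonneg _)
    (Finset.mem_univ i)
  rw [Real.norm_eq_abs, ← sq_le_one_iff_abs_le_one]
  linarith

/-- the underlying array -/
def vl (a : SOG ι) : ι → ι → ℝ := a.1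

theorem emb_vl : MeasurableEmbedding (vl : SOG ι → ι → ι → ℝ) :=
  MeasurableEmbedding.subtype_coe isClosed_so.measurableSet

theorem range_vl : Set.range (vl : SOG ι → ι → ι → ℝ) = {x | SO (of x)} := Subtype.range_coe

theorem infinite_sog {a b : ι} (hab : a ≠ b) : {g : SOG ι | g ≠ g⁻¹}.Infinite := by
  refine Set.Infinite.of_image (fun g => (inc ι g - (inc ι g)ᵀ) a b)
    ((Set.Ioo_infinite (zero_lt_two (α := ℝ))).mono fun y hy => ?_)
  obtain ⟨g, hg⟩ := emb_inc.surj _ (so_rot (adm_giv hab) (Real.arcsin (y / 2)))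
  have e : (inc ι g - (inc ι g)ᵀ) a b = y := by
    rw [hg, rot_transpose (adm_giv hab)]
    simp [rot, Real.sin_arcsin (x := y / 2) (by linarith [hy.1]) (by linarith [hy.2]), giv, hab,
      hab.symm]
  refine ⟨g, fun h => ?_, e⟩
  rw [← emb_inc.inv, ← h, sub_self] at e
  exact hy.1.ne e

theorem gap_all : ∃ ε : ℝ, 0 < ε ∧ ∃ k : ℕ, 0 < k ∧ ∀ n : ℕ, 3 ≤ n →
    ∃ S : Finset (SOG (Fin n)), S.card = k ∧ (∀ g ∈ S, g⁻¹ ∈ S) ∧
      ∀ (ν : Measure (SOG (Fin n))) [IsProbabilityMeasure ν] [ν.IsMulLeftInvariant]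
        (f : SOG (Fin n) → ℝ), MemLp f 2 ν → ∫ x, f x ∂ν = 0 →
        ∑ s ∈ S, ∫ x, f (s * x) * f x ∂ν ≤ (S.card - ε) * ∫ x, f x ^ 2 ∂ν := by
  obtain ⟨k, C, hC, h⟩ := hasKaz_all
  refine ⟨((C + 1) ^ 2)⁻¹, by positivity, 2 * k + 1, by omega, fun n hn => ?_⟩
  obtain ⟨S, h1, h2, h3⟩ := (h n hn).mono le_rfl (le_add_of_nonneg_right zero_le_one)
  obtain ⟨T, t1, t2, t3⟩ := pad (infinite_sog (a := (⟨0, by omega⟩ : Fin n)) (b := ⟨1, by omega⟩)
    (by simp)) (S.preimage (inc _) emb_inc.inj.injOn) (k := k)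
    ((Finset.card_le_card_of_injOn (inc _) (fun g hg => by simpa using hg)
      emb_inc.inj.injOn).trans h1)
  refine ⟨T, t3, t2, fun ν _ _ f hf h0 => ?_⟩
  have := gap_real ν emb_inc continuous_inc h2 h3 T
    (fun g hg => t1 g (Finset.mem_preimage.mpr hg)) hf h0
  have hp : 0 < (C + 1) ^ 2 := by positivity
  refine le_of_mul_le_mul_left (this.trans_eq ?_) hp
  field_simp

end Pool.Agent.P.MP_839d28_al
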