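import Pool.Agent.P.MP_839d28_al.MatRep

/-! Givens rotations and bounded generation by block subgroups. -/

open Matrix

namespace Pool.Agent.P.MP_839d28_al

variable {ι : Type} [Fintype ι] [DecidableEq ι]

/-- infinitesimal rotation in a coordinate plane -/
def giv (a b : ι) : Matrix ι ι ℝ := single a b 1 - single b a 1

theorem giv_sq {a b : ι} (hab : a ≠ b) : giv a b * giv a b = -(single a a 1 + single b b 1) := by
  simp [giv, sub_mul, mul_sub, single_mul_single_of_ne _ _ _ _ hab,
    single_mul_single_of_ne _ _ _ _ hab.symm]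
  abel

theorem adm_giv {a b : ι} (hab : a ≠ b) : Adm (giv a b) := by
  refine ⟨by simp [giv, transpose_single], ?_⟩
  rw [giv_sq hab]
  simp [giv, sub_mul, mul_add, single_mul_single_of_ne _ _ _ _ hab,
    single_mul_single_of_ne _ _ _ _ hab.symm]
  abel

theorem rot_giv_mul {a b : ι} (hab : a ≠ b) (t : ℝ) (g : Matrix ι ι ℝ) (i j : ι) :
    (rot (giv a b) t * g) i j = if i = a then Real.cos t * g a j + Real.sin t * g b j
      else if i = b then Real.cos t * g b j - Real.sin t * g a j else g i j := by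
  rw [rot, giv_sq hab]
  simp only [giv, add_mul, sub_mul, smul_mul_assoc, neg_mul, one_mul, Matrix.add_apply,
    Matrix.smul_apply, Matrix.sub_apply, Matrix.neg_apply, smul_eq_mul]
  split_ifs with h1 h2
  · subst h1
    simp [hab]
    ring
  · subst h2
    simp [hab.symm]
    ring
  · simp [h1, h2]

/-- `h` is the identity outside of `T` -/
def Supp (T : Set ι) (h : Matrix ι ι ℝ) : Prop :=
  ∀ i j, i ∉ T ∨ j ∉ T → h i j = (1 : Matrix ι ι ℝ) i j

theorem Supp.row {T : Set ι} {h : Matrix ι ι ℝ} (hh : Supp T h) (g : Matrix ι ι ℝ) {i : ι}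
    (hi : i ∉ T) (j : ι) : (h * g) i j = g i j := by
  simp [mul_apply, hh i _ (Or.inl hi), one_apply]

theorem Supp.col {T : Set ι} {h : Matrix ι ι ℝ} (hh : Supp T h) (g : Matrix ι ι ℝ) {j : ι}
    (hj : j ∉ T) (i : ι) : (g * h) i j = g i j := by
  simp [mul_apply, hh _ j (Or.inr hj), one_apply]

theorem Supp.mul {T : Set ι} {g h : Matrix ι ι ℝ} (hg : Supp T g) (hh : Supp T h) :
    Supp T (g * h) := by
  rintro i j (hi | hj)
  · rw [hg.row h hi, hh i j (Or.inl hi)]
  · rw [hh.col g hj, hg i j (Or.inr hj)]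

omit [Fintype ι] in
theorem Supp.mono {T T' : Set ι} {h : Matrix ι ι ℝ} (hh : Supp T h) (hT : T ⊆ T') : Supp T' h :=
  fun i j hij => hh i j (hij.imp (fun h h' => h (hT h')) fun h h' => h (hT h'))

theorem supp_rot_giv {T : Set ι} {a b : ι} (hab : a ≠ b) (ha : a ∈ T) (hb : b ∈ T) (t : ℝ) :
    Supp T (rot (giv a b) t) := by
  intro i j hij
  rw [← mul_one (rot (giv a b) t), rot_giv_mul hab]
  rcases hij with hi | hj
  · rw [if_neg (by rintro rfl; exact hi ha), if_neg (by rintro rfl; exact hi hb)]
  · have h1 : a ≠ j := by rintro rfl; exact hj ha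
    have h2 : b ≠ j := by rintro rfl; exact hj hb
    split_ifs with h h'
    · simp [h, h1, h2]
    · simp [h', h1, h2]
    · rfl

/-- products of Givens rotations inside `T` -/
inductive Gen (T : Set ι) : Matrix ι ι ℝ → Prop
  | one : Gen T 1
  | step (a b : ι) (t : ℝ) (h : Matrix ι ι ℝ) : a ≠ b → a ∈ T → b ∈ T → Gen T h →
      Gen T (rot (giv a b) t * h)

theorem Gen.mul {T : Set ι} {g h : Matrix ι ι ℝ} (hg : Gen T g) (hh : Gen T h) : Gen T (g * h) := by
  induction hg with
  | one => rwa [one_mul]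
  | step a b t k hab ha hb _ ih => rw [mul_assoc]; exact Gen.step a b t _ hab ha hb ih

theorem Gen.mono {T T' : Set ι} {g : Matrix ι ι ℝ} (hg : Gen T g) (hT : T ⊆ T') : Gen T' g := by
  induction hg with
  | one => exact Gen.one
  | step a b t k hab ha hb _ ih => exact Gen.step a b t _ hab (hT ha) (hT hb) ih

theorem Gen.so {T : Set ι} {g : Matrix ι ι ℝ} (hg : Gen T g) : SO g := by
  induction hg with
  | one => exact SO.one
  | step a b t k hab ha hb _ ih => exact (so_rot (adm_giv hab) t).mul ih

theorem Gen.supp {T : Set ι} {g : Matrix ι ι ℝ} (hg : Gen T g) : Supp T g := by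
  induction hg with
  | one => exact fun _ _ _ => rfl
  | step a b t k hab ha hb _ ih => exact (supp_rot_giv hab ha hb t).mul ih

theorem exists_angle (x y : ℝ) :
    ∃ t, Real.cos t * y - Real.sin t * x = 0 ∧ 0 ≤ Real.cos t * x + Real.sin t * y := by
  set z : ℂ := ⟨x, y⟩
  have h1 : ‖z‖ * Real.cos z.arg = x := Complex.norm_mul_cos_arg z
  have h2 : ‖z‖ * Real.sin z.arg = y := Complex.norm_mul_sin_arg z
  refine ⟨z.arg, by rw [← h1, ← h2]; ring, ?_⟩
  have : Real.cos z.arg * x + Real.sin z.arg * y = ‖z‖ := by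
    linear_combination -Real.cos z.arg * h1 - Real.sin z.arg * h2 +
      ‖z‖ * Real.cos_sq_add_sin_sq z.arg
  rw [this]
  positivity

theorem col_zero (g : Matrix ι ι ℝ) (c a : ι) (B : Finset ι) (haB : a ∉ B) :
    ∃ h, Gen (insert a (B : Set ι)) h ∧ (∀ j ∈ B, (h * g) j c = 0) ∧
      (B.Nonempty → 0 ≤ (h * g) a c) := by
  induction B using Finset.induction_on with
  | empty => exact ⟨1, Gen.one, by simp, by simp⟩
  | insert b B hb ih =>
    rw [Finset.mem_insert, not_or] at haB
    obtain ⟨h, h1, h2, -⟩ := ih haB.2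
    obtain ⟨t, t1, t2⟩ := exists_angle ((h * g) a c) ((h * g) b c)
    refine ⟨rot (giv a b) t * h, Gen.step a b t h haB.1 (by simp) (by simp)
      (h1.mono (Set.insert_subset_insert (by simp))), ?_, ?_⟩
    · intro j hj
      rw [mul_assoc, rot_giv_mul haB.1]
      rcases Finset.mem_insert.mp hj with rfl | hj'
      · rw [if_neg (Ne.symm haB.1), if_pos rfl, t1]
      · rw [if_neg (by rintro rfl; exact haB.2 hj'), if_neg (by rintro rfl; exact hb hj'),
          h2 j hj']
    · intro _
      rwa [mul_assoc, rot_giv_mul haB.1, if_pos rfl]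

theorem qr (A : Finset ι) : ∀ (T : Finset ι), A ⊆ T → ∀ g : Matrix ι ι ℝ,
    ∃ h, Gen (T : Set ι) h ∧ ∀ i ∈ A, ∀ j ∈ T, j ∉ A → (h * g) j i = 0 := by
  induction A using Finset.induction_on with
  | empty => exact fun T _ g => ⟨1, Gen.one, by simp⟩
  | insert a A ha ih =>
    intro T hT g
    have haT : a ∈ T := hT (Finset.mem_insert_self _ _)
    obtain ⟨h1, g1, z1, -⟩ := col_zero g a a (T.erase a) (Finset.notMem_erase _ _)
    rw [← Finset.coe_insert, Finset.insert_erase haT] at g1
    obtain ⟨h2, g2, z2⟩ := ih (T.erase a) (fun x hx => Finset.mem_erase.mpr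
      ⟨by rintro rfl; exact ha hx, hT (Finset.mem_insert_of_mem hx)⟩) (h1 * g)
    refine ⟨h2 * h1, (g2.mono (by simp)).mul g1, ?_⟩
    intro i hi j hj hjA
    rw [Finset.mem_insert, not_or] at hjA
    have hj' := Finset.mem_erase.mpr ⟨hjA.1, hj⟩
    rw [mul_assoc]
    rcases Finset.mem_insert.mp hi with rfl | hi
    · rw [mul_apply]
      refine Finset.sum_eq_zero fun l _ => ?_
      by_cases hl : l ∈ T.erase i
      · rw [z1 l hl, mul_zero]
      · rw [g2.supp j l (Or.inr hl), one_apply_ne (by rintro rfl; exact hl hj'), zero_mul]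
    · exact z2 i hi j hj' hjA.2

theorem row_of_col {g : Matrix ι ι ℝ} (hg : gᵀ * g = 1) {i : ι}
    (h : ∀ j, g j i = (1 : Matrix ι ι ℝ) j i) (j : ι) : g i j = (1 : Matrix ι ι ℝ) i j := by
  rw [← hg]
  simp [mul_apply, h, one_apply]

theorem exact_cols (A : Finset ι) : ∀ (T : Finset ι), A ⊆ T → (∃ j ∈ T, j ∉ A) →
    ∀ g : Matrix ι ι ℝ, SO g → (∀ i ∈ A, ∀ j ∉ T, g j i = 0) →
    ∃ h, Gen (T : Set ι) h ∧ ∀ i ∈ A, ∀ j, (h * g) j i = (1 : Matrix ι ι ℝ) j i := by
  induction A using Finset.induction_on with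
  | empty => exact fun T _ _ g _ _ => ⟨1, Gen.one, by simp⟩
  | insert a A ha ih =>
    rintro T hT ⟨j0, hj0, hj0A⟩ g hg hz
    rw [Finset.mem_insert, not_or] at hj0A
    have haT : a ∈ T := hT (Finset.mem_insert_self _ _)
    have hj0' := Finset.mem_erase.mpr ⟨hj0A.1, hj0⟩
    obtain ⟨h1, g1, z1, p1⟩ := col_zero g a a (T.erase a) (Finset.notMem_erase _ _)
    rw [← Finset.coe_insert, Finset.insert_erase haT] at g1
    have so1 := g1.so.mul hg
    have c0 : ∀ j, j ≠ a → (h1 * g) j a = 0 := by
      intro j hj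
      by_cases hjT : j ∈ T
      · exact z1 j (Finset.mem_erase.mpr ⟨hj, hjT⟩)
      · rw [g1.supp.row g hjT, hz a (Finset.mem_insert_self _ _) j hjT]
    have c1 : (h1 * g) a a = 1 := by
      have := congrFun (congrFun so1.1 a) a
      rw [mul_apply, Finset.sum_eq_single a (fun j _ hj => by rw [c0 j hj, mul_zero]) (by simp),
        transpose_apply, one_apply_eq] at this
      nlinarith [p1 ⟨j0, hj0'⟩]
    have c2 : ∀ j, (h1 * g) j a = (1 : Matrix ι ι ℝ) j a := by
      intro j
      by_cases hj : j = a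
      · rw [hj, c1, one_apply_eq]
      · rw [c0 j hj, one_apply_ne hj]
    obtain ⟨h2, g2, z2⟩ := ih (T.erase a) (fun x hx => Finset.mem_erase.mpr
      ⟨by rintro rfl; exact ha hx, hT (Finset.mem_insert_of_mem hx)⟩) ⟨j0, hj0', hj0A.2⟩
      (h1 * g) so1 (by
        intro i hi j hj
        by_cases hja : j = a
        · rw [hja, row_of_col so1.1 c2, one_apply_ne (by rintro rfl; exact ha hi)]
        · have hjT : j ∉ T := fun h => hj (Finset.mem_erase.mpr ⟨hja, h⟩)
          rw [g1.supp.row g hjT, hz i (Finset.mem_insert_of_mem hi) j hjT])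
    refine ⟨h2 * h1, (g2.mono (by simp)).mul g1, ?_⟩
    intro i hi j
    rw [mul_assoc]
    rcases Finset.mem_insert.mp hi with rfl | hi
    · rw [← g2.supp j i (Or.inr (by simp)), mul_apply]
      simp [c2, one_apply]
    · exact z2 i hi j

theorem gen_all {g : Matrix ι ι ℝ} (hg : SO g) : ∃ h, Gen Set.univ h ∧ h * g = 1 := by
  rcases isEmpty_or_nonempty ι with hι | ⟨⟨j0⟩⟩
  · exact ⟨1, Gen.one, Subsingleton.elim _ _⟩
  obtain ⟨h, h1, h2⟩ := exact_cols (Finset.univ.erase j0) Finset.univ (Finset.subset_univ _)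
    ⟨j0, by simp, by simp⟩ g hg (by simp)
  refine ⟨h, by simpa using h1, ?_⟩
  have so := h1.so.mul hg
  set m := h * g
  have e : m = diagonal (Function.update 1 j0 (m j0 j0)) := by
    ext i j
    by_cases hj : j = j0
    · by_cases hi : i = j0
      · simp [hi, hj]
      · rw [row_of_col so.1 (h2 i (by simpa using hi)), hj, one_apply_ne hi, diagonal_apply_ne _ hi]
    · rw [h2 j (by simpa using hj)]
      by_cases hij : i = j
      · subst hij
        simp [hj]
      · simp [hij]
  have d := so.2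
  rw [e, det_diagonal, Finset.prod_update_of_mem (Finset.mem_univ _)] at d
  simp only [Pi.one_apply, Finset.prod_const_one, mul_one] at d
  rw [e, d]
  simp

theorem block_bound (c : ι → ℕ) (N : Matrix ι ι ℝ → ℝ) {δ : ℝ} (hδ : 0 ≤ δ)
    (hN : ∀ g h, SO g → SO h → N g ≤ N h + N (h * g))
    (H : ∀ t t' g, SO g → Supp {i | c i = t ∨ c i = t'} g → N g ≤ δ) (r : ℕ) :
    ∀ g, SO g → Supp {i | c i < r} g → N g ≤ (r + 1) ^ 2 * δ := by
  induction r with
  | zero =>
    intro g hg hs
    simpa using H 0 0 g hg (hs.mono (by simp))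
  | succ r ih =>
    intro g hg hs
    set A := Finset.univ.filter fun i => c i = r with hA
    have key : ∀ s ≤ r, ∃ g', SO g' ∧ Supp {i | c i < r + 1} g' ∧ N g ≤ s * δ + N g' ∧
        ∀ i ∈ A, ∀ j, c j < s → g' j i = 0 := by
      intro s
      induction s with
      | zero => exact fun _ => ⟨g, hg, hs, by simp, by simp⟩
      | succ s ihs =>
        intro hsr
        obtain ⟨g', a1, a2, a3, a4⟩ := ihs (by omega)
        obtain ⟨h, b1, b2⟩ := qr A (Finset.univ.filter fun i => c i = r ∨ c i = s)
          (fun i hi => by simp only [hA, Finset.mem_filter] at hi ⊢; tauto) g'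
        have b3 : Supp {i | c i = r ∨ c i = s} h := by simpa using b1.supp
        refine ⟨h * g', b1.so.mul a1, (b3.mono fun i hi => ?_).mul a2, ?_, ?_⟩
        · simp only [Set.mem_ofPred_eq] at hi ⊢; omega
        · have := hN g' h a1 b1.so
          have := H r s h b1.so b3
          push_cast
          linarith
        · intro i hi j hj
          by_cases hjs : c j = s
          · exact b2 i hi j (by simp [hjs]) (by simp only [hA, Finset.mem_filter]; omega)
          · rw [b3.row g' (by simp only [Set.mem_ofPred_eq]; omega), a4 i hi j (by omega)]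
    by_cases hex : ∃ j0, c j0 < r
    · obtain ⟨j0, hj0⟩ := hex
      obtain ⟨g', a1, a2, a3, a4⟩ := key r le_rfl
      obtain ⟨h, b1, b2⟩ := exact_cols A (insert j0 A) (Finset.subset_insert _ _)
        ⟨j0, Finset.mem_insert_self _ _, by simp only [hA, Finset.mem_filter]; omega⟩ g' a1 (by
          intro i hi j hj
          simp only [hA, Finset.mem_insert, Finset.mem_filter, Finset.mem_univ, true_and,
            not_or] at hi hj
          by_cases hjr : c j < r
          · exact a4 i (by simp [hA, hi]) j hjr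
          · rw [a2 j i (Or.inl (by simp only [Set.mem_ofPred_eq]; omega)),
              one_apply_ne (by rintro rfl; omega)])
      have b3 : Supp {i | c i = r ∨ c i = c j0} h := b1.supp.mono fun i hi => by
        simp only [hA, Finset.coe_insert, Set.mem_insert_iff, Finset.mem_coe, Finset.mem_filter,
          Set.mem_ofPred_eq] at hi ⊢
        rcases hi with rfl | hi
        · exact Or.inr rfl
        · exact Or.inl hi.2
      have so := b1.so.mul a1
      have b4 : Supp {i | c i < r + 1} (h * g') := (b3.mono fun i hi => by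
        simp only [Set.mem_ofPred_eq] at hi ⊢; omega).mul a2
      have b5 : Supp {i | c i < r} (h * g') := by
        rintro i j (hi | hj)
        · by_cases hir : c i = r
          · exact row_of_col so.1 (b2 i (by simp [hA, hir])) j
          · exact b4 i j (Or.inl (by simp only [Set.mem_ofPred_eq] at hi ⊢; omega))
        · by_cases hjr : c j = r
          · exact b2 j (by simp [hA, hjr]) i
          · exact b4 i j (Or.inr (by simp only [Set.mem_ofPred_eq] at hj ⊢; omega))
      have := ih _ so b5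
      have := hN g' h a1 b1.so
      have := H _ _ h b1.so b3
      have : (0 : ℝ) ≤ r * δ := by positivity
      push_cast
      nlinarith
    · push Not at hex
      have := H r r g hg (hs.mono fun i hi => by
        have := hex i
        simp only [Set.mem_ofPred_eq] at hi ⊢; omega)
      have h1 : (1 : ℝ) ≤ ((r + 1 : ℕ) + 1) ^ 2 := by
        have : (0 : ℝ) ≤ (r + 1 : ℕ) := by positivity
        nlinarith
      nlinarith

variable {V : Type} [NormedAddCommGroup V] [InnerProductSpace ℂ V]

theorem MatRep.fix_of_giv (R : MatRep ι V) {v : V} (hv : ∀ a b, a ≠ b → R.D (giv a b) v = 0)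
    {g : Matrix ι ι ℝ} (hg : SO g) : R.ρ g v = v := by
  obtain ⟨h, h1, h2⟩ := gen_all hg
  have h3 : R.N v h ≤ 0 := by
    clear h2
    induction h1 with
    | one => exact (R.N_one v).le
    | step a b t k hab _ _ hk ih =>
      have := R.N_mul v (so_rot (adm_giv hab) t) hk.so
      have e : R.N v (rot (giv a b) t) = 0 := by
        rw [MatRep.N, (R.oneParam (adm_giv hab)).fix (hv a b hab), sub_self, norm_zero]
      linarith
  have := R.N_le v hg h1.so
  rw [h2, R.N_one] at this
  exact sub_eq_zero.mp (norm_le_zero_iff.mp (this.trans (by linarith)))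

end Pool.Agent.P.MP_839d28_al
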