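import Pool.Agent.P.MP_839d28_al.QRep

/-! Haar measure on the unit quaternions, a covering bound and Schur's estimate. -/

open scoped Quaternion
open MeasureTheory

namespace Pool.Agent.P.MP_839d28_al

/-- unit quaternions -/
abbrev S3 : Type := Metric.sphere (0 : ℍ) 1

instance : ProperSpace ℍ :=
  haveI : FiniteDimensional ℝ ℍ := Quaternion.linearIsometryEquivTuple.symm.toLinearEquiv.finiteDimensional
  FiniteDimensional.proper_real ℍ

noncomputable instance : MeasurableSpace S3 := borel _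
instance : BorelSpace S3 := ⟨rfl⟩

theorem S3.norm (g : S3) : ‖(g : ℍ)‖ = 1 := by simp

/-- Haar probability measure -/
noncomputable def mu3 : Measure S3 := Measure.haarMeasure ⊤

instance : IsProbabilityMeasure mu3 := ⟨by
  have := Measure.haarMeasure_self (G := S3) (K₀ := ⊤)
  simpa [mu3] using this⟩

instance : mu3.IsMulLeftInvariant := by unfold mu3; infer_instance

theorem cont_int {E : Type} [NormedAddCommGroup E] {f : S3 → E} (hf : Continuous f) :
    Integrable f mu3 :=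
  hf.integrable_of_hasCompactSupport (HasCompactSupport.of_compactSpace f)

theorem int_left {E : Type} [NormedAddCommGroup E] [NormedSpace ℝ E] (f : ℍ → E) {h : ℍ}
    (hh : ‖h‖ = 1) : ∫ g : S3, f (h * g) ∂mu3 = ∫ g : S3, f g ∂mu3 :=
  integral_mul_left_eq_self (μ := mu3) (fun g : S3 => f g) ⟨h, by simpa using hh⟩

theorem int_cs {f g : S3 → ℝ} (hf : Continuous f) (hg : Continuous g) :
    (∫ x, f x * g x ∂mu3) ^ 2 ≤ (∫ x, f x ^ 2 ∂mu3) * ∫ x, g x ^ 2 ∂mu3 := by
  have := discrim_le_zero (a := ∫ x, f x ^ 2 ∂mu3) (b := 2 * ∫ x, f x * g x ∂mu3)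
    (c := ∫ x, g x ^ 2 ∂mu3) fun t => by
      have h1 : 0 ≤ ∫ x, (t * f x + g x) ^ 2 ∂mu3 := integral_nonneg fun x => sq_nonneg _
      have h2 : ∀ x, (t * f x + g x) ^ 2 = t * t * f x ^ 2 + 2 * t * (f x * g x) + g x ^ 2 :=
        fun x => by ring
      simp only [h2] at h1
      rw [integral_add (cont_int (by fun_prop)) (cont_int (by fun_prop)),
        integral_add (cont_int (by fun_prop)) (cont_int (by fun_prop)), integral_const_mul,
        integral_const_mul] at h1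
      linarith
  rw [discrim] at this
  linarith

theorem cap_close {η : ℝ} {g g' : ℍ} (hg : ‖g‖ = 1) (hg' : ‖g'‖ = 1) (h1 : 1 / 2 ≤ g.re)
    (h2 : 1 / 2 ≤ g'.re) (a1 : |g.imI - g'.imI| ≤ η) (a2 : |g.imJ - g'.imJ| ≤ η)
    (a3 : |g.imK - g'.imK| ≤ η) : ‖g - g'‖ ≤ 7 * η := by
  have hη : 0 ≤ η := (abs_nonneg _).trans a1
  rw [qnorm_eq_one] at hg hg'
  have b : ∀ x y : ℝ, x ^ 2 ≤ 1 → y ^ 2 ≤ 1 → |x - y| ≤ η → |x ^ 2 - y ^ 2| ≤ 2 * η := by
    intro x y hx hy h
    have : |x + y| ≤ 2 := by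
      rw [sq_le_one_iff_abs_le_one] at hx hy
      linarith [abs_add_le x y]
    rw [sq_sub_sq, abs_mul]
    exact mul_le_mul this h (abs_nonneg _) (by norm_num)
  have s := fun x : ℝ => sq_nonneg x
  have b1 := abs_le.mp (b g.imI g'.imI (by linarith [s g.re, s g.imJ, s g.imK])
    (by linarith [s g'.re, s g'.imJ, s g'.imK]) a1)
  have b2 := abs_le.mp (b g.imJ g'.imJ (by linarith [s g.re, s g.imI, s g.imK])
    (by linarith [s g'.re, s g'.imI, s g'.imK]) a2)
  have b3 := abs_le.mp (b g.imK g'.imK (by linarith [s g.re, s g.imJ, s g.imI])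
    (by linarith [s g'.re, s g'.imJ, s g'.imI]) a3)
  have a0 : |g.re - g'.re| ≤ 6 * η := by
    have e : |g.re - g'.re| * (g.re + g'.re) ≤ 6 * η := by
      rw [← abs_of_nonneg (show 0 ≤ g.re + g'.re by linarith), ← abs_mul, abs_le]
      constructor <;> nlinarith
    nlinarith [abs_nonneg (g.re - g'.re)]
  refine le_of_sq_le_sq ?_ (by positivity)
  rw [qnorm_sq]
  simp only [Quaternion.re_sub, Quaternion.imI_sub, Quaternion.imJ_sub, Quaternion.imK_sub]
  have c0 := sq_le_sq' (abs_le.mp a0).1 (abs_le.mp a0).2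
  have c1 := sq_le_sq' (abs_le.mp a1).1 (abs_le.mp a1).2
  have c2 := sq_le_sq' (abs_le.mp a2).1 (abs_le.mp a2).2
  have c3 := sq_le_sq' (abs_le.mp a3).1 (abs_le.mp a3).2
  nlinarith

theorem cap_cover {M : ℕ} (hM : 1 ≤ M) : ∃ Y : Finset ℍ, Y.card ≤ (15 * M) ^ 3 ∧
    (∀ y ∈ Y, ‖y‖ = 1) ∧ ∀ g : ℍ, ‖g‖ = 1 → 1 / 2 ≤ g.re → ∃ y ∈ Y, ‖g - y‖ ≤ 1 / M := by
  classical
  let f : ℍ → ℤ × ℤ × ℤ := fun g => (⌊7 * M * g.imI⌋, ⌊7 * M * g.imJ⌋, ⌊7 * M * g.imK⌋)
  let rep : ℤ × ℤ × ℤ → ℍ := fun c =>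
    if h : ∃ g : ℍ, ‖g‖ = 1 ∧ 1 / 2 ≤ g.re ∧ f g = c then h.choose else 1
  set I := Finset.Icc (-(7 * M : ℤ)) (7 * M) with hI
  have hM' : (0 : ℝ) < M := by exact_mod_cast hM
  refine ⟨(I ×ˢ I ×ˢ I).image rep, ?_, ?_, ?_⟩
  · refine Finset.card_image_le.trans ?_
    have cI : I.card ≤ 15 * M := by rw [hI, Int.card_Icc]; omega
    rw [Finset.card_product, Finset.card_product]
    calc _ ≤ (15 * M) * ((15 * M) * (15 * M)) := by gcongr
      _ = _ := by ring
  · intro y hy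
    obtain ⟨c, -, rfl⟩ := Finset.mem_image.mp hy
    simp only [rep]
    split_ifs with h
    · exact h.choose_spec.1
    · exact norm_one
  · intro g hg hre
    have h : ∃ g' : ℍ, ‖g'‖ = 1 ∧ 1 / 2 ≤ g'.re ∧ f g' = f g := ⟨g, hg, hre, rfl⟩
    refine ⟨rep (f g), Finset.mem_image_of_mem _ ?_, ?_⟩
    · have hq := qnorm_eq_one.mp hg
      have k : ∀ x : ℝ, x ^ 2 ≤ 1 → ⌊7 * M * x⌋ ∈ I := by
        intro x hx
        rw [sq_le_one_iff_abs_le_one, abs_le] at hx
        rw [hI, Finset.mem_Icc]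
        constructor
        · rw [Int.le_floor]; push_cast; nlinarith
        · have : ((⌊7 * M * x⌋ : ℤ) : ℝ) ≤ ((7 * M : ℤ) : ℝ) := by
            refine (Int.floor_le _).trans ?_
            push_cast; nlinarith
          exact_mod_cast this
      have s := fun x : ℝ => sq_nonneg x
      simp only [f, Finset.mem_product]
      exact ⟨k _ (by linarith [s g.re, s g.imJ, s g.imK]),
        k _ (by linarith [s g.re, s g.imI, s g.imK]), k _ (by linarith [s g.re, s g.imJ, s g.imI])⟩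
    · simp only [rep, dif_pos h]
      obtain ⟨n1, n2, n3⟩ := h.choose_spec
      set g' := h.choose
      simp only [f, Prod.mk.injEq] at n3
      have k : ∀ x y : ℝ, ⌊7 * M * y⌋ = ⌊7 * M * x⌋ → |x - y| ≤ 1 / (7 * M) := by
        intro x y hxy
        have := Int.abs_sub_lt_one_of_floor_eq_floor hxy.symm
        rw [← mul_sub, abs_mul, abs_of_pos (by positivity : (0 : ℝ) < 7 * M)] at this
        rw [le_div_iff₀ (by positivity)]
        linarith
      have := cap_close hg n1 hre n2 (k _ _ n3.1) (k _ _ n3.2.1) (k _ _ n3.2.2)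
      calc _ ≤ _ := this
        _ = _ := by field_simp

theorem sphere_cover {M : ℕ} (hM : 1 ≤ M) : ∃ Y : Finset ℍ, Y.card ≤ 8 * (15 * M) ^ 3 ∧
    (∀ y ∈ Y, ‖y‖ = 1) ∧ ∀ g : ℍ, ‖g‖ = 1 → ∃ y ∈ Y, ‖y * g - 1‖ ≤ 1 / M := by
  classical
  obtain ⟨Y, h1, h2, h3⟩ := cap_cover hM
  let E : Finset ℍ := {1, -1, qi, -qi, qj, -qj, qk, -qk}
  have hE : ∀ e ∈ E, ‖e‖ = 1 := by
    have a1 : ‖qi‖ = 1 := by rw [qnorm_eq_one]; simp
    have a2 : ‖qj‖ = 1 := by rw [qnorm_eq_one]; simp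
    have a3 : ‖qk‖ = 1 := by rw [qnorm_eq_one]; simp
    simp [E, a1, a2, a3]
  have cE : E.card ≤ 8 := by
    simp only [E]
    repeat refine (Finset.card_insert_le _ _).trans (Nat.succ_le_succ ?_)
    simp
  refine ⟨(E ×ˢ Y).image fun p => star p.2 * p.1, ?_, ?_, ?_⟩
  · refine Finset.card_image_le.trans ?_
    rw [Finset.card_product]
    gcongr
  · intro y hy
    obtain ⟨p, hp, rfl⟩ := Finset.mem_image.mp hy
    rw [Finset.mem_product] at hp
    rw [norm_mul, norm_star, h2 _ hp.2, hE _ hp.1, one_mul]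
  · intro g hg
    have : ∃ e ∈ E, 1 / 2 ≤ (e * g).re := by
      by_contra hcon
      push Not at hcon
      simp [E] at hcon
      have hq := qnorm_eq_one.mp hg
      obtain ⟨c1, c2, c3, c4, c5, c6, c7, c8⟩ := hcon
      nlinarith
    obtain ⟨e, he, hre⟩ := this
    obtain ⟨y, hy, hd⟩ := h3 (e * g) (by rw [norm_mul, hE e he, hg, one_mul]) hre
    refine ⟨star y * e, Finset.mem_image.mpr ⟨(e, y), Finset.mem_product.mpr ⟨he, hy⟩, rfl⟩, ?_⟩
    have h1 : star y * y = 1 := by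
      rw [Quaternion.star_mul_self, Quaternion.normSq_eq_norm_mul_self, h2 y hy]; simp
    rwa [← h1, mul_assoc, ← mul_sub, norm_mul, norm_star, h2 y hy, one_mul]

/-- bump function -/
noncomputable def bump (M : ℕ) (g : ℍ) : ℝ := max 0 (1 - M * ‖g - 1‖)

theorem bump_cont (M : ℕ) : Continuous (bump M) := by unfold bump; fun_prop

theorem bump_nonneg (M : ℕ) (g : ℍ) : 0 ≤ bump M g := le_max_left _ _

theorem bump_le_one (M : ℕ) (g : ℍ) : bump M g ≤ 1 :=
  max_le zero_le_one (by have : (0 : ℝ) ≤ M * ‖g - 1‖ := by positivity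
                         linarith)

theorem bump_ne_zero {M : ℕ} {g : ℍ} (h : bump M g ≠ 0) : M * ‖g - 1‖ < 1 := by
  by_contra hc
  push Not at hc
  exact h (max_eq_left (by linarith))

theorem bump_int {M : ℕ} (hM : 1 ≤ M) :
    1 ≤ 16 * (30 * M) ^ 3 * ∫ g : S3, bump M g ∂mu3 := by
  obtain ⟨Y, h1, h2, h3⟩ := sphere_cover (M := 2 * M) (by omega)
  have hM' : (0 : ℝ) < M := by exact_mod_cast hM
  have c : ∀ y : ℍ, Continuous fun g : S3 => bump M (y * g) := fun y =>
    (bump_cont M).comp (by fun_prop)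
  have a1 : ∀ g : S3, (1 / 2 : ℝ) ≤ ∑ y ∈ Y, bump M (y * g) := by
    intro g
    obtain ⟨y, hy, hd⟩ := h3 g (S3.norm g)
    refine le_trans ?_ (Finset.single_le_sum (f := fun y => bump M (y * g))
      (fun y _ => bump_nonneg _ _) hy)
    refine le_trans ?_ (le_max_right _ _)
    have : M * ‖y * g - 1‖ ≤ M * (1 / ((2 * M : ℕ) : ℝ)) := by gcongr
    have e : M * (1 / ((2 * M : ℕ) : ℝ)) = 1 / 2 := by push_cast; field_simp
    linarith
  have a2 := integral_mono (μ := mu3) (integrable_const (1 / 2 : ℝ))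
    (cont_int (continuous_finsetSum Y fun y _ => c y)) a1
  rw [integral_finsetSum _ fun y _ => cont_int (c y),
    Finset.sum_congr rfl fun y hy => int_left (bump M) (h2 y hy)] at a2
  simp only [integral_const, probReal_univ, smul_eq_mul, one_mul, Finset.sum_const,
    nsmul_eq_mul] at a2
  have a3 : 0 ≤ ∫ g : S3, bump M g ∂mu3 := integral_nonneg fun g => bump_nonneg _ _
  have a4 : (Y.card : ℝ) ≤ 8 * (30 * M) ^ 3 := by
    have : (Y.card : ℝ) ≤ ((8 * (15 * (2 * M)) ^ 3 : ℕ) : ℝ) := by exact_mod_cast h1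
    push_cast at this
    linarith
  nlinarith

variable {V : Type} [NormedAddCommGroup V] [InnerProductSpace ℂ V] [FiniteDimensional ℂ V]

namespace QRep

variable (R : QRep V)

theorem cont (v : V) : Continuous fun g : S3 => R.ρ g v := by
  refine (LipschitzWith.of_dist_le_mul
    (K := ⟨12 * Module.finrank ℂ V * ‖v‖, by positivity⟩) fun p q => ?_).continuous
  rw [dist_eq_norm, Subtype.dist_eq, dist_eq_norm]
  refine (R.lip2 (S3.norm p) (S3.norm q) v).trans (le_of_eq ?_)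
  change _ = 12 * (Module.finrank ℂ V : ℝ) * ‖v‖ * _
  ring

/-- irreducibility -/
def Irr : Prop := ∀ W : Submodule ℂ V, (∀ q, ‖q‖ = 1 → ∀ w ∈ W, R.ρ q w ∈ W) → W = ⊥ ∨ W = ⊤

theorem schur (hR : R.Irr) (u w : V) :
    Module.finrank ℂ V * ∫ g : S3, ‖inner ℂ w (R.ρ g u)‖ ^ 2 ∂mu3 = ‖u‖ ^ 2 * ‖w‖ ^ 2 := by
  rcases subsingleton_or_nontrivial V with hV | hV
  · simp [Subsingleton.elim u 0]
  have hc := R.cont u
  have hi : ∀ w : V, Integrable (fun g : S3 => inner ℂ (R.ρ g u) w • R.ρ g u) mu3 := fun w =>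
    cont_int (by fun_prop)
  let T : Module.End ℂ V :=
    { toFun := fun w => ∫ g : S3, inner ℂ (R.ρ g u) w • R.ρ g u ∂mu3
      map_add' := fun a b => by
        simp only [inner_add_right, add_smul]
        exact integral_add (hi a) (hi b)
      map_smul' := fun c a => by
        simp only [inner_smul_right, mul_smul, RingHom.id_apply]
        exact integral_smul c _ }
  have hT : ∀ w, T w = ∫ g : S3, inner ℂ (R.ρ g u) w • R.ρ g u ∂mu3 := fun w => rfl
  have hcomm : ∀ q, ‖q‖ = 1 → ∀ w, T (R.ρ q w) = R.ρ q (T w) := by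
    intro q hq w
    rw [hT, hT, ← (R.ρ q).integral_comp_comm (hi w),
      ← int_left (fun g => inner ℂ (R.ρ g u) (R.ρ q w) • R.ρ g u) hq]
    refine integral_congr_ae (Filter.Eventually.of_forall fun g => ?_)
    simp only [R.mul q g hq (S3.norm g), map_smul]
    change inner ℂ (R.ρ q (R.ρ g u)) (R.ρ q w) • R.ρ q (R.ρ g u) = _
    rw [inner_map_of_norm (R.norm q hq)]
  obtain ⟨τ, hτ⟩ := Module.End.exists_eigenvalue T
  have htop : T.eigenspace τ = ⊤ := by
    refine (hR _ fun q hq w hw => ?_).resolve_left hτ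
    rw [Module.End.mem_eigenspace_iff] at hw ⊢
    rw [hcomm q hq, hw, map_smul]
  have hw : ∀ w, ∫ g : S3, ‖inner ℂ w (R.ρ g u)‖ ^ 2 ∂mu3 = τ.re * ‖w‖ ^ 2 := by
    intro w
    have h1 : T w = τ • w := Module.End.mem_eigenspace_iff.mp (htop ▸ Submodule.mem_top)
    have h2 := congrArg (fun x => (inner ℂ w x).re) h1
    simp only [hT] at h2
    rw [← integral_inner (hi w), inner_smul_right, inner_self_eq_norm_sq_to_K] at h2
    have h3 : ∀ g : S3, inner ℂ w (inner ℂ (R.ρ g u) w • R.ρ g u) =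
        ((‖inner ℂ w (R.ρ g u)‖ ^ 2 : ℝ) : ℂ) := by
      intro g
      rw [inner_smul_right, ← inner_conj_symm (R.ρ g u) w, Complex.conj_mul']
      simp
    simp only [h3, integral_complex_ofReal, Complex.ofReal_re] at h2
    rw [h2]
    simp [← Complex.ofReal_pow]
  have b := stdOrthonormalBasis ℂ V
  have h4 : ∑ i, ∫ g : S3, ‖inner ℂ (b i) (R.ρ g u)‖ ^ 2 ∂mu3 = ‖u‖ ^ 2 := by
    rw [← integral_finsetSum _ fun i _ => cont_int (by fun_prop)]
    simp only [b.sum_sq_norm_inner_right, R.norm _ (S3.norm _)]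
    simp
  simp only [hw, b.orthonormal.1, Finset.sum_const, Finset.card_univ, Fintype.card_fin,
    nsmul_eq_mul] at h4
  rw [hw, ← h4]
  ring

end QRep

end Pool.Agent.P.MP_839d28_al
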