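import Pool.Agent.P.MP_839d28_al.Final

/-! Transfer of spectral estimates to measures on arrays. -/

open Matrix MeasureTheory

namespace Pool.Agent.P.MP_839d28_al

theorem to_array {n : ℕ} (S : Finset (SOG (Fin n))) (Q : ℝ → ℝ → Prop)
    (h : ∀ (ν : Measure (SOG (Fin n))) [IsProbabilityMeasure ν] [ν.IsMulLeftInvariant]
      (f : SOG (Fin n) → ℝ), MemLp f 2 ν → ∫ x, f x ∂ν = 0 →
        Q (∑ s ∈ S, ∫ x, f (s * x) * f x ∂ν) (∫ x, f x ^ 2 ∂ν))
    (μ : Measure (Fin n → Fin n → ℝ)) (_ : IsProbabilityMeasure μ)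
    (m1 : μ {x | ¬ ((Matrix.of x).transpose * Matrix.of x = 1 ∧ (Matrix.of x).det = 1)} = 0)
    (m2 : ∀ g : Matrix (Fin n) (Fin n) ℝ, g.transpose * g = 1 → g.det = 1 →
      μ.map (fun x : Fin n → Fin n → ℝ => fun i j => ∑ l, g i l * x l j) = μ)
    (f : (Fin n → Fin n → ℝ) → ℝ) (hf : MemLp f 2 μ) (h0 : ∫ x, f x ∂μ = 0) :
    Q (∑ s ∈ S.image (inc _), ∫ x, f (fun i j => ∑ l, s i l * x l j) * f x ∂μ)
      (∫ x, f x ^ 2 ∂μ) := by
  have he := emb_vl (ι := Fin n)
  set ν : Measure (SOG (Fin n)) := μ.comap vl with hν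
  have e1 : ν.map vl = μ := by
    rw [hν, he.map_comap, Measure.restrict_eq_self_of_ae_mem]
    rw [range_vl]
    exact m1
  have : IsProbabilityMeasure ν := ⟨by
    rw [← Set.preimage_univ (f := (vl : SOG (Fin n) → _)), ← he.map_apply, e1, measure_univ]⟩
  have : ν.IsMulLeftInvariant := ⟨fun g => by
    refine he.map_injective ?_
    have hm : Measurable fun x : Fin n → Fin n → ℝ => fun i j => ∑ l, inc _ g i l * x l j := by
      fun_prop
    rw [Measure.map_map he.measurable (measurable_const_mul g), e1]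
    refine Eq.trans ?_ (m2 (inc _ g) g.2.1 g.2.2)
    rw [← e1, Measure.map_map hm he.measurable]
    rfl⟩
  rw [← e1] at hf h0 ⊢
  rw [he.memLp_map_measure_iff] at hf
  rw [he.integral_map] at h0
  rw [Finset.sum_image emb_inc.inj.injOn]
  simp only [he.integral_map]
  exact h ν _ hf h0

theorem gap_of_kaz {ι : Type} [Fintype ι] [DecidableEq ι] (S : Finset (SOG ι)) {C : ℝ}
    (hC : 0 < C) (h : Kaz (S.image (inc ι)) C) (ν : Measure (SOG ι)) [IsProbabilityMeasure ν]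
    [ν.IsMulLeftInvariant] (f : SOG ι → ℝ) (hf : MemLp f 2 ν) (h0 : ∫ x, f x ∂ν = 0) :
    ∑ s ∈ S, ∫ x, f (s * x) * f x ∂ν ≤ (S.card - (C ^ 2)⁻¹) * ∫ x, f x ^ 2 ∂ν := by
  have := gap_real ν emb_inc continuous_inc (fun s hs => by
    obtain ⟨g, -, rfl⟩ := Finset.mem_image.mp hs
    exact emb_inc.so g) h S (fun g hg _ => by
      obtain ⟨g', hg', e⟩ := Finset.mem_image.mp hg
      exact emb_inc.inj e ▸ hg') hf h0
  have hp : 0 < C ^ 2 := by positivity
  refine le_of_mul_le_mul_left (this.trans_eq ?_) hp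
  field_simp

theorem dense_of_kaz {ι : Type} [Fintype ι] [DecidableEq ι] (S : Finset (SOG ι))
    (hS : ∀ g ∈ S, g⁻¹ ∈ S) {C : ℝ} (hC : 0 < C) (h : Kaz (S.image (inc ι)) C) :
    Dense (Submonoid.closure (S : Set (SOG ι)) : Set (SOG ι)) := by
  have : IsProbabilityMeasure (Measure.haarMeasure (⊤ : TopologicalSpace.PositiveCompacts
      (SOG ι))) := ⟨Measure.haarMeasure_self⟩
  exact dense_of_gap (Measure.haarMeasure ⊤) S hS (by positivity) (gap_of_kaz S hC h _)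

end Pool.Agent.P.MP_839d28_al
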