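import Pool.Agent.P.MP_839d28_al.Large

/-! Spectral gap for the six quaternions of norm five. -/

open scoped Quaternion
open MeasureTheory

namespace Pool.Agent.P.MP_839d28_al

noncomputable def al5 : ℝ := Real.arccos (√5)⁻¹

theorem cos_al5 : Real.cos al5 = (√5)⁻¹ := by
  have h : (1 : ℝ) ≤ √5 := Real.one_le_sqrt.mpr (by norm_num)
  have h0 : (0 : ℝ) ≤ (√5)⁻¹ := by positivity
  exact Real.cos_arccos (by linarith) (inv_le_one_of_one_le₀ h)

theorem sin_al5 : Real.sin al5 = (√5)⁻¹ * 2 := by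
  have h5 : (√5 : ℝ) ^ 2 = 5 := Real.sq_sqrt (by norm_num)
  rw [al5, Real.sin_arccos, Real.sqrt_eq_iff_mul_self_eq (by rw [inv_pow, h5]; norm_num)
    (by positivity), inv_pow, h5]
  have : (√5 : ℝ)⁻¹ * 2 * ((√5)⁻¹ * 2) = ((√5 : ℝ) ^ 2)⁻¹ * 4 := by ring
  rw [this, h5]; norm_num

theorem irr_al5 : Irrational (al5 / (2 * Real.pi)) := by
  rintro ⟨r, hr⟩
  have h5 : (√5 : ℝ) ^ 2 = 5 := Real.sq_sqrt (by norm_num)
  have hc : Real.cos (2 * al5) = -3 / 5 := by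
    rw [Real.cos_two_mul, cos_al5, inv_pow, h5]; norm_num
  have := niven (θ := 2 * al5) ⟨4 * r, by
    push_cast
    rw [hr]
    field_simp
    ring⟩ ⟨-3 / 5, by rw [hc]; norm_num⟩
  rw [hc] at this
  norm_num at this

theorem dense_al5 {η : ℝ} (hη : 0 < η) : ∃ N : ℕ, ∀ θ : ℝ, ∃ n l : ℤ, |n| ≤ N ∧
    |θ - (n * al5 + l * (2 * Real.pi))| ≤ η := by
  have hd := dense_addSubgroupClosure_pair_iff.mpr irr_al5
  let O : ℕ → Set ℝ := fun N => ⋃ n : ℤ, ⋃ _ : |n| ≤ N, ⋃ l : ℤ,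
    Metric.ball (n * al5 + l * (2 * Real.pi)) η
  obtain ⟨N, hN⟩ := (isCompact_Icc (a := (0 : ℝ)) (b := 2 * Real.pi)).elim_directed_cover O
    (fun N => isOpen_iUnion fun _ => isOpen_iUnion fun _ => isOpen_iUnion fun _ =>
      Metric.isOpen_ball)
    (by
      intro θ _
      obtain ⟨y, hy, hyd⟩ := Metric.mem_closure_iff.mp (hd θ) η hη
      obtain ⟨n, l, rfl⟩ := AddSubgroup.mem_closure_pair.mp hy
      simp only [O, Set.mem_iUnion]
      exact ⟨n.natAbs, n, by simp, l, by simpa using hyd⟩)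
    (Monotone.directed_le fun a b hab θ hθ => by
      simp only [O, Set.mem_iUnion] at hθ ⊢
      obtain ⟨n, hn, l, h⟩ := hθ
      exact ⟨n, hn.trans (by exact_mod_cast hab), l, h⟩)
  refine ⟨N, fun θ => ?_⟩
  have hp : 0 < 2 * Real.pi := by positivity
  have h1 := toIcoMod_mem_Ico' hp θ
  have h2 := hN (Set.Ico_subset_Icc_self h1)
  simp only [O, Set.mem_iUnion, Metric.mem_ball, Real.dist_eq] at h2
  obtain ⟨n, hn, l, h⟩ := h2
  refine ⟨n, l + toIcoDiv hp 0 θ, hn, le_of_eq_of_le ?_ h.le⟩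
  rw [toIcoMod, zsmul_eq_mul]
  congr 1
  push_cast
  ring

variable {V : Type} [NormedAddCommGroup V] [InnerProductSpace ℂ V]

theorem OneParam.sub_add_le {U : ℝ → V →L[ℂ] V} {A : V →L[ℂ] V} (h : OneParam U A) (v : V)
    (s t : ℝ) : ‖U (s + t) v - v‖ ≤ ‖U s v - v‖ + ‖U t v - v‖ := by
  rw [h.add, ← h.norm s (U t v - v), map_sub, add_comm]
  exact norm_sub_le_norm_sub_add_norm_sub _ _ _

theorem OneParam.int_mul_le {U : ℝ → V →L[ℂ] V} {A : V →L[ℂ] V} (h : OneParam U A) (v : V)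
    (s : ℝ) (n : ℤ) : ‖U (n * s) v - v‖ ≤ |(n : ℝ)| * ‖U s v - v‖ := by
  have nat : ∀ k : ℕ, ‖U (k * s) v - v‖ ≤ k * ‖U s v - v‖ := by
    intro k
    induction k with
    | zero => simp [h.zero]
    | succ k ih =>
      have := h.sub_add_le v (k * s) s
      push_cast
      rw [add_mul, one_mul]
      linarith
  have neg : ∀ t, ‖U (-t) v - v‖ = ‖U t v - v‖ := by
    intro t
    have := h.add t (-t)
    rw [add_neg_cancel, h.zero] at this
    have e : U t (U (-t) v) = v := (congrArg (fun T : V →L[ℂ] V => T v) this).symm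
    rw [← h.norm t, map_sub, e, norm_sub_rev]
  obtain ⟨k, rfl | rfl⟩ := n.eq_nat_or_neg
  · simpa using nat k
  · simpa [neg] using nat k

theorem OneParam.kq_small [FiniteDimensional ℂ V] {U : ℝ → V →L[ℂ] V} {A : V →L[ℂ] V}
    (h : OneParam U A) (hper : U (2 * Real.pi) = 1) {η : ℝ} {N : ℕ}
    (hN : ∀ θ : ℝ, ∃ n l : ℤ, |n| ≤ N ∧ |θ - (n * al5 + l * (2 * Real.pi))| ≤ η) (v : V) :
    ‖kq A v‖ ≤ η * ‖A v‖ + N * ‖U al5 v - v‖ := by
  have := FiniteDimensional.complete ℂ V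
  obtain ⟨w, hw, hd⟩ := h.exists_near_ker hper (v := v) (δ := η * ‖A v‖ + N * ‖U al5 v - v‖)
    fun θ => by
      obtain ⟨n, l, hn, hl⟩ := hN θ
      have a1 := h.sub_add_le v (θ - (n * al5 + l * (2 * Real.pi))) (n * al5 + l * (2 * Real.pi))
      have a2 := h.sub_add_le v (n * al5) (l * (2 * Real.pi))
      have a3 := h.int_mul_le v al5 n
      have a4 := h.int_mul_le v (2 * Real.pi) l
      have a5 := h.lip v (θ - (n * al5 + l * (2 * Real.pi)))
      rw [sub_add_cancel] at a1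
      rw [hper, one_apply_eq_self, sub_self, norm_zero, mul_zero] at a4
      have a6 : |(n : ℝ)| ≤ N := by exact_mod_cast hn
      have a7 := mul_le_mul_of_nonneg_right a6 (norm_nonneg (U al5 v - v))
      have a8 := mul_le_mul_of_nonneg_right hl (norm_nonneg (A v))
      linarith
  exact (kq_le A v hw).trans hd

theorem sg_zero : sg 0 = circ qi al5 := by
  ext <;> simp [sg, un, gen_re, gen_imI, gen_imJ, gen_imK, cos_al5, sin_al5]
theorem sg_one : sg 1 = circ qj al5 := by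
  ext <;> simp [sg, un, gen_re, gen_imI, gen_imJ, gen_imK, cos_al5, sin_al5]
theorem sg_two : sg 2 = circ qk al5 := by
  ext <;> simp [sg, un, gen_re, gen_imI, gen_imJ, gen_imK, cos_al5, sin_al5]

theorem small_gap (m0 : ℕ) : ∃ c : ℝ, 0 < c ∧ ∀ (V : Type) [NormedAddCommGroup V]
    [InnerProductSpace ℂ V] [FiniteDimensional ℂ V] (R : QRep V), Module.finrank ℂ V ≤ m0 →
    ∀ v : V, (∀ w, (∀ q, ‖q‖ = 1 → R.ρ q w = w) → inner ℂ w v = 0) →
    c * ‖v‖ ^ 2 ≤ ∑ a, ‖R.ρ (sg a) v - v‖ ^ 2 := by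
  obtain ⟨N, hN⟩ := dense_al5 (η := 1 / (12 * m0 + 1)) (by positivity)
  refine ⟨1 / (40 * N ^ 2 + 1), by positivity, fun V _ _ _ R hm v hv => ?_⟩
  have hl := R.su2.lower (v := v) fun w h1 h2 h3 => hv w fun q hq => R.fix_of_ker h1 h2 h3 hq
  have k : ∀ u, Pure u → ‖kq (R.D u) v‖ ^ 2 ≤
      1 / 3 * ‖v‖ ^ 2 + 4 * (N ^ 2 * ‖R.ρ (circ u al5) v - v‖ ^ 2) := by
    intro u hu
    have h1 := (R.oneParam hu).kq_small (by rw [circ_two_pi, R.one]) hN v
    have h2 := R.norm_D_le hu v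
    have h3 : (Module.finrank ℂ V : ℝ) ≤ m0 := by exact_mod_cast hm
    have h4 : 1 / (12 * (m0 : ℝ) + 1) * ‖R.D u v‖ ≤ ‖v‖ / 2 := by
      rw [div_mul_eq_mul_div, div_le_iff₀ (by positivity)]
      nlinarith [norm_nonneg v]
    have h5 : ‖kq (R.D u) v‖ ≤ ‖v‖ / 2 + N * ‖R.ρ (circ u al5) v - v‖ := by linarith
    have h6 := pow_le_pow_left₀ (norm_nonneg _) h5 2
    nlinarith [sq_nonneg (‖v‖ - 6 * (N * ‖R.ρ (circ u al5) v - v‖))]
  have k1 := k qi pure_qi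
  have k2 := k qj pure_qj
  have k3 := k qk pure_qk
  rw [R.D_qi, ← sg_zero] at k1
  rw [R.D_qj, ← sg_one] at k2
  rw [R.D_qk, ← sg_two] at k3
  rw [Fin.sum_univ_six, div_mul_eq_mul_div, div_le_iff₀ (by positivity)]
  have s := fun a => sq_nonneg ‖R.ρ (sg a) v - v‖
  have s' := fun a => mul_nonneg (sq_nonneg (N : ℝ)) (s a)
  nlinarith [s 0, s 1, s 2, s 3, s 4, s 5, s' 3, s' 4, s' 5]

theorem re_inner_le_of_eig [FiniteDimensional ℂ V] {T : V →ₗ[ℂ] V} (hT : T.IsSymmetric) {L : ℝ}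
    (h : ∀ (v : V) (lam : ℝ), ‖v‖ = 1 → T v = (lam : ℂ) • v → lam ≤ L) (v : V) :
    (inner ℂ v (T v)).re ≤ L * ‖v‖ ^ 2 := by
  set b := hT.eigenvectorBasis rfl
  rw [← b.repr.inner_map_map, ← b.repr.norm_map v, EuclideanSpace.norm_sq_eq, PiLp.inner_apply,
    Complex.re_sum, Finset.mul_sum]
  refine Finset.sum_le_sum fun i _ => ?_
  have h1 := h (b i) (hT.eigenvalues rfl i) (b.orthonormal.1 i) (hT.apply_eigenvectorBasis rfl i)
  rw [hT.eigenvectorBasis_apply_self_apply, ← smul_eq_mul, inner_smul_right]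
  have : (inner ℂ (b.repr v i) (b.repr v i)) = ((‖b.repr v i‖ ^ 2 : ℝ) : ℂ) := by
    rw [inner_self_eq_norm_sq_to_K]; simp
  rw [this]
  change ((hT.eigenvalues rfl i : ℂ) * _).re ≤ _
  rw [← Complex.ofReal_mul, Complex.ofReal_re]
  gcongr

theorem irr_gap : ∃ c : ℝ, 0 < c ∧ ∀ (V : Type) [NormedAddCommGroup V]
    [InnerProductSpace ℂ V] [FiniteDimensional ℂ V] (R : QRep V), R.Irr →
    ∀ v : V, (∀ w, (∀ q, ‖q‖ = 1 → R.ρ q w = w) → inner ℂ w v = 0) →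
    c * ‖v‖ ^ 2 ≤ ∑ a, ‖R.ρ (sg a) v - v‖ ^ 2 := by
  obtain ⟨m0, hm0⟩ := exists_large
  obtain ⟨c, hc, hs⟩ := small_gap m0
  refine ⟨min c (1 / 10), by positivity, fun V _ _ _ R hR v hv => ?_⟩
  rcases le_or_gt (Module.finrank ℂ V) m0 with hm | hm
  · exact le_trans (by gcongr; exact min_le_left _ _) (hs V R hm v hv)
  have hA : (R.A : V →ₗ[ℂ] V).IsSymmetric := by
    intro x y
    simp only [ContinuousLinearMap.coe_coe, R.A_apply, sum_inner, inner_sum,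
      R.inner_left (norm_sg _), star_sg]
    exact Equiv.sum_comp (Function.Involutive.toPerm bar bar_bar)
      fun a => inner ℂ x (R.ρ (sg a) y)
  have h1 := re_inner_le_of_eig hA (L := 593 / 100) (fun x lam hx hl => by
    by_contra hlt
    push Not at hlt
    exact absurd (hm0 V R hR x lam hx hl hlt.le) (by omega)) v
  have h2 : ∀ a, ‖R.ρ (sg a) v - v‖ ^ 2 = 2 * ‖v‖ ^ 2 - 2 * (inner ℂ v (R.ρ (sg a) v)).re := by
    intro a
    rw [@norm_sub_sq ℂ, R.norm _ (norm_sg a), Su2.re_inner_comm]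
    simp only [RCLike.re_to_complex]
    ring
  simp only [ContinuousLinearMap.coe_coe, R.A_apply, inner_sum, Complex.re_sum] at h1
  simp only [h2, Finset.sum_sub_distrib, ← Finset.mul_sum, Finset.sum_const, Finset.card_univ,
    Fintype.card_fin, nsmul_eq_mul]
  have : min c (1 / 10) * ‖v‖ ^ 2 ≤ 1 / 10 * ‖v‖ ^ 2 := by gcongr; exact min_le_right _ _
  push_cast
  nlinarith [sq_nonneg ‖v‖]

theorem su2_gap : ∃ c : ℝ, 0 < c ∧ ∀ (V : Type) [NormedAddCommGroup V]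
    [InnerProductSpace ℂ V] [FiniteDimensional ℂ V] (R : QRep V),
    ∀ v : V, (∀ w, (∀ q, ‖q‖ = 1 → R.ρ q w = w) → inner ℂ w v = 0) →
    c * ‖v‖ ^ 2 ≤ ∑ a, ‖R.ρ (sg a) v - v‖ ^ 2 := by
  obtain ⟨c, hc, h⟩ := irr_gap
  refine ⟨c, hc, fun V _ _ _ R => ?_⟩
  suffices ∀ (n : ℕ) (W : Submodule ℂ V), Module.finrank ℂ W = n →
      (∀ q, ‖q‖ = 1 → ∀ w ∈ W, R.ρ q w ∈ W) → ∀ v ∈ W,
      (∀ w, (∀ q, ‖q‖ = 1 → R.ρ q w = w) → inner ℂ w v = 0) →
      c * ‖v‖ ^ 2 ≤ ∑ a, ‖R.ρ (sg a) v - v‖ ^ 2 from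
    fun v hv => this _ ⊤ rfl (fun _ _ _ _ => trivial) v trivial hv
  intro n
  induction n using Nat.strong_induction_on with
  | _ n ih =>
  intro W hn hW v hvW hv
  by_cases hirr : ∀ W1 : Submodule ℂ V, W1 ≤ W → (∀ q, ‖q‖ = 1 → ∀ w ∈ W1, R.ρ q w ∈ W1) →
      W1 = ⊥ ∨ W1 = W
  · have hR : (R.restrict W hW).Irr := by
      intro W' hW'
      rcases hirr (W'.map W.subtype) (Submodule.map_subtype_le _ _) (by
        rintro q hq _ ⟨w, hw, rfl⟩
        exact ⟨_, hW' q hq w hw, R.restrict_coe W hW hq w⟩) with h0 | h0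
      · left
        refine Submodule.map_injective_of_injective W.injective_subtype ?_
        rw [h0, Submodule.map_bot]
      · right
        refine Submodule.map_injective_of_injective W.injective_subtype ?_
        rw [h0, Submodule.map_subtype_top]
    have := h W (R.restrict W hW) hR ⟨v, hvW⟩ fun w hw => hv w fun q hq => by
      rw [← R.restrict_coe W hW hq, hw q hq]
    refine le_of_le_of_eq this (Finset.sum_congr rfl fun a _ => ?_)
    rw [Submodule.coe_norm, Submodule.coe_sub, R.restrict_coe W hW (norm_sg a)]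
  push Not at hirr
  obtain ⟨W1, hle, hW1, hne0, hne1⟩ := hirr
  have hW1' : ∀ q, ‖q‖ = 1 → ∀ w ∈ W1ᗮ, R.ρ q w ∈ W1ᗮ := by
    intro q hq w hw x hx
    have := R.inner_left (q := star q) (by rwa [norm_star]) x w
    rw [star_star] at this
    rw [← this]
    exact hw _ (hW1 _ (by rwa [norm_star]) x hx)
  set v1 := W1.starProjection v with hv1
  have m1 : v1 ∈ W1 := W1.starProjection_apply_mem v
  have m2 : v - v1 ∈ W1ᗮ := W1.sub_starProjection_mem_orthogonal v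
  have fixp : ∀ w, (∀ q, ‖q‖ = 1 → R.ρ q w = w) →
      ∀ q, ‖q‖ = 1 → R.ρ q (W1.starProjection w) = W1.starProjection w := by
    intro w hw q hq
    refine (Submodule.eq_starProjection_of_mem_orthogonal
      (hW1 q hq _ (W1.starProjection_apply_mem w)) ?_).symm
    have := hW1' q hq _ (W1.sub_starProjection_mem_orthogonal w)
    rwa [map_sub, hw q hq] at this
  have o1 : ∀ w, (∀ q, ‖q‖ = 1 → R.ρ q w = w) → inner ℂ w v1 = 0 := by
    intro w hw
    rw [hv1, ← W1.inner_starProjection_left_eq_right]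
    exact hv _ (fixp w hw)
  have i1 := ih _ (hn ▸ Submodule.finrank_lt_finrank_of_lt (lt_of_le_of_ne hle hne1)) W1 rfl hW1
    v1 m1 o1
  have hlt : W1ᗮ ⊓ W < W := by
    refine lt_of_le_of_ne inf_le_right fun he => hne0 ?_
    have : W1 ≤ W1ᗮ := hle.trans (he ▸ inf_le_left)
    exact (Submodule.orthogonal_disjoint W1).eq_bot_of_le this
  have i2 := ih _ (hn ▸ Submodule.finrank_lt_finrank_of_lt hlt) (W1ᗮ ⊓ W) rfl
    (fun q hq w hw => ⟨hW1' q hq w hw.1, hW q hq w hw.2⟩) (v - v1)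
    ⟨m2, W.sub_mem hvW (hle m1)⟩ fun w hw => by rw [inner_sub_right, hv w hw, o1 w hw, sub_zero]
  have e1 : ‖v‖ ^ 2 = ‖v1‖ ^ 2 + ‖v - v1‖ ^ 2 := by
    rw [← Su2.norm_add_sq_orth (m2 v1 m1)]; simp
  have e2 : ∀ a, ‖R.ρ (sg a) v - v‖ ^ 2 =
      ‖R.ρ (sg a) v1 - v1‖ ^ 2 + ‖R.ρ (sg a) (v - v1) - (v - v1)‖ ^ 2 := by
    intro a
    rw [← Su2.norm_add_sq_orth ((W1ᗮ.sub_mem (hW1' _ (norm_sg a) _ m2) m2) _
      (W1.sub_mem (hW1 _ (norm_sg a) _ m1) m1)), map_sub]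
    congr 2
    abel
  simp only [e2, Finset.sum_add_distrib, e1]
  linarith

theorem su2_kaz : ∃ C : ℝ, 0 ≤ C ∧ ∀ (V : Type) [NormedAddCommGroup V]
    [InnerProductSpace ℂ V] [FiniteDimensional ℂ V] (R : QRep V) (v : V) (ε : ℝ),
    (∀ a, ‖R.ρ (sg a) v - v‖ ≤ ε) → ∀ q, ‖q‖ = 1 → ‖R.ρ q v - v‖ ≤ C * ε := by
  obtain ⟨c, hc, h⟩ := su2_gap
  refine ⟨2 * √(6 / c), by positivity, fun V _ _ _ R v ε hε q hq => ?_⟩
  have hε0 : 0 ≤ ε := (norm_nonneg _).trans (hε 0)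
  let K : Submodule ℂ V := R.X.ker ⊓ R.Y.ker ⊓ R.Z.ker
  have hK := K.starProjection_apply_mem v
  set v' := v - K.starProjection v with hv'
  have e : ∀ q, ‖q‖ = 1 → R.ρ q v - v = R.ρ q v' - v' := by
    intro q hq
    rw [hv', map_sub, R.fix_of_ker hK.1.1 hK.1.2 hK.2 hq]
    abel
  have h1 := h V R v' fun w hw => by
    obtain ⟨h1, h2, h3⟩ := R.ker_of_fix hw
    exact K.sub_starProjection_mem_orthogonal v w ⟨⟨h1, h2⟩, h3⟩
  have h2 : ∑ a, ‖R.ρ (sg a) v' - v'‖ ^ 2 ≤ ∑ _ : Fin 6, ε ^ 2 :=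
    Finset.sum_le_sum fun a _ => pow_le_pow_left₀ (norm_nonneg _) (e _ (norm_sg a) ▸ hε a) 2
  simp only [Finset.sum_const, Finset.card_univ, Fintype.card_fin, nsmul_eq_mul] at h2
  have h3 : ‖v'‖ ≤ √(6 / c) * ε := by
    refine le_of_sq_le_sq ?_ (by positivity)
    rw [mul_pow, Real.sq_sqrt (by positivity), div_mul_eq_mul_div, le_div_iff₀ hc]
    push_cast at h2
    linarith
  rw [e q hq]
  have := norm_sub_le (R.ρ q v') v'
  rw [R.norm q hq] at this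
  linarith

end Pool.Agent.P.MP_839d28_al
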