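import Pool.Agent.P.MP_839d28_al.Givens
import Pool.Agent.P.MP_839d28_al.SU2Gap

/-! From quaternion representations to matrix groups; the case of `SO(3)`. -/

open Matrix
open scoped Quaternion

namespace Pool.Agent.P.MP_839d28_al

variable {ι : Type} [Fintype ι] [DecidableEq ι]

/-- a homomorphism from the quaternions to matrices, with its derivative -/
structure QHom (φ : ℍ → Matrix ι ι ℝ) (A B C : Matrix ι ι ℝ) : Prop where
  one : φ 1 = 1
  mul : ∀ p q, φ (p * q) = φ p * φ q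
  star : ∀ q, φ (star q) = (φ q)ᵀ
  deriv : ∀ u, Pure u → ∀ i j,
    HasDerivAt (fun t => φ (circ u t) i j) ((u.imI • A + u.imJ • B + u.imK • C) i j) 0

theorem QHom.so {φ : ℍ → Matrix ι ι ℝ} {A B C : Matrix ι ι ℝ} (h : QHom φ A B C) {q : ℍ}
    (hq : ‖q‖ = 1) : SO (φ q) := by
  obtain ⟨u, t, hu, rfl, -⟩ := exists_circ hq
  rw [← add_halves t, circ_add hu, h.mul]
  refine SO.of_sq ?_
  rw [← h.star, ← h.mul, Quaternion.star_mul_self, Quaternion.normSq_eq_norm_mul_self,
    norm_circ hu]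
  simpa using h.one

variable {V : Type} [NormedAddCommGroup V] [InnerProductSpace ℂ V]

/-- pull back along a quaternion homomorphism -/
noncomputable def MatRep.toQ (R : MatRep ι V) {φ : ℍ → Matrix ι ι ℝ} {A B C : Matrix ι ι ℝ}
    (h : QHom φ A B C) : QRep V where
  ρ q := R.ρ (φ q)
  one := by rw [h.one, R.one]
  mul p q hp hq := by rw [h.mul, R.mul _ _ (h.so hp) (h.so hq)]
  norm q hq := R.norm _ (h.so hq)
  X := R.D A
  Y := R.D B
  Z := R.D C
  deriv u hu v := by
    have := R.deriv (fun t => φ (circ u t)) _ (fun t => h.so (norm_circ hu t))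
      (by rw [circ_zero, h.one]) (h.deriv u hu) v
    rwa [R.D_add, R.D_add, R.D_smul, R.D_smul, R.D_smul] at this

/-- the rotation defined by a quaternion -/
def rot3 (q : ℍ) : Matrix (Fin 3) (Fin 3) ℝ :=
  !![q.re ^ 2 + q.imI ^ 2 - q.imJ ^ 2 - q.imK ^ 2, 2 * (q.imI * q.imJ - q.re * q.imK),
      2 * (q.imI * q.imK + q.re * q.imJ);
    2 * (q.imI * q.imJ + q.re * q.imK), q.re ^ 2 - q.imI ^ 2 + q.imJ ^ 2 - q.imK ^ 2,
      2 * (q.imJ * q.imK - q.re * q.imI);
    2 * (q.imI * q.imK - q.re * q.imJ), 2 * (q.imJ * q.imK + q.re * q.imI),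
      q.re ^ 2 - q.imI ^ 2 - q.imJ ^ 2 + q.imK ^ 2]

theorem hasDerivAt_quad (a b c : ℝ) :
    HasDerivAt (fun t => a * Real.cos t ^ 2 + b * (Real.cos t * Real.sin t) + c * Real.sin t ^ 2)
      b 0 := by
  have h1 := Real.hasDerivAt_cos 0
  have h2 := Real.hasDerivAt_sin 0
  have := (((h1.fun_pow 2).const_mul a).fun_add ((h1.fun_mul h2).const_mul b)).fun_add
    ((h2.fun_pow 2).const_mul c)
  simpa using this

theorem qhom_rot3 : QHom rot3 !![0, 0, 0; 0, 0, -2; 0, 2, 0] !![0, 0, 2; 0, 0, 0; -2, 0, 0]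
    !![0, -2, 0; 2, 0, 0; 0, 0, 0] where
  one := by
    ext i j
    fin_cases i <;> fin_cases j <;> simp [rot3]
  mul p q := by
    ext i j
    fin_cases i <;> fin_cases j <;> simp [rot3, mul_apply, Fin.sum_univ_three] <;> ring
  star q := by
    ext i j
    fin_cases i <;> fin_cases j <;> simp [rot3] <;> ring
  deriv u _ i j := by
    have key : ∀ t, rot3 (circ u t) i j = (1 : Matrix (Fin 3) (Fin 3) ℝ) i j * Real.cos t ^ 2 +
        ((u.imI • !![0, 0, 0; 0, 0, -2; 0, 2, 0] + u.imJ • !![0, 0, 2; 0, 0, 0; -2, 0, 0] +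
          u.imK • !![0, -2, 0; 2, 0, 0; 0, 0, 0] : Matrix (Fin 3) (Fin 3) ℝ) i j) *
          (Real.cos t * Real.sin t) + rot3 ⟨0, u.imI, u.imJ, u.imK⟩ i j * Real.sin t ^ 2 := by
      intro t
      fin_cases i <;> fin_cases j <;> simp [rot3] <;> ring
    simp only [key]
    exact hasDerivAt_quad _ _ _

theorem giv_eq_rot3 {a b : Fin 3} (hab : a ≠ b) (t : ℝ) :
    ∃ q, ‖q‖ = 1 ∧ rot (giv a b) t = rot3 q := by
  obtain ⟨s, rfl⟩ : ∃ s, t = 2 * s := ⟨t / 2, by ring⟩
  have h := Real.cos_sq_add_sin_sq s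
  have key : ∀ (u : ℍ) (s' : ℝ), Pure u → (∀ i j, (if i = a then Real.cos (2 * s) *
      (1 : Matrix (Fin 3) (Fin 3) ℝ) a j + Real.sin (2 * s) * (1 : Matrix (Fin 3) (Fin 3) ℝ) b j
      else if i = b then Real.cos (2 * s) * (1 : Matrix (Fin 3) (Fin 3) ℝ) b j -
        Real.sin (2 * s) * (1 : Matrix (Fin 3) (Fin 3) ℝ) a j
      else (1 : Matrix (Fin 3) (Fin 3) ℝ) i j) = rot3 (circ u s') i j) →
      ∃ q, ‖q‖ = 1 ∧ rot (giv a b) (2 * s) = rot3 q := by
    intro u s' hu h
    refine ⟨circ u s', norm_circ hu s', ?_⟩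
    ext i j
    rw [← h, ← rot_giv_mul hab, mul_one]
  fin_cases a <;> fin_cases b <;> first
    | exact absurd rfl hab
    | skip
  · refine key qk (-s) pure_qk fun i j => ?_
    fin_cases i <;> fin_cases j <;> simp [rot3, Real.cos_two_mul', Real.sin_two_mul] <;>
      linarith
  · refine key qj s pure_qj fun i j => ?_
    fin_cases i <;> fin_cases j <;> simp [rot3, Real.cos_two_mul', Real.sin_two_mul] <;>
      linarith
  · refine key qk s pure_qk fun i j => ?_
    fin_cases i <;> fin_cases j <;> simp [rot3, Real.cos_two_mul', Real.sin_two_mul] <;>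
      linarith
  · refine key qi (-s) pure_qi fun i j => ?_
    fin_cases i <;> fin_cases j <;> simp [rot3, Real.cos_two_mul', Real.sin_two_mul] <;>
      linarith
  · refine key qj (-s) pure_qj fun i j => ?_
    fin_cases i <;> fin_cases j <;> simp [rot3, Real.cos_two_mul', Real.sin_two_mul] <;>
      linarith
  · refine key qi s pure_qi fun i j => ?_
    fin_cases i <;> fin_cases j <;> simp [rot3, Real.cos_two_mul', Real.sin_two_mul] <;>
      linarith

theorem hasKaz_three : ∃ C : ℝ, 0 ≤ C ∧ HasKaz (Fin 3) 6 C := by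
  classical
  obtain ⟨C, hC, h⟩ := su2_kaz
  refine ⟨C, hC, Finset.univ.image fun a => rot3 (sg a), Finset.card_image_le.trans (by simp),
    ?_, ?_⟩
  · intro s hs
    obtain ⟨a, -, rfl⟩ := Finset.mem_image.mp hs
    exact qhom_rot3.so (norm_sg a)
  · intro V _ _ _ R v ε _ hs g hg
    obtain ⟨k, h1, h2⟩ := gen_all hg
    have h3 : ∃ q, ‖q‖ = 1 ∧ k = rot3 q := by
      clear h2
      induction h1 with
      | one => exact ⟨1, norm_one, qhom_rot3.one.symm⟩
      | step a b t k hab _ _ _ ih =>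
        obtain ⟨p, hp, e1⟩ := giv_eq_rot3 hab t
        obtain ⟨q, hq, e2⟩ := ih
        exact ⟨p * q, by rw [norm_mul, hp, hq, one_mul], by rw [e1, e2, qhom_rot3.mul]⟩
    obtain ⟨q, hq, e⟩ := h3
    have := R.N_le v hg h1.so
    rw [h2, R.N_one, add_zero, e] at this
    exact this.trans (h V (R.toQ qhom_rot3) v ε
      (fun a => hs _ (Finset.mem_image_of_mem _ (Finset.mem_univ a))) q hq)

end Pool.Agent.P.MP_839d28_al
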