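import Pool.Agent.P.MP_839d28_al.Pauli

/-! A constant spectral gap for random Pauli rotations. -/

open Matrix

namespace Pool.Agent.P.MP_839d28_al

variable {V : Type} [NormedAddCommGroup V] [InnerProductSpace ℂ V] [FiniteDimensional ℂ V]

theorem kq_smul (A : V →L[ℂ] V) {c : ℂ} (hc : c ≠ 0) : kq (c • A) = kq A := by
  have key : ∀ K K' : Submodule ℂ V, K = K' → K.starProjection = K'.starProjection := by
    rintro K _ rfl; rfl
  rw [kq, kq, kp, kp, key (c • A).ker A.ker]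
  ext v
  simp [hc]

theorem gap_of_sq {H : V →L[ℂ] V} (hs : ∀ u v, inner ℂ (H u) v = inner ℂ u (H v)) {γ : ℝ}
    (h0 : ∀ v, 0 ≤ (inner ℂ v (H v)).re) (h1 : ∀ v, γ * (inner ℂ v (H v)).re ≤ ‖H v‖ ^ 2)
    (v : V) : γ * ‖kq H v‖ ^ 2 ≤ (inner ℂ v (H v)).re := by
  have hT : (((γ : ℂ) • kq H - H : V →L[ℂ] V) : V →ₗ[ℂ] V).IsSymmetric := by
    intro x y
    simp only [ContinuousLinearMap.coe_coe, _root_.sub_apply, _root_.smul_apply, inner_sub_left,
      inner_sub_right, inner_smul_left, inner_smul_right, kq_symm, hs, Complex.conj_ofReal]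
  have := re_inner_le_of_eig hT (L := 0) (fun x lam hx hl => by
    by_contra hpos
    push Not at hpos
    have hl' : (γ : ℂ) • kq H x - H x = (lam : ℂ) • x := hl
    have o : ∀ w, H w = 0 → inner ℂ w x = 0 := by
      intro w hw
      have := congrArg (inner ℂ w) hl'
      rw [inner_sub_right, inner_smul_right, inner_smul_right, kq_orth H x hw, ← hs, hw] at this
      simpa [hpos.ne'] using this
    have e1 : kq H x = x := by
      have := kp_inner H x
      rw [o _ (kp_ker H x)] at this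
      have : kp H x = 0 := by simpa using this.symm
      rw [kq_apply, this, sub_zero]
    have e2 : H x = ((γ - lam : ℝ) : ℂ) • x := by
      rw [e1] at hl'
      push_cast
      linear_combination (norm := module) -hl'
    have e3 : (inner ℂ x (H x)).re = γ - lam := by
      rw [e2, inner_smul_right, Complex.re_ofReal_mul]
      have : (inner ℂ x x).re = ‖x‖ ^ 2 := inner_self_eq_norm_sq (𝕜 := ℂ) _
      rw [this, hx]; simp
    have a0 := h0 x
    have a1 := h1 x
    rw [e3] at a0 a1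
    rw [e2, norm_smul, hx, mul_one, Complex.norm_real, Real.norm_eq_abs, sq_abs] at a1
    have a2 : γ - lam = 0 := by nlinarith
    have := o x (by rw [e2, a2]; simp)
    rw [inner_self_eq_zero] at this
    simp [this] at hx) v
  simp only [ContinuousLinearMap.coe_coe, _root_.sub_apply, _root_.smul_apply, inner_sub_right,
    inner_smul_right, Complex.sub_re, Complex.re_ofReal_mul] at this
  rw [Su2.re_inner_comm v (kq H v), kq_inner] at this
  linarith

variable {W : Type} [AddCommGroup W] [Fintype W] [DecidableEq W] {dot : W → W → ZMod 2}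

theorem Form.knabe_sq (h : Form dot) (hd : 4 ≤ Fintype.card W) (R : MatRep W V) (v : V) :
    (Fintype.card W : ℝ) ^ 2 / 160 *
      ∑ p ∈ Finset.univ.filter fun p : W × W => dot p.2 p.1 = 1, ‖kq (R.D (pl dot p)) v‖ ^ 2 ≤
    ‖∑ p ∈ Finset.univ.filter fun p : W × W => dot p.2 p.1 = 1, kq (R.D (pl dot p)) v‖ ^ 2 := by
  set I := Finset.univ.filter fun p : W × W => dot p.2 p.1 = 1 with hI
  have mI : ∀ p, p ∈ I ↔ dot p.2 p.1 = 1 := by simp [hI]
  set y : W × W → V := fun p => kq (R.D (pl dot p)) v with hy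
  set A := (I ×ˢ I).filter fun r => dot r.1.2 r.2.1 + dot r.2.2 r.1.1 = 1 with hA
  have mA : ∀ r, r ∈ A ↔ (dot r.1.2 r.1.1 = 1 ∧ dot r.2.2 r.2.1 = 1) ∧
      dot r.1.2 r.2.1 + dot r.2.2 r.1.1 = 1 := by simp [hA, mI]
  have two : ∀ p : W × W, p + p = 0 := fun p => Prod.ext (h.two _) (h.two _)
  have cyc : ∀ f : (W × W) × (W × W) → ℝ, ∑ r ∈ A, f (r.2, r.1 + r.2) = ∑ r ∈ A, f r := by
    intro f
    have z : ∀ a b c d : ZMod 2, (a = 1 ∧ b = 1) ∧ c + d = 1 →
        (b = 1 ∧ a + c + (d + b) = 1) ∧ d + b + (c + b) = 1 := by decide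
    have z' : ∀ a b c d : ZMod 2, (a = 1 ∧ b = 1) ∧ c + d = 1 →
        (a + c + (d + b) = 1 ∧ a = 1) ∧ a + d + (a + c) = 1 := by decide
    refine Finset.sum_nbij' (fun r => (r.2, r.1 + r.2)) (fun r => (r.1 + r.2, r.1)) ?_ ?_ ?_ ?_
      fun _ _ => rfl
    · intro r hr
      simp only [mA, Prod.fst_add, Prod.snd_add, h.add, h.add_left] at hr ⊢
      have := z _ _ _ _ hr
      refine ⟨⟨this.1.1, ?_⟩, this.2⟩
      rw [← this.1.2]; ring
    · intro r hr
      simp only [mA, Prod.fst_add, Prod.snd_add, h.add, h.add_left] at hr ⊢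
      have := z' _ _ _ _ hr
      refine ⟨⟨?_, this.1.2⟩, this.2⟩
      rw [← this.1.1]; ring
    · intro r _
      simp only
      rw [add_comm r.1, ← add_assoc, two, zero_add]
    · intro r _
      simp only
      rw [add_comm r.1, add_assoc, two, add_zero]
  have loc : ∀ r ∈ A, 1 / 10 * (‖y r.1‖ ^ 2 + ‖y r.2‖ ^ 2 + ‖y (r.1 + r.2)‖ ^ 2) ≤
      2 * ((inner ℂ (y r.1) (y r.2)).re + (inner ℂ (y r.2) (y (r.1 + r.2))).re +
        (inner ℂ (y (r.1 + r.2)) (y r.1)).re) := by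
    intro r hr
    obtain ⟨⟨h1, h2⟩, h3⟩ := (mA r).mp hr
    have := (R.toQ (h.qhom h1 h2 h3)).su2.sq_lower v
    simp only [MatRep.toQ] at this
    rw [h.pl_mul, R.D_smul, kq_smul _ (by exact_mod_cast chi_ne_zero _), Su2.norm_add3] at this
    rw [Su2.re_inner_comm (y (r.1 + r.2))]
    simp only [hy]
    linarith
  have s := Finset.sum_le_sum loc
  have c1 := cyc fun r => ‖y r.1‖ ^ 2
  have c2 := cyc fun r => ‖y r.2‖ ^ 2
  have c3 := cyc fun r => (inner ℂ (y r.1) (y r.2)).re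
  have c4 := cyc fun r => (inner ℂ (y r.2) (y (r.1 + r.2))).re
  have e4 : ∀ r : (W × W) × (W × W), r.2 + (r.1 + r.2) = r.1 := fun r => by
    rw [add_comm r.1, ← add_assoc, two, zero_add]
  simp only [e4] at c1 c2 c3 c4
  simp only [← Finset.mul_sum, Finset.sum_add_distrib, c1, c2, c3, c4] at s
  have a1 : (Fintype.card W : ℝ) ^ 2 / 8 * ∑ p ∈ I, ‖y p‖ ^ 2 ≤ ∑ r ∈ A, ‖y r.1‖ ^ 2 := by
    rw [hA, Finset.sum_filter (s := I ×ˢ I), Finset.sum_product, Finset.mul_sum]
    refine Finset.sum_le_sum fun p hp => ?_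
    simp only
    rw [← Finset.sum_filter, Finset.sum_const, nsmul_eq_mul]
    have := h.count ((mI p).mp hp)
    have hd' : (4 : ℝ) ≤ Fintype.card W := by exact_mod_cast hd
    refine mul_le_mul_of_nonneg_right ?_ (sq_nonneg _)
    nlinarith
  have a2 : ∑ r ∈ A, (inner ℂ (y r.1) (y r.2)).re ≤ ‖∑ p ∈ I, y p‖ ^ 2 := by
    have : ‖∑ p ∈ I, y p‖ ^ 2 = ∑ r ∈ I ×ˢ I, (inner ℂ (y r.1) (y r.2)).re := by
      rw [← inner_self_eq_norm_sq (𝕜 := ℂ), sum_inner, Finset.sum_product]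
      simp [inner_sum]
    rw [this]
    refine Finset.sum_le_sum_of_subset_of_nonneg (Finset.filter_subset _ _) fun r hr hn => ?_
    rw [Finset.mem_product, mI, mI] at hr
    have hc := h.commute (p := r.1) (q := r.2) fun e => hn ((mA r).mpr ⟨hr, e⟩)
    exact comm_nonneg (R.oneParam (h.adm hr.1)).skew (R.D_comm (h.adm hr.1) (h.adm hr.2) hc) v
  linarith

theorem Form.knabe (h : Form dot) (hd : 4 ≤ Fintype.card W) (R : MatRep W V) (v : V) {δ : ℝ}
    (hδ0 : 0 ≤ δ) (hδ : ∀ p : W × W, dot p.2 p.1 = 1 → ∀ t, R.N v (rot (pl dot p) t) ≤ δ)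
    {g : Matrix W W ℝ} (hg : SO g) : R.N v g ≤ 26 * δ := by
  have := FiniteDimensional.complete ℂ V
  set I := Finset.univ.filter fun p : W × W => dot p.2 p.1 = 1 with hI
  have mI : ∀ p, p ∈ I ↔ dot p.2 p.1 = 1 := by simp [hI]
  set H : V →L[ℂ] V := ∑ p ∈ I, kq (R.D (pl dot p)) with hH
  have Happ : ∀ x, H x = ∑ p ∈ I, kq (R.D (pl dot p)) x := fun x => by simp [hH]
  have Hin : ∀ x, (inner ℂ x (H x)).re = ∑ p ∈ I, ‖kq (R.D (pl dot p)) x‖ ^ 2 := by
    intro x
    rw [Su2.re_inner_comm, Happ, sum_inner, Complex.re_sum]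
    simp only [kq_inner]
  have gap := gap_of_sq (H := H) (γ := (Fintype.card W : ℝ) ^ 2 / 160)
    (fun x y => by simp only [Happ, sum_inner, inner_sum, kq_symm])
    (fun x => by rw [Hin]; positivity) (fun x => by rw [Hin, Happ]; exact h.knabe_sq hd R x) v
  have b1 : ∑ p ∈ I, ‖kq (R.D (pl dot p)) v‖ ^ 2 ≤ (Fintype.card W : ℝ) ^ 2 * δ ^ 2 := by
    have : ∀ p ∈ I, ‖kq (R.D (pl dot p)) v‖ ^ 2 ≤ δ ^ 2 := by
      intro p hp
      obtain ⟨w, hw, hd⟩ := (R.oneParam (h.adm ((mI p).mp hp))).exists_near_ker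
        (by rw [rot_two_pi, R.one]) (hδ p ((mI p).mp hp))
      exact pow_le_pow_left₀ (norm_nonneg _) ((kq_le _ v hw).trans hd) 2
    refine (Finset.sum_le_card_nsmul _ _ _ this).trans ?_
    rw [nsmul_eq_mul]
    gcongr
    have : I.card ≤ Fintype.card (W × W) := Finset.card_le_univ _
    rw [Fintype.card_prod, ← sq] at this
    exact_mod_cast this
  have hd' : (0 : ℝ) < (Fintype.card W : ℝ) ^ 2 := by
    have : (4 : ℝ) ≤ Fintype.card W := by exact_mod_cast hd
    positivity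
  have b2 : ‖kq H v‖ ≤ 13 * δ := by
    refine le_of_sq_le_sq (le_of_mul_le_mul_left ?_ hd') (by positivity)
    rw [Hin] at gap
    nlinarith [mul_nonneg hd'.le (sq_nonneg δ)]
  have fix : R.ρ g (kp H v) = kp H v := by
    have k1 := Hin (kp H v)
    rw [kp_ker, inner_zero_right, Complex.zero_re, eq_comm,
      Finset.sum_eq_zero_iff_of_nonneg fun _ _ => sq_nonneg _] at k1
    refine R.fix_of_giv (fun a b _ => ?_) hg
    rw [h.giv_eq, R.D_sum]
    simp only [R.D_smul, _root_.sum_apply, _root_.smul_apply]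
    refine Finset.sum_eq_zero fun z _ => ?_
    rcases zmod2_cases (dot z (a + b)) with e | e
    · have : ∀ s t : ZMod 2, s + t = 0 → t = s := by decide
      rw [h.add] at e
      simp [this _ _ e]
    · rw [eq_zero_of_kq (by simpa using k1 (a + b, z) ((mI _).mpr e)), smul_zero]
  have e : R.ρ g v - v = R.ρ g (kq H v) - kq H v := by
    rw [kq_apply, map_sub, fix]; abel
  have := norm_sub_le (R.ρ g (kq H v)) (kq H v)
  rw [R.norm g hg] at this
  rw [MatRep.N, e]
  linarith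

end Pool.Agent.P.MP_839d28_al
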