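import Pool.Agent.P.MP_839d28_al.Final

/-! Density criterion: the alternating group together with one irrational rotation. -/

open Matrix

set_option linter.unusedSectionVars false

namespace Pool.Agent.P.MP_839d28_al.Kz

variable {κ : Type} [Fintype κ] [DecidableEq κ]
variable {V : Type} [NormedAddCommGroup V] [InnerProductSpace ℂ V]

/-- wedge of two vectors -/
def wd2 (a b : κ → ℝ) : Matrix κ κ ℝ := vecMulVec a b - vecMulVec b a

/-- reflection in a vector of square length two -/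
def rf (a : κ → ℝ) : Matrix κ κ ℝ := 1 - vecMulVec a a

theorem rf_mul (a b : κ → ℝ) : rf a * rf b =
    1 - vecMulVec a a - vecMulVec b b + (a ⬝ᵥ b) • vecMulVec a b := by
  simp only [rf, mul_sub, sub_mul, one_mul, mul_one, vecMulVec_mul_vecMulVec, vecMulVec_smul]
  abel

theorem rf_comm {a b : κ → ℝ} (h : a ⬝ᵥ b = 0) : Commute (rf a) (rf b) := by
  rw [Commute, SemiconjBy, rf_mul, rf_mul, dotProduct_comm b, h, zero_smul, zero_smul]
  abel

theorem rf_sq {a : κ → ℝ} (h : a ⬝ᵥ a = 2) : rf a ^ 2 = 1 := by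
  rw [sq, rf_mul, h]
  module

theorem conj_vv {ι : Type} [Fintype ι] (g : Matrix κ ι ℝ) (a b : ι → ℝ) :
    g * vecMulVec a b * gᵀ = vecMulVec (g *ᵥ a) (g *ᵥ b) := by
  rw [mul_vecMulVec, vecMulVec_mul, vecMul_transpose]

theorem swap_eq {ι : Type} [AddCommGroup ι] [Fintype ι] [DecidableEq ι] {a b : ι} (h : a ≠ b) :
    pm (Equiv.swap a b) = rf (Pi.single a 1 - Pi.single b 1) := by
  ext x y
  simp only [pm, rf, of_apply, Matrix.sub_apply, one_apply, vecMulVec_apply, Pi.sub_apply,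
    Pi.single_apply, Equiv.swap_apply_def]
  by_cases h1 : y = a <;> by_cases h2 : y = b <;> by_cases h3 : x = a <;> by_cases h4 : x = b <;>
    simp_all [eq_comm]

theorem D_conj (R : MatRep κ V) {h L : Matrix κ κ ℝ} (hh : SO h) (hL : Adm L) (v : V) :
    R.D (h * L * hᵀ) (R.ρ h v) = R.ρ h (R.D L v) := by
  have e : ∀ A B : Matrix κ κ ℝ, h * A * hᵀ * (h * B * hᵀ) = h * (A * B) * hᵀ := fun A B => by
    simp only [Matrix.mul_assoc]
    rw [← Matrix.mul_assoc hᵀ, hh.1, Matrix.one_mul]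
  have h1 : Adm (h * L * hᵀ) :=
    ⟨by simp [hL.1, Matrix.mul_assoc], by rw [e, e, hL.2]; simp⟩
  have h2 : ∀ t, rot (h * L * hᵀ) t * h = h * rot L t := fun t => by
    rw [rot, e]
    simp only [rot, add_mul, mul_add, smul_mul_assoc, mul_smul_comm, Matrix.mul_assoc, hh.1,
      Matrix.mul_one, Matrix.one_mul]
  refine ((R.oneParam h1).deriv (R.ρ h v)).unique ?_
  convert clm_hasDerivAt (R.ρ h) ((R.oneParam hL).deriv v) using 1
  ext t
  have e1 := R.mul _ _ (so_rot h1 t) hh
  rw [h2, R.mul _ _ hh (so_rot hL t)] at e1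
  exact (congrArg (fun T : V →L[ℂ] V => T v) e1).symm

theorem wd2_eq (a b : κ → ℝ) : wd2 a b = ∑ i, ∑ j, (a i * b j) • giv i j := by
  simp only [wd2, giv, smul_sub, Finset.sum_sub_distrib, smul_single, smul_eq_mul, mul_one]
  rw [Finset.sum_comm (f := fun i j => single j i (a i * b j))]
  congr 1
  · exact matrix_eq_sum_single _
  · simp only [mul_comm (a _)]
    exact matrix_eq_sum_single _

theorem D_wd2 (R : MatRep κ V) {h : Matrix κ κ ℝ} (hh : SO h) (a b : κ → ℝ) (v : V) :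
    R.D (wd2 (h *ᵥ a) (h *ᵥ b)) (R.ρ h v) = R.ρ h (R.D (wd2 a b) v) := by
  rw [wd2, ← conj_vv, ← conj_vv, ← sub_mul, ← mul_sub, ← wd2, wd2_eq]
  simp only [Finset.mul_sum, Finset.sum_mul, R.D_sum, mul_smul_comm, smul_mul_assoc, R.D_smul,
    _root_.sum_apply, _root_.smul_apply, map_sum, map_smul]
  refine Finset.sum_congr rfl fun i _ => Finset.sum_congr rfl fun j _ => ?_
  by_cases hij : i = j
  · simp [hij, giv, R.D_zero]
  · rw [D_conj R hh (adm_giv hij)]

theorem irr_rot (R : MatRep κ V) {a b : κ → ℝ} (ha : a ⬝ᵥ a = 2) (hb : b ⬝ᵥ b = 2) {q : ℚ}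
    (hab : a ⬝ᵥ b = q) (h0 : 0 < q) (h1 : q < 1) {v : V} (hv : R.ρ ((rf a * rf b) ^ 2) v = v) :
    R.D (wd2 a b) v = 0 := by
  have q0 : (0 : ℝ) < q := by exact_mod_cast h0
  have q1 : (q : ℝ) < 1 := by exact_mod_cast h1
  have r0 : 0 < 4 - (q : ℝ) ^ 2 := by nlinarith
  set r := √(4 - (q : ℝ) ^ 2) with hr
  have r1 : r ^ 2 = 4 - (q : ℝ) ^ 2 := Real.sq_sqrt r0.le
  have r2 : 0 < r := Real.sqrt_pos.mpr r0
  have hba : b ⬝ᵥ a = q := by rw [dotProduct_comm, hab]
  have w2 : wd2 a b * wd2 a b = (q : ℝ) • (vecMulVec a b + vecMulVec b a) -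
      (2 : ℝ) • (vecMulVec a a + vecMulVec b b) := by
    simp only [wd2, mul_sub, sub_mul, vecMulVec_mul_vecMulVec, vecMulVec_smul, ha, hb, hab, hba]
    module
  have w3 : wd2 a b * (wd2 a b * wd2 a b) = -(r ^ 2) • wd2 a b := by
    rw [w2, r1]
    simp only [wd2, mul_sub, sub_mul, mul_add, mul_smul_comm, vecMulVec_mul_vecMulVec,
      vecMulVec_smul, ha, hb, hab, hba]
    module
  have hL : Adm (r⁻¹ • wd2 a b) := by
    refine ⟨by simp [wd2, smul_sub], ?_⟩
    simp only [mul_smul_comm, smul_mul_assoc, w3, smul_smul, ← neg_smul]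
    congr 1
    field_simp
  set θ := Real.arccos ((q : ℝ) ^ 2 / 2 - 1) with hθ
  have c1 : Real.cos θ = (q : ℝ) ^ 2 / 2 - 1 := Real.cos_arccos (by nlinarith) (by nlinarith)
  have c2 : Real.sin θ = q * r / 2 := by
    rw [hθ, Real.sin_arccos, Real.sqrt_eq_iff_mul_self_eq (by nlinarith) (by positivity)]
    linear_combination -(q : ℝ) ^ 2 / 4 * r1
  have c3 : rf a * rf b = rot (r⁻¹ • wd2 a b) θ := by
    rw [rf_mul, rot, c1, c2, hab]
    simp only [mul_smul_comm, smul_mul_assoc, w2, smul_smul]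
    rw [show (q : ℝ) * r / 2 * r⁻¹ = q / 2 by field_simp,
      show (1 - ((q : ℝ) ^ 2 / 2 - 1)) * (r⁻¹ * r⁻¹) = 1 / 2 by
        field_simp; linear_combination -r1, wd2]
    module
  rw [c3, sq, ← rot_add hL] at hv
  have irr : Irrational ((θ + θ) / (2 * Real.pi)) := by
    rintro ⟨t, ht⟩
    have := niven (θ := θ) ⟨t, by rw [ht]; field_simp; ring⟩ ⟨q ^ 2 / 2 - 1, by rw [c1]; simp⟩
    rw [c1] at this
    simp only [Set.mem_insert_iff, Set.mem_singleton_iff] at this
    rcases this with h | h | h | h | h <;> nlinarith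
  have O := R.oneParam hL
  let S : AddSubgroup ℝ :=
    { carrier := {t | R.ρ (rot (r⁻¹ • wd2 a b) t) v = v}
      zero_mem' := congrArg (fun T : V →L[ℂ] V => T v) O.zero
      add_mem' := fun {s t} hs ht => by
        have := congrArg (fun T : V →L[ℂ] V => T v) (O.add s t)
        simp only [mul_apply_eq_comp] at this
        exact this.trans ((congrArg _ ht).trans hs)
      neg_mem' := fun {s} hs => by
        have := congrArg (fun T : V →L[ℂ] V => T v) (O.add (-s) s)
        simp only [mul_apply_eq_comp, neg_add_cancel, rot_zero, R.one] at this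
        exact ((congrArg _ hs).symm.trans this.symm) }
  have hd := dense_addSubgroupClosure_pair_iff.mpr irr
  have hS : ∀ t, t ∈ S := fun t => closure_minimal (t := S) ((AddSubgroup.closure_le S).mpr (by
    rintro x (rfl | rfl)
    · exact hv
    · exact (congrArg (fun g => R.ρ g v) (rot_two_pi _)).trans
        (congrArg (fun T : V →L[ℂ] V => T v) R.one)))
    (isClosed_eq (O.continuous v) continuous_const) (hd t)
  have := O.ker_of_fix hS
  rw [R.D_smul, _root_.smul_apply, smul_eq_zero] at this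
  exact this.resolve_left (by exact_mod_cast (inv_pos.mpr r2).ne')

theorem four_rf {a b c d : κ → ℝ} (hc : c ⬝ᵥ c = 2) (hd : d ⬝ᵥ d = 2) (ac : a ⬝ᵥ c = 0)
    (ad : a ⬝ᵥ d = 0) (bc : b ⬝ᵥ c = 0) (bd : b ⬝ᵥ d = 0) (cd : c ⬝ᵥ d = 0) :
    (rf a * rf c * (rf b * rf d)) ^ 2 = (rf a * rf b) ^ 2 := by
  rw [(rf_comm bc).symm.mul_mul_mul_comm, Commute.mul_pow, (rf_comm cd).mul_pow, rf_sq hc, rf_sq hd,
    one_mul, mul_one]
  exact ((rf_comm ac).mul_right (rf_comm ad)).mul_left ((rf_comm bc).mul_right (rf_comm bd))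

/-- an alternating map killing constants whose zero set is invariant under even permutations -/
theorem alt_zero {ι : Type} [Fintype ι] [DecidableEq ι] {W : Type} [AddCommGroup W] [Module ℝ W]
    (B : (ι → ℝ) →ₗ[ℝ] (ι → ℝ) →ₗ[ℝ] W) (h1 : ∀ u w, B u w = -B w u)
    (h2 : ∀ u, B u (fun _ => 1) = 0)
    (h3 : ∀ σ ∈ alternatingGroup ι, ∀ u w, B u w = 0 → B (u ∘ σ) (w ∘ σ) = 0)
    {t : Fin 6 → ι} (ht : Function.Injective t) {u : ι → ℝ} (u1 : u (t 2) ≠ u (t 3))
    (u2 : u (t 4) = u (t 5)) (hu : B (Pi.single (t 0) 1 - Pi.single (t 1) 1) u = 0) : B = 0 := by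
  have sg : ∀ (σ : Equiv.Perm ι) (x : ι),
      (Pi.single (σ x) 1 : ι → ℝ) ∘ σ = Pi.single x 1 := fun σ x => by
    ext y
    simp [Pi.single_apply]
  have sb : ∀ (σ : Equiv.Perm ι) (u w : ι → ℝ), (u - w) ∘ σ = u ∘ σ - w ∘ σ := fun _ _ _ => rfl
  have tn : ∀ i j, i ≠ j → t i ≠ t j := fun i j h => ht.ne h
  set e : ι → ι → ℝ := fun x => Pi.single x 1 with he
  have a1 : B (e (t 0) - e (t 1)) (e (t 2) - e (t 3)) = 0 := by
    set σ := Equiv.swap (t 2) (t 3) * Equiv.swap (t 4) (t 5) with hσ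
    have s0 : ∀ i : Fin 6, i = 0 ∨ i = 1 → σ (t i) = t i := by
      rintro i (rfl | rfl) <;> simp [hσ, Equiv.swap_apply_def, ht.eq_iff]
    have b1 := h3 σ (by
      simp [hσ, Equiv.Perm.sign_swap (tn 2 3 (by decide)),
        Equiv.Perm.sign_swap (tn 4 5 (by decide))]) _ _ hu
    rw [← s0 0 (by simp), ← s0 1 (by simp), sb, sg, sg] at b1
    have b2 : u - u ∘ σ = (u (t 2) - u (t 3)) • (e (t 2) - e (t 3)) := by
      ext x
      simp only [hσ, he, Pi.sub_apply, Function.comp, Equiv.Perm.mul_apply, Pi.smul_apply,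
        Pi.single_apply, smul_eq_mul]
      by_cases x2 : x = t 2
      · simp [x2, Equiv.swap_apply_def, ht.eq_iff]
      by_cases x3 : x = t 3
      · simp [x3, Equiv.swap_apply_def, ht.eq_iff]
      by_cases x4 : x = t 4
      · simp [x4, Equiv.swap_apply_def, ht.eq_iff, u2]
      by_cases x5 : x = t 5
      · simp [x5, Equiv.swap_apply_def, ht.eq_iff, u2]
      simp [Equiv.swap_apply_def, x2, x3, x4, x5]
    have b3 : B (e (t 0) - e (t 1)) (u - u ∘ σ) = 0 := by rw [map_sub, hu, b1, sub_self]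
    rw [b2, map_smul, smul_eq_zero] at b3
    exact b3.resolve_left (sub_ne_zero.mpr u1)
  have a2 : ∀ f : Fin 4 → ι, Function.Injective f →
      B (e (f 0) - e (f 1)) (e (f 2) - e (f 3)) = 0 := by
    intro f hf
    obtain ⟨σ, hσ⟩ := Equiv.Perm.exists_extending_pair _ _ hf
      (ht.comp (Fin.castLE_injective (by norm_num : 4 ≤ 6)))
    have s0 : σ (f 0) = t 0 := hσ 0
    have s1 : σ (f 1) = t 1 := hσ 1
    have s2 : σ (f 2) = t 2 := hσ 2
    have s3 : σ (f 3) = t 3 := hσ 3
    rcases Int.units_eq_one_or (Equiv.Perm.sign σ) with hs | hs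
    · have := h3 σ hs _ _ a1
      rwa [← s0, ← s1, ← s2, ← s3, sb, sb, sg, sg, sg, sg] at this
    · set τ := σ * Equiv.swap (f 0) (f 1) with hτ
      have := h3 τ (by
        simp [hτ, hs, Equiv.Perm.sign_swap (hf.ne (show (0 : Fin 4) ≠ 1 by decide))]) _ _ a1
      have t0 : τ (f 1) = t 0 := by simp [hτ, s0]
      have t1 : τ (f 0) = t 1 := by simp [hτ, s1]
      have t2 : τ (f 2) = t 2 := by simp [hτ, s2, Equiv.swap_apply_def, hf.eq_iff]
      have t3 : τ (f 3) = t 3 := by simp [hτ, s3, Equiv.swap_apply_def, hf.eq_iff]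
      rw [← t0, ← t1, ← t2, ← t3, sb, sb, sg, sg, sg, sg, ← neg_sub, map_neg, LinearMap.neg_apply,
        neg_eq_zero] at this
      exact this
  have a3 : ∀ a b c d : ι, a ≠ b → a ≠ c → a ≠ d → b ≠ c → b ≠ d → c ≠ d →
      B (e a - e b) (e c - e d) = 0 := fun a b c d h1 h2 h3 h4 h5 h6 =>
    a2 ![a, b, c, d] fun i j => by
      fin_cases i <;> fin_cases j <;> simp [*, h1.symm, h2.symm, h3.symm, h4.symm, h5.symm, h6.symm]
  have sf : ∀ u, B u u = 0 := fun u => by
    have : (2 : ℝ) • B u u = 0 := by rw [two_smul]; nth_rw 1 [h1]; exact neg_add_cancel _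
    simpa using this
  have a4 : ∀ a b, B (e a - e (t 0)) (e b - e (t 0)) = 0 := by
    intro a b
    by_cases ha : a = t 0
    · simp [ha]
    by_cases hb : b = t 0
    · simp [hb]
    by_cases hab : a = b
    · rw [hab, sf]
    obtain ⟨d, d0, da, db⟩ : ∃ d, d ≠ t 0 ∧ d ≠ a ∧ d ≠ b := by
      by_contra hc
      have := Finset.card_le_card (s := Finset.univ.image t) (t := {t 0, a, b}) fun x _ => by
        by_contra h
        simp only [Finset.mem_insert, Finset.mem_singleton, not_or] at h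
        exact hc ⟨_, h⟩
      rw [Finset.card_image_of_injective _ ht] at this
      exact absurd (this.trans Finset.card_le_three) (by simp)
    have q1 := a3 a (t 0) b d ha hab da.symm (Ne.symm hb) d0.symm db.symm
    have q2 := a3 a d b (t 0) da.symm hab ha db d0 hb
    have q3 := a3 a b (t 0) d hab ha da.symm hb db.symm d0.symm
    have : (2 : ℝ) • B (e a - e (t 0)) (e b - e (t 0)) = 0 := by
      simp only [map_sub, LinearMap.sub_apply, sf] at q1 q2 q3 ⊢
      rw [h1 (e (t 0)) (e b)] at q1 ⊢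
      rw [h1 (e d) (e b), h1 (e d) (e (t 0))] at q2
      linear_combination (norm := module) q1 + q2 - q3
    simpa using this
  have a5 : ∀ a, B (e a) (e (t 0)) = 0 := fun a => by
    have b1 : B (e a - e (t 0)) (∑ b, (e b - e (t 0))) = 0 := by simp only [map_sum, a4]; simp
    have b2 : ∑ b, e b = fun _ => 1 := Finset.univ_sum_single (fun _ : ι => (1 : ℝ))
    rw [Finset.sum_sub_distrib, b2, map_sub, h2, Finset.sum_const, zero_sub, neg_eq_zero,
      ← Nat.cast_smul_eq_nsmul ℝ, map_smul, smul_eq_zero, map_sub, LinearMap.sub_apply, sf,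
      sub_zero] at b1
    exact b1.resolve_left (Nat.cast_ne_zero.mpr (Finset.card_pos.mpr ⟨a, by simp⟩).ne')
  refine LinearMap.pi_ext' fun a => LinearMap.ext_ring (LinearMap.pi_ext' fun b =>
    LinearMap.ext_ring ?_)
  have := a4 a b
  simp only [map_sub, LinearMap.sub_apply, a5, h1 (e (t 0)) (e b)] at this
  simpa using this

theorem exists_frame {ι : Type} [Fintype ι] [DecidableEq ι]
    (h : Fintype.card ι = Fintype.card κ + 1) : ∃ P : Matrix ι κ ℝ, Pᵀ * P = 1 ∧
      P * Pᵀ = 1 - of fun _ _ => (Fintype.card ι : ℝ)⁻¹ := by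
  have hN : (0 : ℝ) < Fintype.card ι := by rw [h]; positivity
  have hs : √(Fintype.card ι : ℝ)⁻¹ * √(Fintype.card ι : ℝ)⁻¹ = (Fintype.card ι : ℝ)⁻¹ :=
    Real.mul_self_sqrt (inv_pos.mpr hN).le
  obtain ⟨b, hb⟩ := Orthonormal.exists_orthonormalBasis_extension_of_card_eq (𝕜 := ℝ)
    (E := EuclideanSpace ℝ ι) (ι := Option κ) (by simp [h])
    (v := fun _ => WithLp.toLp 2 fun _ => √(Fintype.card ι : ℝ)⁻¹) (s := {none}) (by
      rw [orthonormal_subsingleton_iff]
      intro i
      rw [EuclideanSpace.norm_eq, Real.sqrt_eq_one]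
      simp only [Set.domRestrict_apply, Real.norm_eq_abs, sq, abs_mul_abs_self, hs]
      simp [hN.ne'])
  set O : Matrix ι (Option κ) ℝ := of fun x k => b k x with hO
  have h1 : Oᵀ * O = 1 := by
    ext k l
    have := orthonormal_iff_ite.mp b.orthonormal k l
    rw [EuclideanSpace.inner_eq_star_dotProduct] at this
    simpa [hO, mul_apply, one_apply, dotProduct, mul_comm] using this
  have h2 : O * Oᵀ = 1 :=
    (mul_eq_one_comm_of_equiv (Fintype.equivOfCardEq (by simp [h]))).mp h1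
  refine ⟨O.submatrix id some, ?_, ?_⟩
  · ext k l
    simpa [mul_apply, one_apply] using congrFun (congrFun h1 (some k)) (some l)
  · ext x y
    have := congrFun (congrFun h2 x) y
    simp only [mul_apply, transpose_apply, Fintype.sum_option, hO, of_apply, hb none rfl,
      hs] at this
    simp only [mul_apply, transpose_apply, submatrix_apply, id, Matrix.sub_apply, of_apply, hO]
    linarith

end Pool.Agent.P.MP_839d28_al.Kz
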