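import Pool.Agent.P.MP_839d28_al.KzHilb

/-! Seven elements of order `p` with nilpotent pairs of low degree form a Kazhdan set. -/

namespace Pool.Agent.P.MP_839d28_al.Kz

open Submodule

variable {G G' : Type} [Group G] [Group G'] {p : ℕ}

/-- the conjugate of `b` by the power `c` of `u` -/
def cj (u b : G) (c : ZMod p) : G := u ^ c.val * b * (u ^ c.val)⁻¹

/-- Lagrange coefficient -/
def lg [Fact p.Prime] (t1 t2 t3 c : ZMod p) : ZMod p :=
  (c - t2) * (c - t3) / ((t1 - t2) * (t1 - t3))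

/-- the conjugates of `b` by powers of `u` commute and depend quadratically on the exponent -/
structure Good (p : ℕ) [Fact p.Prime] (u b : G) : Prop where
  comm : ∀ c c' : ZMod p, cj u b c * cj u b c' = cj u b c' * cj u b c
  lag : ∀ t1 t2 t3 c : ZMod p, t1 ≠ t2 → t1 ≠ t3 → t2 ≠ t3 → cj u b c =
    cj u b t1 ^ (lg t1 t2 t3 c).val * cj u b t2 ^ (lg t2 t1 t3 c).val *
      cj u b t3 ^ (lg t3 t1 t2 c).val

/-- the relations -/
structure Rel (p : ℕ) [Fact p.Prime] (a : Fin 7 → G) : Prop where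
  ord : ∀ i, a i ^ p = 1
  good : ∀ i j, i < j → Good p (a i) (a j)

theorem map_cj (f : G →* G') (u b : G) (c : ZMod p) : f (cj u b c) = cj (f u) (f b) c := by
  simp [cj]

variable [Fact p.Prime]

/-- the relators -/
def relf (p : ℕ) [Fact p.Prime] (a : Fin 7 → G) :
    Fin 7 ⊕ (Fin 7 × Fin 7 × ZMod p × ZMod p) ⊕
      (Fin 7 × Fin 7 × ZMod p × ZMod p × ZMod p × ZMod p) → G
  | .inl i => a i ^ p
  | .inr (.inl (i, j, c, c')) =>
    if i < j then cj (a i) (a j) c * cj (a i) (a j) c' * (cj (a i) (a j) c' * cj (a i) (a j) c)⁻¹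
    else 1
  | .inr (.inr (i, j, t1, t2, t3, c)) =>
    if i < j ∧ t1 ≠ t2 ∧ t1 ≠ t3 ∧ t2 ≠ t3 then cj (a i) (a j) c *
      (cj (a i) (a j) t1 ^ (lg t1 t2 t3 c).val * cj (a i) (a j) t2 ^ (lg t2 t1 t3 c).val *
        cj (a i) (a j) t3 ^ (lg t3 t1 t2 c).val)⁻¹ else 1

theorem map_relf (f : G →* G') (a : Fin 7 → G) (r) :
    f (relf p a r) = relf p (fun i => f (a i)) r := by
  rcases r with i | ⟨i, j, c, c'⟩ | ⟨i, j, t1, t2, t3, c⟩ <;> simp only [relf]
  · exact map_pow _ _ _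
  · split_ifs <;> simp [map_cj]
  · split_ifs <;> simp [map_cj]

theorem rel_iff (a : Fin 7 → G) : Rel p a ↔ ∀ r, relf p a r = 1 := by
  constructor
  · rintro h (i | ⟨i, j, c, c'⟩ | ⟨i, j, t1, t2, t3, c⟩) <;> simp only [relf]
    · exact h.ord i
    · split_ifs with hij
      · exact mul_inv_eq_one.mpr ((h.good i j hij).comm c c')
      · rfl
    · split_ifs with hij
      · exact mul_inv_eq_one.mpr ((h.good i j hij.1).lag t1 t2 t3 c hij.2.1 hij.2.2.1 hij.2.2.2)
      · rfl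
  · refine fun h => ⟨fun i => h (.inl i), fun i j hij => ⟨fun c c' => ?_,
      fun t1 t2 t3 c h1 h2 h3 => ?_⟩⟩
    · have := h (.inr (.inl (i, j, c, c')))
      simp only [relf, if_pos hij] at this
      exact mul_inv_eq_one.mp this
    · have := h (.inr (.inr (i, j, t1, t2, t3, c)))
      simp only [relf, if_pos (show i < j ∧ t1 ≠ t2 ∧ t1 ≠ t3 ∧ t2 ≠ t3 from ⟨hij, h1, h2, h3⟩)]
        at this
      exact mul_inv_eq_one.mp this

theorem Rel.map {a : Fin 7 → G} (h : Rel p a) (f : G →* G') : Rel p fun i => f (a i) :=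
  (rel_iff _).mpr fun r => by rw [← map_relf, (rel_iff a).mp h r, map_one]

/-- the universal group -/
abbrev Gam (p : ℕ) [Fact p.Prime] : Type := PresentedGroup (Set.range (relf p FreeGroup.of))

theorem gam_fp : Group.IsFinitelyPresented (Gam p) := by
  have : Finite (Set.range (relf p (FreeGroup.of : Fin 7 → FreeGroup (Fin 7)))) :=
    (Set.finite_range _).to_subtype
  infer_instance

theorem gam_rel : Rel p (PresentedGroup.of : Fin 7 → Gam p) :=
  (rel_iff _).mpr fun r => (map_relf (PresentedGroup.mk _) FreeGroup.of r).symm.trans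
    (PresentedGroup.one_of_mem (Set.mem_range_self r))

theorem Rel.lift {a : Fin 7 → G} (h : Rel p a) :
    ∃ f : Gam p →* G, ∀ i, f (PresentedGroup.of i) = a i := by
  refine ⟨PresentedGroup.toGroup (f := a) ?_, fun i => PresentedGroup.toGroup.of _⟩
  rintro _ ⟨r, rfl⟩
  rw [map_relf]
  simpa using (rel_iff a).mp h r

theorem pow_val_add {u : G} (hu : u ^ p = 1) (c c' : ZMod p) :
    u ^ (c + c').val = u ^ c.val * u ^ c'.val := by
  rw [← pow_add, ZMod.val_add, ← pow_eq_pow_mod _ hu]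

variable {H : Type} [NormedAddCommGroup H] [InnerProductSpace ℂ H]

/-- the common fixed space -/
def fx (ρ : G →* H ≃ₗᵢ[ℂ] H) (s : Set G) : Submodule ℂ H where
  carrier := {w | ∀ g ∈ s, ρ g w = w}
  add_mem' ha hb g hg := by rw [map_add, ha g hg, hb g hg]
  zero_mem' g _ := map_zero _
  smul_mem' c w hw g hg := by rw [map_smul, hw g hg]

theorem mem_fx {ρ : G →* H ≃ₗᵢ[ℂ] H} {s : Set G} {w : H} : w ∈ fx ρ s ↔ ∀ g ∈ s, ρ g w = w :=
  Iff.rfl

theorem mem_fx1 {ρ : G →* H ≃ₗᵢ[ℂ] H} {g : G} {w : H} : w ∈ fx ρ {g} ↔ ρ g w = w := by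
  simp [mem_fx]

instance [CompleteSpace H] (ρ : G →* H ≃ₗᵢ[ℂ] H) (s : Set G) :
    (fx ρ s).HasOrthogonalProjection := by
  have : IsClosed (fx ρ s : Set H) := by
    have : (fx ρ s : Set H) = ⋂ g ∈ s, {w | ρ g w = w} := by
      ext w
      simp [mem_fx]
    rw [this]
    exact isClosed_biInter fun g _ => isClosed_eq (ρ g).continuous continuous_id
  have := this.completeSpace_coe
  infer_instance

variable (ρ : G →* H ≃ₗᵢ[ℂ] H)

theorem rho_mul (g h : G) (v : H) : ρ (g * h) v = ρ g (ρ h v) := by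
  rw [map_mul]
  rfl

theorem rho_pow {g : G} {w : H} (h : ρ g w = w) (n : ℕ) : ρ (g ^ n) w = w := by
  induction n with
  | zero => simp
  | succ n ih => rw [pow_succ, rho_mul, h, ih]

theorem avg_fix {u : G} (hu : u ^ p = 1) (w : H) :
    ρ u (∑ c : ZMod p, ρ (u ^ c.val) w) = ∑ c : ZMod p, ρ (u ^ c.val) w := by
  rw [map_sum, ← Equiv.sum_comp (Equiv.addLeft (1 : ZMod p)) fun c => ρ (u ^ c.val) w]
  refine Finset.sum_congr rfl fun c _ => ?_
  rw [Equiv.coe_addLeft, pow_val_add hu, ZMod.val_one, pow_one, rho_mul]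

variable [CompleteSpace H]

theorem pr_conj (u b : G) (v : H) :
    (fx ρ {u * b * u⁻¹}).starProjection (ρ u v) = ρ u ((fx ρ {b}).starProjection v) := by
  have h1 := mem_fx1.mp ((fx ρ {b}).starProjection_apply_mem v)
  refine eq_starProjection_of_mem_of_inner_eq_zero ?_ fun w hw => ?_
  · rw [mem_fx1, ← rho_mul, inv_mul_cancel_right, rho_mul, h1]
  · have h2 : ρ u (ρ u⁻¹ w) = w := by rw [← rho_mul, mul_inv_cancel, map_one]; rfl
    rw [← map_sub, ← h2, LinearIsometryEquiv.inner_map_map, inner_eq_zero_symm]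
    refine pr_orth _ (mem_fx1.mpr ?_) v
    conv_rhs => rw [← mem_fx1.mp hw]
    rw [← rho_mul, ← rho_mul]
    congr 2
    group

theorem angle {u b : G} (hu : u ^ p = 1) (h : Good p u b) {a : H} (ha : ρ u a = a)
    (ho : ∀ w ∈ fx ρ {u, b}, inner ℂ w a = 0) :
    p * ‖(fx ρ {b}).starProjection a‖ ^ 2 ≤ 2 * ‖a‖ ^ 2 := by
  classical
  have h1 := count_le (fun c : ZMod p => fx ρ {cj u b c}) (fun i j w hw => by
    have := pr_conj ρ (cj u b j) (cj u b i) w
    rw [mem_fx1.mp hw, ← h.comm, mul_inv_cancel_right] at this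
    exact mem_fx1.mpr this.symm) Finset.univ 2 a (fun T _ hT w hw => by
      obtain ⟨t1, t2, t3, h12, h13, h23, rfl⟩ := Finset.card_eq_three.mp hT
      have a1 : ∀ c : ZMod p, ρ (cj u b c) w = w := fun c => by
        rw [h.lag t1 t2 t3 c h12 h13 h23, rho_mul, rho_mul,
          rho_pow ρ (mem_fx1.mp (hw t3 (by simp))), rho_pow ρ (mem_fx1.mp (hw t2 (by simp))),
          rho_pow ρ (mem_fx1.mp (hw t1 (by simp)))]
      have a2 := ho (∑ c : ZMod p, ρ (u ^ c.val) w) (by
        rintro g (rfl | rfl)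
        · exact avg_fix ρ hu w
        · rw [map_sum]
          refine Finset.sum_congr rfl fun c _ => ?_
          conv_rhs => rw [← a1 (-c), ← rho_mul, cj]
          have e : u ^ c.val * u ^ (-c).val = 1 := by
            rw [← pow_val_add hu, add_neg_cancel, ZMod.val_zero, pow_zero]
          rw [← rho_mul, ← mul_assoc, ← mul_assoc, e, one_mul, eq_inv_of_mul_eq_one_left e])
      rw [sum_inner, Finset.sum_congr rfl (g := fun _ => inner ℂ w a) fun c _ => by
        conv_lhs => rw [← rho_pow ρ ha c.val]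
        exact LinearIsometryEquiv.inner_map_map _ _ _] at a2
      rw [Finset.sum_const, Finset.card_univ, ZMod.card, nsmul_eq_mul, mul_eq_zero] at a2
      exact a2.resolve_left (Nat.cast_ne_zero.mpr (Fact.out : p.Prime).ne_zero))
  rw [Finset.sum_congr rfl (g := fun _ => ‖(fx ρ {b}).starProjection a‖ ^ 2) fun c _ => by
    conv_lhs => rw [← rho_pow ρ ha c.val]
    rw [cj, pr_conj, LinearIsometryEquiv.norm_map]] at h1
  simpa using h1

theorem near_fix {u : G} (hu : u ^ p = 1) {v : H} {ε : ℝ} (hv : ‖ρ u v - v‖ ≤ ε) :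
    ‖v - (fx ρ {u}).starProjection v‖ ≤ p * ε := by
  have hp : (p : ℂ) ≠ 0 := Nat.cast_ne_zero.mpr (Fact.out : p.Prime).ne_zero
  have hp' : (0 : ℝ) < p := Nat.cast_pos.mpr (Fact.out : p.Prime).pos
  have hε := (norm_nonneg _).trans hv
  have h1 : ∀ n : ℕ, ‖v - ρ (u ^ n) v‖ ≤ n * ε := by
    intro n
    induction n with
    | zero => simp
    | succ n ih =>
      rw [pow_succ, rho_mul]
      refine (norm_sub_le_norm_sub_add_norm_sub _ (ρ (u ^ n) v) _).trans ?_
      rw [← map_sub, LinearIsometryEquiv.norm_map, norm_sub_rev v (ρ u v)]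
      push_cast
      linarith
  refine (sub_pr_le _ v (w := (p : ℂ)⁻¹ • ∑ c : ZMod p, ρ (u ^ c.val) v)
    (smul_mem _ _ (mem_fx1.mpr (avg_fix ρ hu v)))).trans ?_
  have e : v - (p : ℂ)⁻¹ • ∑ c : ZMod p, ρ (u ^ c.val) v =
      (p : ℂ)⁻¹ • ∑ c : ZMod p, (v - ρ (u ^ c.val) v) := by
    rw [Finset.sum_sub_distrib, Finset.sum_const, Finset.card_univ, ZMod.card, smul_sub,
      ← Nat.cast_smul_eq_nsmul ℂ, smul_smul, inv_mul_cancel₀ hp, one_smul]
  rw [e, norm_smul, norm_inv, Complex.norm_natCast, inv_mul_le_iff₀ hp']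
  refine (norm_sum_le _ _).trans ((Finset.sum_le_card_nsmul _ _ (p * ε) fun c _ => ?_).trans ?_)
  · exact (h1 _).trans (mul_le_mul_of_nonneg_right (Nat.cast_le.mpr c.val_lt.le) hε)
  · simp

theorem Rel.kaz (hp : 72 < p) {a : Fin 7 → G} (h : Rel p a) (v : H) {ε : ℝ}
    (hv : ∀ i, ‖ρ (a i) v - v‖ ≤ ε) : ∃ w, (∀ i, ρ (a i) w = w) ∧ ‖v - w‖ ≤ 34 * p * ε := by
  have hε := (norm_nonneg _).trans (hv 0)
  have hp' : (73 : ℝ) ≤ p := by exact_mod_cast hp
  have h1 : ∀ i j, i < j → ∀ v : H, _ := fun i j hij =>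
    pair_ge (fx ρ {a i}) (fx ρ {a j}) (fx ρ {a i, a j}) (fun w => by simp [mem_fx])
      (c := 1656 / 10000) (by norm_num) (by norm_num) fun x hx ho => by
        have := angle ρ (h.ord i) (h.good i j hij) (mem_fx1.mp hx) ho
        refine (pow_le_pow_iff_left₀ (norm_nonneg _) (by positivity) two_ne_zero).mp ?_
        nlinarith [sq_nonneg ‖(fx ρ {a j}).starProjection x‖, sq_nonneg ‖x‖]
  obtain ⟨w, w1, w2⟩ := arrangement (fun i => fx ρ {a i}) (c := 1656 / 10000) (by norm_num)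
    (fun i j hij v => by
      rcases lt_or_gt_of_ne hij with hij | hij
      · exact h1 i j hij v
      · rw [add_comm, re_comm]
        exact h1 j i hij v) v
  refine ⟨w, fun i => mem_fx1.mp (w1 i), ?_⟩
  have h2 := Finset.sum_le_card_nsmul Finset.univ
    (fun i => ‖v - (fx ρ {a i}).starProjection v‖ ^ 2) ((p * ε) ^ 2) fun i _ =>
      pow_le_pow_left₀ (norm_nonneg _) (near_fix ρ (h.ord i) (hv i)) 2
  refine (pow_le_pow_iff_left₀ (norm_nonneg _) (by positivity) two_ne_zero).mp ?_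
  simp only [Finset.card_univ, Fintype.card_fin, nsmul_eq_mul] at h2 w2
  push_cast at h2 w2
  nlinarith [sq_nonneg (p * ε)]

end Pool.Agent.P.MP_839d28_al.Kz
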