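import Mathlib

/-! Subspace arrangements in a Hilbert space with small pairwise angles. -/

namespace Pool.Agent.P.MP_839d28_al.Kz

open Submodule

variable {H : Type} [NormedAddCommGroup H] [InnerProductSpace ℂ H]

theorem pr_inner (K : Submodule ℂ H) [K.HasOrthogonalProjection] {w : H} (hw : w ∈ K) (v : H) :
    inner ℂ w (K.starProjection v) = inner ℂ w v := by
  rw [← inner_starProjection_left_eq_right, starProjection_eq_self_iff.mpr hw]

theorem pr_orth (K : Submodule ℂ H) [K.HasOrthogonalProjection] {w : H} (hw : w ∈ K) (v : H) :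
    inner ℂ w (v - K.starProjection v) = 0 := by
  rw [inner_sub_right, pr_inner K hw, sub_self]

theorem nsq (v : H) : (inner ℂ v v).re = ‖v‖ ^ 2 := by
  rw [inner_self_eq_norm_sq_to_K]
  norm_cast

theorem nsq_add (a b : H) : ‖a + b‖ ^ 2 = ‖a‖ ^ 2 + ‖b‖ ^ 2 + 2 * (inner ℂ a b).re := by
  have := norm_add_sq (𝕜 := ℂ) a b
  simp only [RCLike.re_to_complex] at this
  linarith

theorem nsq_sub (a b : H) : ‖a - b‖ ^ 2 = ‖a‖ ^ 2 + ‖b‖ ^ 2 - 2 * (inner ℂ a b).re := by
  have := norm_sub_sq (𝕜 := ℂ) a b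
  simp only [RCLike.re_to_complex] at this
  linarith

theorem re_le (a b : H) : (inner ℂ a b).re ≤ ‖a‖ * ‖b‖ :=
  (Complex.re_le_norm _).trans (norm_inner_le_norm a b)

theorem re_comm (a b : H) : (inner ℂ a b).re = (inner ℂ b a).re := by
  rw [← inner_conj_symm, Complex.conj_re]

theorem pyth (K : Submodule ℂ H) [K.HasOrthogonalProjection] (v : H) :
    ‖v‖ ^ 2 = ‖K.starProjection v‖ ^ 2 + ‖v - K.starProjection v‖ ^ 2 := by
  have := nsq_add (K.starProjection v) (v - K.starProjection v)
  rw [pr_orth K (K.starProjection_apply_mem v)] at this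
  simpa using this

theorem sub_pr_le (K : Submodule ℂ H) [K.HasOrthogonalProjection] (v : H) {w : H} (hw : w ∈ K) :
    ‖v - K.starProjection v‖ ≤ ‖v - w‖ := by
  have h1 := pyth K (v - w)
  rw [map_sub, starProjection_eq_self_iff.mpr hw, sub_sub_sub_cancel_right] at h1
  refine (pow_le_pow_iff_left₀ (norm_nonneg _) (norm_nonneg _) two_ne_zero).mp ?_
  nlinarith [sq_nonneg ‖K.starProjection v - w‖]

/-- commuting projections such that any `d + 1` of them have no common vector -/
theorem count_le {J : Type} [DecidableEq J] (K : J → Submodule ℂ H)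
    [∀ i, (K i).HasOrthogonalProjection]
    (hc : ∀ i j, ∀ w ∈ K j, (K i).starProjection w ∈ K j) (s : Finset J) :
    ∀ (d : ℕ) (v : H), (∀ T ⊆ s, T.card = d + 1 → ∀ w, (∀ i ∈ T, w ∈ K i) → inner ℂ w v = 0) →
      ∑ i ∈ s, ‖(K i).starProjection v‖ ^ 2 ≤ d * ‖v‖ ^ 2 := by
  induction s using Finset.induction_on with
  | empty => intro d v _; simp; positivity
  | insert r s hr ih =>
    intro d v hv
    rcases d with _ | d
    · refine le_of_eq ?_
      rw [Nat.cast_zero, zero_mul]
      refine Finset.sum_eq_zero fun i hi => ?_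
      have h1 := hv {i} (by simpa using hi) (by simp) _ (fun j hj => by
        rw [Finset.mem_singleton.mp hj]
        exact (K i).starProjection_apply_mem v)
      rw [← pr_inner (K i) ((K i).starProjection_apply_mem v)] at h1
      rw [← nsq, h1]
      rfl
    · set a := (K r).starProjection v with ha
      have am : a ∈ K r := (K r).starProjection_apply_mem v
      have h1 := ih d a (fun T hT hcard w hw => by
        rw [ha, ← inner_starProjection_left_eq_right]
        refine hv (insert r T) (Finset.insert_subset_insert r hT) (by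
          rw [Finset.card_insert_of_notMem fun h => hr (hT h), hcard]) _ fun i hi => ?_
        rcases Finset.mem_insert.mp hi with rfl | hi
        · exact (K i).starProjection_apply_mem w
        · exact hc r i w (hw i hi))
      have h2 := ih (d + 1) (v - a) (fun T hT hcard w hw => by
        have hT' := hT.trans (Finset.subset_insert r s)
        rw [inner_sub_right, hv T hT' hcard w hw, ha, ← inner_starProjection_left_eq_right,
          hv T hT' hcard _ fun i hi => hc r i w (hw i hi), sub_self])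
      have h3 : ∀ i, ‖(K i).starProjection v‖ ^ 2 =
          ‖(K i).starProjection a‖ ^ 2 + ‖(K i).starProjection (v - a)‖ ^ 2 := by
        intro i
        have := nsq_add ((K i).starProjection a) ((K i).starProjection (v - a))
        rw [← map_add, add_sub_cancel, pr_inner (K i) ((K i).starProjection_apply_mem a),
          pr_orth (K r) (hc i r a am)] at this
        simpa using this
      have h4 := pyth (K r) v
      rw [Finset.sum_insert hr, Finset.sum_congr rfl fun i _ => h3 i, Finset.sum_add_distrib]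
      rw [← ha] at h4 ⊢
      push_cast at h2 ⊢
      nlinarith

/-- from the angle between two subspaces to the angle between the complements -/
theorem pair_ge (K L M : Submodule ℂ H) [K.HasOrthogonalProjection] [L.HasOrthogonalProjection]
    [M.HasOrthogonalProjection] (hM : ∀ w, w ∈ M ↔ w ∈ K ∧ w ∈ L) {c : ℝ} (hc0 : 0 ≤ c)
    (hc1 : c < 1)
    (h : ∀ a ∈ K, (∀ w ∈ M, inner ℂ w a = 0) → ‖L.starProjection a‖ ≤ c * ‖a‖) (v : H) :
    -(c * (‖v - K.starProjection v‖ ^ 2 + ‖v - L.starProjection v‖ ^ 2)) ≤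
      2 * (inner ℂ (v - K.starProjection v) (v - L.starProjection v)).re := by
  have m0 := (hM _).mp (M.starProjection_apply_mem v)
  set u := v - M.starProjection v with hu
  have e1 : v - K.starProjection v = u - K.starProjection u := by
    rw [hu, map_sub, starProjection_eq_self_iff.mpr m0.1, sub_sub_sub_cancel_right]
  have e2 : v - L.starProjection v = u - L.starProjection u := by
    rw [hu, map_sub, starProjection_eq_self_iff.mpr m0.2, sub_sub_sub_cancel_right]
  rw [e1, e2]
  set a := K.starProjection u with ha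
  set b := L.starProjection u with hb
  have am : a ∈ K := K.starProjection_apply_mem u
  have bm : b ∈ L := L.starProjection_apply_mem u
  have h1 : (inner ℂ b a).re ≤ c * ‖a‖ * ‖b‖ := by
    rw [← pr_inner L bm]
    refine (re_le _ _).trans ?_
    rw [mul_comm]
    refine mul_le_mul_of_nonneg_right (h a am fun w hw => ?_) (norm_nonneg _)
    rw [ha, pr_inner K ((hM w).mp hw).1, hu, pr_orth M hw]
  set z := a - b with hz
  have z1 : ‖z‖ ^ 2 = ‖a‖ ^ 2 + ‖b‖ ^ 2 - 2 * (inner ℂ b a).re := by
    rw [hz, nsq_sub, re_comm]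
  have z2 : (1 - c) * (‖a‖ ^ 2 + ‖b‖ ^ 2) ≤ ‖z‖ ^ 2 := by
    nlinarith [mul_nonneg hc0 (sq_nonneg (‖a‖ - ‖b‖))]
  have z3 : ‖z‖ ^ 2 ≤ ‖a‖ * ‖K.starProjection z‖ + ‖b‖ * ‖L.starProjection z‖ := by
    have : (inner ℂ z z).re = (inner ℂ a (K.starProjection z)).re +
        (inner ℂ (-b) (L.starProjection z)).re := by
      rw [pr_inner K am, pr_inner L (L.neg_mem bm), ← Complex.add_re, ← inner_add_left, hz,
        sub_eq_add_neg]
    rw [← nsq, this]
    exact add_le_add (re_le _ _) ((re_le _ _).trans_eq (by rw [norm_neg]))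
  have z4 : (1 - c) * ‖z‖ ^ 2 ≤ ‖K.starProjection z‖ ^ 2 + ‖L.starProjection z‖ ^ 2 := by
    have hp : 0 < 1 - c := by linarith
    nlinarith [sq_nonneg ((1 - c) * ‖a‖ - ‖K.starProjection z‖),
      sq_nonneg ((1 - c) * ‖b‖ - ‖L.starProjection z‖), mul_le_mul_of_nonneg_left z3 hp.le,
      mul_le_mul_of_nonneg_left z2 hp.le]
  have p1 := pyth K z
  have p2 := pyth L z
  have z5 : ‖z‖ ^ 2 ≤ ‖z - L.starProjection z‖ * ‖u - b‖ + ‖z - K.starProjection z‖ * ‖u - a‖ := by
    have o1 : inner ℂ (L.starProjection z) (u - b) = 0 := pr_orth L (L.starProjection_apply_mem z) u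
    have o2 : inner ℂ (K.starProjection z) (u - a) = 0 := pr_orth K (K.starProjection_apply_mem z) u
    have : (inner ℂ z z).re = (inner ℂ (z - L.starProjection z) (u - b)).re +
        (inner ℂ (-(z - K.starProjection z)) (u - a)).re := by
      rw [inner_neg_left, inner_sub_left _ (L.starProjection z),
        inner_sub_left _ (K.starProjection z), o1, o2, sub_zero,
        sub_zero, ← Complex.add_re, ← sub_eq_add_neg, ← inner_sub_right, sub_sub_sub_cancel_left]
    rw [← nsq, this]
    exact add_le_add (re_le _ _) ((re_le _ _).trans_eq (by rw [norm_neg]))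
  have z6 : ‖z‖ ^ 2 ≤ (1 + c) * (‖u - a‖ ^ 2 + ‖u - b‖ ^ 2) := by
    have hp : 0 < 1 + c := by linarith
    nlinarith [sq_nonneg ((1 + c) * ‖u - a‖ - ‖z - K.starProjection z‖),
      sq_nonneg ((1 + c) * ‖u - b‖ - ‖z - L.starProjection z‖), mul_le_mul_of_nonneg_left z5 hp.le]
  have z7 := nsq_sub (u - b) (u - a)
  rw [sub_sub_sub_cancel_left, ← hz, re_comm] at z7
  linarith

/-- the spectral gap of a subspace arrangement -/
theorem arrangement [CompleteSpace H] {J : Type} [Fintype J] [DecidableEq J]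
    (K : J → Submodule ℂ H) [∀ i, (K i).HasOrthogonalProjection] {c : ℝ}
    (hγ : 0 < 1 - ((Fintype.card J : ℝ) - 1) * c)
    (h : ∀ i j, i ≠ j → ∀ v : H,
      -(c * (‖v - (K i).starProjection v‖ ^ 2 + ‖v - (K j).starProjection v‖ ^ 2)) ≤
      2 * (inner ℂ (v - (K i).starProjection v) (v - (K j).starProjection v)).re) (v : H) :
    ∃ w, (∀ i, w ∈ K i) ∧ (1 - ((Fintype.card J : ℝ) - 1) * c) * ‖v - w‖ ^ 2 ≤
      ∑ i, ‖v - (K i).starProjection v‖ ^ 2 := by
  set γ := 1 - ((Fintype.card J : ℝ) - 1) * c with hγd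
  set Q : J → H →L[ℂ] H := fun i => 1 - (K i).starProjection with hQ
  have Qa : ∀ i v, Q i v = v - (K i).starProjection v := fun i v => rfl
  simp only [← Qa] at h ⊢
  set T : H →L[ℂ] H := ∑ i, Q i with hT
  have Ta : ∀ v, T v = ∑ i, Q i v := fun v => by simp [hT]
  have q1 : ∀ i (u v : H), inner ℂ u (Q i v) = inner ℂ (Q i u) (Q i v) := fun i u v => by
    rw [Qa i u, inner_sub_left, Qa, pr_orth (K i) ((K i).starProjection_apply_mem u), sub_zero]
  have q2 : ∀ i (u v : H), inner ℂ (Q i u) v = inner ℂ (Q i u) (Q i v) := fun i u v => by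
    rw [← inner_conj_symm, q1, inner_conj_symm]
  have t1 : ∀ u v : H, (inner ℂ u (T v)).re = ∑ i, (inner ℂ (Q i u) (Q i v)).re := fun u v => by
    rw [Ta, inner_sum, Complex.re_sum]
    exact Finset.sum_congr rfl fun i _ => by rw [q1]
  have t2 : (T : H →ₗ[ℂ] H).IsSymmetric := fun u v => by
    simp only [ContinuousLinearMap.coe_coe, Ta, inner_sum, sum_inner]
    exact Finset.sum_congr rfl fun i _ => by rw [q1, q2]
  have t3 : ∀ v, γ * ∑ i, ‖Q i v‖ ^ 2 ≤ ‖T v‖ ^ 2 := fun v => by
    have a1 : ‖T v‖ ^ 2 = ∑ i, ∑ j, (inner ℂ (Q i v) (Q j v)).re := by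
      rw [← nsq, Ta, sum_inner, Complex.re_sum]
      exact Finset.sum_congr rfl fun i _ => by rw [inner_sum, Complex.re_sum]
    have a2 : ∀ i j, (if i = j then (2 + 2 * c) * ‖Q i v‖ ^ 2 else 0) -
        c * (‖Q i v‖ ^ 2 + ‖Q j v‖ ^ 2) ≤ 2 * (inner ℂ (Q i v) (Q j v)).re := by
      intro i j
      split_ifs with hij
      · subst hij
        rw [nsq]
        linarith
      · linarith [h i j hij v]
    have a3 := Finset.sum_le_sum fun i (_ : i ∈ Finset.univ) =>
      Finset.sum_le_sum fun j (_ : j ∈ Finset.univ) => a2 i j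
    simp only [Finset.sum_sub_distrib, Finset.sum_ite_eq, Finset.mem_univ, if_true, mul_add,
      Finset.sum_add_distrib, Finset.sum_const, Finset.card_univ, nsmul_eq_mul,
      ← Finset.mul_sum] at a3
    rw [a1, hγd]
    linarith
  have t4 : ∀ u ∈ (T : H →ₗ[ℂ] H).range.topologicalClosure,
      γ * ‖u‖ ^ 2 ≤ ∑ i, ‖Q i u‖ ^ 2 := by
    have hcl : IsClosed {u : H | γ * ‖u‖ ^ 2 ≤ ∑ i, ‖Q i u‖ ^ 2} :=
      isClosed_le (by fun_prop) (by fun_prop)
    refine fun u hu => closure_minimal (s := ((T : H →ₗ[ℂ] H).range : Set H)) ?_ hcl hu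
    rintro _ ⟨w, rfl⟩
    have b1 := t3 w
    have b2 : ‖T w‖ ^ 2 = ∑ i, (inner ℂ (Q i w) (Q i (T w))).re := by
      rw [← t1, ← nsq]
      exact congrArg Complex.re (t2 w (T w))
    have b3 : ∀ i, 2 * γ * (inner ℂ (Q i w) (Q i (T w))).re ≤
        γ * (γ * ‖Q i w‖ ^ 2) + ‖Q i (T w)‖ ^ 2 := fun i => by
      nlinarith [mul_le_mul_of_nonneg_left (re_le (Q i w) (Q i (T w))) hγ.le,
        sq_nonneg (γ * ‖Q i w‖ - ‖Q i (T w)‖)]
    have b4 := Finset.sum_le_sum fun i (_ : i ∈ Finset.univ) => b3 i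
    simp only [Finset.sum_add_distrib, ← Finset.mul_sum] at b4
    rw [← b2] at b4
    have b5 := mul_le_mul_of_nonneg_left b1 hγ.le
    change γ * ‖T w‖ ^ 2 ≤ ∑ i, ‖Q i (T w)‖ ^ 2
    linarith
  set R := (T : H →ₗ[ℂ] H).range with hR
  have hk : ∀ i, Rᗮ.starProjection v ∈ K i := by
    intro i
    have a1 := Rᗮ.starProjection_apply_mem v
    set w := Rᗮ.starProjection v
    rw [hR, t2.orthogonal_range, LinearMap.mem_ker, ContinuousLinearMap.coe_coe] at a1
    have a2 := t1 w w
    simp only [a1, inner_zero_right, Complex.zero_re, nsq] at a2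
    have a3 := (Finset.sum_eq_zero_iff_of_nonneg fun i _ => sq_nonneg _).mp a2.symm i
      (Finset.mem_univ i)
    rw [pow_eq_zero_iff two_ne_zero, norm_eq_zero, Qa, sub_eq_zero] at a3
    rw [a3]
    exact (K i).starProjection_apply_mem w
  refine ⟨_, hk, (t4 _ ?_).trans_eq (Finset.sum_congr rfl fun i _ => ?_)⟩
  · rw [← orthogonal_orthogonal_eq_closure]
    exact sub_starProjection_mem_orthogonal v
  · rw [map_sub, Qa i (Rᗮ.starProjection v), starProjection_eq_self_iff.mpr (hk i), sub_self,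
      sub_zero]

end Pool.Agent.P.MP_839d28_al.Kz
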