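import Pool.Agent.P.MP_839d28_al.KzOp
import Pool.Agent.P.MP_839d28_al.KzDense

/-! The orthogonal representations of the universal group and their density. -/

open Matrix

namespace Pool.Agent.P.MP_839d28_al.Kz

variable {p s : ℕ} [Fact p.Prime]

/-- the seven phases -/
def ph (p s : ℕ) : Fin 7 → Ph p s :=
  ![fun y ξ => ξ 0 ⬝ᵥ y 1, fun y ξ => ξ 1 ⬝ᵥ y 2, fun y ξ => ξ 2 ⬝ᵥ fn p s 0 (y 0),
    fun y ξ => ξ 2 ⬝ᵥ fn p s 1 (y 0), fun y ξ => ξ 2 ⬝ᵥ fn p s 2 (y 0),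
    fun y ξ => ξ 2 ⬝ᵥ fn p s 3 (y 0), fun _ ξ => ξ 2 0 ^ 2 * ξ 1 0]

theorem opr_sh (i : Fin 3) (F : Sp p s → Blk p s) :
    opr (fun y ξ => ξ i ⬝ᵥ F y) = pm fun y => y + Pi.single i (F y) := by
  rw [← opr_shear]
  simp only [dt_single]

theorem typ_hi (j : Fin 7) (hj : 2 ≤ j) : Typ (· ≠ 0) (ph p s j) := by
  refine ⟨fun y y' ξ ξ' h1 h2 => ?_, fun y ξ => ?_⟩
  · have a0 := h1 0 (by simp)
    have a1 := h2 1 (by simp)
    have a2 := h2 2 (by simp)
    fin_cases j <;> first | exact absurd hj (by decide) | simp [ph, a0, a1, a2]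
  · fin_cases j <;> simp [ph]

theorem typ_lo (j : Fin 7) (hj : j < 2) : Typ (· ≠ 2) (ph p s j) ∨ Typ (· = 0) (ph p s j) := by
  fin_cases j
  · exact .inr ⟨fun y y' ξ ξ' h1 h2 => by simp [ph, h1 1 (by simp), h2 0 rfl],
      fun y ξ => by simp [ph]⟩
  · exact .inl ⟨fun y y' ξ ξ' h1 h2 => by simp [ph, h1 2 (by simp), h2 1 (by simp)],
      fun y ξ => by simp [ph]⟩
  all_goals exact absurd hj (by decide)

theorem typ_ex (j : Fin 7) : ∃ I, Typ I (ph p s j) := by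
  rcases lt_or_ge j 2 with h | h
  · exact (typ_lo j h).elim (fun h => ⟨_, h⟩) fun h => ⟨_, h⟩
  · exact ⟨_, typ_hi j h⟩

theorem fn_poly (r : Fin 4) (a b ξ : Blk p s) :
    ∃ α β γ : ZMod p, ∀ c : ZMod p, ξ ⬝ᵥ fn p s r (a + c • b) = α + c * β + c ^ 2 * γ := by
  fin_cases r
  · exact ⟨ξ 0 * a 0, ξ 0 * b 0, 0, fun c => by simp [fn]; ring⟩
  · exact ⟨ξ ⬝ᵥ fun l => a (l - 1), ξ ⬝ᵥ fun l => b (l - 1), 0, fun c => by
      simp [fn, dotProduct, mul_add, Finset.sum_add_distrib, Finset.mul_sum, mul_left_comm]⟩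
  · exact ⟨ξ 0 * a 0 ^ 2, 2 * ξ 0 * a 0 * b 0, ξ 0 * b 0 ^ 2, fun c => by simp [fn]; ring⟩
  · exact ⟨ξ 0, 0, 0, fun c => by simp [fn]⟩

omit [Fact p.Prime] in
theorem inc_cj {ι : Type} [Fintype ι] [DecidableEq ι] (u b : SOG ι) (c : ZMod p) :
    inc _ (cj u b c) = inc _ u ^ c.val * inc _ b * (inc _ u ^ c.val)ᵀ := by
  rw [cj, map_mul, map_mul, emb_inc.inv, map_pow]

theorem good_elm {i j : Fin 3} (h : i ≠ j) {u b : SOG (Sp p s)} {H : Ph p s}
    (hu : inc _ u = opr fun y ξ => ξ i ⬝ᵥ y j) (hb : inc _ b = opr H) (I : Fin 3 → Prop)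
    (hK : ∀ c, Typ I fun y ξ => H (elm i j (-c) y) (elm j i c ξ))
    (hq : ∀ y ξ, ∃ α β γ : ZMod p, ∀ c, H (elm i j (-c) y) (elm j i c ξ) =
      α + c * β + c ^ 2 * γ) : Good p u b := by
  refine good_of _ hK (fun c => ?_) hq
  have : inc _ u = pm (elm i j 1) := by
    rw [hu, opr_sh]
    congr 1
    ext x : 1
    simp [elm]
  rw [inc_cj, this, pm_elm_pow h, ZMod.natCast_zmod_val, hb, conj_elm h]

theorem model_rel (a : Fin 7 → SOG (Sp p s)) (ha : ∀ i, inc _ (a i) = opr (ph p s i)) :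
    Rel p a := by
  refine ⟨fun i => emb_inc.inj ?_, fun i j hij => ?_⟩
  · obtain ⟨I, h⟩ := typ_ex (p := p) (s := s) i
    rw [map_pow, ha, h.opr_pow_p, map_one]
  by_cases hi : 2 ≤ i
  · have h1 := typ_hi (p := p) (s := s) i hi
    have h2 := typ_hi (p := p) (s := s) j (hi.trans hij.le)
    refine good_of (fun _ => ph p s j) (fun _ => h2) (fun c => ?_)
      fun y ξ => ⟨ph p s j y ξ, 0, 0, fun c => by simp⟩
    rw [inc_cj, ha, ha, h1.opr_pow, (h1.nsmul _).opr_transpose, (h1.nsmul _).opr_mul h2,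
      ((h1.nsmul _).add h2).opr_mul (h1.nsmul _).neg, add_neg_cancel_comm]
  have f0 : ∀ r : Fin 4, ∀ j, inc _ (a j) = opr (fun y ξ => ξ 2 ⬝ᵥ fn p s r (y 0)) →
      Good p (a 0) (a j) := fun r j hj =>
    good_elm (i := 0) (j := 1) (by decide) (ha 0) hj (· = 2)
      (fun c => ⟨fun y y' ξ ξ' h1 h2 => by simp [elm, h1 0 (by simp), h1 1 (by simp), h2 2 rfl],
        fun y ξ => by simp [elm]⟩)
      fun y ξ => by simpa [elm] using fn_poly r (y 0) (-y 1) (ξ 2)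
  have f1 : ∀ r : Fin 4, ∀ j, inc _ (a j) = opr (fun y ξ => ξ 2 ⬝ᵥ fn p s r (y 0)) →
      Good p (a 1) (a j) := fun r j hj =>
    good_elm (i := 1) (j := 2) (by decide) (ha 1) hj (· ≠ 0)
      (fun c => ⟨fun y y' ξ ξ' h1 h2 => by
        simp [elm, h1 0 (by simp), h2 1 (by simp), h2 2 (by simp)],
        fun y ξ => by simp [elm, add_comm]⟩)
      fun y ξ => ⟨ξ 2 ⬝ᵥ fn p s r (y 0), ξ 1 ⬝ᵥ fn p s r (y 0), 0, fun c => by simp [elm]⟩
  have g01 : Good p (a 0) (a 1) :=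
    good_elm (i := 0) (j := 1) (by decide) (ha 0) (ha 1) (· ≠ 2)
      (fun c => ⟨fun y y' ξ ξ' h1 h2 => by
        simp [ph, elm, h1 2 (by simp), h2 0 (by simp), h2 1 (by simp)],
        fun y ξ => by simp [ph, elm, add_comm]⟩)
      fun y ξ => ⟨ξ 1 ⬝ᵥ y 2, ξ 0 ⬝ᵥ y 2, 0, fun c => by simp [ph, elm]⟩
  have g06 : Good p (a 0) (a 6) :=
    good_elm (i := 0) (j := 1) (by decide) (ha 0) (ha 6) (fun _ => True)
      (fun c => ⟨fun y y' ξ ξ' h1 h2 => by
        simp [ph, elm, h2 0 trivial, h2 1 trivial, h2 2 trivial],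
        fun y ξ => by simp [ph, elm]; ring⟩)
      fun y ξ => ⟨ξ 2 0 ^ 2 * ξ 1 0, ξ 2 0 ^ 2 * ξ 0 0, 0, fun c => by simp [ph, elm]; ring⟩
  have g16 : Good p (a 1) (a 6) :=
    good_elm (i := 1) (j := 2) (by decide) (ha 1) (ha 6) (fun _ => True)
      (fun c => ⟨fun y y' ξ ξ' h1 h2 => by
        simp [ph, elm, h2 1 trivial, h2 2 trivial],
        fun y ξ => by
          simp only [ph, elm, Matrix.cons_val, Pi.add_apply, Pi.neg_apply, Pi.single_eq_same,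
            Pi.smul_apply, smul_eq_mul, Pi.zero_apply, Pi.single_eq_of_ne (show (1 : Fin 3) ≠ 2 by decide)]
          ring⟩)
      fun y ξ => ⟨ξ 2 0 ^ 2 * ξ 1 0, 2 * ξ 2 0 * ξ 1 0 ^ 2, ξ 1 0 ^ 3,
        fun c => by simp [ph, elm]; ring⟩
  have hc : ∀ i j : Fin 7, i < j → ¬2 ≤ i → (i = 0 ∨ i = 1) ∧
      (i = 0 ∧ j = 1 ∨ j = 2 ∨ j = 3 ∨ j = 4 ∨ j = 5 ∨ j = 6) := fun i j => by omega
  obtain ⟨h1, ⟨rfl, rfl⟩ | rfl | rfl | rfl | rfl | rfl⟩ := hc i j hij hi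
  · exact g01
  all_goals rcases h1 with rfl | rfl
  exacts [f0 0 2 (ha 2), f1 0 2 (ha 2), f0 1 3 (ha 3), f1 1 3 (ha 3), f0 2 4 (ha 4),
    f1 2 4 (ha 4), f0 3 5 (ha 5), f1 3 5 (ha 5), g06, g16]

theorem diag_u : ∃ q : ℚ, 0 < q ∧ q < 1 ∧ ∀ x, opr (ph p s 6) x x = q := by
  classical
  set Z := (Finset.univ.filter fun ξ : Sp p s => ξ 2 0 = 0).card with hZ
  have hN : 0 < Fintype.card (Sp p s) := Fintype.card_pos
  refine ⟨Z / Fintype.card (Sp p s), div_pos (Nat.cast_pos.mpr (Finset.card_pos.mpr ⟨0, by simp⟩))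
    (Nat.cast_pos.mpr hN), (div_lt_one (Nat.cast_pos.mpr hN)).mpr (Nat.cast_lt.mpr
      (Finset.card_lt_univ_of_notMem (x := fun _ _ => 1) (by simp))), fun x => ?_⟩
  apply Complex.ofReal_injective
  rw [(typ_hi 6 (by decide)).coe_opr, opc, of_apply, ← Finset.sum_filter_add_sum_filter_not _
    (fun ξ : Sp p s => ξ 2 0 = 0)]
  have h1 : ∑ ξ : Sp p s with ξ 2 0 = 0, ch p (ph p s 6 x ξ + dt ξ (x - x)) = Z := by
    rw [Finset.sum_congr rfl (g := fun _ => 1) fun ξ hξ => by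
      simp [ph, dt, (Finset.mem_filter.mp hξ).2]]
    simp [hZ]
  have h2 : ∑ ξ : Sp p s with ¬ξ 2 0 = 0, ch p (ph p s 6 x ξ + dt ξ (x - x)) = 0 := by
    rw [← Finset.sum_fiberwise_of_maps_to (t := Finset.univ.filter fun c : ZMod p => c ≠ 0)
      (g := fun ξ : Sp p s => ξ 2 0) (by simp)]
    refine Finset.sum_eq_zero fun c hc => ?_
    have hc := (Finset.mem_filter.mp hc).2
    set e := Equiv.addRight (Pi.single 1 (Pi.single 0 1) : Sp p s) with he
    have a1 := Finset.sum_equiv e (s := (Finset.univ.filter fun ξ : Sp p s => ¬ξ 2 0 = 0).filter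
      fun ξ => ξ 2 0 = c) (t := (Finset.univ.filter fun ξ : Sp p s => ¬ξ 2 0 = 0).filter
      fun ξ => ξ 2 0 = c) (f := fun ξ => ch p (ph p s 6 x ξ + dt ξ (x - x)) * ch p (c ^ 2))
      (g := fun ξ => ch p (ph p s 6 x ξ + dt ξ (x - x))) (fun ξ => by simp [he]) fun ξ hξ => by
        simp [he, ph, dt, (Finset.mem_filter.mp hξ).2, mul_add, AddChar.map_add_eq_mul]
    rw [← Finset.sum_mul] at a1
    exact (mul_right_eq_self₀.mp a1).resolve_left (ch_ne (pow_ne_zero 2 hc))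
  rw [h1, h2]
  push_cast
  ring

theorem opr_inj {I I' : Fin 3 → Prop} {H H' : Ph p s} (h : Typ I H) (h' : Typ I' H')
    (e : opr H = opr H') : H = H' := by
  have key : ∀ (K : Ph p s) y η, ∑ x, opc K x y * ch p (dt η x) = ch p (K y η + dt η y) := by
    intro K y η
    have : ∀ x ξ, ch p (K y ξ + dt ξ (y - x)) * ch p (dt η x) =
        ch p (K y ξ + dt ξ y) * ch p (dt x (η - ξ)) := fun x ξ => by
      rw [← AddChar.map_add_eq_mul, ← AddChar.map_add_eq_mul]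
      simp only [sub_eq_add_neg, dt_add_right, dt_neg_right, dt_comm x, dt_add_left, dt_neg_left]
      congr 1
      ring
    simp only [opc, of_apply, mul_assoc, ← Finset.mul_sum, Finset.sum_mul, this]
    rw [Finset.sum_comm]
    simp only [← Finset.mul_sum, sum_dt, sub_eq_zero, mul_ite, mul_zero, Finset.sum_ite_eq,
      Finset.mem_univ, if_true]
    rw [mul_comm, mul_assoc, mul_inv_cancel₀ card_ne, mul_one]
  ext y η
  have := key H y η
  simp only [← h.coe_opr, e, h'.coe_opr, key] at this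
  exact add_right_cancel (ZMod.injective_stdAddChar this).symm

theorem ph_ne (hs : 1 ≤ s) (h2 : (2 : ZMod p) ≠ 0) (i j : Fin 7) {c : ZMod p}
    (h : ph p s i = c • ph p s j) : i = j ∧ c = 1 := by
  have : Fact (1 < s + 1) := ⟨by omega⟩
  set e : Blk p s := Pi.single 0 1 with he
  let L : Fin 7 → Ph p s → ZMod p :=
    ![fun H => H (Pi.single 1 e) (Pi.single 0 e), fun H => H (Pi.single 2 e) (Pi.single 1 e),
      fun H => 2⁻¹ * (H (Pi.single 0 e) (Pi.single 2 e) - H (Pi.single 0 (-e)) (Pi.single 2 e)),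
      fun H => H (Pi.single 0 e) (Pi.single 2 (Pi.single 1 1)),
      fun H => H (Pi.single 0 e) (Pi.single 2 e) - H 0 (Pi.single 2 e) -
        2⁻¹ * (H (Pi.single 0 e) (Pi.single 2 e) - H (Pi.single 0 (-e)) (Pi.single 2 e)),
      fun H => H 0 (Pi.single 2 e),
      fun H => H 0 (Pi.single 1 e + Pi.single 2 e) - H 0 (Pi.single 2 e)]
  have h1 : ∀ k i, L k (ph p s i) = if k = i then 1 else 0 := fun k i => by
    have : (2 : ZMod p)⁻¹ * (1 + 1) = 1 := by rw [one_add_one_eq_two, inv_mul_cancel₀ h2]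
    fin_cases k <;> fin_cases i <;> simp [L, ph, fn, he, this]
  have h3 : ∀ k H, L k (c • H) = c * L k H := fun k H => by
    fin_cases k <;> simp [L] <;> ring
  have := h1 i i
  rw [h, h3, h1, if_pos rfl] at this
  split_ifs at this with hij
  · exact ⟨hij, by simpa using this⟩
  · simp at this

variable {κ : Type} [Fintype κ] [DecidableEq κ]

theorem exists_model (hp : 72 < p) (hκ : Fintype.card (Sp p s) = Fintype.card κ + 1) :
    ∃ φ : Gam p →* Matrix κ κ ℝ, (∀ γ, SO (φ γ)) ∧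
      (1 ≤ s → ∀ i j, (φ (PresentedGroup.of i) = φ (PresentedGroup.of j) → i = j) ∧
        φ (PresentedGroup.of i) ≠ φ (PresentedGroup.of j)⁻¹) ∧
      ∀ (V : Type) [NormedAddCommGroup V] [InnerProductSpace ℂ V] (R : MatRep κ V) (v : V),
        (∀ γ, R.ρ (φ γ) v = v) → ∀ g, SO g → R.ρ g v = v := by
  have hodd : Odd p := (Fact.out : p.Prime).odd_of_ne_two (by omega)
  have hc : ∀ i j : Fin 7, i ≠ j → ((i : ℕ) : ZMod p) ≠ (j : ℕ) := fun i j hij h =>
    hij (Fin.ext (CharP.natCast_injOn_Iio (ZMod p) p (show (i : ℕ) < p by omega)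
      (show (j : ℕ) < p by omega) h))
  have h2 : (2 : ZMod p) ≠ 0 := by simpa using hc 2 0 (by decide)
  obtain ⟨P, P1, P2⟩ := exists_frame hκ
  set J : Matrix (Sp p s) (Sp p s) ℝ := of fun _ _ => (Fintype.card (Sp p s) : ℝ)⁻¹ with hJ
  have P3 : J * P = 0 := by
    have : P * Pᵀ * P = P := by rw [Matrix.mul_assoc, P1, Matrix.mul_one]
    rwa [P2, Matrix.sub_mul, Matrix.one_mul, sub_eq_self] at this
  have Jt : Jᵀ = J := rfl
  have P4 : Pᵀ * J = 0 := by rw [← Jt, ← transpose_mul, P3, transpose_zero]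
  choose a ha using fun i => emb_inc.surj (opr (ph p s i)) ((typ_ex i).choose_spec.so hodd)
  obtain ⟨θ0, hθ0⟩ := (model_rel a ha).lift
  set θ := (inc _).comp θ0 with hθ
  have t0 : ∀ i, θ (PresentedGroup.of i) = opr (ph p s i) := fun i => by simp [hθ, hθ0, ha]
  have t1 : ∀ γ, SO (θ γ) := fun γ => emb_inc.so _
  have t2 : ∀ γ, θ γ⁻¹ = (θ γ)ᵀ := fun γ => by simp [hθ, emb_inc.inv]
  have ind : ∀ Q : Gam p → Prop, (∀ i, Q (PresentedGroup.of i)) → Q 1 →
      (∀ x y, Q x → Q y → Q (x * y)) → (∀ x, Q x → Q x⁻¹) → ∀ γ, Q γ := fun Q q1 q2 q3 q4 γ =>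
    Subgroup.closure_induction (p := fun x _ => Q x) (by rintro _ ⟨i, rfl⟩; exact q1 i) q2
      (fun x y _ _ => q3 x y) (fun x _ => q4 x)
      ((PresentedGroup.closure_range_of _).ge (Subgroup.mem_top γ))
  have t3 : ∀ γ, J * θ γ = J := ind _ (fun i => by
      ext x y
      simp [t0, hJ, mul_apply, ← Finset.mul_sum, (typ_ex i).choose_spec.col_sum h2]) (by simp)
    (fun x y hx hy => by rw [map_mul, ← Matrix.mul_assoc, hx, hy]) fun x hx => by
      nth_rw 1 [← hx]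
      rw [Matrix.mul_assoc, ← map_mul, mul_inv_cancel, map_one, Matrix.mul_one]
  have t4 : ∀ γ, θ γ * J = J := fun γ => by
    rw [← Jt, ← transpose_transpose (θ γ), ← transpose_mul, ← t2, t3]
  have m1 : ∀ A B : Matrix (Sp p s) (Sp p s) ℝ, J * B = J →
      Pᵀ * A * P * (Pᵀ * B * P) = Pᵀ * (A * B) * P := fun A B hB => by
    simp only [Matrix.mul_assoc]
    rw [← Matrix.mul_assoc P, P2, Matrix.sub_mul, Matrix.one_mul, ← Matrix.mul_assoc J, hB, P3,
      sub_zero]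
  let φ : Gam p →* Matrix κ κ ℝ :=
    { toFun := fun γ => Pᵀ * θ γ * P
      map_one' := by rw [map_one, Matrix.mul_one, P1]
      map_mul' := fun x y => by rw [m1 _ _ (t3 y), map_mul] }
  have f0 : ∀ γ, φ γ = Pᵀ * θ γ * P := fun _ => rfl
  have f1 : ∀ γ, (φ γ)ᵀ = φ γ⁻¹ := fun γ => by simp [f0, t2, Matrix.mul_assoc]
  have f2 : ∀ γ, SO (φ γ) := fun γ => ⟨by rw [f1, ← map_mul, inv_mul_cancel, map_one],
    ind (fun γ => (φ γ).det = 1) (fun i => hodd.strictMono_pow.injective (by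
      simp only [← det_pow, ← map_pow, gam_rel.ord i, map_one, det_one, one_pow])) (by simp)
      (fun x y hx hy => by rw [map_mul, det_mul, hx, hy, one_mul])
      (fun x hx => by rw [← f1, det_transpose, hx]) γ⟩
  have f3 : ∀ γ, θ γ = P * φ γ * Pᵀ + J := fun γ => by
    have JJ : J * J = J := by
      ext x y
      simp only [hJ, mul_apply, of_apply, Finset.sum_const, Finset.card_univ, nsmul_eq_mul]
      rw [mul_inv_cancel_left₀ (Nat.cast_ne_zero.mpr Fintype.card_ne_zero)]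
    rw [f0, show P * (Pᵀ * θ γ * P) * Pᵀ = P * Pᵀ * θ γ * (P * Pᵀ) by simp only [Matrix.mul_assoc],
      P2]
    simp only [Matrix.sub_mul, Matrix.mul_sub, Matrix.one_mul, Matrix.mul_one, t3, t4, JJ]
    abel
  refine ⟨φ, f2, fun hs i j => ⟨fun h => ?_, fun h => ?_⟩,
    fun V _ _ R v hv g hg => R.fix_of_giv (fun i j _ => ?_) hg⟩
  · have := f3 (PresentedGroup.of i)
    rw [h, ← f3, t0, t0] at this
    exact (ph_ne hs h2 i j (c := 1) ((opr_inj (typ_ex i).choose_spec (typ_ex j).choose_spec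
      this).trans (one_smul _ _).symm)).1
  · have := f3 (PresentedGroup.of i)
    rw [h, ← f3, t2, t0, t0, (typ_ex j).choose_spec.opr_transpose] at this
    have := (ph_ne hs h2 i j (c := -1) ((opr_inj (typ_ex i).choose_spec
      (typ_ex j).choose_spec.neg this).trans (neg_one_smul _ _).symm)).2
    exact h2 (by linear_combination -this)
  have v1 : ∀ γ u, φ γ *ᵥ (Pᵀ *ᵥ u) = Pᵀ *ᵥ (θ γ *ᵥ u) := fun γ u => by
    rw [f0, mulVec_mulVec, mulVec_mulVec, Matrix.mul_assoc, P2, Matrix.mul_sub, Matrix.mul_one,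
      Matrix.mul_assoc, t4, P4, sub_zero]
  let B : (Sp p s → ℝ) →ₗ[ℝ] (Sp p s → ℝ) →ₗ[ℝ] V := LinearMap.mk₂ ℝ
    (fun u w => R.D (wd2 (Pᵀ *ᵥ u) (Pᵀ *ᵥ w)) v)
    (fun u u' w => by
      rw [← _root_.add_apply, ← R.D_add]
      simp only [wd2, mulVec_add, add_vecMulVec, vecMulVec_add]
      congr 2
      abel)
    (fun c u w => by
      rw [← Complex.coe_smul, ← _root_.smul_apply, ← R.D_smul]
      simp only [wd2, mulVec_smul, smul_vecMulVec, vecMulVec_smul, smul_sub])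
    (fun u w w' => by
      rw [← _root_.add_apply, ← R.D_add]
      simp only [wd2, mulVec_add, add_vecMulVec, vecMulVec_add]
      congr 2
      abel)
    (fun c u w => by
      rw [← Complex.coe_smul, ← _root_.smul_apply, ← R.D_smul]
      simp only [wd2, mulVec_smul, smul_vecMulVec, vecMulVec_smul, smul_sub])
  have b0 : ∀ u w, B u w = R.D (wd2 (Pᵀ *ᵥ u) (Pᵀ *ᵥ w)) v := fun _ _ => rfl
  let G : Subgroup (Equiv.Perm (Sp p s)) :=
    { carrier := {σ | ∃ γ, θ γ = pm σ}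
      one_mem' := ⟨1, by rw [map_one]; exact pm_id.symm⟩
      mul_mem' := by
        rintro σ τ ⟨x, hx⟩ ⟨y, hy⟩
        exact ⟨x * y, by rw [map_mul, hx, hy, ← pm_comp]; rfl⟩
      inv_mem' := by
        rintro σ ⟨x, hx⟩
        refine ⟨x⁻¹, ?_⟩
        rw [t2, hx]
        ext u w
        simp [pm, Equiv.eq_symm_apply, eq_comm] }
  have g0 : ∀ (i k : Fin 3) (f : Blk p s → Blk p s) (r : Fin 7), i ≠ k →
      ph p s r = (fun y ξ => ξ i ⬝ᵥ f (y k)) → W G i k f := fun i k f r hik hr =>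
    ⟨inv_coord hik f, ⟨fun x => x + Pi.single i (f (x k)), fun x => x - Pi.single i (f (x k)),
      fun x => by simp [hik.symm], fun x => by simp [hik.symm]⟩,
      ⟨PresentedGroup.of r, by rw [t0, hr, opr_sh]; rfl⟩, fun _ => rfl⟩
  have g1 : alternatingGroup (Sp p s) ≤ G := alt_le h2 fun i k hik f =>
    W_all h2 (g0 0 1 id 0 (by decide) rfl) (g0 1 2 id 1 (by decide) rfl) (fun r => by
      fin_cases r
      exacts [g0 2 0 _ 2 (by decide) rfl, g0 2 0 _ 3 (by decide) rfl, g0 2 0 _ 4 (by decide) rfl,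
        g0 2 0 _ 5 (by decide) rfl]) hik f
  set t : Fin 7 → Sp p s := fun j => Pi.single 0 (Pi.single 0 ((j : ℕ) : ZMod p)) with ht
  have t5 : ∀ i j, i ≠ j → t i 0 ≠ t j 0 := fun i j hij h =>
    hc i j hij (by simpa [ht] using congrFun h 0)
  have t6 : Function.Injective t := fun i j h => by_contra fun hij => t5 i j hij (congrFun h 0)
  obtain ⟨q, q0, q1, q2⟩ := diag_u (p := p) (s := s)
  set U := opr (ph p s 6) with hU
  have u0 : ∀ i j, U (t i) (t j) = if i = j then (q : ℝ) else 0 := fun i j => by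
    split_ifs with hij
    · rw [hij, q2]
    · simp only [hU, opr, map_apply]
      rw [(typ_hi 6 (by decide)).opc_zero fun h => t5 i j hij (h 0 (by simp)), Complex.zero_re]
  set d : Fin 7 → Fin 7 → Sp p s → ℝ := fun i j => Pi.single (t i) 1 - Pi.single (t j) 1 with hd
  have tU : θ (PresentedGroup.of 6) = U := t0 6
  have uo : Uᵀ * U = 1 := (tU ▸ t1 _ : SO U).1
  have j1 : ∀ i j, J *ᵥ d i j = 0 := fun i j => by
    ext x
    simp [hd, hJ, mulVec_sub]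
  have j2 : ∀ i j, J *ᵥ (U *ᵥ d i j) = 0 := fun i j => by
    rw [mulVec_mulVec, ← tU, t3, j1]
  have ip : ∀ u w, J *ᵥ w = 0 → (Pᵀ *ᵥ u) ⬝ᵥ (Pᵀ *ᵥ w) = u ⬝ᵥ w := fun u w hw => by
    rw [mulVec_transpose P u, ← dotProduct_mulVec, mulVec_mulVec, P2, sub_mulVec, hw, one_mulVec,
      sub_zero]
  have iu : ∀ u w, (U *ᵥ u) ⬝ᵥ (U *ᵥ w) = u ⬝ᵥ w := fun u w => by
    rw [← vecMul_transpose, ← dotProduct_mulVec, mulVec_mulVec, uo, one_mulVec]
  have r1 : ∀ u w, J *ᵥ w = 0 → Pᵀ * (rf u * rf w) * P = rf (Pᵀ *ᵥ u) * rf (Pᵀ *ᵥ w) := by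
    intro u w hw
    have : ∀ u, Pᵀ * rf u * P = rf (Pᵀ *ᵥ u) := fun u => by
      rw [rf, Matrix.mul_sub, Matrix.sub_mul, Matrix.mul_one, P1, rf, ← conj_vv,
        transpose_transpose]
    rw [← m1, this, this]
    rw [rf, Matrix.mul_sub, mul_vecMulVec, hw, Matrix.mul_one]
    simp
  have r2 : ∀ i j k l, i ≠ j → k ≠ l → ∃ γ, θ γ = rf (d i j) * rf (d k l) := by
    intro i j k l hij hkl
    obtain ⟨γ, hγ⟩ := g1 (Equiv.Perm.mem_alternatingGroup.mpr (show Equiv.Perm.sign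
      (Equiv.swap (t i) (t j) * Equiv.swap (t k) (t l)) = 1 by
        simp [Equiv.Perm.sign_swap (t6.ne hij), Equiv.Perm.sign_swap (t6.ne hkl)]))
    exact ⟨γ, by rw [hγ, Equiv.Perm.coe_mul, pm_comp, swap_eq (t6.ne hij), swap_eq (t6.ne hkl)]⟩
  have r3 : ∀ u, U * rf u * Uᵀ = rf (U *ᵥ u) := fun u => by
    rw [rf, Matrix.mul_sub, Matrix.sub_mul, Matrix.mul_one, mul_eq_one_comm.mp uo, conj_vv, rf]
  obtain ⟨γ1, c1⟩ := r2 0 1 3 4 (by decide) (by decide)
  obtain ⟨γ2, c2⟩ := r2 0 2 5 6 (by decide) (by decide)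
  have c3 : θ (PresentedGroup.of 6 * γ2 * (PresentedGroup.of 6)⁻¹) =
      rf (U *ᵥ d 0 2) * rf (U *ᵥ d 5 6) := by
    rw [map_mul, map_mul, t2, tU, c2, ← r3, ← r3]
    simp only [Matrix.mul_assoc]
    rw [← Matrix.mul_assoc Uᵀ, uo, Matrix.one_mul]
  have c4 := hv ((γ1 * (PresentedGroup.of 6 * γ2 * (PresentedGroup.of 6)⁻¹)) ^ 2)
  rw [map_pow, map_mul, f0, f0, c1, c3, r1 _ _ (j1 _ _), r1 _ _ (j2 _ _), four_rf] at c4
  · have c5 := irr_rot R (q := q) (by rw [ip _ _ (j1 _ _)]; simp [hd, t6.eq_iff]; norm_num)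
      (by rw [ip _ _ (j2 _ _), iu]; simp [hd, t6.eq_iff]; norm_num)
      (by rw [ip _ _ (j2 _ _)]; simp [hd, mulVec_sub, u0]) q0 q1 c4
    have c6 := alt_zero B (fun u w => by
        rw [b0, b0, ← neg_one_smul ℂ, ← _root_.smul_apply, ← Complex.ofReal_one,
          ← Complex.ofReal_neg, ← R.D_smul]
        simp [wd2])
      (fun u => by
        have : Pᵀ *ᵥ (fun _ => (1 : ℝ)) = 0 := by
          have e : J *ᵥ (fun _ => (1 : ℝ)) = fun _ => 1 := by
            ext x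
            simp [hJ, mulVec, dotProduct]
          rw [← e, mulVec_mulVec, P4, zero_mulVec]
        simp [b0, this, wd2, R.D_zero])
      (fun σ hσ u w h => by
        obtain ⟨γ, hγ⟩ := g1 (inv_mem hσ)
        have e : ∀ u : Sp p s → ℝ, θ γ *ᵥ u = u ∘ σ := fun u => by
          ext x
          simp [hγ, pm, mulVec, dotProduct, Equiv.eq_symm_apply]
        have := D_wd2 R (f2 γ) (Pᵀ *ᵥ u) (Pᵀ *ᵥ w) v
        rwa [hv, v1, v1, e, e, ← b0, ← b0, h, map_zero] at this)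
      (t6.comp (Fin.castLE_injective (by norm_num : 6 ≤ 7))) (u := U *ᵥ d 0 2)
      (by simpa [hd, mulVec_sub, u0, Fin.ext_iff] using q0.ne')
      (by simp [hd, mulVec_sub, u0, Fin.ext_iff]) c5
    have c7 := b0 (P *ᵥ Pi.single i 1) (P *ᵥ Pi.single j 1)
    rw [c6, mulVec_mulVec, mulVec_mulVec, P1, one_mulVec, one_mulVec] at c7
    rw [giv, single_eq_single_vecMulVec_single, single_eq_single_vecMulVec_single]
    exact c7.symm
  · rw [ip _ _ (j1 _ _)]; simp [hd, t6.eq_iff]; norm_num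
  · rw [ip _ _ (j2 _ _), iu]; simp [hd, t6.eq_iff]; norm_num
  · rw [ip _ _ (j1 _ _)]; simp [hd, t6.eq_iff]
  · rw [ip _ _ (j2 _ _)]; simp [hd, mulVec_sub, u0]
  · rw [dotProduct_comm, ip _ _ (j2 _ _)]; simp [hd, mulVec_sub, u0]
  · rw [ip _ _ (j2 _ _), iu]; simp [hd, t6.eq_iff]
  · rw [ip _ _ (j2 _ _)]; simp [hd, mulVec_sub, u0]

end Pool.Agent.P.MP_839d28_al.Kz
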