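import Pool.Agent.P.MP_839d28_al.KzPerm
import Pool.Agent.P.MP_839d28_al.KzGroup
import Pool.Agent.P.MP_839d28_al.Final

/-! Real orthogonal operators given by phase functions over a prime field. -/

open Matrix

namespace Pool.Agent.P.MP_839d28_al.Kz

variable {p s : ℕ} [Fact p.Prime]

/-- the standard pairing -/
def dt (ξ x : Sp p s) : ZMod p := ∑ i, ξ i ⬝ᵥ x i

theorem dt_add_left (ξ η x : Sp p s) : dt (ξ + η) x = dt ξ x + dt η x := by
  simp [dt, Finset.sum_add_distrib]

theorem dt_add_right (ξ x y : Sp p s) : dt ξ (x + y) = dt ξ x + dt ξ y := by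
  simp [dt, Finset.sum_add_distrib]

theorem dt_neg_left (ξ x : Sp p s) : dt (-ξ) x = -dt ξ x := by simp [dt]

theorem dt_neg_right (ξ x : Sp p s) : dt ξ (-x) = -dt ξ x := by simp [dt]

theorem dt_comm (ξ x : Sp p s) : dt ξ x = dt x ξ := by simp [dt, dotProduct_comm]

theorem dt_single (ξ : Sp p s) (i : Fin 3) (a : Blk p s) : dt ξ (Pi.single i a) = ξ i ⬝ᵥ a := by
  rw [dt, Finset.sum_eq_single i (fun j _ hj => by simp [hj]) (by simp)]
  simp

/-- the additive character -/
noncomputable abbrev ch (p : ℕ) [Fact p.Prime] : AddChar (ZMod p) ℂ := ZMod.stdAddChar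

theorem ch_ne {c : ZMod p} (hc : c ≠ 0) : ch p c ≠ 1 := by
  rwa [← (ch p).map_zero_eq_one, ZMod.injective_stdAddChar.ne_iff]

theorem sum_shift {f : Sp p s → ZMod p} {ζ : Sp p s} {c : ZMod p} (hc : c ≠ 0)
    (h : ∀ ξ, f (ξ + ζ) = f ξ + c) : ∑ ξ, ch p (f ξ) = 0 := by
  have h1 := Equiv.sum_comp (Equiv.addRight ζ) fun ξ => ch p (f ξ)
  simp only [Equiv.coe_addRight, h, AddChar.map_add_eq_mul, ← Finset.sum_mul] at h1
  exact (mul_right_eq_self₀.mp h1).resolve_left (ch_ne hc)

theorem card_ne : (Fintype.card (Sp p s) : ℂ) ≠ 0 := Nat.cast_ne_zero.mpr Fintype.card_ne_zero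

theorem sum_dt (z : Sp p s) :
    ∑ ξ, ch p (dt ξ z) = if z = 0 then (Fintype.card (Sp p s) : ℂ) else 0 := by
  split_ifs with hz
  · simp [hz, dt]
  · obtain ⟨i, hi⟩ := Function.ne_iff.mp hz
    obtain ⟨l, hl⟩ := Function.ne_iff.mp hi
    refine sum_shift (ζ := Pi.single i (Pi.single l 1)) hl fun ξ => ?_
    rw [dt_add_left, dt_comm (Pi.single _ _), dt_single]
    simp

/-- phase functions -/
abbrev Ph (p s : ℕ) : Type := Sp p s → Sp p s → ZMod p

/-- the operator with a given phase -/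
noncomputable def opc (H : Ph p s) : Matrix (Sp p s) (Sp p s) ℂ :=
  of fun x y => (Fintype.card (Sp p s) : ℂ)⁻¹ * ∑ ξ, ch p (H y ξ + dt ξ (y - x))

/-- the phase is odd, and depends on momenta in `I` and positions outside `I` -/
structure Typ (I : Fin 3 → Prop) (H : Ph p s) : Prop where
  dep : ∀ y y' ξ ξ', (∀ i, ¬I i → y i = y' i) → (∀ i, I i → ξ i = ξ' i) → H y ξ = H y' ξ'
  odd : ∀ y ξ, H y (-ξ) = -H y ξ

variable {I : Fin 3 → Prop} {H H' : Ph p s}

theorem Typ.add (h : Typ I H) (h' : Typ I H') : Typ I (H + H') :=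
  ⟨fun y y' ξ ξ' a b => by simp [h.dep y y' ξ ξ' a b, h'.dep y y' ξ ξ' a b],
    fun y ξ => by simp [h.odd, h'.odd, add_comm]⟩

theorem Typ.nsmul (h : Typ I H) (n : ℕ) : Typ I (n • H) :=
  ⟨fun y y' ξ ξ' a b => by simp [h.dep y y' ξ ξ' a b], fun y ξ => by simp [h.odd]⟩

theorem Typ.neg (h : Typ I H) : Typ I (-H) :=
  ⟨fun y y' ξ ξ' a b => by simp [h.dep y y' ξ ξ' a b], fun y ξ => by simp [h.odd]⟩

theorem Typ.opc_zero (h : Typ I H) {x y : Sp p s} (hi : ¬∀ i, ¬I i → x i = y i) :
    opc H x y = 0 := by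
  simp only [not_forall] at hi
  obtain ⟨i, hi, hxy⟩ := hi
  obtain ⟨l, hl⟩ := Function.ne_iff.mp hxy
  rw [opc, of_apply, sum_shift (ζ := Pi.single i (Pi.single l 1)) (sub_ne_zero.mpr hl.symm),
    mul_zero]
  intro ξ
  rw [dt_add_left, dt_comm (Pi.single _ _), dt_single, h.dep y y _ ξ (fun _ _ => rfl) fun j hj => by
    simp [Pi.single_eq_of_ne (show j ≠ i from fun e => hi (e ▸ hj))]]
  simp [add_assoc]

theorem Typ.opc_mul (h : Typ I H) (h' : Typ I H') : opc H * opc H' = opc (H + H') := by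
  ext x z
  have h1 : ∀ y, opc H x y * opc H' y z = opc (fun _ => H z) x y * opc H' y z := fun y => by
    by_cases hy : ∀ i, ¬I i → y i = z i
    · simp only [opc, of_apply, fun ξ => h.dep y z ξ ξ hy fun _ _ => rfl]
    · rw [h'.opc_zero hy, mul_zero, mul_zero]
  have h2 : ∀ y, opc (fun _ => H z) x y * opc H' y z = ∑ ξ, ∑ η,
      (Fintype.card (Sp p s) : ℂ)⁻¹ ^ 2 * ch p (H z ξ + H' z η + dt η z - dt ξ x) *
        ch p (dt y (ξ - η)) := fun y => by
    simp only [opc, of_apply]
    rw [mul_mul_mul_comm, Finset.sum_mul_sum, Finset.mul_sum]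
    refine Finset.sum_congr rfl fun ξ _ => ?_
    rw [Finset.mul_sum]
    refine Finset.sum_congr rfl fun η _ => ?_
    rw [mul_assoc, mul_assoc, ← AddChar.map_add_eq_mul, ← AddChar.map_add_eq_mul, sq, mul_assoc]
    simp only [sub_eq_add_neg, dt_add_right, dt_neg_right, dt_comm y, dt_add_left, dt_neg_left]
    congr 3
    ring
  rw [mul_apply, Finset.sum_congr rfl fun y _ => (h1 y).trans (h2 y), Finset.sum_comm, opc,
    of_apply, Finset.mul_sum]
  refine Finset.sum_congr rfl fun ξ _ => ?_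
  rw [Finset.sum_comm]
  simp only [← Finset.mul_sum, sum_dt, sub_eq_zero, mul_ite, mul_zero, Finset.sum_ite_eq,
    Finset.mem_univ, if_true]
  simp only [sub_eq_add_neg, dt_add_right, dt_neg_right, Pi.add_apply, add_assoc]
  field_simp

theorem opc_shear (f : Sp p s → Sp p s) (x y : Sp p s) :
    opc (fun y ξ => dt ξ (f y)) x y = if x = y + f y then 1 else 0 := by
  simp only [opc, of_apply, ← dt_add_right, sum_dt]
  rw [← add_sub_assoc, add_comm (f y)]
  simp only [sub_eq_zero, eq_comm (a := x)]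
  split_ifs
  · exact inv_mul_cancel₀ card_ne
  · exact mul_zero _

theorem Typ.conj_opc (h : Typ I H) (x y : Sp p s) : starRingEnd ℂ (opc H x y) = opc H x y := by
  simp only [opc, of_apply, map_mul, map_inv₀, map_natCast, map_sum, ← AddChar.map_neg_eq_conj]
  rw [← Equiv.sum_comp (Equiv.neg _)]
  simp [h.odd, dt_neg_left, add_comm]

/-- the real operator with a given phase -/
noncomputable def opr (H : Ph p s) : Matrix (Sp p s) (Sp p s) ℝ := (opc H).map Complex.re

theorem Typ.coe_opr (h : Typ I H) (x y : Sp p s) : (opr H x y : ℂ) = opc H x y :=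
  Complex.conj_eq_iff_re.mp (h.conj_opc x y)

theorem Typ.opr_mul (h : Typ I H) (h' : Typ I H') : opr H * opr H' = opr (H + H') := by
  ext x y
  apply Complex.ofReal_injective
  rw [(h.add h').coe_opr, ← h.opc_mul h', mul_apply, mul_apply, Complex.ofReal_sum]
  simp [h.coe_opr, h'.coe_opr]

theorem opr_shear (f : Sp p s → Sp p s) :
    opr (fun y ξ => dt ξ (f y)) = pm fun y => y + f y := by
  ext x y
  simp only [opr, map_apply, opc_shear, pm, of_apply]
  split_ifs <;> simp

theorem opr_zero : opr (0 : Ph p s) = 1 := by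
  have := opr_shear (p := p) (s := s) fun _ => 0
  simp only [add_zero] at this
  rw [← pm_id]
  convert this using 4 <;> simp [dt]

theorem Typ.opr_pow (h : Typ I H) (n : ℕ) : opr H ^ n = opr (n • H) := by
  induction n with
  | zero => simp [opr_zero]
  | succ n ih => rw [pow_succ, ih, (h.nsmul n).opr_mul h, succ_nsmul]

theorem Typ.opr_pow_p (h : Typ I H) : opr H ^ p = 1 := by
  rw [h.opr_pow, ← opr_zero]
  congr 1
  ext y ξ
  simp

theorem Typ.opr_transpose (h : Typ I H) : (opr H)ᵀ = opr (-H) := by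
  ext x y
  simp only [opr, transpose_apply, map_apply]
  congr 1
  by_cases hy : ∀ i, ¬I i → x i = y i
  · simp only [opc, of_apply]
    rw [← Equiv.sum_comp (Equiv.neg _)]
    simp only [Equiv.neg_apply, h.odd, dt_neg_left, ← dt_neg_right, neg_sub, Pi.neg_apply,
      fun ξ => h.dep x y ξ ξ hy fun _ _ => rfl]
  · rw [h.neg.opc_zero hy, h.opc_zero fun a => hy fun i hi => (a i hi).symm]

theorem Typ.so (h : Typ I H) (hp : Odd p) : SO (opr H) := by
  refine ⟨by rw [h.opr_transpose, h.neg.opr_mul h, neg_add_cancel, opr_zero], ?_⟩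
  have := congrArg det h.opr_pow_p
  rw [det_pow, det_one] at this
  exact hp.strictMono_pow.injective (by simpa using this)

theorem Typ.col_sum (h : Typ I H) (h2 : (2 : ZMod p) ≠ 0) (y : Sp p s) : ∑ x, opr H x y = 1 := by
  have h0 : H y 0 = 0 := by
    have := h.odd y 0
    rw [neg_zero] at this
    exact (mul_eq_zero.mp (show 2 * H y 0 = 0 by linear_combination this)).resolve_left h2
  apply Complex.ofReal_injective
  simp only [Complex.ofReal_sum, h.coe_opr, opc, of_apply, ← Finset.mul_sum]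
  rw [Finset.sum_comm]
  have : ∀ ξ, ∑ x, ch p (H y ξ + dt ξ (y - x)) = ch p (H y ξ) * ∑ x, ch p (dt x ξ) := fun ξ => by
    rw [← Equiv.sum_comp (Equiv.subLeft y), Finset.mul_sum]
    simp [AddChar.map_add_eq_mul, dt_comm ξ]
  simp only [this, sum_dt, mul_ite, mul_zero, Finset.sum_ite_eq', Finset.mem_univ, if_true, h0]
  simp

/-- elementary linear maps -/
def elm (i j : Fin 3) (c : ZMod p) (x : Sp p s) : Sp p s := x + Pi.single i (c • x j)

theorem elm_elm {i j : Fin 3} (h : i ≠ j) (c c' : ZMod p) (x : Sp p s) :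
    elm i j c (elm i j c' x) = elm i j (c + c') x := by
  simp only [elm, Pi.add_apply, Pi.single_eq_of_ne h.symm, add_zero, add_smul, Pi.single_add]
  abel

theorem elm_zero (i j : Fin 3) (x : Sp p s) : elm i j 0 x = x := by simp [elm]

theorem dt_elm {i j : Fin 3} (h : i ≠ j) (c : ZMod p) (η x y : Sp p s) :
    dt (elm j i c η) (elm i j (-c) y - elm i j (-c) x) = dt η (y - x) := by
  have : elm i j (-c) y - elm i j (-c) x = elm i j (-c) (y - x) := by
    simp only [elm, Pi.sub_apply, smul_sub, Pi.single_sub]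
    abel
  rw [this, elm, dt_add_left, dt_comm (Pi.single _ _), dt_single, elm, dt_add_right, dt_single]
  simp [h.symm, dotProduct_comm]
  ring

theorem pm_elm_pow {i j : Fin 3} (h : i ≠ j) (n : ℕ) :
    pm (elm (s := s) i j (1 : ZMod p)) ^ n = pm (elm i j (n : ZMod p)) := by
  induction n with
  | zero => rw [pow_zero, ← pm_id]; congr 1; ext x : 1; simp [elm_zero]
  | succ n ih => rw [pow_succ, ih, ← pm_comp]; congr 1; ext x : 1; simp [elm_elm h]

theorem conj_elm {i j : Fin 3} (h : i ≠ j) (c : ZMod p) (H : Ph p s) :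
    pm (elm i j c) * opr H * (pm (elm i j c))ᵀ =
      opr fun y ξ => H (elm i j (-c) y) (elm j i c ξ) := by
  have e1 : ∀ x u : Sp p s, x = elm i j c u ↔ u = elm i j (-c) x := fun x u => by
    constructor <;> rintro rfl <;> simp [elm_elm h, elm_zero]
  ext x y
  simp only [mul_apply, pm, transpose_apply, of_apply, e1, ite_mul, one_mul, zero_mul, mul_ite,
    mul_one, mul_zero, Finset.sum_ite_eq', Finset.mem_univ, if_true, opr, map_apply, opc]
  congr 2
  let e : Sp p s ≃ Sp p s := ⟨elm j i c, elm j i (-c), fun x => by simp [elm_elm h.symm, elm_zero],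
    fun x => by simp [elm_elm h.symm, elm_zero]⟩
  rw [← Equiv.sum_comp e]
  simp only [e, Equiv.coe_fn_mk, dt_elm h]

theorem good_of {u b : SOG (Sp p s)} (K : ZMod p → Ph p s) (hK : ∀ c, Typ I (K c))
    (h : ∀ c, inc _ (cj u b c) = opr (K c))
    (hq : ∀ y ξ, ∃ α β γ : ZMod p, ∀ c, K c y ξ = α + c * β + c ^ 2 * γ) : Good p u b := by
  refine ⟨fun c c' => emb_inc.inj ?_, fun t1 t2 t3 c h1 h2 h3 => emb_inc.inj ?_⟩
  · rw [map_mul, map_mul, h, h, (hK c).opr_mul (hK c'), (hK c').opr_mul (hK c), add_comm]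
  · simp only [map_mul, map_pow, h, (hK _).opr_pow]
    rw [((hK _).nsmul _).opr_mul ((hK _).nsmul _),
      (((hK _).nsmul _).add ((hK _).nsmul _)).opr_mul ((hK _).nsmul _)]
    congr 1
    ext y ξ
    obtain ⟨α, β, γ, e⟩ := hq y ξ
    have a1 := sub_ne_zero.mpr h1
    have a2 := sub_ne_zero.mpr h2
    have a3 := sub_ne_zero.mpr h3
    have a4 := sub_ne_zero.mpr h1.symm
    have a5 := sub_ne_zero.mpr h2.symm
    have a6 := sub_ne_zero.mpr h3.symm
    simp only [Pi.add_apply, Pi.smul_apply]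
    simp only [nsmul_eq_mul, ZMod.natCast_zmod_val, e, lg]
    field_simp
    ring

end Pool.Agent.P.MP_839d28_al.Kz
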