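import Mathlib

/-! Six polynomial shears generate the alternating group of an affine space over a prime field. -/

namespace Pool.Agent.P.MP_839d28_al.Kz

open Equiv

theorem three_of_supp {α : Type} [Fintype α] [DecidableEq α] {a b : Perm α} {z : α}
    (ha : a z ≠ z) (hb : b z ≠ z) (h : ∀ x, x ≠ z → a x = x ∨ b x = x) :
    (a * b * a⁻¹ * b⁻¹).IsThreeCycle := by
  have fa : ∀ (σ : Perm α) x, σ x = x → σ⁻¹ x = x := fun σ x hx => Perm.inv_eq_iff_eq.mpr hx.symm
  have ai : ∀ (σ : Perm α) x, σ (σ⁻¹ x) = x := fun σ x => σ.apply_symm_apply x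
  have ia : ∀ (σ : Perm α) x, σ⁻¹ (σ x) = x := fun σ x => σ.symm_apply_apply x
  have a1 : b (a z) = a z := (h _ ha).resolve_left fun e => ha (a.injective e)
  have b1 : a (b z) = b z := (h _ hb).resolve_right fun e => hb (b.injective e)
  have a2 : b (a⁻¹ z) = a⁻¹ z := by
    have : a⁻¹ z ≠ z := fun e => ha (Perm.inv_eq_iff_eq.mp e).symm
    exact (h _ this).resolve_left fun e => this (by simpa using e.symm)
  have b2 : a (b⁻¹ z) = b⁻¹ z := by
    have : b⁻¹ z ≠ z := fun e => hb (Perm.inv_eq_iff_eq.mp e).symm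
    exact (h _ this).resolve_right fun e => this (by simpa using e.symm)
  have ab : a z ≠ b z := fun e => hb (b.injective (by rw [← e, a1, e]))
  have key : a * b * a⁻¹ * b⁻¹ = swap z (b z) * swap z (a z) := by
    ext x
    simp only [Perm.mul_apply]
    by_cases x1 : x = z
    · subst x1
      rw [fa a _ b2, ai, swap_apply_left, swap_apply_of_ne_of_ne ha ab]
    by_cases x2 : x = a z
    · subst x2
      rw [fa b _ a1, ia, b1, swap_apply_right, swap_apply_left]
    by_cases x3 : x = b z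
    · subst x3
      rw [ia, a2, ai, swap_apply_of_ne_of_ne hb ab.symm,
        swap_apply_right]
    rw [swap_apply_of_ne_of_ne x1 x2, swap_apply_of_ne_of_ne x1 x3]
    by_cases hx : b x = x
    · rw [fa b _ hx]
      rcases h (a⁻¹ x) (fun e => x2 (Perm.inv_eq_iff_eq.mp e)) with e | e
      · rw [ai] at e
        rw [← e, hx]
        exact (Perm.eq_inv_iff_eq.mp e)
      · rw [e, ai]
    · rcases h (b⁻¹ x) (fun e => x3 (Perm.inv_eq_iff_eq.mp e)) with e | e
      · rw [fa a _ e, ai]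
        exact (h x x1).resolve_right hx
      · rw [ai] at e
        exact absurd (Perm.eq_inv_iff_eq.mp e) hx
  rw [key]
  exact Perm.isThreeCycle_swap_mul_swap_same hb.symm ha.symm ab.symm

variable {p s : ℕ}

/-- coordinate blocks -/
abbrev Blk (p s : ℕ) : Type := ZMod (s + 1) → ZMod p

/-- the affine space -/
abbrev Sp (p s : ℕ) : Type := Fin 3 → Blk p s

/-- independence of a coordinate block -/
def Inv (i : Fin 3) (F : Sp p s → Blk p s) : Prop := ∀ x a, F (x + Pi.single i a) = F x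

theorem inv_coord {i k : Fin 3} (h : i ≠ k) (f : Blk p s → Blk p s) :
    Inv i fun x : Sp p s => f (x k) := fun x a => by simp [Pi.single_eq_of_ne h.symm]

/-- the shears contained in a permutation group -/
def SH (G : Subgroup (Perm (Sp p s))) (i : Fin 3) : AddSubgroup (Sp p s → Blk p s) where
  carrier := {F | Inv i F ∧ ∃ σ ∈ G, ∀ x, σ x = x + Pi.single i (F x)}
  zero_mem' := ⟨fun _ _ => rfl, 1, G.one_mem, fun x => by simp⟩
  add_mem' := by
    rintro F F' ⟨h1, σ, hσ, h2⟩ ⟨h3, τ, hτ, h4⟩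
    refine ⟨fun x a => by simp [h1 x a, h3 x a], σ * τ, G.mul_mem hσ hτ, fun x => ?_⟩
    rw [Perm.mul_apply, h2, h4, h1, Pi.add_apply F, Pi.single_add]
    abel
  neg_mem' := by
    rintro F ⟨h1, σ, hσ, h2⟩
    refine ⟨fun x a => by simp [h1 x a], σ⁻¹, G.inv_mem hσ, fun x => ?_⟩
    rw [Perm.inv_eq_iff_eq, h2, h1, Pi.neg_apply, Pi.single_neg]
    abel

variable {G : Subgroup (Perm (Sp p s))}

theorem SH_conj {i j : Fin 3} {F F' : Sp p s → Blk p s} (hF : F ∈ SH G i) (hF' : F' ∈ SH G j)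
    (hi : Inv i F') : (fun x => F (x + Pi.single j (F' x))) ∈ SH G i := by
  obtain ⟨h1, σ, hσ, h2⟩ := hF
  obtain ⟨h3, τ, hτ, h4⟩ := hF'
  refine ⟨fun x a => ?_, τ⁻¹ * σ * τ, G.mul_mem (G.mul_mem (G.inv_mem hτ) hσ) hτ, fun x => ?_⟩
  · simp only [hi x a]
    rw [add_right_comm, h1]
  · rw [Perm.mul_apply, Perm.mul_apply, Perm.inv_eq_iff_eq, h2, h4, h4, hi]
    abel

/-- shears by a function of one block -/
abbrev W (G : Subgroup (Perm (Sp p s))) (i k : Fin 3) (f : Blk p s → Blk p s) : Prop :=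
  (fun x : Sp p s => f (x k)) ∈ SH G i

theorem W.comp {i j k : Fin 3} (hik : i ≠ k) {f g : Blk p s → Blk p s} (hf : W G i j f)
    (hg : W G j k g) : (fun x : Sp p s => f (x j + g (x k))) ∈ SH G i := by
  simpa using SH_conj hf hg (inv_coord hik g)

theorem W.comp_add {i j k : Fin 3} (hik : i ≠ k) {f g : Blk p s → Blk p s} (hf : W G i j f)
    (hg : W G j k g) (ha : ∀ a b, f (a + b) = f a + f b) : W G i k fun a => f (g a) := by
  convert (SH G i).sub_mem (hf.comp hik hg) hf using 1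
  ext x : 1
  simp [ha]

theorem all_of {B : Fin 3 → Fin 3 → Prop} (h0 : B 2 0)
    (hl : ∀ i j k, i ≠ j → j ≠ k → i ≠ k → B i k → B j k)
    (hr : ∀ i j k, i ≠ j → j ≠ k → i ≠ k → B i j → B i k) : ∀ i k, i ≠ k → B i k := by
  have h10 := hl 2 1 0 (by decide) (by decide) (by decide) h0
  have h21 := hr 2 0 1 (by decide) (by decide) (by decide) h0
  have h12 := hr 1 0 2 (by decide) (by decide) (by decide) h10
  have h01 := hl 2 0 1 (by decide) (by decide) (by decide) h21
  have h02 := hr 0 1 2 (by decide) (by decide) (by decide) h01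
  intro i k hik
  fin_cases i <;> fin_cases k <;> first | exact absurd rfl hik | assumption

/-- the four functions used in the third block -/
def fn (p s : ℕ) : Fin 4 → Blk p s → Blk p s :=
  ![fun a => Pi.single 0 (a 0), fun a l => a (l - 1), fun a => Pi.single 0 (a 0 ^ 2),
    fun _ => Pi.single 0 1]

variable [Fact p.Prime]

theorem SH_smul {i : Fin 3} {F : Sp p s → Blk p s} (hF : F ∈ SH G i) (c : ZMod p) :
    c • F ∈ SH G i := by
  rw [← ZMod.natCast_zmod_val c, Nat.cast_smul_eq_nsmul]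
  exact (SH G i).nsmul_mem hF _

theorem W.comp_sq (h2 : (2 : ZMod p) ≠ 0) {i j k : Fin 3} (hik : i ≠ k) {g : Blk p s → Blk p s}
    (hf : W G i j (fn p s 2)) (hg : W G j k g) : W G i k fun a => fn p s 2 (g a) := by
  have h3 := hf.comp hik (g := fun a => -g a) ((SH G j).neg_mem hg)
  convert SH_smul ((SH G i).sub_mem ((SH G i).add_mem (hf.comp hik hg) h3)
    ((SH G i).add_mem hf hf)) 2⁻¹ using 1
  ext x l
  by_cases hl : l = 0
  · subst hl
    simp [fn]
    field_simp
    ring
  · simp [fn, hl]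

theorem W_all (h2 : (2 : ZMod p) ≠ 0) (h01 : W G 0 1 id) (h12 : W G 1 2 id)
    (h20 : ∀ r, W G 2 0 (fn p s r)) {i k : Fin 3} (hik : i ≠ k) (f : Blk p s → Blk p s) :
    W G i k f := by
  have hm : ∀ f g : Blk p s → Blk p s, (∀ a b, f (a + b) = f a + f b) → W G 2 0 f → W G 2 0 g →
      W G 2 0 fun a => f (g a) := fun f g ha hf hg =>
    W.comp_add (by decide) (hf.comp_add (by decide) h01 ha)
      (h12.comp_add (by decide) hg fun _ _ => rfl) ha
  have e1 : ∀ n : ℕ, W G 2 0 fun a => Pi.single 0 (a (-n)) := by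
    intro n
    induction n with
    | zero => simpa [fn] using h20 0
    | succ n ih =>
      convert hm _ _ (fun a b => by simp [Pi.single_add]) ih (h20 1) using 3
      simp [fn]
      ring_nf
  have e2 : ∀ (l : ZMod (s + 1)) (n : ℕ), W G 2 0 fun a => Pi.single (n : ZMod (s + 1)) (a l) := by
    intro l n
    induction n with
    | zero =>
      obtain ⟨k, hk⟩ := ZMod.natCast_zmod_surjective (-l)
      simpa [hk] using e1 k
    | succ n ih =>
      convert hm _ _ (fun a b => rfl) (h20 1) ih using 2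
      ext u
      simp only [fn, Matrix.cons_val_one, Matrix.cons_val_zero, Pi.single_apply, sub_eq_iff_eq_add,
        Nat.cast_succ]
  have e3 : ∀ l l' : ZMod (s + 1), W G 2 0 fun a => Pi.single l' (a l) := fun l l' => by
    simpa using e2 l l'.val
  have e4 : W G 2 0 id := by
    convert (SH G 2).sum_mem fun l (_ : l ∈ Finset.univ) => e3 l l using 1
    ext x : 1
    simp [Finset.univ_sum_single]
  have i02 : W G 0 2 id := h01.comp_add (by decide) h12 fun _ _ => rfl
  have i10 : W G 1 0 id := h12.comp_add (by decide) e4 fun _ _ => rfl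
  have i21 : W G 2 1 id := e4.comp_add (by decide) h01 fun _ _ => rfl
  have ids : ∀ i k, i ≠ k → W G i k id := fun i k hik => by
    fin_cases i <;> fin_cases k <;> first | exact absurd rfl hik | assumption
  have hl : ∀ (f : Blk p s → Blk p s) i j k, i ≠ j → j ≠ k → i ≠ k → W G i k f → W G j k f :=
    fun f i j k hij hjk _ h => (ids j i hij.symm).comp_add hjk h fun _ _ => rfl
  have b1 : ∀ l l' : ZMod (s + 1), ∀ i k, i ≠ k → W G i k fun a => Pi.single l' (a l) :=
    fun l l' => all_of (e3 l l') (hl _) fun i j k _ hjk hik h =>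
      h.comp_add hik (ids j k hjk) fun a b => by simp [Pi.single_add]
  have b2 := all_of (B := fun i k => W G i k (fn p s 2)) (h20 2) (hl _) fun i j k _ hjk hik h =>
    h.comp_sq h2 hik (ids j k hjk)
  have b3 := all_of (B := fun i k => W G i k (fn p s 3)) (h20 3) (hl _) fun i j k _ _ _ h => h
  have third : ∀ i k : Fin 3, ∃ j, j ≠ i ∧ j ≠ k := by decide
  let S : Submodule (ZMod p) (Blk p s → ZMod p) :=
    { carrier := {φ | ∀ i, i ≠ k → W G i k fun a => Pi.single 0 (φ a)}
      add_mem' := fun {φ ψ} h1 h2 i hi => by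
        convert (SH G i).add_mem (h1 i hi) (h2 i hi) using 1
        ext x : 1
        simp [Pi.single_add]
      zero_mem' := fun i _ => by
        convert (SH G i).zero_mem using 1
        ext x : 1
        simp
      smul_mem' := fun c φ h1 i hi => by
        convert SH_smul (h1 i hi) c using 1
        ext x : 1
        simp [← Pi.single_smul] }
  have s1 : ∀ φ ∈ S, φ ^ 2 ∈ S := fun φ h i hi => by
    obtain ⟨j, hj, hj'⟩ := third i k
    simpa [fn] using (b2 i j hj.symm).comp_sq h2 hi (h j hj')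
  let S' : Subalgebra (ZMod p) (Blk p s → ZMod p) := S.toSubalgebra (fun i hi => b3 i k hi)
    fun φ ψ h1 h3 => by
      convert S.smul_mem 2⁻¹ (S.sub_mem (S.sub_mem (s1 _ (S.add_mem h1 h3)) (s1 _ h1)) (s1 _ h3))
        using 1
      ext a
      simp
      field_simp
      ring
  have s2 : ∀ b : Blk p s, (Pi.single b 1 : Blk p s → ZMod p) ∈ S' := fun b => by
    convert S'.prod_mem fun l (_ : l ∈ Finset.univ) => S'.sub_mem S'.one_mem (S'.pow_mem
      (S'.sub_mem (x := fun a => a l) (fun i hi => b1 l 0 i k hi) (S'.algebraMap_mem (b l)))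
      (p - 1)) using 1
    ext a
    have hp : p - 1 ≠ 0 := Nat.sub_ne_zero_of_lt (Fact.out : p.Prime).one_lt
    by_cases hab : a = b
    · simp [hab, hp]
    · obtain ⟨l, hl⟩ := Function.ne_iff.mp hab
      rw [Pi.single_eq_of_ne hab, Finset.prod_apply]
      refine (Finset.prod_eq_zero (Finset.mem_univ l) ?_).symm
      simp [ZMod.pow_card_sub_one_eq_one (sub_ne_zero.mpr hl)]
  have s3 : ∀ φ : Blk p s → ZMod p, φ ∈ S' := fun φ => by
    rw [← Finset.univ_sum_single φ]
    refine S'.sum_mem fun b _ => ?_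
    convert S'.smul_mem (s2 b) (φ b) using 1
    simp [← Pi.single_smul]
  obtain ⟨j, hj, hj'⟩ := third i k
  convert (SH G i).sum_mem fun l (_ : l ∈ Finset.univ) => (b1 0 l i j hj.symm).comp_add hik
    (s3 (fun a => f a l) j hj') fun a b => by simp [Pi.single_add] using 1
  ext x : 1
  simp [Finset.univ_sum_single]

theorem alt_le (h2 : (2 : ZMod p) ≠ 0) (h : ∀ i k, i ≠ k → ∀ f, W G i k f) :
    alternatingGroup (Sp p s) ≤ G := by
  classical
  set e : Blk p s := Pi.single 0 1 with he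
  have e0 : e ≠ 0 := by simp [he]
  have t1 : ∀ i k, i ≠ k → ∀ x y : Sp p s, x k ≠ y k → ∀ a b, ∃ σ ∈ G,
      σ x = Function.update x i a ∧ σ y = Function.update y i b := by
    intro i k hik x y hxy a b
    obtain ⟨-, σ, hσ, h1⟩ := h i k hik fun c => if c = x k then a - x i else b - y i
    refine ⟨σ, hσ, ?_, ?_⟩ <;> rw [h1] <;> ext l : 1 <;> by_cases hl : l = i <;>
      simp [hl, hxy.symm]
  have t2 : ∀ x y : Sp p s, x ≠ y → ∃ σ ∈ G, σ x = 0 ∧ σ y = fun _ => e := by
    intro x y hxy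
    obtain ⟨k, hk⟩ := Function.ne_iff.mp hxy
    obtain ⟨i, j, hi, hj, hij, hall⟩ : ∃ i j : Fin 3, i ≠ k ∧ j ≠ k ∧ j ≠ i ∧
        ∀ l, l = i ∨ l = j ∨ l = k := by
      clear hk
      revert k
      decide
    obtain ⟨σ1, g1, a1, b1⟩ := t1 i k hi x y hk 0 e
    obtain ⟨σ2, g2, a2, b2⟩ := t1 j i hij (σ1 x) (σ1 y) (by simp [a1, b1, e0.symm]) 0 e
    obtain ⟨σ3, g3, a3, b3⟩ := t1 k i hi.symm (σ2 (σ1 x)) (σ2 (σ1 y))
      (by rw [a2, b2, a1, b1]; simp [e0.symm, hij.symm]) 0 e
    refine ⟨σ3 * σ2 * σ1, G.mul_mem (G.mul_mem g3 g2) g1, ?_, ?_⟩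
    · rw [Perm.mul_apply, Perm.mul_apply, a3, a2, a1]
      ext l : 1
      rcases hall l with rfl | rfl | rfl <;> simp [hi, hj, hij.symm]
    · rw [Perm.mul_apply, Perm.mul_apply, b3, b2, b1]
      ext l : 1
      rcases hall l with rfl | rfl | rfl <;> simp [hi, hj, hij.symm]
  have prim : MulAction.IsPreprimitive G (Sp p s) := by
    refine MulAction.isPreprimitive_of_is_two_pretransitive
      (MulAction.is_two_pretransitive_iff.mpr fun {a b c d} hab hcd => ?_)
    obtain ⟨σ, g1, a1, b1⟩ := t2 a b hab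
    obtain ⟨τ, g2, a2, b2⟩ := t2 c d hcd
    refine ⟨⟨τ⁻¹ * σ, G.mul_mem (G.inv_mem g2) g1⟩, ?_, ?_⟩
    · exact Perm.inv_eq_iff_eq.mpr (a1.trans a2.symm)
    · exact Perm.inv_eq_iff_eq.mpr (b1.trans b2.symm)
  have t3 : ∀ i k : Fin 3, i ≠ k → i ≠ 0 → k ≠ 0 → ∀ d : Blk p s, d ≠ 0 → ∃ σ ∈ G, σ 0 ≠ 0 ∧
      ∀ x, σ x ≠ x → x k = 0 ∧ (x 0 = 0 ∨ x 0 = -d) := by
    intro i k hik hi hk d hd
    have f1 := h i 0 hi fun c => if c = 0 then e else 0
    obtain ⟨-, σ, hσ, h1⟩ := (SH G i).sub_mem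
      (f1.comp hik (h 0 k hk.symm fun c => if c = 0 then d else 0)) f1
    refine ⟨σ, hσ, ?_, fun x hx => ?_⟩
    · simp [h1, hd, e0]
    · by_contra hc
      refine hx ?_
      rw [h1]
      by_cases hk : x k = 0
      · simp only [hk, true_and, not_or] at hc
        simp [hk, hc.1, add_eq_zero_iff_eq_neg, hc.2]
      · simp [hk]
  obtain ⟨a, ga, a1, a2⟩ := t3 2 1 (by decide) (by decide) (by decide) e e0
  obtain ⟨b, gb, b1, b2⟩ := t3 1 2 (by decide) (by decide) (by decide) (-e) (neg_ne_zero.mpr e0)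
  refine Perm.alternatingGroup_le_of_isPreprimitive_of_isThreeCycle_mem prim
    (three_of_supp a1 b1 fun x hx => ?_)
    (G.mul_mem (G.mul_mem (G.mul_mem ga gb) (G.inv_mem ga)) (G.inv_mem gb))
  by_contra hc
  rw [not_or] at hc
  obtain ⟨c1, c2⟩ := a2 x hc.1
  obtain ⟨c3, c4⟩ := b2 x hc.2
  have c5 : x 0 = 0 := by
    by_contra c5
    have := congrFun ((c4.resolve_left c5).symm.trans (c2.resolve_left c5)) 0
    simp only [he, neg_neg, Pi.neg_apply, Pi.single_eq_same] at this
    exact h2 (by linear_combination this)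
  refine hx (funext fun l => ?_)
  fin_cases l <;> assumption

end Pool.Agent.P.MP_839d28_al.Kz
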