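import Pool.Agent.P.MP_839d28_al.MatRep

/-! From Kazhdan sets for differentiable representations to a spectral gap on `L^2`. -/

open Matrix MeasureTheory

set_option linter.unusedSectionVars false

namespace Pool.Agent.P.MP_839d28_al

variable {ι : Type} [Fintype ι] [DecidableEq ι] {G : Type} [Group G]

/-- an identification of `G` with the special orthogonal group -/
structure Emb (e : G →* Matrix ι ι ℝ) : Prop where
  inj : Function.Injective e
  so : ∀ g, SO (e g)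
  surj : ∀ A, SO A → ∃ g, e g = A

theorem Emb.inv {e : G →* Matrix ι ι ℝ} (he : Emb e) (g : G) : e g⁻¹ = (e g)ᵀ := by
  have h1 : e g⁻¹ * e g = 1 := by rw [← map_mul, inv_mul_cancel, map_one]
  rw [← Matrix.mul_one (e g⁻¹), ← (he.so g).mul_transpose, ← Matrix.mul_assoc, h1,
    Matrix.one_mul]

theorem kaz_span {H I : Type} [NormedAddCommGroup H] [InnerProductSpace ℂ H] [Fintype I]
    {e : G →* Matrix ι ι ℝ} (he : Emb e) (T : G → H →ₗᵢ[ℂ] H) (T1 : ∀ v, T 1 v = v)
    (Tm : ∀ g h v, T (g * h) v = T g (T h v)) (m : I → H) (M : I → I → (ι → ι → ℝ) → ℝ)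
    (hM : ∀ a b, Differentiable ℝ (M a b))
    (hT : ∀ g w, T g (m w) = ∑ w', (M w' w (e g) : ℂ) • m w')
    {S : Finset (Matrix ι ι ℝ)} {C : ℝ} (hS : ∀ s ∈ S, SO s) (hK : Kaz S C) {v : H}
    (hv : v ∈ Submodule.span ℂ (Set.range m)) {ε : ℝ} (hε : 0 ≤ ε)
    (hs : ∀ g, e g ∈ S → ‖T g v - v‖ ≤ ε) (g : G) : ‖T g v - v‖ ≤ C * ε := by
  classical
  set V := Submodule.span ℂ (Set.range m) with hV
  have : FiniteDimensional ℂ V := FiniteDimensional.span_of_finite ℂ (Set.finite_range m)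
  let m' : I → V := fun w => ⟨m w, Submodule.subset_span (Set.mem_range_self w)⟩
  obtain ⟨σ, hσ⟩ := (Fintype.linearCombination ℂ m').exists_rightInverse_of_surjective (by
    rw [LinearMap.range_eq_top]
    rintro ⟨u, hu⟩
    obtain ⟨c, hc⟩ := (Submodule.mem_span_range_iff_exists_fun ℂ).mp hu
    exact ⟨c, Subtype.ext (by simpa [Fintype.linearCombination_apply, m'] using hc)⟩)
  have hσ' : ∀ u : V, (u : H) = ∑ w, σ u w • m w := fun u => by
    have := congrArg Subtype.val (LinearMap.congr_fun hσ u)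
    simpa [Fintype.linearCombination_apply, m'] using this.symm
  let B : I × I → V →L[ℂ] V := fun c =>
    (LinearMap.toContinuousLinearMap ((LinearMap.proj c.1).comp σ)).smulRight (m' c.2)
  let ρ : Matrix ι ι ℝ → V →L[ℂ] V := fun A => ∑ c : I × I, (M c.2 c.1 A : ℂ) • B c
  have hρ : ∀ g (u : V), (ρ (e g) u : H) = T g u := by
    intro g u
    rw [hσ' u, map_sum]
    simp only [ρ, B, m', map_smul, hT, Finset.smul_sum, Fintype.sum_prod_type, smul_smul]
    simp [smul_smul, mul_comm]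
  let R : MatRep ι V :=
    { ρ := ρ
      one := by
        ext u
        rw [← map_one e, hρ, T1]
        rfl
      mul := by
        intro a b ha hb
        obtain ⟨a, rfl⟩ := he.surj a ha
        obtain ⟨b, rfl⟩ := he.surj b hb
        ext u
        rw [← map_mul, hρ, Tm, ← hρ b, ← hρ a]
        rfl
      norm := by
        intro a ha u
        obtain ⟨a, rfl⟩ := he.surj a ha
        rw [Submodule.coe_norm, hρ, (T a).norm_map, Submodule.coe_norm]
      D := fun A => ∑ c : I × I,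
        (fderiv ℝ (M c.2 c.1) (fun i j => (1 : Matrix ι ι ℝ) i j) (fun i j => A i j) : ℂ) • B c
      D_add := by
        intro A A'
        rw [← Finset.sum_add_distrib]
        refine Finset.sum_congr rfl fun c _ => ?_
        rw [← add_smul, ← Complex.ofReal_add, ← map_add]
        rfl
      D_smul := by
        intro r A
        rw [Finset.smul_sum]
        refine Finset.sum_congr rfl fun c _ => ?_
        rw [smul_smul, ← Complex.ofReal_mul, ← smul_eq_mul, ← map_smul]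
        rfl
      deriv := by
        intro γ A _ h0 hd u
        simp only [ρ, _root_.sum_apply, _root_.smul_apply]
        refine HasDerivAt.fun_sum fun c _ => HasDerivAt.smul_const ?_ _
        refine HasDerivAt.ofReal_comp ?_
        have h1 : HasDerivAt (fun t => (fun i j => γ t i j : ι → ι → ℝ)) (fun i j => A i j) 0 :=
          hasDerivAt_pi.mpr fun i => hasDerivAt_pi.mpr fun j => hd i j
        rw [← h0]
        exact (hM c.2 c.1 _).hasFDerivAt.comp_hasDerivAt 0 h1 }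
  have hN : ∀ g, R.N ⟨v, hv⟩ (e g) = ‖T g v - v‖ := by
    intro g
    rw [MatRep.N, Submodule.coe_norm, Submodule.coe_sub]
    exact congrArg (fun u => ‖u - v‖) (hρ g ⟨v, hv⟩)
  rw [← hN]
  refine hK V R _ ε hε (fun s h => ?_) _ (he.so g)
  obtain ⟨a, rfl⟩ := he.surj s (hS s h)
  rw [hN]
  exact hs a h

variable [TopologicalSpace G] [IsTopologicalGroup G] [CompactSpace G] [T2Space G]
  [SecondCountableTopology G] [MeasurableSpace G] [BorelSpace G]

/-- coordinate functions -/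
noncomputable def cf (e : G →* Matrix ι ι ℝ) (hc : Continuous e) : Option (ι × ι) → C(G, ℂ)
  | none => 1
  | some c => ⟨fun x => (e x c.1 c.2 : ℂ), Complex.continuous_ofReal.comp (hc.matrix_elem _ _)⟩

/-- transformation of coordinates -/
def cm : Option (ι × ι) → Option (ι × ι) → (ι → ι → ℝ) → ℝ
  | none, none => fun _ => 1
  | some c', some c => fun A => if c'.2 = c.2 then A c'.1 c.1 else 0
  | _, _ => fun _ => 0

theorem cm_diff (o' o : Option (ι × ι)) : Differentiable ℝ (cm o' o) := by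
  rcases o' with _ | c' <;> rcases o with _ | c <;> simp only [cm]
  · fun_prop
  · fun_prop
  · fun_prop
  · split_ifs <;> fun_prop

theorem cf_mul {e : G →* Matrix ι ι ℝ} (he : Emb e) (hc : Continuous e) (o : Option (ι × ι))
    (g x : G) : cf e hc o (g⁻¹ * x) = ∑ o', (cm o' o (e g) : ℂ) * cf e hc o' x := by
  rcases o with _ | c
  · simp [cf, cm]
  · simp [cf, cm, he.inv, mul_apply, Fintype.sum_prod_type, apply_ite]

/-- monomials -/
noncomputable def mono (e : G →* Matrix ι ι ℝ) (hc : Continuous e) {J : Type} [Fintype J]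
    (w : J → Option (ι × ι)) : C(G, ℂ) := ∏ d, cf e hc (w d)

/-- polynomial functions -/
def Poly (e : G →* Matrix ι ι ℝ) (hc : Continuous e) (φ : C(G, ℂ)) : Prop :=
  ∃ (J : Type) (_ : Fintype J), φ ∈ Submodule.span ℂ (Set.range (mono e hc (J := J)))

theorem span_mono_mul {e : G →* Matrix ι ι ℝ} {hc : Continuous e} {J K : Type} [Fintype J]
    [Fintype K] {φ ψ : C(G, ℂ)} (h1 : φ ∈ Submodule.span ℂ (Set.range (mono e hc (J := J))))
    (h2 : ψ ∈ Submodule.span ℂ (Set.range (mono e hc (J := K)))) :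
    φ * ψ ∈ Submodule.span ℂ (Set.range (mono e hc (J := J ⊕ K))) := by
  have := Submodule.mul_mem_mul h1 h2
  rw [Submodule.span_mul_span] at this
  refine Submodule.span_mono ?_ this
  rintro _ ⟨_, ⟨w, rfl⟩, _, ⟨u, rfl⟩, rfl⟩
  exact ⟨Sum.elim w u, by simp [mono]⟩

theorem span_mono_one (e : G →* Matrix ι ι ℝ) (hc : Continuous e) (J : Type) [Fintype J] :
    (1 : C(G, ℂ)) ∈ Submodule.span ℂ (Set.range (mono e hc (J := J))) :=
  Submodule.subset_span ⟨fun _ => none, by simp [mono, cf]⟩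

theorem star_cf (e : G →* Matrix ι ι ℝ) (hc : Continuous e) (o : Option (ι × ι)) :
    star (cf e hc o) = cf e hc o := by
  ext x
  rcases o with _ | c <;> simp [cf]

theorem dense_poly {e : G →* Matrix ι ι ℝ} (he : Emb e) (hc : Continuous e) :
    Dense {φ | Poly e hc φ} := by
  have h1 := ContinuousMap.starSubalgebra_topologicalClosure_eq_top_of_separatesPoints
    (StarAlgebra.adjoin ℂ (Set.range (cf e hc))) (by
      intro x y hxy
      have : e x ≠ e y := fun h => hxy (he.inj h)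
      obtain ⟨i, hi⟩ := Function.ne_iff.mp this
      obtain ⟨j, hj⟩ := Function.ne_iff.mp hi
      refine ⟨_, ⟨cf e hc (some (i, j)), StarAlgebra.subset_adjoin _ _ ⟨_, rfl⟩, rfl⟩, ?_⟩
      simpa [cf] using hj)
  have h2 : Dense (StarAlgebra.adjoin ℂ (Set.range (cf e hc)) : Set C(G, ℂ)) := by
    intro φ
    have : φ ∈ (StarAlgebra.adjoin ℂ (Set.range (cf e hc))).topologicalClosure := by
      rw [h1]; trivial
    exact this
  refine h2.mono fun φ hφ => ?_
  induction hφ using StarAlgebra.adjoin_induction with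
  | mem x hx =>
    obtain ⟨o, rfl⟩ := hx
    exact ⟨Unit, inferInstance, Submodule.subset_span ⟨fun _ => o, by simp [mono]⟩⟩
  | algebraMap r =>
    rw [Algebra.algebraMap_eq_smul_one]
    exact ⟨Unit, inferInstance, Submodule.smul_mem _ _ (span_mono_one e hc _)⟩
  | add x y _ _ hx hy =>
    obtain ⟨J, _, hx⟩ := hx
    obtain ⟨K, _, hy⟩ := hy
    have a1 := span_mono_mul hx (span_mono_one e hc K)
    have a2 := span_mono_mul (span_mono_one e hc J) hy
    rw [mul_one] at a1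
    rw [one_mul] at a2
    exact ⟨J ⊕ K, inferInstance, Submodule.add_mem _ a1 a2⟩
  | mul x y _ _ hx hy =>
    obtain ⟨J, _, hx⟩ := hx
    obtain ⟨K, _, hy⟩ := hy
    exact ⟨J ⊕ K, inferInstance, span_mono_mul hx hy⟩
  | star x h0 hx =>
    obtain ⟨J, _, hx⟩ := hx
    refine ⟨J, inferInstance, ?_⟩
    clear h0
    induction hx using Submodule.span_induction with
    | mem x hx =>
      obtain ⟨w, rfl⟩ := hx
      exact Submodule.subset_span ⟨w, by simp [mono, star_prod, star_cf]⟩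
    | zero => simp
    | add x y _ _ hx hy => rw [star_add]; exact Submodule.add_mem _ hx hy
    | smul a x _ hx => rw [star_smul]; exact Submodule.smul_mem _ _ hx

variable (ν : Measure G) [IsProbabilityMeasure ν] [ν.IsMulLeftInvariant]

/-- the left regular representation -/
noncomputable def reg (g : G) : Lp ℂ 2 ν →ₗᵢ[ℂ] Lp ℂ 2 ν :=
  Lp.compMeasurePreservingₗᵢ ℂ (fun x => g⁻¹ * x) (measurePreserving_mul_left ν g⁻¹)

theorem reg_coe (g : G) (v : Lp ℂ 2 ν) : reg ν g v =ᵐ[ν] fun x => v (g⁻¹ * x) :=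
  Lp.coeFn_compMeasurePreserving v (measurePreserving_mul_left ν g⁻¹)

theorem reg_ae (g : G) {v : Lp ℂ 2 ν} {f : G → ℂ} (h : v =ᵐ[ν] f) :
    reg ν g v =ᵐ[ν] fun x => f (g⁻¹ * x) :=
  (reg_coe ν g v).trans ((measurePreserving_mul_left ν g⁻¹).quasiMeasurePreserving.ae_eq_comp h)

theorem reg_one (v : Lp ℂ 2 ν) : reg ν 1 v = v :=
  Lp.ext (by simpa using reg_coe ν 1 v)

theorem reg_mul (g h : G) (v : Lp ℂ 2 ν) : reg ν (g * h) v = reg ν g (reg ν h v) :=
  Lp.ext ((reg_coe ν (g * h) v).trans (by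
    simpa [mul_assoc] using (reg_ae ν g (reg_coe ν h v)).symm))

theorem reg_toLp (g : G) (φ : C(G, ℂ)) : reg ν g (ContinuousMap.toLp 2 ν ℂ φ) =
    ContinuousMap.toLp 2 ν ℂ (φ.comp (ContinuousMap.mulLeft g⁻¹)) :=
  Lp.ext ((reg_ae ν g (ContinuousMap.coeFn_toLp ν φ)).trans
    (ContinuousMap.coeFn_toLp ν (φ.comp (ContinuousMap.mulLeft g⁻¹))).symm)

theorem kaz_poly {e : G →* Matrix ι ι ℝ} (he : Emb e) (hc : Continuous e)
    {S : Finset (Matrix ι ι ℝ)} {C : ℝ} (hS : ∀ s ∈ S, SO s) (hK : Kaz S C) {φ : C(G, ℂ)}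
    (hφ : Poly e hc φ) {ε : ℝ} (hε : 0 ≤ ε) (v : Lp ℂ 2 ν) (hv : v = ContinuousMap.toLp 2 ν ℂ φ)
    (hs : ∀ g, e g ∈ S → ‖reg ν g v - v‖ ≤ ε) (g : G) : ‖reg ν g v - v‖ ≤ C * ε := by
  classical
  obtain ⟨J, _, hφ⟩ := hφ
  refine kaz_span he (reg ν) (reg_one ν) (reg_mul ν)
    (fun w : J → Option (ι × ι) => ContinuousMap.toLp 2 ν ℂ (mono e hc w))
    (fun w' w A => ∏ d, cm (w' d) (w d) A)
    (fun a b x => (HasFDerivAt.finsetProd fun d _ =>
      (cm_diff (a d) (b d) x).hasFDerivAt).differentiableAt) ?_ hS hK ?_ hε hs g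
  · intro g w
    rw [reg_toLp]
    simp only [← map_smul, ← map_sum]
    congr 1
    ext x
    simp only [mono, ContinuousMap.comp_apply, ContinuousMap.coe_mulLeft, ContinuousMap.prod_apply,
      cf_mul he, ContinuousMap.sum_apply, ContinuousMap.smul_apply, smul_eq_mul]
    rw [Finset.prod_univ_sum]
    simp [Finset.prod_mul_distrib]
  · have := Submodule.mem_map_of_mem (f := (ContinuousMap.toLp 2 ν ℂ).toLinearMap) hφ
    rw [Submodule.map_span, ← Set.range_comp] at this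
    rw [hv]
    exact this

theorem avg_prod (φ ψ : C(G, ℂ)) :
    Integrable (fun g => ∫ x, ψ x * φ (g⁻¹ * x) ∂ν) ν ∧
    ∫ g, ∫ x, ψ x * φ (g⁻¹ * x) ∂ν ∂ν = (∫ x, ψ x ∂ν) * ∫ g, φ g⁻¹ ∂ν := by
  have hi : Integrable (Function.uncurry fun g x => ψ x * φ (g⁻¹ * x)) (ν.prod ν) :=
    Continuous.integrable_of_hasCompactSupport (by fun_prop) (HasCompactSupport.of_compactSpace _)
  refine ⟨hi.integral_prod_left, ?_⟩
  rw [integral_integral_swap hi, ← integral_mul_const]
  congr 1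
  ext x
  rw [integral_const_mul, ← integral_mul_left_eq_self _ x]
  simp

theorem avg_inv (φ : C(G, ℂ)) : ∫ g, φ g⁻¹ ∂ν = ∫ g, φ g ∂ν := by
  have := (avg_prod ν φ 1).2
  simpa [integral_mul_left_eq_self] using this.symm

theorem reg_disp (g : G) (v : Lp ℂ 2 ν) :
    ‖reg ν g v - v‖ ^ 2 = 2 * ‖v‖ ^ 2 - 2 * (inner ℂ (reg ν g v) v).re := by
  rw [@norm_sub_sq ℂ, (reg ν g).norm_map]
  simp only [RCLike.re_to_complex]
  ring

theorem gap_Lp {e : G →* Matrix ι ι ℝ} (he : Emb e) (hc : Continuous e)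
    {S : Finset (Matrix ι ι ℝ)} {C : ℝ} (hS : ∀ s ∈ S, SO s) (hK : Kaz S C)
    (S' : Finset G) (hS' : ∀ g, e g ∈ S → g ≠ 1 → g ∈ S') (v : Lp ℂ 2 ν) :
    2 * ‖v‖ ^ 2 ≤ 2 * ‖inner ℂ (ContinuousMap.toLp 2 ν ℂ (1 : C(G, ℂ))) v‖ ^ 2 +
      C ^ 2 * ∑ s ∈ S', ‖reg ν s v - v‖ ^ 2 := by
  have hd : Dense (ContinuousMap.toLp 2 ν ℂ '' {φ | Poly e hc φ}) :=
    (ContinuousMap.toLp_denseRange ℂ ν ℂ (by simp)).dense_image
      (ContinuousMap.toLp 2 ν ℂ).continuous (dense_poly he hc)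
  refine hd.induction ?_ (isClosed_le (by fun_prop) (by fun_prop)) v
  rintro _ ⟨φ, hφ, rfl⟩
  set v := ContinuousMap.toLp 2 ν ℂ φ with hv
  have h0 : 0 ≤ ∑ s ∈ S', ‖reg ν s v - v‖ ^ 2 := Finset.sum_nonneg fun _ _ => sq_nonneg _
  have h1 := kaz_poly ν he hc hS hK hφ (Real.sqrt_nonneg (∑ s ∈ S', ‖reg ν s v - v‖ ^ 2)) v hv
    (fun g hg => by
      by_cases h : g = 1
      · simp [h, reg_one]
      · exact Real.le_sqrt_of_sq_le (Finset.single_le_sum (f := fun s => ‖reg ν s v - v‖ ^ 2)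
          (fun _ _ => sq_nonneg _) (hS' g hg h)))
  have h2 : ∀ g, inner ℂ (reg ν g v) v = ∫ x, φ x * (star φ) (g⁻¹ * x) ∂ν := by
    intro g
    rw [hv, reg_toLp, ContinuousMap.inner_toLp]
    rfl
  obtain ⟨h3, h4⟩ := avg_prod ν (star φ) φ
  have h5 : ∀ g, ‖v‖ ^ 2 - C ^ 2 * (∑ s ∈ S', ‖reg ν s v - v‖ ^ 2) / 2 ≤
      (∫ x, φ x * (star φ) (g⁻¹ * x) ∂ν).re := by
    intro g
    have a := pow_le_pow_left₀ (norm_nonneg _) (h1 g) 2
    rw [mul_pow, Real.sq_sqrt h0, reg_disp, h2] at a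
    linarith
  have h6 := integral_mono (integrable_const _) h3.re h5
  rw [integral_const, probReal_univ, one_smul] at h6
  erw [integral_re h3] at h6
  rw [h4, avg_inv] at h6
  have h7 : ∫ g, (star φ) g ∂ν = (starRingEnd ℂ) (∫ g, φ g ∂ν) := integral_conj
  rw [h7, Complex.mul_conj'] at h6
  rw [hv, ContinuousMap.inner_toLp]
  simp only [ContinuousMap.one_apply, map_one, mul_one]
  rw [← Complex.ofReal_pow, RCLike.re_to_complex, Complex.ofReal_re] at h6
  linarith

theorem gap_real {e : G →* Matrix ι ι ℝ} (he : Emb e) (hc : Continuous e)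
    {S : Finset (Matrix ι ι ℝ)} {C : ℝ} (hS : ∀ s ∈ S, SO s) (hK : Kaz S C)
    (S' : Finset G) (hS' : ∀ g, e g ∈ S → g ≠ 1 → g ∈ S') {f : G → ℝ} (hf : MemLp f 2 ν)
    (h0 : ∫ x, f x ∂ν = 0) :
    C ^ 2 * ∑ s ∈ S', ∫ x, f (s * x) * f x ∂ν ≤ (C ^ 2 * S'.card - 1) * ∫ x, f x ^ 2 ∂ν := by
  have hf' : MemLp (fun x => (f x : ℂ)) 2 ν := hf.ofReal
  have h := gap_Lp ν he hc hS hK S' hS' hf'.toLp
  have a1 : ∀ s, (inner ℂ (reg ν s hf'.toLp) hf'.toLp).re = ∫ x, f (s * x) * f x ∂ν := by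
    intro s
    have : inner ℂ (reg ν s hf'.toLp) hf'.toLp = ∫ x, ((f x * f (s⁻¹ * x) : ℝ) : ℂ) ∂ν := by
      rw [L2.inner_def]
      refine integral_congr_ae ?_
      filter_upwards [reg_ae ν s hf'.coeFn_toLp, hf'.coeFn_toLp] with x h1 h2
      simp [h1, h2]
    rw [this, integral_complex_ofReal, ← integral_mul_left_eq_self _ s]
    simp
  have a2 : ‖hf'.toLp‖ ^ 2 = ∫ x, f x ^ 2 ∂ν := by
    have := a1 1
    rw [reg_one, inner_self_eq_norm_sq_to_K] at this
    simp only [one_mul, ← sq] at this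
    rw [← this]
    norm_cast
  have a3 : inner ℂ (ContinuousMap.toLp 2 ν ℂ (1 : C(G, ℂ))) hf'.toLp = 0 := by
    have : inner ℂ (ContinuousMap.toLp 2 ν ℂ (1 : C(G, ℂ))) hf'.toLp =
        ∫ x, ((f x : ℝ) : ℂ) ∂ν := by
      rw [L2.inner_def]
      refine integral_congr_ae ?_
      filter_upwards [ContinuousMap.coeFn_toLp (p := 2) (𝕜 := ℂ) ν (1 : C(G, ℂ)),
        hf'.coeFn_toLp] with x h1 h2
      rw [h1, h2]
      simp
    rw [this, integral_complex_ofReal, h0]
    simp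
  simp only [reg_disp, a1, a2, a3, Finset.sum_sub_distrib, Finset.sum_const, nsmul_eq_mul,
    ← Finset.mul_sum, norm_zero] at h
  linarith

end Pool.Agent.P.MP_839d28_al
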