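import Pool.Agent.P.MP_839d28_al.QRep

/-! Reduced words in the six quaternions of norm five. -/

open scoped Quaternion

namespace Pool.Agent.P.MP_839d28_al

def gen (a : Fin 6) : ℍ[ℤ] :=
  ⟨1, ![2, 0, 0, -2, 0, 0] a, ![0, 2, 0, 0, -2, 0] a, ![0, 0, 2, 0, 0, -2] a⟩

theorem gen_re (a : Fin 6) : (gen a).re = 1 := rfl
theorem gen_imI (a : Fin 6) : (gen a).imI = ![2, 0, 0, -2, 0, 0] a := rfl
theorem gen_imJ (a : Fin 6) : (gen a).imJ = ![0, 2, 0, 0, -2, 0] a := rfl
theorem gen_imK (a : Fin 6) : (gen a).imK = ![0, 0, 2, 0, 0, -2] a := rfl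

def bar (a : Fin 6) : Fin 6 := a + 3

theorem bar_bar : ∀ a, bar (bar a) = a := by decide

theorem normSq_gen (a : Fin 6) : Quaternion.normSq (gen a) = 5 := by
  rw [Quaternion.normSq_def', gen_re, gen_imI, gen_imJ, gen_imK]
  revert a; decide

theorem star_gen (a : Fin 6) : star (gen a) = gen (bar a) := by
  ext
  · simp [gen_re]
  · rw [Quaternion.imI_star, gen_imI, gen_imI]; revert a; decide
  · rw [Quaternion.imJ_star, gen_imJ, gen_imJ]; revert a; decide
  · rw [Quaternion.imK_star, gen_imK, gen_imK]; revert a; decide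

theorem normSq_gen_sub (a b : Fin 6) (h : a ≠ b) :
    Quaternion.normSq (gen a - gen b) = 8 ∨ Quaternion.normSq (gen a - gen b) = 16 := by
  simp only [Quaternion.normSq_def', Quaternion.re_sub, Quaternion.imI_sub, Quaternion.imJ_sub,
    Quaternion.imK_sub, gen_re, gen_imI, gen_imJ, gen_imK]
  revert a b; decide

def D5 (γ : ℍ[ℤ]) : Prop := ∃ δ : ℍ[ℤ], γ = (5 : ℤ) • δ

theorem D5.mul {γ : ℍ[ℤ]} (h : D5 γ) (x : ℍ[ℤ]) : D5 (x * γ) := by
  obtain ⟨δ, rfl⟩ := h
  exact ⟨x * δ, mul_smul_comm _ _ _⟩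

theorem D5.of_pair {γ : ℍ[ℤ]} {a b : Fin 6} (hab : a ≠ b) (ha : D5 (star (gen a) * γ))
    (hb : D5 (star (gen b) * γ)) : D5 γ := by
  have h1 : D5 (star (gen a - gen b) * γ) := by
    obtain ⟨x, hx⟩ := ha
    obtain ⟨y, hy⟩ := hb
    exact ⟨x - y, by rw [star_sub, sub_mul, hx, hy, smul_sub]⟩
  have h2 := h1.mul (gen a - gen b)
  rw [← mul_assoc, Quaternion.self_mul_star, Quaternion.coe_mul_eq_smul] at h2
  obtain ⟨δ, hδ⟩ := h2
  rcases normSq_gen_sub a b hab with h | h <;> rw [h] at hδ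
  · exact ⟨(2 : ℤ) • δ - (3 : ℤ) • γ, by linear_combination (norm := module) (2 : ℤ) • hδ⟩
  · exact ⟨δ - (3 : ℤ) • γ, by linear_combination (norm := module) hδ⟩

theorem D5_star_gen_mul (a : Fin 6) (γ : ℍ[ℤ]) : D5 (star (gen a) * (gen a * γ)) :=
  ⟨γ, by rw [← mul_assoc, Quaternion.star_mul_self, Quaternion.coe_mul_eq_smul, normSq_gen]⟩

open Classical in
/-- reduced words of length `k+1` starting with `a` -/
noncomputable def TW : ℕ → Fin 6 → Finset ℍ[ℤ]
  | 0, a => {gen a}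
  | k + 1, a => ((Finset.univ.erase (bar a)).biUnion (TW k)).image (gen a * ·)

theorem TW_inv (k : ℕ) : ∀ a, ∀ α ∈ TW k a,
    Quaternion.normSq α = 5 ^ (k + 1) ∧ ¬D5 α ∧ D5 (star (gen a) * α) := by
  induction k with
  | zero =>
    intro a α hα
    simp only [TW, Finset.mem_singleton] at hα
    subst hα
    refine ⟨normSq_gen a, ?_, by simpa using D5_star_gen_mul a 1⟩
    rintro ⟨δ, hδ⟩
    have := congrArg QuaternionAlgebra.re hδ
    rw [gen_re, Quaternion.re_smul, smul_eq_mul] at this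
    omega
  | succ k ih =>
    intro a α hα
    simp only [TW, Finset.mem_image, Finset.mem_biUnion, Finset.mem_erase] at hα
    obtain ⟨β, ⟨c, ⟨hc, -⟩, hβ⟩, rfl⟩ := hα
    obtain ⟨h1, h2, h3⟩ := ih c β hβ
    refine ⟨by rw [map_mul, normSq_gen, h1]; ring, fun h => h2 ?_, D5_star_gen_mul a β⟩
    refine D5.of_pair hc h3 ?_
    rwa [star_gen, bar_bar]

theorem TW_disj (k : ℕ) {a b : Fin 6} (hab : a ≠ b) : Disjoint (TW k a) (TW k b) := by
  rw [Finset.disjoint_left]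
  intro α ha hb
  exact (TW_inv k a α ha).2.1 (D5.of_pair hab (TW_inv k a α ha).2.2 (TW_inv k b α hb).2.2)

theorem TW_card (k : ℕ) : ∀ a, (TW k a).card ≤ 5 ^ k := by
  induction k with
  | zero => intro a; simp [TW]
  | succ k ih =>
    intro a
    classical
    simp only [TW]
    refine Finset.card_image_le.trans
      ((Finset.card_biUnion_le_card_mul _ _ _ fun c _ => ih c).trans ?_)
    rw [Finset.card_erase_of_mem (Finset.mem_univ _), pow_succ, mul_comm]
    simp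

/-- integer quaternions as real quaternions -/
def toR (α : ℍ[ℤ]) : ℍ := ⟨α.re, α.imI, α.imJ, α.imK⟩

@[simp] theorem toR_re (α : ℍ[ℤ]) : (toR α).re = α.re := rfl
@[simp] theorem toR_imI (α : ℍ[ℤ]) : (toR α).imI = α.imI := rfl
@[simp] theorem toR_imJ (α : ℍ[ℤ]) : (toR α).imJ = α.imJ := rfl
@[simp] theorem toR_imK (α : ℍ[ℤ]) : (toR α).imK = α.imK := rfl

theorem toR_mul (α β : ℍ[ℤ]) : toR (α * β) = toR α * toR β := by ext <;> simp
theorem toR_sub (α β : ℍ[ℤ]) : toR (α - β) = toR α - toR β := by ext <;> simp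
theorem toR_star (α : ℍ[ℤ]) : toR (star α) = star (toR α) := by ext <;> simp

theorem norm_toR (α : ℍ[ℤ]) : ‖toR α‖ ^ 2 = (Quaternion.normSq α : ℤ) := by
  rw [qnorm_sq, Quaternion.normSq_def']; simp

/-- normalised quaternion -/
noncomputable def un (k : ℕ) (α : ℍ[ℤ]) : ℍ := ((√5 : ℝ) ^ k)⁻¹ • toR α

theorem norm_un_sq (k : ℕ) (α : ℍ[ℤ]) : ‖un k α‖ ^ 2 = (Quaternion.normSq α : ℤ) / 5 ^ k := by
  rw [un, norm_smul, mul_pow, norm_toR, Real.norm_eq_abs, sq_abs, inv_pow, ← pow_mul, mul_comm k,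
    pow_mul, Real.sq_sqrt (by norm_num)]
  field_simp

theorem norm_un {k : ℕ} {α : ℍ[ℤ]} (h : Quaternion.normSq α = 5 ^ k) : ‖un k α‖ = 1 := by
  rw [← pow_eq_one_iff_of_nonneg (norm_nonneg _) two_ne_zero, norm_un_sq, h]
  push_cast
  field_simp

/-- the six generators -/
noncomputable def sg (a : Fin 6) : ℍ := un 1 (gen a)

theorem norm_sg (a : Fin 6) : ‖sg a‖ = 1 := norm_un (by rw [normSq_gen]; norm_num)

theorem star_sg (a : Fin 6) : star (sg a) = sg (bar a) := by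
  rw [sg, sg, un, un, ← star_gen, toR_star, Quaternion.star_smul]

theorem un_mul (k : ℕ) (a : Fin 6) (α : ℍ[ℤ]) : un (k + 1) (gen a * α) = sg a * un k α := by
  rw [sg, un, un, un, toR_mul, smul_mul_smul_comm, pow_succ, pow_one, mul_inv, mul_comm]

variable {V : Type} [NormedAddCommGroup V] [InnerProductSpace ℂ V]

namespace QRep

variable (R : QRep V)

/-- the averaging operator -/
noncomputable def A : V →L[ℂ] V := ∑ a, R.ρ (sg a)

theorem A_apply (v : V) : R.A v = ∑ a, R.ρ (sg a) v := by simp [A]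

noncomputable def uw (v : V) (k : ℕ) (a : Fin 6) : V := ∑ α ∈ TW k a, R.ρ (un (k + 1) α) v

theorem uw_succ (v : V) (k : ℕ) (a : Fin 6) :
    R.uw v (k + 1) a = R.ρ (sg a) (∑ c, R.uw v k c - R.uw v k (bar a)) := by
  classical
  have hne : gen a ≠ 0 := by
    intro h
    have := normSq_gen a
    rw [h] at this
    simp at this
  rw [← Finset.sum_erase_eq_sub (Finset.mem_univ _), uw]
  simp only [TW]
  rw [Finset.sum_image fun x _ y _ h => mul_left_cancel₀ hne h,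
    Finset.sum_biUnion fun x _ y _ h => TW_disj k h, map_sum]
  refine Finset.sum_congr rfl fun c _ => ?_
  rw [uw, map_sum]
  refine Finset.sum_congr rfl fun α hα => ?_
  rw [un_mul, R.mul _ _ (norm_sg a) (norm_un (TW_inv k c α hα).1)]
  rfl

theorem sg_bar (a : Fin 6) (x : V) : R.ρ (sg a) (R.ρ (sg (bar a)) x) = x := by
  have := R.star_mul (norm_sg (bar a)) x
  rwa [star_sg, bar_bar] at this

theorem sum_uw_zero (v : V) : ∑ a, R.uw v 0 a = R.A v := by
  simp [uw, TW, A_apply, sg]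

theorem sum_uw_one (v : V) : ∑ a, R.uw v 1 a = R.A (R.A v) - (6 : ℂ) • v := by
  simp only [uw_succ, map_sub, Finset.sum_sub_distrib, sum_uw_zero, ← A_apply]
  congr 1
  have : ∀ a, R.ρ (sg a) (R.uw v 0 (bar a)) = v := by
    intro a
    simp only [uw, TW, Finset.sum_singleton]
    exact R.sg_bar a v
  simp only [this, Finset.sum_const, Finset.card_univ, Fintype.card_fin]
  exact (Nat.cast_smul_eq_nsmul ℂ 6 v).symm

theorem sum_uw_two (v : V) (k : ℕ) : ∑ a, R.uw v (k + 2) a =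
    R.A (∑ a, R.uw v (k + 1) a) - (5 : ℂ) • ∑ a, R.uw v k a := by
  have : ∀ a, R.uw v (k + 2) a =
      R.ρ (sg a) (∑ a, R.uw v (k + 1) a) - (∑ c, R.uw v k c - R.uw v k a) := by
    intro a
    rw [uw_succ, map_sub, R.uw_succ v k (bar a), sg_bar, bar_bar]
  simp only [this, Finset.sum_sub_distrib, ← A_apply, Finset.sum_const, Finset.card_univ,
    Fintype.card_fin]
  module

theorem words_eig {v : V} {lam : ℝ} (hv : R.A v = (lam : ℂ) • v) (hl : 593 / 100 ≤ lam) (k : ℕ) :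
    ∃ P Q : ℝ, (49 / 10) ^ (k + 1) ≤ P ∧ 49 / 10 * P ≤ Q ∧ ∑ a, R.uw v k a = (P : ℂ) • v ∧
      ∑ a, R.uw v (k + 1) a = (Q : ℂ) • v := by
  induction k with
  | zero =>
    refine ⟨lam, lam ^ 2 - 6, by linarith, by nlinarith, by rw [sum_uw_zero, hv], ?_⟩
    rw [zero_add, sum_uw_one, hv, map_smul, hv]
    push_cast
    module
  | succ k ih =>
    obtain ⟨P, Q, h1, h2, h3, h4⟩ := ih
    have hP : 0 < P := lt_of_lt_of_le (by positivity) h1
    refine ⟨Q, lam * Q - 5 * P, ?_, by nlinarith, h4, ?_⟩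
    · rw [pow_succ]; linarith
    · rw [sum_uw_two, h3, h4, map_smul, hv]
      push_cast
      module

theorem exists_words {v : V} {lam : ℝ} (hv : R.A v = (lam : ℂ) • v) (hl : 593 / 100 ≤ lam)
    (k : ℕ) : ∃ W : Finset ℍ[ℤ], W.card ≤ 6 * 5 ^ k ∧
      (∀ α ∈ W, Quaternion.normSq α = 5 ^ (k + 1)) ∧
      ∃ P : ℝ, (49 / 10) ^ (k + 1) ≤ P ∧ ∑ α ∈ W, R.ρ (un (k + 1) α) v = (P : ℂ) • v := by
  classical
  obtain ⟨P, -, h1, -, h3, -⟩ := R.words_eig hv hl k
  refine ⟨Finset.univ.biUnion (TW k), ?_, ?_, P, h1, ?_⟩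
  · simpa using Finset.card_biUnion_le_card_mul Finset.univ (TW k) _ fun c _ => TW_card k c
  · intro α hα
    obtain ⟨a, -, ha⟩ := Finset.mem_biUnion.mp hα
    exact (TW_inv k a α ha).1
  · rw [Finset.sum_biUnion fun x _ y _ h => TW_disj k h, ← h3]
    rfl

end QRep

end Pool.Agent.P.MP_839d28_al
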