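import Pool.Agent.P.MP_839d28_al.Haar3
import Pool.Agent.P.MP_839d28_al.Words
import Pool.Agent.P.MP_839d28_al.Count

/-! No large eigenvalue in irreducible representations of large dimension. -/

open scoped Quaternion
open MeasureTheory

namespace Pool.Agent.P.MP_839d28_al

variable {V : Type} [NormedAddCommGroup V] [InnerProductSpace ℂ V] [FiniteDimensional ℂ V]

namespace QRep

variable (R : QRep V)

theorem key_ineq (hR : R.Irr) {v : V} (hv : ‖v‖ = 1) (W : Finset ℍ[ℤ]) (w : ℍ[ℤ] → ℍ)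
    (hw : ∀ α ∈ W, ‖w α‖ = 1) {P : ℝ} (hP : 0 ≤ P) (hs : ∑ α ∈ W, R.ρ (w α) v = (P : ℂ) • v)
    (c : ℍ[ℤ] × ℍ[ℤ] → Prop) [DecidablePred c]
    (hc : ∀ α ∈ W, ∀ β ∈ W, 12 * Module.finrank ℂ V * ‖w α - w β‖ < 1 → c (α, β)) :
    P ^ 2 ≤ 64 * 720 ^ 3 * (Module.finrank ℂ V : ℝ) ^ 2 * ((W ×ˢ W).filter c).card := by
  set m := Module.finrank ℂ V with hm
  have hm1 : 1 ≤ m := by
    have : Nontrivial V := ⟨⟨v, 0, by rintro rfl; simp at hv⟩⟩
    exact Module.finrank_pos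
  have hm' : (0 : ℝ) < m := by exact_mod_cast hm1
  set M := 24 * m with hM
  have hMr : (M : ℝ) = 24 * m := by rw [hM]; push_cast; ring
  set φ : ℍ → ℝ := fun g => (inner ℂ v (R.ρ g v)).re with hφ
  have cφ : Continuous fun g : S3 => φ g := by
    have := R.cont v
    simp only [hφ]
    fun_prop
  have cb : ∀ y : ℍ, Continuous fun g : S3 => bump M (y * g) := fun y =>
    (bump_cont M).comp (by fun_prop)
  have cb1 : Continuous fun g : S3 => bump M g := (bump_cont M).comp (by fun_prop)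
  set β := ∫ g : S3, bump M g ∂mu3 with hβ
  have hβ1 : 1 ≤ 16 * (30 * M) ^ 3 * β := bump_int (by omega)
  have hβ0 : 0 < β := by
    by_contra h
    push Not at h
    have : 16 * (30 * (M : ℝ)) ^ 3 * β ≤ 0 := mul_nonpos_of_nonneg_of_nonpos (by positivity) h
    linarith
  set F : S3 → ℝ := fun g => ∑ α ∈ W, bump M (w α * g) with hF
  have cF : Continuous F := continuous_finsetSum W fun α _ => cb _
  have s1 : β / 2 ≤ ∫ g : S3, bump M g * φ g ∂mu3 := by
    rw [hβ, ← integral_div]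
    refine integral_mono (cont_int (by fun_prop)) (cont_int (cb1.fun_mul cφ)) fun g => ?_
    by_cases h0 : bump M g = 0
    · simp [h0]
    have h1 := bump_ne_zero h0
    have h2 := R.lip (S3.norm g) v
    have h3 : (inner ℂ v (v - R.ρ g v)).re ≤ ‖v‖ * ‖v - R.ρ g v‖ :=
      (Complex.re_le_norm _).trans (norm_inner_le_norm _ _)
    have h4 : (inner ℂ v v).re = ‖v‖ ^ 2 := inner_self_eq_norm_sq (𝕜 := ℂ) _
    rw [inner_sub_right, Complex.sub_re, h4, norm_sub_rev, hv] at h3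
    rw [hv, ← hm] at h2
    rw [hMr] at h1
    have h5 : 1 / 2 ≤ φ g := by simp only [hφ]; linarith
    have := mul_le_mul_of_nonneg_left h5 (bump_nonneg M g)
    simp only
    linarith
  have s2 : P * ∫ g : S3, bump M g * φ g ∂mu3 = ∫ g : S3, F g * φ g ∂mu3 := by
    have e1 : ∀ g : S3, P * (bump M g * φ g) = ∑ α ∈ W, bump M g * φ (star (w α) * g) := by
      intro g
      have : ∀ α ∈ W, φ (star (w α) * g) = (inner ℂ (R.ρ (w α) v) (R.ρ g v)).re := by
        intro α hα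
        simp only [hφ]
        rw [R.inner_left (hw α hα), R.mul _ _ (by rw [norm_star, hw α hα]) (S3.norm g)]
        rfl
      rw [← Finset.mul_sum, Finset.sum_congr rfl this, ← Complex.re_sum, ← sum_inner, hs,
        inner_smul_left, Complex.conj_ofReal, Complex.re_ofReal_mul]
      ring
    have cφ' : ∀ α ∈ W, Continuous fun g : S3 => φ (star (w α) * g) := by
      intro α hα
      have hn : star (w α) ∈ Metric.sphere (0 : ℍ) 1 := by simp [hw α hα]
      exact cφ.comp (continuous_const_mul (⟨star (w α), hn⟩ : S3))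
    rw [← integral_const_mul]
    simp only [e1, hF, Finset.sum_mul]
    rw [integral_finsetSum _ fun α hα => cont_int (cb1.fun_mul (cφ' α hα)),
      integral_finsetSum _ fun α hα => cont_int ((cb _).fun_mul cφ)]
    refine Finset.sum_congr rfl fun α hα => ?_
    rw [← int_left (fun g => bump M g * φ (star (w α) * g)) (hw α hα)]
    have h1 : star (w α) * w α = 1 := by
      rw [Quaternion.star_mul_self, Quaternion.normSq_eq_norm_mul_self, hw α hα]; simp
    simp only [← mul_assoc, h1, one_mul]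
  have s3 : m * ∫ g : S3, φ g ^ 2 ∂mu3 ≤ 1 := by
    have h1 := R.schur hR v v
    rw [hv, ← hm] at h1
    have c := R.cont v
    have : ∫ g : S3, φ g ^ 2 ∂mu3 ≤ ∫ g : S3, ‖inner ℂ v (R.ρ g v)‖ ^ 2 ∂mu3 := by
      refine integral_mono (cont_int (cφ.fun_pow 2)) (cont_int (by fun_prop)) fun g => ?_
      simp only [hφ]
      rw [← sq_abs]
      exact pow_le_pow_left₀ (abs_nonneg _) (Complex.abs_re_le_norm _) 2
    nlinarith
  have s4 : ∫ g : S3, F g ^ 2 ∂mu3 ≤ β * ((W ×ˢ W).filter c).card := by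
    have e : ∀ g : S3, F g ^ 2 = ∑ p ∈ W ×ˢ W, bump M (w p.1 * g) * bump M (w p.2 * g) := by
      intro g
      rw [sq, hF, Finset.sum_mul_sum, Finset.sum_product]
    simp only [e]
    rw [integral_finsetSum _ fun p _ => cont_int ((cb _).fun_mul (cb _)), Finset.card_filter,
      Nat.cast_sum, Finset.mul_sum]
    refine Finset.sum_le_sum fun p hp => ?_
    rw [Finset.mem_product] at hp
    split_ifs with h
    · rw [Nat.cast_one, mul_one, hβ, ← int_left (bump M) (hw _ hp.1)]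
      refine integral_mono (cont_int ((cb _).fun_mul (cb _))) (cont_int (cb _)) fun g => ?_
      exact mul_le_of_le_one_right (bump_nonneg _ _) (bump_le_one _ _)
    · have : ∀ g : S3, bump M (w p.1 * g) * bump M (w p.2 * g) = 0 := by
        intro g
        by_contra hne
        have a1 := bump_ne_zero (left_ne_zero_of_mul hne)
        have a2 := bump_ne_zero (right_ne_zero_of_mul hne)
        refine h (hc _ hp.1 _ hp.2 ?_)
        have a3 : ‖w p.1 - w p.2‖ ≤ ‖w p.1 * g - 1‖ + ‖w p.2 * g - 1‖ := by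
          have := norm_sub_le (w p.1 * g - 1) (w p.2 * g - 1)
          rwa [sub_sub_sub_cancel_right, ← sub_mul, norm_mul, S3.norm g, mul_one] at this
        rw [hMr] at a1 a2
        nlinarith
      simp [this]
  have s5 := int_cs cF cφ
  set n : ℝ := (((W ×ˢ W).filter c).card : ℝ)
  have n0 : 0 ≤ n := Nat.cast_nonneg _
  have t1 : P * (β / 2) ≤ ∫ g : S3, F g * φ g ∂mu3 := by rw [← s2]; gcongr
  have t2 : (P * (β / 2)) ^ 2 ≤ (β * n) * ∫ g : S3, φ g ^ 2 ∂mu3 := by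
    refine (pow_le_pow_left₀ (by positivity) t1 2).trans (s5.trans ?_)
    exact mul_le_mul_of_nonneg_right s4 (integral_nonneg fun g => sq_nonneg _)
  have t3 : m * (P * (β / 2)) ^ 2 ≤ β * n := by
    calc _ ≤ m * ((β * n) * ∫ g : S3, φ g ^ 2 ∂mu3) := by gcongr
      _ = (β * n) * (m * ∫ g : S3, φ g ^ 2 ∂mu3) := by ring
      _ ≤ (β * n) * 1 := by gcongr
      _ = _ := mul_one _
  have t4 : m * P ^ 2 * β ≤ 4 * n := by
    refine le_of_mul_le_mul_left ?_ hβ0
    nlinarith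
  rw [hMr] at hβ1
  refine le_of_mul_le_mul_left ?_ hm'
  calc m * P ^ 2 = m * P ^ 2 * 1 := by ring
    _ ≤ m * P ^ 2 * (16 * (30 * (24 * m)) ^ 3 * β) := by gcongr
    _ = 16 * (30 * (24 * m)) ^ 3 * (m * P ^ 2 * β) := by ring
    _ ≤ 16 * (30 * (24 * m)) ^ 3 * (4 * n) := by gcongr
    _ = _ := by ring

end QRep

theorem exists_large : ∃ m0 : ℕ, ∀ (V : Type) [NormedAddCommGroup V] [InnerProductSpace ℂ V]
    [FiniteDimensional ℂ V] (R : QRep V), R.Irr → ∀ (v : V) (lam : ℝ), ‖v‖ = 1 →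
    R.A v = (lam : ℂ) • v → 593 / 100 ≤ lam → Module.finrank ℂ V ≤ m0 := by
  obtain ⟨C, hC⟩ : ∃ C : ℕ, C = 64 * 720 ^ 3 * 5 ^ 32 * 7778 := ⟨_, rfl⟩
  refine ⟨(5 ^ 16) ^ (C + 1), fun V _ _ _ R hR v lam hv hA hl => ?_⟩
  set m := Module.finrank ℂ V with hm
  have hm1 : 1 ≤ m := by
    have : Nontrivial V := ⟨⟨v, 0, by rintro rfl; simp at hv⟩⟩
    exact Module.finrank_pos
  obtain ⟨j, j1, j2⟩ : ∃ j : ℕ, (5 ^ 16) ^ j ≤ m ∧ m < (5 ^ 16) ^ (j + 1) :=
    ⟨Nat.log (5 ^ 16) m, Nat.pow_log_le_self _ (by omega), Nat.lt_pow_succ_log_self (by norm_num) _⟩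
  suffices j ≤ C from j2.le.trans (Nat.pow_le_pow_right (by norm_num) (by omega))
  rcases Nat.eq_zero_or_pos j with rfl | hj
  · omega
  obtain ⟨k, hk⟩ : ∃ k, k + 1 = 34 * j := ⟨34 * j - 1, by omega⟩
  obtain ⟨W, w1, w2, P, p1, p2⟩ := R.exists_words hA hl k
  obtain ⟨t, ht⟩ : ∃ t : ℕ, t = 5 ^ j := ⟨_, rfl⟩
  have t1 : 1 ≤ t := ht ▸ Nat.one_le_pow _ _ (by norm_num)
  have t0 : (0 : ℝ) < t := by exact_mod_cast t1
  have e1 : 5 ^ (k + 1) = t ^ 34 := by rw [hk, ht, ← pow_mul, mul_comm]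
  have e1' : (5 : ℝ) ^ (k + 1) = (t : ℝ) ^ 34 := by exact_mod_cast e1
  have e2 : (5 ^ 16) ^ j = t ^ 16 := by rw [ht, ← pow_mul, ← pow_mul, mul_comm]
  rw [pow_succ, e2] at j2
  rw [e2] at j1
  have j1' : (t : ℝ) ^ 16 ≤ m := by exact_mod_cast j1
  have j2' : (m : ℝ) ≤ (t : ℝ) ^ 16 * 5 ^ 16 := by exact_mod_cast j2.le
  have pc := pairs_card t1 W fun α hα => by rw [w2 α hα]; exact_mod_cast e1
  classical
  have hP : 0 ≤ P := le_trans (by positivity) p1
  have key := R.key_ineq hR hv W (un (k + 1)) (fun α hα => norm_un (w2 α hα)) hP p2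
    (fun p => Quaternion.normSq (p.1 - p.2) ≤ (t : ℤ) ^ 2) (by
      intro α _ β _ h
      have e : un (k + 1) α - un (k + 1) β = un (k + 1) (α - β) := by
        rw [un, un, un, toR_sub, smul_sub]
      rw [e, ← hm] at h
      have h1 := norm_un_sq (k + 1) (α - β)
      rw [e1', eq_div_iff (by positivity)] at h1
      have h2 : (t : ℝ) ^ 16 * ‖un (k + 1) (α - β)‖ ≤ 1 := by
        nlinarith [norm_nonneg (un (k + 1) (α - β))]
      have h3 := pow_le_pow_left₀ (by positivity) h2 2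
      have : ((Quaternion.normSq (α - β) : ℤ) : ℝ) ≤ (t : ℝ) ^ 2 := by
        rw [← h1]
        calc _ = ((t : ℝ) ^ 16 * ‖un (k + 1) (α - β)‖) ^ 2 * (t : ℝ) ^ 2 := by ring
          _ ≤ 1 ^ 2 * (t : ℝ) ^ 2 := by gcongr
          _ = _ := by ring
      exact_mod_cast this)
  rw [← hm] at key
  have pc' : (((W ×ˢ W).filter fun p =>
      Quaternion.normSq (p.1 - p.2) ≤ (t : ℤ) ^ 2).card : ℝ) ≤ 7778 * (t : ℝ) ^ 34 := by
    have : W.card + 7776 * t ^ 34 ≤ 7778 * t ^ 34 := by rw [← e1, pow_succ] at *; omega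
    exact_mod_cast pc.trans this
  have f1 : P ^ 2 ≤ C * (t : ℝ) ^ 66 := by
    calc _ ≤ _ := key
      _ ≤ 64 * 720 ^ 3 * ((t : ℝ) ^ 16 * 5 ^ 16) ^ 2 * (7778 * (t : ℝ) ^ 34) := by gcongr
      _ = _ := by rw [hC]; push_cast; ring
  have f2 : (2 : ℝ) ^ j * (t : ℝ) ^ 66 ≤ P ^ 2 := by
    have a : (2 : ℝ) * 5 ^ 66 ≤ (49 / 10) ^ 68 := by norm_num
    calc (2 : ℝ) ^ j * (t : ℝ) ^ 66 = (2 * 5 ^ 66) ^ j := by
          rw [mul_pow, ht, Nat.cast_pow, ← pow_mul, ← pow_mul, mul_comm j]; norm_num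
      _ ≤ ((49 / 10) ^ 68) ^ j := by gcongr
      _ = ((49 / 10) ^ (k + 1)) ^ 2 := by rw [hk, ← pow_mul, ← pow_mul]; congr 1; ring
      _ ≤ P ^ 2 := by gcongr
  have f3 : (2 : ℝ) ^ j ≤ C := le_of_mul_le_mul_right (f2.trans f1) (by positivity)
  have f4 : 2 ^ j ≤ C := by exact_mod_cast f3
  exact (Nat.lt_two_pow_self.le).trans f4

end Pool.Agent.P.MP_839d28_al
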