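import Pool.Agent.P.MP_839d28_al.OneParam

/-! Differentiable unitary representations of special orthogonal groups. -/

open Matrix

namespace Pool.Agent.P.MP_839d28_al

variable {ι : Type} [Fintype ι] [DecidableEq ι]

/-- special orthogonal matrices -/
def SO (g : Matrix ι ι ℝ) : Prop := gᵀ * g = 1 ∧ g.det = 1

theorem SO.one : SO (1 : Matrix ι ι ℝ) := ⟨by simp, by simp⟩

theorem SO.mul_transpose {g : Matrix ι ι ℝ} (hg : SO g) : g * gᵀ = 1 := mul_eq_one_comm.mp hg.1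

theorem SO.mul {g h : Matrix ι ι ℝ} (hg : SO g) (hh : SO h) : SO (g * h) :=
  ⟨by rw [transpose_mul, Matrix.mul_assoc, ← Matrix.mul_assoc gᵀ, hg.1, Matrix.one_mul, hh.1],
   by rw [det_mul, hg.2, hh.2, one_mul]⟩

theorem SO.transpose {g : Matrix ι ι ℝ} (hg : SO g) : SO gᵀ :=
  ⟨by rw [transpose_transpose, hg.mul_transpose], by rw [det_transpose, hg.2]⟩

theorem SO.of_sq {h : Matrix ι ι ℝ} (hh : hᵀ * h = 1) : SO (h * h) := by
  constructor
  · rw [transpose_mul, Matrix.mul_assoc, ← Matrix.mul_assoc hᵀ h, hh, Matrix.one_mul, hh]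
  · have := congrArg det hh
    rwa [det_mul, det_transpose, det_one, ← det_mul] at this

/-- generators of circle subgroups -/
def Adm (L : Matrix ι ι ℝ) : Prop := Lᵀ = -L ∧ L * (L * L) = -L

/-- the circle subgroup generated by `L` -/
noncomputable def rot (L : Matrix ι ι ℝ) (t : ℝ) : Matrix ι ι ℝ :=
  1 + Real.sin t • L + (1 - Real.cos t) • (L * L)

theorem rot_zero (L : Matrix ι ι ℝ) : rot L 0 = 1 := by simp [rot]

theorem rot_two_pi (L : Matrix ι ι ℝ) : rot L (2 * Real.pi) = 1 := by simp [rot]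

theorem rot_add {L : Matrix ι ι ℝ} (hL : Adm L) (s t : ℝ) : rot L (s + t) = rot L s * rot L t := by
  have h1 := hL.2
  have h2 : L * L * L = -L := by rw [Matrix.mul_assoc, h1]
  have h3 : L * L * (L * L) = -(L * L) := by rw [← Matrix.mul_assoc, h2, Matrix.neg_mul]
  simp only [rot, mul_add, add_mul, smul_mul_assoc, mul_smul_comm, h1, h2, h3, one_mul, mul_one,
    Real.sin_add, Real.cos_add]
  module

theorem rot_transpose {L : Matrix ι ι ℝ} (hL : Adm L) (t : ℝ) : (rot L t)ᵀ = rot L (-t) := by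
  simp [rot, hL.1]

theorem so_rot {L : Matrix ι ι ℝ} (hL : Adm L) (t : ℝ) : SO (rot L t) := by
  have := SO.of_sq (h := rot L (t / 2)) (by
    rw [rot_transpose hL, ← rot_add hL, neg_add_cancel, rot_zero])
  rwa [← rot_add hL, add_halves] at this

theorem rot_deriv (L : Matrix ι ι ℝ) (i j : ι) :
    HasDerivAt (fun t => rot L t i j) (L i j) 0 := by
  have := ((hasDerivAt_const (0 : ℝ) ((1 : Matrix ι ι ℝ) i j)).fun_add
    ((Real.hasDerivAt_sin 0).mul_const (L i j))).fun_add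
    (((Real.hasDerivAt_cos 0).const_sub 1).mul_const ((L * L) i j))
  simpa [rot] using this

structure MatRep (ι : Type) [Fintype ι] [DecidableEq ι] (V : Type) [NormedAddCommGroup V]
    [InnerProductSpace ℂ V] where
  ρ : Matrix ι ι ℝ → V →L[ℂ] V
  one : ρ 1 = 1
  mul : ∀ g h, SO g → SO h → ρ (g * h) = ρ g * ρ h
  norm : ∀ g, SO g → ∀ v, ‖ρ g v‖ = ‖v‖
  D : Matrix ι ι ℝ → V →L[ℂ] V
  D_add : ∀ A B, D (A + B) = D A + D B
  D_smul : ∀ (c : ℝ) A, D (c • A) = (c : ℂ) • D A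
  deriv : ∀ (γ : ℝ → Matrix ι ι ℝ) (A : Matrix ι ι ℝ), (∀ t, SO (γ t)) → γ 0 = 1 →
    (∀ i j, HasDerivAt (fun t => γ t i j) (A i j) 0) →
    ∀ v, HasDerivAt (fun t => ρ (γ t) v) (D A v) 0

variable {V : Type} [NormedAddCommGroup V] [InnerProductSpace ℂ V]

namespace MatRep

variable (R : MatRep ι V)

theorem oneParam {L : Matrix ι ι ℝ} (hL : Adm L) : OneParam (fun t => R.ρ (rot L t)) (R.D L) where
  zero := by rw [rot_zero, R.one]
  add s t := by rw [rot_add hL, R.mul _ _ (so_rot hL s) (so_rot hL t)]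
  norm t v := R.norm _ (so_rot hL t) v
  deriv := R.deriv _ L (so_rot hL) (rot_zero L) (rot_deriv L)

theorem D_zero : R.D 0 = 0 := by simpa using R.D_smul 0 0

theorem D_sum {α : Type} (s : Finset α) (f : α → Matrix ι ι ℝ) :
    R.D (∑ a ∈ s, f a) = ∑ a ∈ s, R.D (f a) := by
  classical
  induction s using Finset.induction_on with
  | empty => simp [R.D_zero]
  | insert a s ha ih => rw [Finset.sum_insert ha, Finset.sum_insert ha, R.D_add, ih]

/-- displacement -/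
noncomputable def N (v : V) (g : Matrix ι ι ℝ) : ℝ := ‖R.ρ g v - v‖

theorem N_one (v : V) : R.N v 1 = 0 := by simp [N, R.one]

theorem N_nonneg (v : V) (g : Matrix ι ι ℝ) : 0 ≤ R.N v g := norm_nonneg _

theorem N_mul (v : V) {g h : Matrix ι ι ℝ} (hg : SO g) (hh : SO h) :
    R.N v (g * h) ≤ R.N v g + R.N v h := by
  simp only [N]
  rw [R.mul g h hg hh, ← R.norm g hg (R.ρ h v - v), map_sub, add_comm]
  exact norm_sub_le_norm_sub_add_norm_sub _ _ _

theorem N_transpose (v : V) {g : Matrix ι ι ℝ} (hg : SO g) : R.N v gᵀ = R.N v g := by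
  simp only [N]
  have := R.mul g gᵀ hg hg.transpose
  rw [hg.mul_transpose, R.one] at this
  have e : R.ρ g (R.ρ gᵀ v) = v := (congrArg (fun T : V →L[ℂ] V => T v) this).symm
  rw [← R.norm g hg, map_sub, e, norm_sub_rev]

theorem N_le (v : V) {g h : Matrix ι ι ℝ} (hg : SO g) (hh : SO h) :
    R.N v g ≤ R.N v h + R.N v (h * g) := by
  have := R.N_mul v hh.transpose (hh.mul hg)
  rwa [← Matrix.mul_assoc, hh.1, Matrix.one_mul, R.N_transpose v hh] at this

end MatRep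

/-- `S` is a Kazhdan set with constant `C` -/
def Kaz (S : Finset (Matrix ι ι ℝ)) (C : ℝ) : Prop :=
  ∀ (V : Type) [NormedAddCommGroup V] [InnerProductSpace ℂ V] [FiniteDimensional ℂ V]
    (R : MatRep ι V) (v : V) (ε : ℝ), 0 ≤ ε → (∀ s ∈ S, R.N v s ≤ ε) → ∀ g, SO g → R.N v g ≤ C * ε

def HasKaz (ι : Type) [Fintype ι] [DecidableEq ι] (k : ℕ) (C : ℝ) : Prop :=
  ∃ S : Finset (Matrix ι ι ℝ), S.card ≤ k ∧ (∀ s ∈ S, SO s) ∧ Kaz S C

theorem HasKaz.mono {k k' : ℕ} {C C' : ℝ} (h : HasKaz ι k C) (hk : k ≤ k') (hC : C ≤ C') :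
    HasKaz ι k' C' := by
  obtain ⟨S, h1, h2, h3⟩ := h
  exact ⟨S, h1.trans hk, h2, fun V _ _ _ R v ε hε hs g hg =>
    (h3 V R v ε hε hs g hg).trans (by gcongr)⟩

end Pool.Agent.P.MP_839d28_al
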