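import Pool.Agent.P.MP_839d28_al.Su2

/-! One parameter unitary groups. -/

open Complex

namespace Pool.Agent.P.MP_839d28_al

variable {V : Type} [NormedAddCommGroup V] [InnerProductSpace ℂ V]

structure OneParam (U : ℝ → V →L[ℂ] V) (A : V →L[ℂ] V) : Prop where
  zero : U 0 = 1
  add : ∀ s t, U (s + t) = U s * U t
  norm : ∀ t v, ‖U t v‖ = ‖v‖
  deriv : ∀ v, HasDerivAt (fun t => U t v) (A v) 0

theorem clm_hasDerivAt (T : V →L[ℂ] V) {f : ℝ → V} {f' : V} {t : ℝ} (h : HasDerivAt f f' t) :
    HasDerivAt (fun s => T (f s)) (T f') t :=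
  (T.restrictScalars ℝ).hasFDerivAt.comp_hasDerivAt t h

theorem inner_map_of_norm {T : V →L[ℂ] V} (h : ∀ v, ‖T v‖ = ‖v‖) (u v : V) :
    inner ℂ (T u) (T v) = inner ℂ u v :=
  LinearIsometry.inner_map_map ⟨(T : V →ₗ[ℂ] V), h⟩ u v

namespace OneParam

variable {U : ℝ → V →L[ℂ] V} {A : V →L[ℂ] V}

theorem hasDerivAt (h : OneParam U A) (v : V) (t : ℝ) :
    HasDerivAt (fun s => U s v) (U t (A v)) t := by
  have h1 := clm_hasDerivAt (U t) (h.deriv v)
  have h2 : HasDerivAt (fun s : ℝ => s - t) 1 t := (hasDerivAt_id t).sub_const t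
  have h1' : HasDerivAt (fun s => U t (U s v)) (U t (A v)) (t - t) := by rwa [sub_self]
  have h3 := HasDerivAt.scomp (h := fun s : ℝ => s - t) t h1' h2
  rw [one_smul] at h3
  convert h3 using 1
  ext s
  have := h.add t (s - t)
  rw [add_sub_cancel] at this
  simp [this]

theorem comm (h : OneParam U A) (v : V) (t : ℝ) : U t (A v) = A (U t v) := by
  have h1 := clm_hasDerivAt (U t) (h.deriv v)
  have h2 := h.deriv (U t v)
  refine h1.unique ?_
  convert h2 using 1
  ext s
  have e1 := h.add t s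
  have e2 := h.add s t
  rw [add_comm] at e2
  have := e1.symm.trans e2
  exact congrArg (fun T : V →L[ℂ] V => T v) this

theorem skew (h : OneParam U A) : Skew A := by
  intro u v
  have h1 := (h.deriv u).inner ℂ (h.deriv v)
  have h2 : (fun t => inner ℂ (U t u) (U t v)) = fun _ => inner ℂ u v := by
    ext t; exact inner_map_of_norm (h.norm t) u v
  rw [h2, h.zero] at h1
  have := h1.unique (hasDerivAt_const (0 : ℝ) (inner ℂ u v))
  simp only [one_apply_eq_self] at this
  linear_combination this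

theorem lip (h : OneParam U A) (v : V) (t : ℝ) : ‖U t v - v‖ ≤ |t| * ‖A v‖ := by
  have := Convex.norm_image_sub_le_of_norm_hasDerivWithin_le (𝕜 := ℝ) (s := Set.univ)
    (f := fun s => U s v) (f' := fun s => U s (A v)) (C := ‖A v‖) (x := 0) (y := t)
    (fun s _ => (h.hasDerivAt v s).hasDerivWithinAt) (fun s _ => (h.norm s _).le) convex_univ
    trivial trivial
  simpa [h.zero, mul_comm] using this

theorem fix (h : OneParam U A) {v : V} (hv : A v = 0) (t : ℝ) : U t v = v := by
  have := h.lip v t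
  rw [hv, norm_zero, mul_zero] at this
  exact sub_eq_zero.mp (norm_le_zero_iff.mp this)

theorem ker_of_fix (h : OneParam U A) {v : V} (hv : ∀ t, U t v = v) : A v = 0 := by
  have h1 := h.deriv v
  simp only [hv] at h1
  exact h1.unique (hasDerivAt_const (0 : ℝ) v)

theorem continuous (h : OneParam U A) (v : V) : Continuous fun t => U t v :=
  continuous_iff_continuousAt.mpr fun t => (h.hasDerivAt v t).continuousAt

theorem exists_near_ker [CompleteSpace V] (h : OneParam U A) (hper : U (2 * Real.pi) = 1) {v : V}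
    {δ : ℝ} (hv : ∀ t, ‖U t v - v‖ ≤ δ) : ∃ w, A w = 0 ∧ ‖v - w‖ ≤ δ := by
  have hp : 0 < 2 * Real.pi := by positivity
  have hi : IntervalIntegrable (fun t => U t v) MeasureTheory.volume 0 (2 * Real.pi) :=
    (h.continuous v).intervalIntegrable _ _
  refine ⟨((1 / (2 * Real.pi) : ℝ) : ℂ) • ∫ t in (0 : ℝ)..(2 * Real.pi), U t v, ?_, ?_⟩
  · rw [map_smul, ← A.intervalIntegral_comp_comm hi]
    simp only [← h.comm]
    rw [intervalIntegral.integral_eq_sub_of_hasDerivAt (fun t _ => h.hasDerivAt v t)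
      ((h.continuous (A v)).intervalIntegrable _ _), hper, h.zero]
    simp
  · have e : v - ((1 / (2 * Real.pi) : ℝ) : ℂ) • ∫ t in (0 : ℝ)..(2 * Real.pi), U t v =
        -(((1 / (2 * Real.pi) : ℝ) : ℂ) • ∫ t in (0 : ℝ)..(2 * Real.pi), (U t v - v)) := by
      rw [intervalIntegral.integral_sub hi intervalIntegrable_const, intervalIntegral.integral_const,
        smul_sub, sub_zero, ← Complex.coe_smul, smul_smul, ← Complex.ofReal_mul,
        one_div_mul_cancel hp.ne']
      simp
    rw [e, norm_neg, norm_smul, Complex.norm_real, Real.norm_eq_abs, abs_of_pos (by positivity)]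
    have := intervalIntegral.norm_integral_le_of_norm_le_const (a := 0) (b := 2 * Real.pi)
      (f := fun t => U t v - v) (C := δ) (fun t _ => hv t)
    rw [sub_zero, abs_of_pos hp] at this
    calc _ ≤ 1 / (2 * Real.pi) * (δ * (2 * Real.pi)) := by gcongr
      _ = δ := by field_simp

end OneParam

end Pool.Agent.P.MP_839d28_al
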