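import Pool.Agent.P.MP_839d28_al.SO3

/-! Real Pauli matrices. -/

open Matrix
open scoped Quaternion

set_option linter.unusedSectionVars false

namespace Pool.Agent.P.MP_839d28_al

section General

variable {ι : Type} [Fintype ι] [DecidableEq ι]

theorem adm_of_sq {A : Matrix ι ι ℝ} (h1 : Aᵀ = -A) (h2 : A * A = -1) : Adm A :=
  ⟨h1, by rw [h2]; simp⟩

/-- the quaternion homomorphism given by two anticommuting complex structures -/
def qmap (A B : Matrix ι ι ℝ) (q : ℍ) : Matrix ι ι ℝ :=
  q.re • 1 + q.imI • A + q.imJ • B + q.imK • (A * B)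

theorem qhom_qmap {A B : Matrix ι ι ℝ} (a1 : Aᵀ = -A) (a2 : A * A = -1) (b1 : Bᵀ = -B)
    (b2 : B * B = -1) (ab : B * A = -(A * B)) : QHom (qmap A B) A B (A * B) where
  one := by simp [qmap]
  mul p q := by
    have e1 : A * (A * B) = -B := by rw [← mul_assoc, a2]; simp
    have e2 : A * B * B = -A := by rw [mul_assoc, b2]; simp
    have e3 : B * (A * B) = A := by rw [← mul_assoc, ab, neg_mul, e2, neg_neg]
    have e4 : A * B * A = B := by rw [mul_assoc, ab, mul_neg, e1, neg_neg]
    have e5 : A * B * (A * B) = -1 := by rw [← mul_assoc, e4, b2]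
    simp only [qmap, mul_add, add_mul, smul_mul_assoc, mul_smul_comm, one_mul, mul_one, a2, b2, ab,
      e1, e2, e3, e4, e5, Quaternion.re_mul, Quaternion.imI_mul, Quaternion.imJ_mul,
      Quaternion.imK_mul]
    module
  star q := by
    simp [qmap, a1, b1, ab]
  deriv u _ i j := by
    have key : ∀ t, qmap A B (circ u t) i j = Real.cos t * (1 : Matrix ι ι ℝ) i j +
        Real.sin t * (u.imI • A + u.imJ • B + u.imK • (A * B)) i j := by
      intro t
      simp [qmap]
      ring
    simp only [key]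
    simpa using ((Real.hasDerivAt_cos 0).mul_const ((1 : Matrix ι ι ℝ) i j)).fun_add
      ((Real.hasDerivAt_sin 0).mul_const ((u.imI • A + u.imJ • B + u.imK • (A * B)) i j))

theorem qmap_circ {A : Matrix ι ι ℝ} (B : Matrix ι ι ℝ) (a2 : A * A = -1) (t : ℝ) :
    qmap A B (circ qi t) = rot A t := by
  simp [qmap, rot, a2]
  module

variable {V : Type} [NormedAddCommGroup V] [InnerProductSpace ℂ V]

theorem MatRep.D_comm (R : MatRep ι V) {A B : Matrix ι ι ℝ} (hA : Adm A) (hB : Adm B)
    (hc : Commute A B) (v : V) : R.D A (R.D B v) = R.D B (R.D A v) := by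
  have c : ∀ s t, rot A s * rot B t = rot B t * rot A s := by
    intro s t
    have h1 : Commute A (rot B t) :=
      ((Commute.one_right A).add_right (hc.smul_right _)).add_right
        ((hc.mul_right hc).smul_right _)
    exact ((Commute.one_left _).add_left (h1.smul_left _)).add_left ((h1.mul_left h1).smul_left _)
  have h1 : ∀ s, R.ρ (rot A s) (R.D B v) = R.D B (R.ρ (rot A s) v) := by
    intro s
    refine (clm_hasDerivAt (R.ρ (rot A s)) ((R.oneParam hB).deriv v)).unique ?_
    convert (R.oneParam hB).deriv (R.ρ (rot A s) v) using 1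
    ext t
    have e1 := R.mul _ _ (so_rot hA s) (so_rot hB t)
    rw [c, R.mul _ _ (so_rot hB t) (so_rot hA s)] at e1
    exact (congrArg (fun T : V →L[ℂ] V => T v) e1).symm
  have h2 := (R.oneParam hA).deriv (R.D B v)
  simp only [h1] at h2
  exact h2.unique (clm_hasDerivAt (R.D B) ((R.oneParam hA).deriv v))

end General

/-- sign character -/
def chi (t : ZMod 2) : ℝ := if t = 0 then 1 else -1

theorem zmod2_cases : ∀ t : ZMod 2, t = 0 ∨ t = 1 := by decide

@[simp] theorem chi_zero : chi 0 = 1 := by simp [chi]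
@[simp] theorem chi_one : chi 1 = -1 := by simp [chi]

theorem chi_add (a b : ZMod 2) : chi (a + b) = chi a * chi b := by
  have : (1 + 1 : ZMod 2) = 0 := by decide
  rcases zmod2_cases a with rfl | rfl <;> rcases zmod2_cases b with rfl | rfl <;> simp [this]

theorem chi_ne_zero (a : ZMod 2) : chi a ≠ 0 := by
  rcases zmod2_cases a with rfl | rfl <;> simp

variable {W : Type} [AddCommGroup W] [Fintype W] [DecidableEq W]

/-- nondegenerate symmetric bilinear form over the field with two elements -/
structure Form (dot : W → W → ZMod 2) : Prop where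
  two : ∀ w : W, w + w = 0
  symm : ∀ x y, dot x y = dot y x
  add : ∀ x y z, dot x (y + z) = dot x y + dot x z
  nondeg : ∀ x, x ≠ 0 → ∃ z, dot x z = 1

/-- Pauli matrices -/
def pl (dot : W → W → ZMod 2) (p : W × W) : Matrix W W ℝ :=
  of fun u w => if u = w + p.1 then chi (dot p.2 w) else 0

/-- matrix of a map -/
def pm (σ : W → W) : Matrix W W ℝ := of fun u w => if u = σ w then 1 else 0

theorem mul_pm (A : Matrix W W ℝ) (σ : W → W) (u w : W) : (A * pm σ) u w = A u (σ w) := by
  simp [mul_apply, pm]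

theorem pm_comp (σ τ : W → W) : pm (σ ∘ τ) = pm σ * pm τ := by
  ext u w
  rw [mul_pm]
  rfl

theorem pm_id : pm (id : W → W) = 1 := by
  ext u w
  simp [pm, one_apply]

theorem pm_transpose {σ : W → W} (h : Function.Involutive σ) : (pm σ)ᵀ = pm σ := by
  ext u w
  simp only [pm, transpose_apply, of_apply]
  refine if_congr ⟨?_, ?_⟩ rfl rfl <;> rintro rfl <;> exact (h _).symm

theorem pm_sq {σ : W → W} (h : Function.Involutive σ) : pm σ * pm σ = 1 := by
  rw [← pm_comp, h.comp_self, pm_id]

theorem mul_pl (dot : W → W → ZMod 2) (A : Matrix W W ℝ) (p : W × W) (u w : W) :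
    (A * pl dot p) u w = A u (w + p.1) * chi (dot p.2 w) := by
  simp [mul_apply, pl]

namespace Form

variable {dot : W → W → ZMod 2}

theorem add_left (h : Form dot) (x y z : W) : dot (x + y) z = dot x z + dot y z := by
  rw [h.symm, h.add, h.symm z, h.symm z]

theorem zero_right (h : Form dot) (x : W) : dot x 0 = 0 := by
  have := h.add x 0 0
  rw [add_zero] at this
  exact left_eq_add.mp this

theorem zero_left (h : Form dot) (x : W) : dot 0 x = 0 := by rw [h.symm, h.zero_right]

theorem sum_chi (h : Form dot) (x : W) :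
    ∑ z, chi (dot x z) = if x = 0 then (Fintype.card W : ℝ) else 0 := by
  split_ifs with hx
  · simp [hx, h.zero_left]
  · obtain ⟨z0, hz⟩ := h.nondeg x hx
    have := Equiv.sum_comp (Equiv.addRight z0) fun z => chi (dot x z)
    simp only [Equiv.coe_addRight, h.add, chi_add, hz, chi_one, mul_neg, mul_one,
      Finset.sum_neg_distrib] at this
    linarith

theorem pl_mul (h : Form dot) (p q : W × W) :
    pl dot p * pl dot q = chi (dot p.2 q.1) • pl dot (p + q) := by
  ext u w
  rw [mul_pl]
  simp only [pl, of_apply, Matrix.smul_apply, Prod.fst_add, Prod.snd_add, h.add, h.add_left,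
    chi_add, smul_eq_mul]
  rw [add_assoc, add_comm q.1]
  split_ifs <;> ring

theorem pl_zero (h : Form dot) : pl dot 0 = 1 := by
  ext u w
  simp [pl, h.zero_left, one_apply]

theorem pl_sq (h : Form dot) {p : W × W} (hp : dot p.2 p.1 = 1) : pl dot p * pl dot p = -1 := by
  have : p + p = 0 := Prod.ext (h.two _) (h.two _)
  rw [h.pl_mul, hp, this, h.pl_zero]
  simp

theorem pl_transpose (h : Form dot) {p : W × W} (hp : dot p.2 p.1 = 1) :
    (pl dot p)ᵀ = -pl dot p := by
  ext u w
  simp only [pl, transpose_apply, of_apply, Matrix.neg_apply]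
  by_cases hu : u = w + p.1
  · rw [if_pos hu, if_pos (by rw [hu, add_assoc, h.two, add_zero]), hu, h.add, chi_add, hp]
    simp
  · rw [if_neg hu, if_neg (by rintro rfl; exact hu (by rw [add_assoc, h.two, add_zero]))]
    simp

theorem adm (h : Form dot) {p : W × W} (hp : dot p.2 p.1 = 1) : Adm (pl dot p) :=
  adm_of_sq (h.pl_transpose hp) (h.pl_sq hp)

theorem anti (h : Form dot) {p q : W × W} (hpq : dot p.2 q.1 + dot q.2 p.1 = 1) :
    pl dot q * pl dot p = -(pl dot p * pl dot q) := by
  have := chi_add (dot p.2 q.1) (dot q.2 p.1)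
  rw [hpq, chi_one] at this
  rw [h.pl_mul, h.pl_mul, add_comm q, ← neg_smul]
  congr 1
  rcases zmod2_cases (dot p.2 q.1) with e | e <;> rw [e] at this ⊢ <;> simp at this ⊢ <;> linarith

theorem commute (h : Form dot) {p q : W × W} (hpq : dot p.2 q.1 + dot q.2 p.1 ≠ 1) :
    Commute (pl dot p) (pl dot q) := by
  have : ∀ a b : ZMod 2, a + b ≠ 1 → a = b := by decide
  rw [Commute, SemiconjBy, h.pl_mul, h.pl_mul, add_comm q, this _ _ hpq]

theorem qhom (h : Form dot) {p q : W × W} (hp : dot p.2 p.1 = 1) (hq : dot q.2 q.1 = 1)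
    (hpq : dot p.2 q.1 + dot q.2 p.1 = 1) :
    QHom (qmap (pl dot p) (pl dot q)) (pl dot p) (pl dot q) (pl dot p * pl dot q) :=
  qhom_qmap (h.pl_transpose hp) (h.pl_sq hp) (h.pl_transpose hq) (h.pl_sq hq) (h.anti hpq)

theorem single_eq (h : Form dot) (a b : W) : (Fintype.card W : ℝ) • single a b (1 : ℝ) =
    ∑ z, chi (dot z b) • pl dot (a + b, z) := by
  ext u w
  simp only [Matrix.sum_apply, Matrix.smul_apply, pl, of_apply, smul_eq_mul, mul_ite, mul_zero,
    ← chi_add, ← h.add, single_apply, mul_one]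
  have e : b + w = 0 ↔ b = w := by
    constructor
    · intro e; rw [← add_zero b, ← h.two w, ← add_assoc, e, zero_add]
    · rintro rfl; exact h.two _
  by_cases hu : u = w + (a + b)
  · simp only [hu, if_true, h.symm _ (b + w), h.sum_chi, e]
    refine if_congr ⟨fun hh => hh.2, ?_⟩ rfl rfl
    rintro rfl
    rw [add_comm a, ← add_assoc, h.two, zero_add]
    simp
  · simp only [hu, if_false, Finset.sum_const_zero]
    rw [if_neg]
    rintro ⟨rfl, rfl⟩
    exact hu (by rw [add_comm a, ← add_assoc, h.two, zero_add])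

theorem giv_eq (h : Form dot) (a b : W) : giv a b =
    ∑ z, ((Fintype.card W : ℝ)⁻¹ * (chi (dot z b) - chi (dot z a))) • pl dot (a + b, z) := by
  have hc : (Fintype.card W : ℝ) ≠ 0 := by exact_mod_cast Fintype.card_ne_zero
  simp only [mul_smul, sub_smul, ← Finset.smul_sum, Finset.sum_sub_distrib]
  rw [← h.single_eq, add_comm a, ← h.single_eq, ← smul_sub, smul_smul, inv_mul_cancel₀ hc,
    one_smul, giv]

theorem count (h : Form dot) {p : W × W} (hp : dot p.2 p.1 = 1) :
    4 * (((Finset.univ.filter fun q : W × W => dot q.2 q.1 = 1).filter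
      fun q => dot p.2 q.1 + dot q.2 p.1 = 1).card : ℝ) =
      (Fintype.card W : ℝ) ^ 2 - 2 * Fintype.card W := by
  have p1 : p.1 ≠ 0 := by
    intro e; rw [e, h.zero_right] at hp; exact zero_ne_one hp
  have s1 : ∑ q : W × W, chi (dot q.2 q.1) = Fintype.card W := by
    rw [Fintype.sum_prod_type_right]
    simp [h.sum_chi]
  have s2 : ∑ q : W × W, chi (dot p.2 q.1 + dot q.2 p.1) = 0 := by
    rw [Fintype.sum_prod_type]
    simp [chi_add, ← Finset.mul_sum, h.symm _ p.1, h.sum_chi, p1]
  have s3 : ∑ q : W × W, chi (dot q.2 q.1) * chi (dot p.2 q.1 + dot q.2 p.1) =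
      -Fintype.card W := by
    rw [← s1, ← Equiv.sum_comp (Equiv.addRight p) fun q : W × W => chi (dot q.2 q.1),
      ← Finset.sum_neg_distrib]
    refine Finset.sum_congr rfl fun q _ => ?_
    simp only [Equiv.coe_addRight, Prod.fst_add, Prod.snd_add, h.add, h.add_left, chi_add, hp,
      chi_one]
    ring
  have e : ∀ q : W × W, 4 * ((if dot q.2 q.1 = 1 ∧ dot p.2 q.1 + dot q.2 p.1 = 1 then 1 else 0 :
      ℕ) : ℝ) = 1 - chi (dot q.2 q.1) - chi (dot p.2 q.1 + dot q.2 p.1) +
        chi (dot q.2 q.1) * chi (dot p.2 q.1 + dot q.2 p.1) := by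
    intro q
    rcases zmod2_cases (dot q.2 q.1) with e1 | e1 <;>
      rcases zmod2_cases (dot p.2 q.1 + dot q.2 p.1) with e2 | e2 <;> simp [e1, e2] <;> norm_num
  rw [Finset.filter_filter, Finset.card_filter, Nat.cast_sum, Finset.mul_sum]
  simp only [e, Finset.sum_add_distrib, Finset.sum_sub_distrib, s1, s2, s3]
  simp
  ring

end Form

end Pool.Agent.P.MP_839d28_al
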