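import Pool.Agent.P.MP_839d28_al.Su2

/-! Projections onto the orthogonal complement of kernels. -/

open Complex

namespace Pool.Agent.P.MP_839d28_al

variable {V : Type} [NormedAddCommGroup V] [InnerProductSpace ℂ V] [FiniteDimensional ℂ V]

/-- projection onto the kernel -/
noncomputable def kp (A : V →L[ℂ] V) : V →L[ℂ] V := A.ker.starProjection

/-- projection onto the orthogonal complement of the kernel -/
noncomputable def kq (A : V →L[ℂ] V) : V →L[ℂ] V := 1 - kp A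

theorem kq_apply (A : V →L[ℂ] V) (v : V) : kq A v = v - kp A v := rfl

theorem kp_ker (A : V →L[ℂ] V) (v : V) : A (kp A v) = 0 := A.ker.starProjection_apply_mem v

theorem kq_orth (A : V →L[ℂ] V) (v : V) {w : V} (hw : A w = 0) : inner ℂ w (kq A v) = 0 :=
  (A.ker.sub_starProjection_mem_orthogonal v) w hw

theorem kp_of_ker (A : V →L[ℂ] V) {w : V} (hw : A w = 0) : kp A w = w :=
  Submodule.starProjection_eq_self_iff.mpr hw

theorem kq_of_ker (A : V →L[ℂ] V) {w : V} (hw : A w = 0) : kq A w = 0 := by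
  rw [kq_apply, kp_of_ker A hw, sub_self]

theorem kp_symm (A : V →L[ℂ] V) (u v : V) : inner ℂ (kp A u) v = inner ℂ u (kp A v) :=
  A.ker.inner_starProjection_left_eq_right u v

theorem kq_symm (A : V →L[ℂ] V) (u v : V) : inner ℂ (kq A u) v = inner ℂ u (kq A v) := by
  rw [kq_apply, kq_apply, inner_sub_left, inner_sub_right, kp_symm]

theorem kq_norm_le (A : V →L[ℂ] V) (v : V) : ‖kq A v‖ ≤ ‖v‖ := by
  have := (A.ker)ᗮ.norm_starProjection_apply_le v
  rwa [Submodule.starProjection_orthogonal_val] at this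

theorem kq_le (A : V →L[ℂ] V) (v : V) {w : V} (hw : A w = 0) : ‖kq A v‖ ≤ ‖v - w‖ := by
  have := kq_norm_le A (v - w)
  rwa [map_sub, kq_of_ker A hw, sub_zero] at this

theorem pyth (A : V →L[ℂ] V) (v : V) : ‖v‖ ^ 2 = ‖kp A v‖ ^ 2 + ‖kq A v‖ ^ 2 := by
  rw [← Su2.norm_add_sq_orth (kq_orth A v (kp_ker A v)), kq_apply]
  simp

theorem kp_inner (A : V →L[ℂ] V) (v : V) : (inner ℂ (kp A v) v).re = ‖kp A v‖ ^ 2 := by
  have h : inner ℂ (kp A v) v = inner ℂ (kp A v) (kp A v) + inner ℂ (kp A v) (kq A v) := by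
    rw [← inner_add_right, kq_apply]; simp
  rw [h, kq_orth A v (kp_ker A v), add_zero]
  exact inner_self_eq_norm_sq (𝕜 := ℂ) _

theorem kq_inner (A : V →L[ℂ] V) (v : V) : (inner ℂ (kq A v) v).re = ‖kq A v‖ ^ 2 := by
  have h1 := pyth A v
  have h2 := kp_inner A v
  have h3 : (inner ℂ v v).re = ‖v‖ ^ 2 := inner_self_eq_norm_sq (𝕜 := ℂ) _
  rw [kq_apply, inner_sub_left, Complex.sub_re, ← kq_apply]
  linarith

theorem eq_zero_of_kq {A : V →L[ℂ] V} {v : V} (h : kq A v = 0) : A v = 0 := by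
  rw [kq_apply, sub_eq_zero] at h
  rw [h]; exact kp_ker A v

theorem comm_nonneg {A B : V →L[ℂ] V} (hA : Skew A) (hc : ∀ v, A (B v) = B (A v)) (v : V) :
    0 ≤ (inner ℂ (kq A v) (kq B v)).re := by
  have h1 : ∀ a, A a = 0 → A (kp B a) = 0 := by
    intro a ha
    have e1 : B (A (kp B a)) = 0 := by rw [← hc, kp_ker, map_zero]
    have e2 : inner ℂ (A (kp B a)) (A (kq B a)) = 0 := by
      have := hA (A (kp B a)) (kq B a)
      rw [kq_orth B a (by rw [← hc, e1, map_zero])] at this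
      exact neg_eq_zero.mp this.symm
    have e3 : A (kq B a) = -A (kp B a) := by rw [kq_apply, map_sub, ha, zero_sub]
    rw [e3, inner_neg_right, neg_eq_zero, inner_self_eq_zero] at e2
    exact e2
  have h2 : A (kq B (kp A v)) = 0 := by
    rw [kq_apply, map_sub, kp_ker, h1 _ (kp_ker A v), sub_zero]
  have h3 : kq B v = kq B (kq A v) + kq B (kp A v) := by
    rw [← map_add, kq_apply A]; simp
  have h4 : inner ℂ (kq A v) (kq B (kp A v)) = 0 := by
    rw [← inner_conj_symm, kq_orth A v h2, map_zero]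
  rw [h3, inner_add_right, h4, add_zero, Su2.re_inner_comm, kq_inner]
  positivity

variable {X Y Z : V →L[ℂ] V}

theorem Su2.lower (h : Su2 X Y Z) {v : V}
    (hv : ∀ w, X w = 0 → Y w = 0 → Z w = 0 → inner ℂ w v = 0) :
    11 / 10 * ‖v‖ ^ 2 ≤ ‖kq X v‖ ^ 2 + ‖kq Y v‖ ^ 2 + ‖kq Z v‖ ^ 2 := by
  have o : ∀ A : V →L[ℂ] V, (∀ w, X w = 0 → Y w = 0 → Z w = 0 → A w = 0) →
      ∀ w, X w = 0 → Y w = 0 → Z w = 0 → inner ℂ w (kp A v) = 0 := by
    intro A hA w h1 h2 h3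
    rw [← kp_symm, kp_of_ker A (hA w h1 h2 h3), hv w h1 h2 h3]
  have hl := h.local_bound (kp_ker X v) (kp_ker Y v) (kp_ker Z v) (o X fun _ h _ _ => h)
    (o Y fun _ _ h _ => h) (o Z fun _ _ _ h => h)
  have e : (inner ℂ (kp X v + kp Y v + kp Z v) v).re =
      ‖kp X v‖ ^ 2 + ‖kp Y v‖ ^ 2 + ‖kp Z v‖ ^ 2 := by
    simp only [inner_add_left, Complex.add_re, kp_inner]
  have cs : (inner ℂ (kp X v + kp Y v + kp Z v) v).re ≤ ‖kp X v + kp Y v + kp Z v‖ * ‖v‖ :=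
    (Complex.re_le_norm _).trans (norm_inner_le_norm _ _)
  rw [e] at cs
  have p1 := pyth X v
  have p2 := pyth Y v
  have p3 := pyth Z v
  set σ := ‖kp X v‖ ^ 2 + ‖kp Y v‖ ^ 2 + ‖kp Z v‖ ^ 2
  set s := ‖kp X v + kp Y v + kp Z v‖
  have : σ ≤ 19 / 10 * ‖v‖ ^ 2 := by nlinarith [sq_nonneg (s - 19 / 10 * ‖v‖)]
  linarith

theorem Su2.sq_lower (h : Su2 X Y Z) (v : V) :
    11 / 10 * (‖kq X v‖ ^ 2 + ‖kq Y v‖ ^ 2 + ‖kq Z v‖ ^ 2) ≤ ‖kq X v + kq Y v + kq Z v‖ ^ 2 := by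
  let K : Submodule ℂ V := X.ker ⊓ Y.ker ⊓ Z.ker
  set v' := v - K.starProjection v with hv'
  have hK := K.starProjection_apply_mem v
  have e : ∀ A : V →L[ℂ] V, A (K.starProjection v) = 0 → kq A v = kq A v' := by
    intro A hA
    rw [hv', map_sub, kq_of_ker A hA, sub_zero]
  rw [e X hK.1.1, e Y hK.1.2, e Z hK.2]
  have hl := h.lower (v := v') fun w h1 h2 h3 =>
    K.sub_starProjection_mem_orthogonal v w ⟨⟨h1, h2⟩, h3⟩
  have e : (inner ℂ (kq X v' + kq Y v' + kq Z v') v').re =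
      ‖kq X v'‖ ^ 2 + ‖kq Y v'‖ ^ 2 + ‖kq Z v'‖ ^ 2 := by
    simp only [inner_add_left, Complex.add_re, kq_inner]
  have cs : (inner ℂ (kq X v' + kq Y v' + kq Z v') v').re ≤
      ‖kq X v' + kq Y v' + kq Z v'‖ * ‖v'‖ :=
    (Complex.re_le_norm _).trans (norm_inner_le_norm _ _)
  rw [e] at cs
  set σ := ‖kq X v'‖ ^ 2 + ‖kq Y v'‖ ^ 2 + ‖kq Z v'‖ ^ 2
  set s := ‖kq X v' + kq Y v' + kq Z v'‖
  nlinarith [sq_nonneg (s - 11 / 10 * ‖v'‖)]

end Pool.Agent.P.MP_839d28_al
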