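import Pool.Agent.P.MP_839d28_al.OneParam
import Pool.Agent.P.MP_839d28_al.Proj

/-! Differentiable unitary representations of the unit quaternions. -/

open Complex
open scoped Quaternion

namespace Pool.Agent.P.MP_839d28_al

/-- the circle `cos t + sin t u` -/
noncomputable def circ (u : ℍ) (t : ℝ) : ℍ :=
  ⟨Real.cos t, Real.sin t * u.imI, Real.sin t * u.imJ, Real.sin t * u.imK⟩

def qi : ℍ := ⟨0, 1, 0, 0⟩
def qj : ℍ := ⟨0, 0, 1, 0⟩
def qk : ℍ := ⟨0, 0, 0, 1⟩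

@[simp] theorem circ_re (u : ℍ) (t : ℝ) : (circ u t).re = Real.cos t := rfl
@[simp] theorem circ_imI (u : ℍ) (t : ℝ) : (circ u t).imI = Real.sin t * u.imI := rfl
@[simp] theorem circ_imJ (u : ℍ) (t : ℝ) : (circ u t).imJ = Real.sin t * u.imJ := rfl
@[simp] theorem circ_imK (u : ℍ) (t : ℝ) : (circ u t).imK = Real.sin t * u.imK := rfl
@[simp] theorem qi_re : qi.re = 0 := rfl
@[simp] theorem qi_imI : qi.imI = 1 := rfl
@[simp] theorem qi_imJ : qi.imJ = 0 := rfl
@[simp] theorem qi_imK : qi.imK = 0 := rfl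
@[simp] theorem qj_re : qj.re = 0 := rfl
@[simp] theorem qj_imI : qj.imI = 0 := rfl
@[simp] theorem qj_imJ : qj.imJ = 1 := rfl
@[simp] theorem qj_imK : qj.imK = 0 := rfl
@[simp] theorem qk_re : qk.re = 0 := rfl
@[simp] theorem qk_imI : qk.imI = 0 := rfl
@[simp] theorem qk_imJ : qk.imJ = 0 := rfl
@[simp] theorem qk_imK : qk.imK = 1 := rfl

theorem qnorm_sq (q : ℍ) : ‖q‖ ^ 2 = q.re ^ 2 + q.imI ^ 2 + q.imJ ^ 2 + q.imK ^ 2 := by
  rw [sq, ← Quaternion.normSq_eq_norm_mul_self, Quaternion.normSq_def']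

theorem qnorm_eq_one {q : ℍ} : ‖q‖ = 1 ↔ q.re ^ 2 + q.imI ^ 2 + q.imJ ^ 2 + q.imK ^ 2 = 1 := by
  rw [← qnorm_sq]
  exact (pow_eq_one_iff_of_nonneg (norm_nonneg q) two_ne_zero).symm

/-- unit pure quaternions -/
def Pure (u : ℍ) : Prop := u.re = 0 ∧ u.imI ^ 2 + u.imJ ^ 2 + u.imK ^ 2 = 1

theorem pure_qi : Pure qi := by simp [Pure]
theorem pure_qj : Pure qj := by simp [Pure]
theorem pure_qk : Pure qk := by simp [Pure]

theorem norm_circ {u : ℍ} (hu : Pure u) (t : ℝ) : ‖circ u t‖ = 1 := by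
  rw [qnorm_eq_one]
  simp only [circ]
  linear_combination (Real.sin t) ^ 2 * hu.2 + Real.cos_sq_add_sin_sq t

theorem circ_zero (u : ℍ) : circ u 0 = 1 := by ext <;> simp

theorem circ_two_pi (u : ℍ) : circ u (2 * Real.pi) = 1 := by ext <;> simp

theorem circ_add {u : ℍ} (hu : Pure u) (s t : ℝ) : circ u (s + t) = circ u s * circ u t := by
  ext
  · simp only [circ_re, circ_imI, circ_imJ, circ_imK, Quaternion.re_mul, Real.cos_add]
    linear_combination Real.sin s * Real.sin t * hu.2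
  · simp only [circ_re, circ_imI, circ_imJ, circ_imK, Quaternion.imI_mul, Real.sin_add]; ring
  · simp only [circ_re, circ_imI, circ_imJ, circ_imK, Quaternion.imJ_mul, Real.sin_add]; ring
  · simp only [circ_re, circ_imI, circ_imJ, circ_imK, Quaternion.imK_mul, Real.sin_add]; ring

theorem pure_conj {g u : ℍ} (hg : ‖g‖ = 1) (hu : Pure u) : Pure (g * u * star g) := by
  have h1 : (g * u * star g).re = 0 := by
    simp only [Quaternion.re_mul, Quaternion.imI_mul, Quaternion.imJ_mul, Quaternion.imK_mul,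
      Quaternion.re_star, Quaternion.imI_star, Quaternion.imJ_star, Quaternion.imK_star, hu.1]
    ring
  have h2 : ‖u‖ = 1 := by rw [qnorm_eq_one, hu.1]; linear_combination hu.2
  have h3 : ‖g * u * star g‖ = 1 := by rw [norm_mul, norm_mul, norm_star, hg, h2]; simp
  rw [qnorm_eq_one, h1] at h3
  exact ⟨h1, by linear_combination h3⟩

theorem mul_circ {g u : ℍ} (hg : ‖g‖ = 1) (hu : Pure u) (t : ℝ) :
    g * circ u t = circ (g * u * star g) t * g := by
  have e : ∀ w : ℍ, w.re = 0 → circ w t = (Real.cos t : ℍ) + Real.sin t • w := by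
    intro w hw
    ext <;> simp [hw]
  have h1 : star g * g = 1 := by
    rw [Quaternion.star_mul_self, Quaternion.normSq_eq_norm_mul_self, hg]; simp
  rw [e u hu.1, e _ (pure_conj hg hu).1, mul_add, add_mul, smul_mul_assoc, mul_assoc, h1,
    mul_one, mul_smul_comm, Quaternion.coe_commutes]

theorem exists_circ {q : ℍ} (hq : ‖q‖ = 1) :
    ∃ u t, Pure u ∧ q = circ u t ∧ |t| ≤ 2 * ‖q - 1‖ := by
  have h := qnorm_eq_one.mp hq
  have h1 : -1 ≤ q.re := by nlinarith [sq_nonneg q.imI, sq_nonneg q.imJ, sq_nonneg q.imK]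
  have h2 : q.re ≤ 1 := by nlinarith [sq_nonneg q.imI, sq_nonneg q.imJ, sq_nonneg q.imK]
  set t := Real.arccos q.re with ht
  have hc : Real.cos t = q.re := Real.cos_arccos h1 h2
  have hs : Real.sin t ^ 2 = q.imI ^ 2 + q.imJ ^ 2 + q.imK ^ 2 := by
    rw [Real.sin_sq, hc]; linarith
  have hb : |t| ≤ 2 * ‖q - 1‖ := by
    have a1 : |t| ≤ Real.pi := by
      rw [abs_of_nonneg (Real.arccos_nonneg _)]; exact Real.arccos_le_pi _
    have a2 := Real.cos_le_one_sub_mul_cos_sq a1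
    have a3 : ‖q - 1‖ ^ 2 = 2 - 2 * q.re := by
      rw [qnorm_sq]; simp; linarith
    have a4 : Real.pi ^ 2 ≤ 16 := by nlinarith [Real.pi_le_four, Real.pi_pos]
    have a5 : 2 / 16 * t ^ 2 ≤ 2 / Real.pi ^ 2 * t ^ 2 := by gcongr
    refine (pow_le_pow_iff_left₀ (by positivity) (by positivity) two_ne_zero).mp ?_
    rw [sq_abs, mul_pow, a3]
    linarith
  by_cases h0 : Real.sin t = 0
  · refine ⟨qi, t, pure_qi, ?_, hb⟩
    rw [h0] at hs
    have i0 : q.imI = 0 := by nlinarith [sq_nonneg q.imI, sq_nonneg q.imJ, sq_nonneg q.imK]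
    have j0 : q.imJ = 0 := by nlinarith [sq_nonneg q.imI, sq_nonneg q.imJ, sq_nonneg q.imK]
    have k0 : q.imK = 0 := by nlinarith [sq_nonneg q.imI, sq_nonneg q.imJ, sq_nonneg q.imK]
    ext <;> simp [hc, h0, i0, j0, k0]
  · refine ⟨⟨0, q.imI / Real.sin t, q.imJ / Real.sin t, q.imK / Real.sin t⟩, t, ⟨rfl, ?_⟩, ?_, hb⟩
    · simp only
      field_simp
      linarith
    · ext <;> simp only [circ, hc] <;> field_simp

structure QRep (V : Type) [NormedAddCommGroup V] [InnerProductSpace ℂ V] where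
  ρ : ℍ → V →L[ℂ] V
  one : ρ 1 = 1
  mul : ∀ p q, ‖p‖ = 1 → ‖q‖ = 1 → ρ (p * q) = ρ p * ρ q
  norm : ∀ q, ‖q‖ = 1 → ∀ v, ‖ρ q v‖ = ‖v‖
  X : V →L[ℂ] V
  Y : V →L[ℂ] V
  Z : V →L[ℂ] V
  deriv : ∀ u, Pure u → ∀ v, HasDerivAt (fun t => ρ (circ u t) v)
    ((u.imI : ℂ) • X v + (u.imJ : ℂ) • Y v + (u.imK : ℂ) • Z v) 0

variable {V : Type} [NormedAddCommGroup V] [InnerProductSpace ℂ V]

namespace QRep

variable (R : QRep V)

noncomputable def D (u : ℍ) : V →L[ℂ] V :=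
  (u.imI : ℂ) • R.X + (u.imJ : ℂ) • R.Y + (u.imK : ℂ) • R.Z

theorem D_apply (u : ℍ) (v : V) :
    R.D u v = (u.imI : ℂ) • R.X v + (u.imJ : ℂ) • R.Y v + (u.imK : ℂ) • R.Z v := rfl

theorem D_qi : R.D qi = R.X := by simp [D]
theorem D_qj : R.D qj = R.Y := by simp [D]
theorem D_qk : R.D qk = R.Z := by simp [D]

theorem oneParam {u : ℍ} (hu : Pure u) : OneParam (fun t => R.ρ (circ u t)) (R.D u) where
  zero := by rw [circ_zero, R.one]
  add s t := by rw [circ_add hu, R.mul _ _ (norm_circ hu s) (norm_circ hu t)]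
  norm t v := R.norm _ (norm_circ hu t) v
  deriv v := R.deriv u hu v

theorem conj {g u : ℍ} (hg : ‖g‖ = 1) (hu : Pure u) (v : V) :
    R.ρ g (R.D u v) = R.D (g * u * star g) (R.ρ g v) := by
  have h1 := clm_hasDerivAt (R.ρ g) ((R.oneParam hu).deriv v)
  have h2 := (R.oneParam (pure_conj hg hu)).deriv (R.ρ g v)
  refine h1.unique ?_
  convert h2 using 1
  ext t
  have e1 := R.mul _ _ hg (norm_circ hu t)
  have e2 := R.mul _ _ (norm_circ (pure_conj hg hu) t) hg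
  rw [mul_circ hg hu, e2] at e1
  exact (congrArg (fun T : V →L[ℂ] V => T v) e1).symm

theorem bracket {u w r : ℍ} (hu : Pure u) (hw : Pure w)
    (h : ∀ s, circ u s * w * star (circ u s) = Real.cos (2 * s) • w + Real.sin (2 * s) • r)
    (v : V) : R.D u (R.D w v) - R.D w (R.D u v) = (2 : ℂ) • R.D r v := by
  have h1 := (R.oneParam hu).deriv (R.D w v)
  have h2 := (R.oneParam hu).deriv v
  have e : (fun s => R.ρ (circ u s) (R.D w v)) = fun s =>
      Real.cos (2 * s) • R.D w (R.ρ (circ u s) v) + Real.sin (2 * s) • R.D r (R.ρ (circ u s) v) := by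
    ext s
    rw [R.conj (norm_circ hu s) hw, h s]
    simp only [D_apply, ← Complex.coe_smul]
    simp only [Quaternion.imI_add, Quaternion.imJ_add, Quaternion.imK_add, Quaternion.imI_smul,
      Quaternion.imJ_smul, Quaternion.imK_smul, smul_eq_mul, Complex.ofReal_add, Complex.ofReal_mul]
    module
  have c1 : HasDerivAt (fun s : ℝ => Real.cos (2 * s)) 0 0 := by
    have := ((hasDerivAt_id (0 : ℝ)).const_mul 2).cos
    simpa using this
  have c2 : HasDerivAt (fun s : ℝ => Real.sin (2 * s)) 2 0 := by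
    have := ((hasDerivAt_id (0 : ℝ)).const_mul 2).sin
    simpa using this
  have h3 := (c1.smul (clm_hasDerivAt (R.D w) h2)).add (c2.smul (clm_hasDerivAt (R.D r) h2))
  simp only [e] at h1
  have := h1.unique h3
  rw [this, circ_zero, R.one]
  simp [← Complex.coe_smul]

theorem su2 : Su2 R.X R.Y R.Z where
  skX := R.D_qi ▸ (R.oneParam pure_qi).skew
  skY := R.D_qj ▸ (R.oneParam pure_qj).skew
  skZ := R.D_qk ▸ (R.oneParam pure_qk).skew
  xy v := by
    rw [← R.D_qi, ← R.D_qj, ← R.D_qk]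
    refine R.bracket pure_qi pure_qj (fun s => ?_) v
    ext <;> simp [Real.cos_two_mul', Real.sin_two_mul] <;> ring
  yz v := by
    rw [← R.D_qi, ← R.D_qj, ← R.D_qk]
    refine R.bracket pure_qj pure_qk (fun s => ?_) v
    ext <;> simp [Real.cos_two_mul', Real.sin_two_mul] <;> ring
  zx v := by
    rw [← R.D_qi, ← R.D_qj, ← R.D_qk]
    refine R.bracket pure_qk pure_qi (fun s => ?_) v
    ext <;> simp [Real.cos_two_mul', Real.sin_two_mul] <;> ring

theorem fix_of_ker {v : V} (hX : R.X v = 0) (hY : R.Y v = 0) (hZ : R.Z v = 0) {q : ℍ}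
    (hq : ‖q‖ = 1) : R.ρ q v = v := by
  obtain ⟨u, t, hu, rfl, -⟩ := exists_circ hq
  exact (R.oneParam hu).fix (by simp [D_apply, hX, hY, hZ]) t

theorem ker_of_fix {v : V} (hv : ∀ q, ‖q‖ = 1 → R.ρ q v = v) :
    R.X v = 0 ∧ R.Y v = 0 ∧ R.Z v = 0 :=
  ⟨R.D_qi ▸ (R.oneParam pure_qi).ker_of_fix fun t => hv _ (norm_circ pure_qi t),
   R.D_qj ▸ (R.oneParam pure_qj).ker_of_fix fun t => hv _ (norm_circ pure_qj t),
   R.D_qk ▸ (R.oneParam pure_qk).ker_of_fix fun t => hv _ (norm_circ pure_qk t)⟩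

theorem star_mul {q : ℍ} (hq : ‖q‖ = 1) (v : V) : R.ρ (star q) (R.ρ q v) = v := by
  have h1 : star q * q = 1 := by
    rw [Quaternion.star_mul_self, Quaternion.normSq_eq_norm_mul_self, hq]; simp
  have := R.mul (star q) q (by rwa [norm_star]) hq
  rw [h1, R.one] at this
  exact (congrArg (fun T : V →L[ℂ] V => T v) this).symm

theorem inner_left {q : ℍ} (hq : ‖q‖ = 1) (u v : V) :
    inner ℂ (R.ρ q u) v = inner ℂ u (R.ρ (star q) v) := by
  rw [← inner_map_of_norm (R.norm (star q) (by rwa [norm_star])), R.star_mul hq]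

variable [FiniteDimensional ℂ V]

theorem norm_D_le {u : ℍ} (hu : Pure u) (v : V) :
    ‖R.D u v‖ ≤ 6 * Module.finrank ℂ V * ‖v‖ := by
  have h1 := R.su2.norm_Z_le v
  have h2 := R.su2.rot.norm_Z_le v
  have h3 := R.su2.rot.rot.norm_Z_le v
  have a1 : |u.imI| ≤ 1 := by
    rw [← sq_le_one_iff_abs_le_one]; nlinarith [hu.2, sq_nonneg u.imJ, sq_nonneg u.imK]
  have a2 : |u.imJ| ≤ 1 := by
    rw [← sq_le_one_iff_abs_le_one]; nlinarith [hu.2, sq_nonneg u.imI, sq_nonneg u.imK]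
  have a3 : |u.imK| ≤ 1 := by
    rw [← sq_le_one_iff_abs_le_one]; nlinarith [hu.2, sq_nonneg u.imJ, sq_nonneg u.imI]
  have b : ∀ (a : ℝ) (x : V), |a| ≤ 1 → ‖(a : ℂ) • x‖ ≤ ‖x‖ := by
    intro a x ha
    rw [norm_smul, Complex.norm_real, Real.norm_eq_abs]
    exact mul_le_of_le_one_left (norm_nonneg _) ha
  rw [D_apply]
  have := norm_add₃_le (a := (u.imI : ℂ) • R.X v) (b := (u.imJ : ℂ) • R.Y v)
    (c := (u.imK : ℂ) • R.Z v)
  linarith [b _ (R.X v) a1, b _ (R.Y v) a2, b _ (R.Z v) a3]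

theorem lip {q : ℍ} (hq : ‖q‖ = 1) (v : V) :
    ‖R.ρ q v - v‖ ≤ 12 * Module.finrank ℂ V * ‖q - 1‖ * ‖v‖ := by
  obtain ⟨u, t, hu, hqt, ht⟩ := exists_circ hq
  have h1 := (R.oneParam hu).lip v t
  rw [← hqt] at h1
  calc _ ≤ |t| * ‖R.D u v‖ := h1
    _ ≤ (2 * ‖q - 1‖) * (6 * Module.finrank ℂ V * ‖v‖) := by
      gcongr; exact R.norm_D_le hu v
    _ = _ := by ring

theorem lip2 {p q : ℍ} (hp : ‖p‖ = 1) (hq : ‖q‖ = 1) (v : V) :
    ‖R.ρ p v - R.ρ q v‖ ≤ 12 * Module.finrank ℂ V * ‖p - q‖ * ‖v‖ := by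
  have hq' : ‖star q‖ = 1 := by rwa [norm_star]
  have h1 : star q * q = 1 := by
    rw [Quaternion.star_mul_self, Quaternion.normSq_eq_norm_mul_self, hq]; simp
  have h2 := R.lip (q := star q * p) (by rw [norm_mul, hq', hp, one_mul]) v
  rw [← R.norm _ hq', map_sub, R.star_mul hq]
  rw [R.mul _ _ hq' hp, ← h1, ← mul_sub, norm_mul, hq', one_mul] at h2
  exact h2

/-- restriction to an invariant subspace -/
noncomputable def restrict (W : Submodule ℂ V) (hW : ∀ q, ‖q‖ = 1 → ∀ w ∈ W, R.ρ q w ∈ W) :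
    QRep W where
  ρ q := W.orthogonalProjectionOnto ∘L R.ρ q ∘L W.subtypeL
  one := by ext w; simp [R.one]
  mul p q hp hq := by
    ext w
    simp [R.mul p q hp hq, Submodule.starProjection_eq_self_iff.mpr (hW q hq w w.2)]
  norm q hq w := by
    have := Submodule.norm_orthogonalProjectionOnto_apply W (hW q hq w w.2)
    simpa [R.norm q hq] using this
  X := W.orthogonalProjectionOnto ∘L R.X ∘L W.subtypeL
  Y := W.orthogonalProjectionOnto ∘L R.Y ∘L W.subtypeL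
  Z := W.orthogonalProjectionOnto ∘L R.Z ∘L W.subtypeL
  deriv u hu w := by
    have := (W.orthogonalProjectionOnto.restrictScalars ℝ).hasFDerivAt.comp_hasDerivAt 0
      (R.deriv u hu w)
    simpa [Function.comp_def] using this

theorem restrict_coe (W : Submodule ℂ V) (hW : ∀ q, ‖q‖ = 1 → ∀ w ∈ W, R.ρ q w ∈ W) {q : ℍ}
    (hq : ‖q‖ = 1) (w : W) : ((R.restrict W hW).ρ q w : V) = R.ρ q w := by
  simp [restrict, Submodule.starProjection_eq_self_iff.mpr (hW q hq w w.2)]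

end QRep

end Pool.Agent.P.MP_839d28_al
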