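import Mathlib

/-! Lie algebra level facts on `su(2)` triples of skew operators. -/

open Complex

namespace Pool.Agent.P.MP_839d28_al

variable {V : Type} [NormedAddCommGroup V] [InnerProductSpace ℂ V]

/-- skew-adjointness -/
def Skew (X : V →L[ℂ] V) : Prop := ∀ u v, inner ℂ (X u) v = -inner ℂ u (X v)

theorem Skew.neg {X : V →L[ℂ] V} (h : Skew X) : Skew (-X) := by
  intro u v
  simp [h u v]

structure Su2 (X Y Z : V →L[ℂ] V) : Prop where
  skX : Skew X
  skY : Skew Y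
  skZ : Skew Z
  xy : ∀ v, X (Y v) - Y (X v) = (2 : ℂ) • Z v
  yz : ∀ v, Y (Z v) - Z (Y v) = (2 : ℂ) • X v
  zx : ∀ v, Z (X v) - X (Z v) = (2 : ℂ) • Y v

/-- raising operator -/
noncomputable def up (X Y : V →L[ℂ] V) : V →L[ℂ] V := X + I • Y

/-- Casimir operator -/
noncomputable def cas (X Y Z : V →L[ℂ] V) : V →L[ℂ] V := -(X * X + Y * Y + Z * Z)

theorem up_apply (X Y : V →L[ℂ] V) (v : V) : up X Y v = X v + I • Y v := rfl

theorem cas_apply (X Y Z : V →L[ℂ] V) (v : V) :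
    cas X Y Z v = -(X (X v) + Y (Y v) + Z (Z v)) := rfl

theorem cas_rot (X Y Z : V →L[ℂ] V) : cas Y Z X = cas X Y Z := by
  ext v; simp only [cas_apply]; abel

theorem cas_flip (X Y Z : V →L[ℂ] V) : cas X (-Y) (-Z) = cas X Y Z := by
  ext v; simp [cas_apply]

namespace Su2

variable {X Y Z : V →L[ℂ] V}

theorem rot (h : Su2 X Y Z) : Su2 Y Z X := ⟨h.skY, h.skZ, h.skX, h.yz, h.zx, h.xy⟩

theorem flip (h : Su2 X Y Z) : Su2 X (-Y) (-Z) where
  skX := h.skX
  skY := h.skY.neg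
  skZ := h.skZ.neg
  xy v := by
    simp only [neg_apply, map_neg]
    linear_combination (norm := module) -h.xy v
  yz v := by
    simp only [neg_apply, map_neg]
    linear_combination (norm := module) h.yz v
  zx v := by
    simp only [neg_apply, map_neg]
    linear_combination (norm := module) -h.zx v

theorem cas_X (h : Su2 X Y Z) (v : V) : cas X Y Z (X v) = X (cas X Y Z v) := by
  have h1 := congrArg Y (h.xy v)
  have h2 := h.xy (Y v)
  have h3 := congrArg Z (h.zx v)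
  have h4 := h.zx (Z v)
  simp only [map_sub, map_smul] at h1 h3
  simp only [cas_apply, map_neg, map_add]
  linear_combination (norm := module) h1 + h2 - h3 - h4

theorem cas_Y (h : Su2 X Y Z) (v : V) : cas X Y Z (Y v) = Y (cas X Y Z v) := by
  rw [← cas_rot]; exact h.rot.cas_X v

theorem cas_Z (h : Su2 X Y Z) (v : V) : cas X Y Z (Z v) = Z (cas X Y Z v) := by
  rw [← cas_rot, ← cas_rot]; exact h.rot.rot.cas_X v

theorem cas_up (h : Su2 X Y Z) (v : V) : cas X Y Z (up X Y v) = up X Y (cas X Y Z v) := by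
  simp only [up_apply, map_add, map_smul, h.cas_X, h.cas_Y]

theorem cas_symm (h : Su2 X Y Z) (u v : V) :
    inner ℂ (cas X Y Z u) v = inner ℂ u (cas X Y Z v) := by
  simp only [cas_apply, inner_neg_left, inner_neg_right, inner_add_left, inner_add_right,
    h.skX _ _, h.skY _ _, h.skZ _ _, neg_neg]

theorem cas_inner (h : Su2 X Y Z) (u : V) :
    (inner ℂ u (cas X Y Z u)).re = ‖X u‖ ^ 2 + ‖Y u‖ ^ 2 + ‖Z u‖ ^ 2 := by
  have e : ∀ T : V →L[ℂ] V, Skew T → -(inner ℂ u (T (T u))).re = ‖T u‖ ^ 2 := by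
    intro T hT
    have := hT u (T u)
    rw [← Complex.neg_re, ← this]
    exact inner_self_eq_norm_sq (𝕜 := ℂ) (T u)
  rw [← e X h.skX, ← e Y h.skY, ← e Z h.skZ]
  simp only [cas_apply, inner_neg_right, inner_add_right, Complex.neg_re, Complex.add_re]
  ring

theorem up_adj (h : Su2 X Y Z) (u v : V) :
    inner ℂ (up X Y u) v = -inner ℂ u (up X (-Y) v) := by
  simp only [up_apply, inner_add_left, inner_add_right, inner_smul_left, inner_smul_right,
    h.skX _ _, h.skY _ _, neg_apply, inner_neg_right, conj_I]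
  ring

theorem H_up (h : Su2 X Y Z) (v : V) :
    I • Z (up X Y v) = up X Y (I • Z v) + (2 : ℂ) • up X Y v := by
  simp only [up_apply, map_add, map_smul]
  linear_combination (norm := module) I • h.zx v - (I * I) • h.yz v
    - (2 : ℂ) • (I_mul_I • X v)

theorem down_up (h : Su2 X Y Z) (v : V) :
    up X (-Y) (up X Y v) = -cas X Y Z v + I • Z (I • Z v) + (2 : ℂ) • I • Z v := by
  simp only [up_apply, cas_apply, map_add, map_smul, neg_apply]
  linear_combination (norm := module) I • h.xy v - (I_mul_I • Y (Y v)) - (I_mul_I • Z (Z v))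

theorem H_symm (h : Su2 X Y Z) (u v : V) : inner ℂ (I • Z u) v = inner ℂ u (I • Z v) := by
  simp only [inner_smul_left, inner_smul_right, h.skZ _ _, conj_I]
  ring

/-- vectors of different weights are orthogonal -/
theorem wt_orth (h : Su2 X Y Z) {u v : V} {a b : ℝ} (hu : I • Z u = (a : ℂ) • u)
    (hv : I • Z v = (b : ℂ) • v) (hab : a ≠ b) : inner ℂ u v = 0 := by
  have := h.H_symm u v
  rw [hu, hv, inner_smul_left, inner_smul_right, conj_ofReal] at this
  have h2 : ((a : ℂ) - b) * inner ℂ u v = 0 := by linear_combination this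
  refine (mul_eq_zero.mp h2).resolve_left ?_
  rw [sub_eq_zero]
  exact_mod_cast hab

theorem wt_up (h : Su2 X Y Z) {u : V} {w : ℝ} (hu : I • Z u = (w : ℂ) • u) :
    I • Z (up X Y u) = ((w + 2 : ℝ) : ℂ) • up X Y u := by
  rw [h.H_up, hu, map_smul]
  push_cast
  module

theorem norm_down (h : Su2 X Y Z) {u : V} {w : ℝ} (hu : I • Z u = (w : ℂ) • u) :
    ‖up X (-Y) u‖ ^ 2 = ‖up X Y u‖ ^ 2 + 4 * w * ‖u‖ ^ 2 := by
  have h1 := h.up_adj u (up X Y u)
  have h2 := h.flip.up_adj u (up X (-Y) u)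
  rw [h.down_up, hu] at h1
  have hu' : I • (-Z) u = ((-w : ℝ) : ℂ) • u := by
    simp only [neg_apply, smul_neg, hu]; push_cast; module
  rw [h.flip.down_up, hu', cas_flip] at h2
  simp only [map_smul, neg_apply, smul_neg] at h1 h2
  rw [smul_comm I (w : ℂ), hu] at h1
  rw [smul_comm I ((-w : ℝ) : ℂ), hu] at h2
  simp only [inner_add_right, inner_neg_right, inner_smul_right, inner_self_eq_norm_sq_to_K]
    at h1 h2
  have : ((‖up X (-Y) u‖ ^ 2 : ℝ) : ℂ) = ((‖up X Y u‖ ^ 2 + 4 * w * ‖u‖ ^ 2 : ℝ) : ℂ) := by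
    push_cast at h1 h2 ⊢
    simp only [coe_algebraMap] at h1 h2
    linear_combination h2 - h1
  exact_mod_cast this

/-- weight vector with a Casimir eigenvalue -/
structure Wt (X Y Z : V →L[ℂ] V) (lam w : ℝ) (u : V) : Prop where
  wt : I • Z u = (w : ℂ) • u
  cs : cas X Y Z u = (lam : ℂ) • u

theorem Wt.flip {lam w : ℝ} {u : V} (hu : Wt X Y Z lam w u) : Wt X (-Y) (-Z) lam (-w) u where
  wt := by
    simp only [neg_apply, smul_neg, hu.wt]; push_cast; module
  cs := by rw [cas_flip]; exact hu.cs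

theorem Wt.unflip {lam w : ℝ} {u : V} (hu : Wt X (-Y) (-Z) lam w u) : Wt X Y Z lam (-w) u := by
  simpa using hu.flip

theorem wt_up' (h : Su2 X Y Z) {lam w : ℝ} {u : V} (hu : Wt X Y Z lam w u) :
    Wt X Y Z lam (w + 2) (up X Y u) where
  wt := h.wt_up hu.wt
  cs := by rw [h.cas_up, hu.cs, map_smul]

theorem down_up' (h : Su2 X Y Z) {lam w : ℝ} {u : V} (hu : Wt X Y Z lam w u) :
    up X (-Y) (up X Y u) = -((lam - w ^ 2 - 2 * w : ℝ) : ℂ) • u := by
  rw [h.down_up, hu.wt, hu.cs, map_smul, smul_comm I (w : ℂ), hu.wt]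
  push_cast
  module

theorem norm_up (h : Su2 X Y Z) {lam w : ℝ} {u : V} (hu : Wt X Y Z lam w u) :
    ‖up X Y u‖ ^ 2 = (lam - w ^ 2 - 2 * w) * ‖u‖ ^ 2 := by
  have h1 := h.up_adj u (up X Y u)
  rw [h.down_up' hu] at h1
  simp only [inner_smul_right, inner_self_eq_norm_sq_to_K] at h1
  have : ((‖up X Y u‖ ^ 2 : ℝ) : ℂ) = (((lam - w ^ 2 - 2 * w) * ‖u‖ ^ 2 : ℝ) : ℂ) := by
    push_cast at h1 ⊢
    simp only [coe_algebraMap] at h1
    linear_combination h1
  exact_mod_cast this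

theorem inner_up_down (h : Su2 X Y Z) {a : V} (ha : X a = 0) (v : V) :
    inner ℂ a (up X Y v) = -inner ℂ a (up X (-Y) v) := by
  have h1 := h.skX a v
  rw [ha, inner_zero_left] at h1
  simp only [up_apply, neg_apply, inner_add_right, inner_smul_right,
    inner_neg_right]
  linear_combination (2 : ℂ) * h1

/-- the two raising steps from a weight `w` vector, paired with a vector of `ker X` -/
theorem inner_up2 (h : Su2 X Y Z) {a : V} (ha : X a = 0) {lam w : ℝ} {u : V}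
    (hu : Wt X Y Z lam w u) :
    inner ℂ a (up X Y (up X Y u)) = ((lam - w ^ 2 - 2 * w : ℝ) : ℂ) * inner ℂ a u := by
  rw [h.inner_up_down ha, h.down_up' hu, inner_smul_right]
  ring

/-- normalised double and quadruple raisings of a weight zero vector -/
theorem exists_raised (h : Su2 X Y Z) {lam : ℝ} (hl : 24 < lam) {e : V}
    (he : Wt X Y Z lam 0 e) :
    ∃ p q : V, Wt X Y Z lam 4 p ∧ Wt X Y Z lam 8 q ∧ ‖p‖ ^ 2 ≤ ‖e‖ ^ 2 ∧ ‖q‖ ^ 2 ≤ ‖e‖ ^ 2 ∧
      ∀ a, X a = 0 → inner ℂ a p = inner ℂ a e ∧ inner ℂ a q = inner ℂ a e := by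
  have w1 := h.wt_up' he
  have w2 := h.wt_up' w1
  have w3 := h.wt_up' w2
  have w4 := h.wt_up' w3
  have n1 := h.norm_up he
  have n2 := h.norm_up w1
  have n3 := h.norm_up w2
  have n4 := h.norm_up w3
  have sm : ∀ (c : ℝ) {w : ℝ} {u : V}, Wt X Y Z lam w u → Wt X Y Z lam w ((c : ℂ) • u) := by
    intro c w u hu
    constructor
    · rw [map_smul, smul_comm, hu.wt, smul_comm]
    · rw [map_smul, hu.cs, smul_comm]
  have hl0 : 0 < lam := by linarith
  have hl1 : 0 < lam - 24 := by linarith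
  refine ⟨((1 / lam : ℝ) : ℂ) • up X Y (up X Y e),
    ((1 / (lam * (lam - 24)) : ℝ) : ℂ) • up X Y (up X Y (up X Y (up X Y e))), ?_, ?_, ?_, ?_, ?_⟩
  · have := sm (1 / lam) w2
    norm_num at this ⊢
    exact this
  · have := sm (1 / (lam * (lam - 24))) w4
    norm_num at this ⊢
    exact this
  · rw [norm_smul, mul_pow, n2, n1, Complex.norm_real, Real.norm_eq_abs, sq_abs]
    have : (1 / lam) ^ 2 * ((lam - (0 + 2) ^ 2 - 2 * (0 + 2)) * (lam - 0 ^ 2 - 2 * 0)) ≤ 1 := by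
      rw [div_pow, div_mul_eq_mul_div, div_le_one (by positivity)]
      nlinarith
    nlinarith [sq_nonneg ‖e‖]
  · rw [norm_smul, mul_pow, n4, n3, n2, n1, Complex.norm_real, Real.norm_eq_abs, sq_abs]
    have : (1 / (lam * (lam - 24))) ^ 2 * ((lam - (0 + 2 + 2 + 2) ^ 2 - 2 * (0 + 2 + 2 + 2)) *
        ((lam - (0 + 2 + 2) ^ 2 - 2 * (0 + 2 + 2)) *
        ((lam - (0 + 2) ^ 2 - 2 * (0 + 2)) * (lam - 0 ^ 2 - 2 * 0)))) ≤ 1 := by
      rw [div_pow, div_mul_eq_mul_div, div_le_one (by positivity)]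
      have : (lam - 48) * (lam - 8) ≤ lam * (lam - 24) := by nlinarith
      have h3 := mul_le_mul_of_nonneg_right this (mul_pos hl0 hl1).le
      nlinarith
    nlinarith [sq_nonneg ‖e‖]
  · intro a ha
    have i2 := h.inner_up2 ha he
    have i4 := h.inner_up2 ha w2
    have c0 : (lam : ℂ) ≠ 0 := by exact_mod_cast hl0.ne'
    have c1 : (lam : ℂ) - 24 ≠ 0 := by exact_mod_cast hl1.ne'
    constructor
    · rw [inner_smul_right, i2]
      push_cast
      field_simp
      ring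
    · rw [inner_smul_right, i4, i2]
      push_cast
      field_simp
      ring

theorem norm_add_sq_orth {u v : V} (h : inner ℂ u v = 0) : ‖u + v‖ ^ 2 = ‖u‖ ^ 2 + ‖v‖ ^ 2 := by
  rw [@norm_add_sq ℂ, h]
  simp

/-- generic angle bound between `ker X` and `ker Z` on a Casimir eigenspace -/
theorem angle (h : Su2 X Y Z) {lam : ℝ} (hl0 : 0 < lam) (hl : lam ≠ 24) {a e : V} (ha : X a = 0)
    (he : Z e = 0) (hc : cas X Y Z e = (lam : ℂ) • e) :
    5 * ‖inner ℂ a e‖ ^ 2 ≤ ‖a‖ ^ 2 * ‖e‖ ^ 2 := by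
  have he' : Wt X Y Z lam 0 e := ⟨by simp [he], hc⟩
  rcases lt_or_gt_of_ne hl with hl | hl
  · have w1 := h.wt_up' he'
    have w2 := h.wt_up' w1
    have n3 := h.norm_up w2
    have h0 : ‖up X Y (up X Y e)‖ ^ 2 = 0 := by
      have h1 : 0 ≤ ‖up X Y (up X Y e)‖ ^ 2 := sq_nonneg _
      have h2 : 0 ≤ ‖up X Y (up X Y (up X Y e))‖ ^ 2 := sq_nonneg _
      nlinarith
    have h0' : up X Y (up X Y e) = 0 := by simpa using h0
    have i2 := h.inner_up2 ha he'
    rw [h0', inner_zero_right] at i2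
    have c0 : ((lam - 0 ^ 2 - 2 * 0 : ℝ) : ℂ) ≠ 0 := by
      rw [Complex.ofReal_ne_zero]; linarith
    have : inner ℂ a e = 0 := (mul_eq_zero.mp i2.symm).resolve_left c0
    rw [this]
    simp only [norm_zero]
    nlinarith [mul_nonneg (sq_nonneg ‖a‖) (sq_nonneg ‖e‖)]
  · obtain ⟨p, q, wp, wq, np, nq, hi⟩ := h.exists_raised hl he'
    have he'' := he'.flip
    rw [neg_zero] at he''
    obtain ⟨p', q', wp', wq', np', nq', hi'⟩ := h.flip.exists_raised hl he''
    replace wp' := wp'.unflip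
    replace wq' := wq'.unflip
    have o := fun {u v : V} {a b : ℝ} (hu : Wt X Y Z lam a u) (hv : Wt X Y Z lam b v)
      (hab : a ≠ b) => h.wt_orth hu.wt hv.wt hab
    have n : ‖e + p + q + p' + q'‖ ^ 2 ≤ 5 * ‖e‖ ^ 2 := by
      rw [norm_add_sq_orth, norm_add_sq_orth, norm_add_sq_orth, norm_add_sq_orth]
      · linarith
      · exact o he' wp (by norm_num)
      · rw [inner_add_left, o he' wq (by norm_num), o wp wq (by norm_num)]; simp
      · rw [inner_add_left, inner_add_left, o he' wp' (by norm_num), o wp wp' (by norm_num),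
          o wq wp' (by norm_num)]; simp
      · rw [inner_add_left, inner_add_left, inner_add_left, o he' wq' (by norm_num),
          o wp wq' (by norm_num), o wq wq' (by norm_num), o wp' wq' (by norm_num)]; simp
    have i : inner ℂ a (e + p + q + p' + q') = 5 * inner ℂ a e := by
      simp only [inner_add_right, (hi a ha).1, (hi a ha).2, (hi' a ha).1, (hi' a ha).2]
      ring
    have cs := norm_inner_le_norm (𝕜 := ℂ) a (e + p + q + p' + q')
    rw [i, norm_mul] at cs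
    have h5 : ‖(5 : ℂ)‖ = 5 := by simp
    rw [h5] at cs
    have cs2 := pow_le_pow_left₀ (by positivity) cs 2
    rw [mul_pow, mul_pow] at cs2
    nlinarith [mul_le_mul_of_nonneg_left n (sq_nonneg ‖a‖)]

/-- the spin two relation -/
theorem t24 (h : Su2 X Y Z) {e : V} (he : Z e = 0) (hc : cas X Y Z e = ((24 : ℝ) : ℂ) • e) :
    ∃ a' b' : V, X a' = 0 ∧ Y b' = 0 ∧ ‖a'‖ = ‖e‖ ∧ ‖b'‖ = ‖e‖ ∧ a' + b' + e = 0 ∧
      (∀ a, X a = 0 → inner ℂ a a' = -2 * inner ℂ a e) ∧
      (∀ b, Y b = 0 → inner ℂ b b' = -2 * inner ℂ b e) := by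
  have w0 : Wt X Y Z 24 0 e := ⟨by simp [he], hc⟩
  have w1 := h.wt_up' w0
  have w2 := h.wt_up' w1
  have n1 := h.norm_up w0
  have n2 := h.norm_up w1
  have n3 := h.norm_up w2
  have d1 := h.down_up' w0
  have d2 := h.down_up' w1
  have v0 := w0.flip
  rw [neg_zero] at v0
  have v1 := h.flip.wt_up' v0
  have v2 := h.flip.wt_up' v1
  have m1 := h.flip.norm_up v0
  have m2 := h.flip.norm_up v1
  have m3 := h.flip.norm_up v2
  have f1 := h.flip.down_up' v0
  have f2 := h.flip.down_up' v1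
  rw [neg_neg] at f1 f2
  have z3 : up X Y (up X Y (up X Y e)) = 0 := by
    have : ‖up X Y (up X Y (up X Y e))‖ ^ 2 = 0 := by rw [n3]; norm_num
    simpa using this
  have y3 : up X (-Y) (up X (-Y) (up X (-Y) e)) = 0 := by
    have : ‖up X (-Y) (up X (-Y) (up X (-Y) e))‖ ^ 2 = 0 := by rw [m3]; norm_num
    simpa using this
  have hX : ∀ v, X v = (1 / 2 : ℂ) • (up X Y v + up X (-Y) v) := by
    intro v; simp only [up_apply, neg_apply]; module
  have hY : ∀ v, Y v = (-I / 2 : ℂ) • (up X Y v - up X (-Y) v) := by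
    intro v; simp only [up_apply, neg_apply]
    linear_combination (norm := module) I_mul_I • Y v
  set p := up X Y (up X Y e) with hp
  set q := up X (-Y) (up X (-Y) e) with hq
  have c16 : (((24 : ℝ) - (0 + 2) ^ 2 - 2 * (0 + 2) : ℝ) : ℂ) = 16 := by norm_num
  have c24 : (((24 : ℝ) - 0 ^ 2 - 2 * 0 : ℝ) : ℂ) = 24 := by norm_num
  rw [c16] at d2 f2
  rw [c24] at d1 f1
  have v2' := v2.unflip
  have ope : inner ℂ p e = 0 := h.wt_orth w2.wt w0.wt (by norm_num)
  have oqe : inner ℂ q e = 0 := h.wt_orth v2'.wt w0.wt (by norm_num)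
  have opq : inner ℂ p q = 0 := h.wt_orth w2.wt v2'.wt (by norm_num)
  have nn : ∀ c : ℂ, ‖c‖ = 16 → ‖p + q + c • e‖ = 32 * ‖e‖ := by
    intro c hc
    have : ‖p + q + c • e‖ ^ 2 = (32 * ‖e‖) ^ 2 := by
      rw [norm_add_sq_orth, norm_add_sq_orth opq, n2, n1, m2, m1, norm_smul, hc]
      · ring
      · rw [inner_smul_right, inner_add_left, ope, oqe]; simp
    exact (pow_left_inj₀ (by positivity) (by positivity) two_ne_zero).mp this
  refine ⟨(-1 / 32 : ℂ) • (p + q + (16 : ℂ) • e), (1 / 32 : ℂ) • (p + q + (-16 : ℂ) • e),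
    ?_, ?_, ?_, ?_, ?_, ?_, ?_⟩
  · rw [hX]
    simp only [map_smul, map_add, z3, y3, d2, f2]
    module
  · rw [hY]
    simp only [map_smul, map_add, z3, y3, d2, f2]
    module
  · rw [norm_smul, nn 16 (by simp)]
    simp
  · rw [norm_smul, nn (-16) (by simp)]
    simp
  · module
  · intro a ha
    have i1 := h.inner_up2 ha w0
    have i2 := h.flip.inner_up2 ha v0
    rw [c24] at i1 i2
    simp only [inner_smul_right, inner_add_right]
    rw [i1, i2]
    ring
  · intro b hb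
    have k : ∀ v, inner ℂ b (up X Y v) = inner ℂ b (up X (-Y) v) := by
      intro v
      have h1 := h.skY b v
      rw [hb, inner_zero_left] at h1
      simp only [up_apply, neg_apply, inner_add_right, inner_smul_right, inner_neg_right]
      linear_combination (2 * I) * h1
    have i1 : inner ℂ b p = -24 * inner ℂ b e := by
      rw [hp, k, d1, inner_smul_right]
    have i2 : inner ℂ b q = -24 * inner ℂ b e := by
      rw [hq, ← k, f1, inner_smul_right]
    simp only [inner_smul_right, inner_add_right]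
    rw [i1, i2]
    ring

theorem norm_add3 (a b e : V) : ‖a + b + e‖ ^ 2 = ‖a‖ ^ 2 + ‖b‖ ^ 2 + ‖e‖ ^ 2 +
    2 * ((inner ℂ a b).re + (inner ℂ a e).re + (inner ℂ b e).re) := by
  rw [@norm_add_sq ℂ, @norm_add_sq ℂ, inner_add_left]
  simp only [RCLike.re_to_complex, Complex.add_re]
  ring

theorem re_inner_comm (a b : V) : (inner ℂ a b).re = (inner ℂ b a).re := by
  rw [← inner_conj_symm a b, Complex.conj_re]

theorem local24 (h : Su2 X Y Z) {a b e : V} (ha : X a = 0) (hb : Y b = 0) (he : Z e = 0)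
    (hca : cas X Y Z a = ((24 : ℝ) : ℂ) • a) (hce : cas X Y Z e = ((24 : ℝ) : ℂ) • e) :
    ‖a + b + e‖ ^ 2 ≤ 3 / 2 * (‖a‖ ^ 2 + ‖b‖ ^ 2 + ‖e‖ ^ 2) := by
  obtain ⟨a1, b1, -, hb1, -, nb1, -, -, ib1⟩ := h.t24 he hce
  obtain ⟨b2, e2, hb2, -, nb2, -, s2, ib2, ie2⟩ := h.rot.t24 ha (by rw [cas_rot]; exact hca)
  have e1 := congrArg Complex.re (ib1 b hb)
  have e2' := congrArg Complex.re (ib2 b hb)
  have e3 := congrArg Complex.re (ib1 b2 hb2)
  have e4 := congrArg Complex.re (ie2 e he)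
  have e5 := congrArg (fun x => (inner ℂ e x).re) s2
  simp only [inner_add_right, inner_zero_right, Complex.add_re, Complex.zero_re] at e5
  simp only [neg_mul, Complex.neg_re, Complex.mul_re, Complex.re_ofNat, Complex.im_ofNat,
    zero_mul, sub_zero] at e1 e2' e3 e4
  have n := norm_add3 b b1 b2
  have n0 := sq_nonneg ‖b + b1 + b2‖
  rw [nb1, nb2] at n
  rw [norm_add3]
  have r1 := re_inner_comm a b
  have r2 := re_inner_comm a e
  have r3 := re_inner_comm b1 b2
  have r4 := re_inner_comm e b2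
  linarith

theorem re_le_of_angle {a e : V} (h : 5 * ‖inner ℂ a e‖ ^ 2 ≤ ‖a‖ ^ 2 * ‖e‖ ^ 2) :
    2 * (inner ℂ a e).re ≤ 9 / 20 * (‖a‖ ^ 2 + ‖e‖ ^ 2) := by
  have h1 : (inner ℂ a e).re ≤ ‖inner ℂ a e‖ := Complex.re_le_norm _
  have h2 : ‖inner ℂ a e‖ ≤ 9 / 20 * (‖a‖ * ‖e‖) := by
    refine (pow_le_pow_iff_left₀ (by positivity) (by positivity) two_ne_zero).mp ?_
    nlinarith [mul_nonneg (sq_nonneg ‖a‖) (sq_nonneg ‖e‖)]
  nlinarith [sq_nonneg (‖a‖ - ‖e‖)]

theorem local_eig (h : Su2 X Y Z) {lam : ℝ} (hl0 : 0 < lam) {a b e : V} (ha : X a = 0)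
    (hb : Y b = 0) (he : Z e = 0) (hca : cas X Y Z a = (lam : ℂ) • a)
    (hcb : cas X Y Z b = (lam : ℂ) • b) (hce : cas X Y Z e = (lam : ℂ) • e) :
    ‖a + b + e‖ ^ 2 ≤ 19 / 10 * (‖a‖ ^ 2 + ‖b‖ ^ 2 + ‖e‖ ^ 2) := by
  by_cases hl : lam = 24
  · subst hl
    have := h.local24 ha hb he hca hce
    nlinarith [sq_nonneg ‖a‖, sq_nonneg ‖b‖, sq_nonneg ‖e‖]
  · have h1 := re_le_of_angle (h.angle hl0 hl ha he hce)
    have h2 := re_le_of_angle (h.rot.angle hl0 hl hb ha (by rw [cas_rot]; exact hca))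
    have h3 := re_le_of_angle
      (h.rot.rot.angle hl0 hl he hb (by rw [cas_rot, cas_rot]; exact hcb))
    rw [norm_add3, re_inner_comm a b, re_inner_comm b e]
    linarith

variable [FiniteDimensional ℂ V]

theorem local_bound (h : Su2 X Y Z) {a b e : V} (ha : X a = 0) (hb : Y b = 0) (he : Z e = 0)
    (oa : ∀ w, X w = 0 → Y w = 0 → Z w = 0 → inner ℂ w a = 0)
    (ob : ∀ w, X w = 0 → Y w = 0 → Z w = 0 → inner ℂ w b = 0)
    (oe : ∀ w, X w = 0 → Y w = 0 → Z w = 0 → inner ℂ w e = 0) :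
    ‖a + b + e‖ ^ 2 ≤ 19 / 10 * (‖a‖ ^ 2 + ‖b‖ ^ 2 + ‖e‖ ^ 2) := by
  set C : V →ₗ[ℂ] V := (cas X Y Z : V →ₗ[ℂ] V) with hC
  have hs : C.IsSymmetric := fun u v => h.cas_symm u v
  set d := hs.diagonalization with hd
  have hsum : ∀ v : V, v = ∑ μ, (d v μ : V) := by
    intro v
    rw [← hs.diagonalization_symm_apply, ← hd, LinearIsometryEquiv.symm_apply_apply]
  have hnorm : ∀ v : V, ‖v‖ ^ 2 = ∑ μ, ‖(d v μ : V)‖ ^ 2 := by
    intro v
    rw [← d.norm_map v, PiLp.norm_sq_eq_of_L2]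
    rfl
  have hmem : ∀ (v : V) (μ : Module.End.Eigenvalues C),
      cas X Y Z (d v μ : V) = (μ : ℂ) • (d v μ : V) := fun v μ =>
    Module.End.mem_eigenspace_iff.mp (d v μ).2
  have hker : ∀ (T : V →L[ℂ] V), (∀ v, cas X Y Z (T v) = T (cas X Y Z v)) → ∀ v, T v = 0 →
      ∀ μ, T (d v μ : V) = 0 := by
    intro T hT v hv μ
    let w : PiLp 2 fun μ : Module.End.Eigenvalues C => Module.End.eigenspace C μ :=
      WithLp.toLp 2 fun μ => ⟨T (d v μ : V), by
        rw [Module.End.mem_eigenspace_iff]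
        change cas X Y Z _ = _
        rw [hT, hmem, map_smul]⟩
    have : d.symm w = 0 := by
      rw [hd, hs.diagonalization_symm_apply, ← hv]
      conv_rhs => rw [hsum v, map_sum]
    have hw : w = 0 := by simpa using this
    exact congrArg Subtype.val (congrArg (fun x => x μ) hw)
  have hin : ∀ (v : V) (μ : Module.End.Eigenvalues C),
      (inner ℂ (d v μ : V) v).re = ‖(d v μ : V)‖ ^ 2 := by
    intro v μ
    conv_lhs => enter [1, 3]; rw [hsum v]
    rw [inner_sum, Finset.sum_eq_single μ]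
    · exact inner_self_eq_norm_sq (𝕜 := ℂ) _
    · intro ν _ hν
      exact hs.orthogonalFamily_eigenspaces' hν.symm (d v μ) (d v ν)
    · simp
  rw [hnorm (a + b + e), hnorm a, hnorm b, hnorm e, ← Finset.sum_add_distrib,
    ← Finset.sum_add_distrib, Finset.mul_sum]
  refine Finset.sum_le_sum fun μ _ => ?_
  have hre : (μ : ℂ) = ((μ : ℂ).re : ℂ) :=
    (Complex.conj_eq_iff_re.mp (hs.conj_eigenvalue_eq_self μ.2)).symm
  simp only [map_add, PiLp.add_apply, Submodule.coe_add]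
  rcases lt_or_ge 0 (μ : ℂ).re with hl | hl
  · exact h.local_eig hl (hker X h.cas_X a ha μ) (hker Y h.cas_Y b hb μ) (hker Z h.cas_Z e he μ)
      (hre ▸ hmem a μ) (hre ▸ hmem b μ) (hre ▸ hmem e μ)
  · have z : ∀ v : V, (∀ w, X w = 0 → Y w = 0 → Z w = 0 → inner ℂ w v = 0) →
        (d v μ : V) = 0 := by
      intro v hv
      have h1 := h.cas_inner (d v μ : V)
      have hm' : cas X Y Z (d v μ : V) = (((μ : ℂ).re : ℝ) : ℂ) • (d v μ : V) := hre ▸ hmem v μ
      rw [hm', inner_smul_right, Complex.re_ofReal_mul] at h1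
      have h2 : (inner ℂ (d v μ : V) (d v μ : V)).re = ‖(d v μ : V)‖ ^ 2 :=
        inner_self_eq_norm_sq (𝕜 := ℂ) _
      rw [h2] at h1
      have h3 : (μ : ℂ).re * ‖(d v μ : V)‖ ^ 2 ≤ 0 :=
        mul_nonpos_of_nonpos_of_nonneg hl (sq_nonneg _)
      have x0 : ‖X (d v μ : V)‖ ^ 2 = 0 := by
        nlinarith [sq_nonneg ‖X (d v μ : V)‖, sq_nonneg ‖Y (d v μ : V)‖, sq_nonneg ‖Z (d v μ : V)‖]
      have y0 : ‖Y (d v μ : V)‖ ^ 2 = 0 := by
        nlinarith [sq_nonneg ‖X (d v μ : V)‖, sq_nonneg ‖Y (d v μ : V)‖, sq_nonneg ‖Z (d v μ : V)‖]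
      have z0 : ‖Z (d v μ : V)‖ ^ 2 = 0 := by
        nlinarith [sq_nonneg ‖X (d v μ : V)‖, sq_nonneg ‖Y (d v μ : V)‖, sq_nonneg ‖Z (d v μ : V)‖]
      have := hin v μ
      rw [hv _ (by simpa using x0) (by simpa using y0) (by simpa using z0)] at this
      simpa using this.symm
    rw [z a oa, z b ob, z e oe]
    simp

theorem wt_le_finrank (h : Su2 X Y Z) {u : V} {w : ℝ} (hu : I • Z u = (w : ℂ) • u)
    (hu0 : u ≠ 0) : w ≤ 2 * Module.finrank ℂ V := by
  by_contra hw
  push Not at hw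
  set m := Module.finrank ℂ V
  have key : ∀ k : ℕ, k ≤ m → I • Z ((up X (-Y))^[k] u) =
      ((w - 2 * k : ℝ) : ℂ) • (up X (-Y))^[k] u ∧ (up X (-Y))^[k] u ≠ 0 := by
    intro k
    induction k with
    | zero => intro _; simpa using ⟨hu, hu0⟩
    | succ k ih =>
      intro hk
      obtain ⟨h1, h2⟩ := ih (by omega)
      rw [Function.iterate_succ_apply']
      constructor
      · have h1' : I • (-Z) ((up X (-Y))^[k] u) =
            ((-(w - 2 * k) : ℝ) : ℂ) • (up X (-Y))^[k] u := by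
          simp only [neg_apply, smul_neg, h1]; push_cast; module
        have := h.flip.wt_up h1'
        simp only [neg_apply, smul_neg] at this
        rw [neg_eq_iff_eq_neg] at this
        rw [this]
        push_cast
        module
      · intro h0
        have := h.norm_down h1
        rw [h0] at this
        have hk' : (k : ℝ) + 1 ≤ m := by exact_mod_cast hk
        have p1 : 0 < w - 2 * k := by linarith
        have p2 : 0 < ‖(up X (-Y))^[k] u‖ := norm_pos_iff.mpr h2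
        have p3 : 0 < 4 * (w - 2 * k) * ‖(up X (-Y))^[k] u‖ ^ 2 := by positivity
        simp only [norm_zero] at this
        nlinarith [sq_nonneg ‖up X Y ((up X (-Y))^[k] u)‖]
  have li := Module.End.eigenvectors_linearIndependent' (I • (Z : V →ₗ[ℂ] V))
    (fun k : Fin (m + 1) => ((w - 2 * (k : ℕ) : ℝ) : ℂ)) (by
      intro k l hkl
      have : (w - 2 * (k : ℕ) : ℝ) = w - 2 * (l : ℕ) := Complex.ofReal_injective hkl
      have : ((k : ℕ) : ℝ) = (l : ℕ) := by linarith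
      exact Fin.ext (by exact_mod_cast this))
    (fun k => (up X (-Y))^[k] u) (fun k => by
      obtain ⟨h1, h2⟩ := key k (by omega)
      exact ⟨Module.End.mem_eigenspace_iff.mpr h1, h2⟩)
  have := li.fintype_card_le_finrank
  rw [Fintype.card_fin] at this
  omega

theorem norm_Z_le (h : Su2 X Y Z) (v : V) : ‖Z v‖ ≤ 2 * Module.finrank ℂ V * ‖v‖ := by
  set H : V →ₗ[ℂ] V := I • (Z : V →ₗ[ℂ] V) with hH
  have hs : H.IsSymmetric := fun u v => h.H_symm u v
  set m := Module.finrank ℂ V with hm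
  set b := hs.eigenvectorBasis hm.symm
  have hb : ∀ i, |hs.eigenvalues hm.symm i| ≤ 2 * m := by
    intro i
    have h1 : I • Z (b i) = ((hs.eigenvalues hm.symm i : ℝ) : ℂ) • b i :=
      hs.apply_eigenvectorBasis hm.symm i
    have h2 : b i ≠ 0 := b.orthonormal.ne_zero i
    have h3 : I • (-Z) (b i) = ((-hs.eigenvalues hm.symm i : ℝ) : ℂ) • b i := by
      simp only [neg_apply, smul_neg, h1]; push_cast; module
    have := h.flip.wt_le_finrank h3 h2
    exact abs_le.mpr ⟨by linarith, h.wt_le_finrank h1 h2⟩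
  have e1 : ‖Z v‖ = ‖b.repr (H v)‖ := by
    rw [b.repr.norm_map]
    simp [hH, norm_smul]
  have e2 : ‖v‖ = ‖b.repr v‖ := (b.repr.norm_map v).symm
  rw [e1, e2]
  refine (pow_le_pow_iff_left₀ (by positivity) (by positivity) two_ne_zero).mp ?_
  rw [mul_pow, EuclideanSpace.norm_sq_eq, EuclideanSpace.norm_sq_eq, Finset.mul_sum]
  refine Finset.sum_le_sum fun i _ => ?_
  rw [hs.eigenvectorBasis_apply_self_apply, norm_mul, mul_pow]
  refine mul_le_mul_of_nonneg_right ?_ (sq_nonneg _)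
  have : ‖((hs.eigenvalues hm.symm i : ℝ) : ℂ)‖ = |hs.eigenvalues hm.symm i| := by simp
  exact pow_le_pow_left₀ (norm_nonneg _) (this ▸ hb i) 2

end Su2

end Pool.Agent.P.MP_839d28_al
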